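import Mathlib

/-!
# The map (x(P), x(Q)) ↦ (x(P+Q), x(P-Q)) for curves `y² = x³ + a x² + b x + c`
-/

namespace Pool.Agent.Hhelper85

open WeierstrassCurve WeierstrassCurve.Affine

/-- The curve `y² = x³ + a x² + b x + c`. -/
def EC (R : Type*) [CommRing R] (a b c : R) : WeierstrassCurve.Affine R := ⟨0, a, 0, b, c⟩

section
variable {R : Type*} [CommRing R]

def A0 (b c b8 s t u : R) : R := s ^ 2 - 2 * b * s * u - 4 * c * t * u - b8 * u ^ 2
def A1 (a b c s t u : R) : R := 2 * t * s + 4 * a * s * u + 2 * b * t * u + 4 * c * u ^ 2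
def A2 (s t u : R) : R := t ^ 2 - 4 * s * u

end

variable {F : Type*} [Field F]

lemma equation_iff' (a b c x y : F) :
    (EC F a b c).Equation x y ↔ y ^ 2 = x ^ 3 + a * x ^ 2 + b * x + c := by
  rw [WeierstrassCurve.Affine.equation_iff]
  simp only [EC]
  constructor <;> intro h <;> linear_combination h

lemma negY' (a b c x y : F) : (EC F a b c).negY x y = -y := by
  simp [WeierstrassCurve.Affine.negY, EC]

variable [DecidableEq F]

/-- Main formula: `sym2x (P+Q) (P-Q)` is proportional to the add-sub map of `sym2x P Q`. -/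
theorem addSub_formula {a b c : F} (P Q : (EC F a b c).Point) :
    ∃ k : F, k ≠ 0 ∧
      A0 b c (4 * a * c - b ^ 2) (P.sym2x Q 0) (P.sym2x Q 1) (P.sym2x Q 2)
        = k * (P + Q).sym2x (P - Q) 0 ∧
      A1 a b c (P.sym2x Q 0) (P.sym2x Q 1) (P.sym2x Q 2)
        = k * (P + Q).sym2x (P - Q) 1 ∧
      A2 (P.sym2x Q 0) (P.sym2x Q 1) (P.sym2x Q 2)
        = k * (P + Q).sym2x (P - Q) 2 := by
  match P, Q with
  | 0, 0 =>
    refine ⟨1, one_ne_zero, ?_, ?_, ?_⟩ <;> simp [A0, A1, A2]
  | 0, .some x y h =>
    refine ⟨1, one_ne_zero, ?_, ?_, ?_⟩ <;> simp [A0, A1, A2] <;> ring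
  | .some x y h, 0 =>
    refine ⟨1, one_ne_zero, ?_, ?_, ?_⟩ <;> simp [A0, A1, A2] <;> ring
  | .some x₁ y₁ h₁, .some x₂ y₂ h₂ =>
    have e₁ := (equation_iff' a b c x₁ y₁).1 h₁.1
    have e₂ := (equation_iff' a b c x₂ y₂).1 h₂.1
    by_cases hx : x₁ = x₂
    · subst hx
      -- `Q = P` or `Q = -P`
      have hns := ((EC F a b c).nonsingular_iff x₁ y₁).1 h₁
      have hyy : y₁ = y₂ ∨ y₁ = -y₂ := by
        have : (y₁ - y₂) * (y₁ + y₂) = 0 := by linear_combination e₁ - e₂
        rcases mul_eq_zero.1 this with h | h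
        · left; linear_combination h
        · right; linear_combination h
      -- the double of `P`
      have key : ∃ k : F, k ≠ 0 ∧
          A0 b c (4 * a * c - b ^ 2) (x₁ * x₁) (x₁ + x₁) 1
            = k * (Point.some x₁ y₁ h₁ + Point.some x₁ y₁ h₁).xRep 0 ∧
          A1 a b c (x₁ * x₁) (x₁ + x₁) 1
            = k * (Point.some x₁ y₁ h₁ + Point.some x₁ y₁ h₁).xRep 1 ∧
          A2 (x₁ * x₁) (x₁ + x₁) 1 = 0 := by
        by_cases hy : y₁ = -y₁
        · rw [Point.add_self_of_Y_eq (by rw [negY']; exact hy)]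
          have hf : x₁ ^ 3 + a * x₁ ^ 2 + b * x₁ + c = 0 ∨ (2 : F) = 0 := by
            have : (2 : F) * y₁ = 0 := by linear_combination hy
            rcases mul_eq_zero.1 this with h | h
            · right; exact h
            · left; rw [← e₁, h]; ring
          have h2f : 4 * (x₁ ^ 3 + a * x₁ ^ 2 + b * x₁ + c) = 0 := by
            rcases hf with h | h
            · rw [h]; ring
            · linear_combination (2 * (x₁ ^ 3 + a * x₁ ^ 2 + b * x₁ + c)) * h
          have hd : 3 * x₁ ^ 2 + 2 * a * x₁ + b ≠ 0 := by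
            rcases hns with ⟨_, hd⟩
            simp only [EC] at hd
            rcases hd with hd | hd
            · intro h; apply hd; linear_combination -h
            · exfalso; apply hd; linear_combination hy
          refine ⟨(3 * x₁ ^ 2 + 2 * a * x₁ + b) ^ 2, pow_ne_zero _ hd, ?_, ?_, ?_⟩
          · simp [A0]
            linear_combination (-(2 * x₁ + a)) * h2f
          · simp [A1]
            linear_combination h2f
          · simp [A2]; ring
        · rw [Point.add_self_of_Y_ne (by rw [negY']; exact hy)]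
          have h2 : y₁ + y₁ ≠ 0 := by
            intro h; apply hy; linear_combination h
          refine ⟨(y₁ + y₁) ^ 2, pow_ne_zero _ h2, ?_, ?_, ?_⟩
          · rw [Point.xRep_some]
            simp only [A0, WeierstrassCurve.Affine.addX,
              WeierstrassCurve.Affine.slope_of_Y_ne rfl
                (show y₁ ≠ (EC F a b c).negY x₁ y₁ by rw [negY']; exact hy), negY']
            simp only [EC, Matrix.cons_val_zero]
            have h2' : y₁ - -y₁ ≠ 0 := by rw [sub_neg_eq_add]; exact h2
            have hs : (3 * x₁ ^ 2 + 2 * a * x₁ + b - 0 * y₁) / (y₁ - -y₁) * (y₁ + y₁)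
                = 3 * x₁ ^ 2 + 2 * a * x₁ + b := by
              rw [sub_neg_eq_add, div_mul_cancel₀ _ h2]; ring
            generalize (3 * x₁ ^ 2 + 2 * a * x₁ + b - 0 * y₁) / (y₁ - -y₁) = s at hs ⊢
            linear_combination (-(s * (y₁ + y₁)) - (3 * x₁ ^ 2 + 2 * a * x₁ + b)) * hs
              + (8 * x₁ + 4 * a) * e₁
          · rw [Point.xRep_some]
            simp [A1]
            linear_combination (-4) * e₁
          · simp [A2]; ring
      rcases hyy with rfl | hy
      · -- Q = P
        have : (Point.some x₁ y₁ h₁ : (EC F a b c).Point) - Point.some x₁ y₁ h₂ = 0 := sub_self _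
        rw [this]
        obtain ⟨k, hk, k0, k1, k2⟩ := key
        refine ⟨k, hk, ?_, ?_, ?_⟩
        · rw [Point.sym2x_some_some]
          simp only [Matrix.cons_val_zero, Matrix.cons_val_one, Matrix.cons_val]
          rw [k0]
          simp [Point.sym2x]
        · rw [Point.sym2x_some_some]
          simp only [Matrix.cons_val_zero, Matrix.cons_val_one, Matrix.cons_val]
          rw [k1]
          simp [Point.sym2x]
        · rw [Point.sym2x_some_some]
          simp only [Matrix.cons_val_zero, Matrix.cons_val_one, Matrix.cons_val]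
          rw [k2]
          simp [Point.sym2x]
      · -- Q = -P
        have hQ : (Point.some x₁ y₂ h₂ : (EC F a b c).Point) = -Point.some x₁ y₁ h₁ := by
          rw [Point.neg_some]
          congr 1
          rw [negY', hy, neg_neg]
        rw [hQ, add_neg_cancel, sub_neg_eq_add]
        obtain ⟨k, hk, k0, k1, k2⟩ := key
        refine ⟨k, hk, ?_, ?_, ?_⟩
        · rw [Point.sym2x_neg_right, Point.sym2x_some_some]
          simp only [Matrix.cons_val_zero, Matrix.cons_val_one, Matrix.cons_val]
          rw [k0]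
          simp [Point.sym2x]
        · rw [Point.sym2x_neg_right, Point.sym2x_some_some]
          simp only [Matrix.cons_val_zero, Matrix.cons_val_one, Matrix.cons_val]
          rw [k1]
          simp [Point.sym2x]
        · rw [Point.sym2x_neg_right, Point.sym2x_some_some]
          simp only [Matrix.cons_val_zero, Matrix.cons_val_one, Matrix.cons_val]
          rw [k2]
          simp [Point.sym2x]
    · have hne : x₁ - x₂ ≠ 0 := sub_ne_zero.2 hx
      have hsub : (Point.some x₁ y₁ h₁ : (EC F a b c).Point) - Point.some x₂ y₂ h₂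
          = Point.some x₁ y₁ h₁ + -Point.some x₂ y₂ h₂ := sub_eq_add_neg _ _
      rw [hsub, Point.neg_some, Point.add_of_X_ne hx, Point.add_of_X_ne hx]
      refine ⟨(x₁ - x₂) ^ 2, pow_ne_zero _ hne, ?_, ?_, ?_⟩
      · simp only [Point.sym2x_some_some, WeierstrassCurve.Affine.addX,
          WeierstrassCurve.Affine.slope_of_X_ne hx, negY']
        simp only [A0, EC, Matrix.cons_val_zero, Matrix.cons_val_one, Matrix.cons_val]
        field_simp
        linear_combination (-(y₁ ^ 2 - y₂ ^ 2 + (x₁ ^ 3 + a * x₁ ^ 2 + b * x₁ + c)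
            - (x₂ ^ 3 + a * x₂ ^ 2 + b * x₂ + c)) + 2 * (x₁ - x₂) ^ 2 * (a + x₁ + x₂)) * e₁
          + ((y₁ ^ 2 - y₂ ^ 2 + (x₁ ^ 3 + a * x₁ ^ 2 + b * x₁ + c)
            - (x₂ ^ 3 + a * x₂ ^ 2 + b * x₂ + c)) + 2 * (x₁ - x₂) ^ 2 * (a + x₁ + x₂)) * e₂
      · simp only [Point.sym2x_some_some, WeierstrassCurve.Affine.addX,
          WeierstrassCurve.Affine.slope_of_X_ne hx, negY']
        simp only [A1, EC, Matrix.cons_val_zero, Matrix.cons_val_one, Matrix.cons_val]
        field_simp
        linear_combination (-2) * e₁ - 2 * e₂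
      · simp only [Point.sym2x_some_some]
        simp [A2]
        ring

end Pool.Agent.Hhelper85
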