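import Mathlib
import Pool.Agent.Hhelper85.AddSub

/-!
# Degrees of vectors of rational functions
-/

namespace Pool.Agent.Hhelper85

open Polynomial

section T

variable {F : Type*} [CommRing F]

/-- `p` has degree at most `m` and its coefficient at `m` is `α`. -/
def T (p : F[X]) (m : ℕ) (α : F) : Prop := p.natDegree ≤ m ∧ p.coeff m = α

lemma T.self (p : F[X]) {m : ℕ} (h : p.natDegree ≤ m) : T p m (p.coeff m) := ⟨h, rfl⟩

lemma T.add {p q : F[X]} {m : ℕ} {α β : F} (hp : T p m α) (hq : T q m β) :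
    T (p + q) m (α + β) :=
  ⟨(natDegree_add_le _ _).trans (max_le hp.1 hq.1), by rw [coeff_add, hp.2, hq.2]⟩

lemma T.sub {p q : F[X]} {m : ℕ} {α β : F} (hp : T p m α) (hq : T q m β) :
    T (p - q) m (α - β) :=
  ⟨(natDegree_sub_le _ _).trans (max_le hp.1 hq.1), by rw [coeff_sub, hp.2, hq.2]⟩

lemma T.neg {p : F[X]} {m : ℕ} {α : F} (hp : T p m α) : T (-p) m (-α) :=
  ⟨by rw [natDegree_neg]; exact hp.1, by rw [coeff_neg, hp.2]⟩

lemma T.mul {p q : F[X]} {m n : ℕ} {α β : F} (hp : T p m α) (hq : T q n β) :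
    T (p * q) (m + n) (α * β) :=
  ⟨natDegree_mul_le.trans (add_le_add hp.1 hq.1), by
    rw [coeff_mul_add_eq_of_natDegree_le hp.1 hq.1, hp.2, hq.2]⟩

lemma T.const (c : F) {p : F[X]} {m : ℕ} {α : F} (hp : T p m α) : T (C c * p) m (c * α) :=
  ⟨(natDegree_C_mul_le _ _).trans hp.1, by rw [coeff_C_mul, hp.2]⟩

end T

variable {F : Type*} [Field F]

/-- Maximal degree of a vector of polynomials. -/
def md {n : ℕ} (v : Fin n → F[X]) : ℕ := Finset.univ.sup fun i => (v i).natDegree

lemma le_md {n : ℕ} (v : Fin n → F[X]) (i : Fin n) : (v i).natDegree ≤ md v :=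
  Finset.le_sup (f := fun i => (v i).natDegree) (Finset.mem_univ i)

lemma md_le {n : ℕ} {v : Fin n → F[X]} {k : ℕ} (h : ∀ i, (v i).natDegree ≤ k) : md v ≤ k :=
  Finset.sup_le fun i _ => h i

lemma md_eq_of {n : ℕ} {v : Fin n → F[X]} {k : ℕ} (h : ∀ i, (v i).natDegree ≤ k)
    (i : Fin n) (hi : (v i).coeff k ≠ 0) : md v = k :=
  le_antisymm (md_le h) ((le_natDegree_of_ne_zero hi).trans (le_md v i))

lemma exists_coeff_ne {n : ℕ} (v : Fin n → F[X]) (hv : ∃ i, v i ≠ 0) :
    ∃ i, (v i).coeff (md v) ≠ 0 := by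
  obtain ⟨i₀, h₀⟩ := hv
  have : (Finset.univ : Finset (Fin n)).Nonempty := ⟨i₀, Finset.mem_univ _⟩
  obtain ⟨i, -, hi⟩ := Finset.exists_mem_eq_sup _ this (fun i => (v i).natDegree)
  by_cases h : v i = 0
  · refine ⟨i₀, ?_⟩
    have h0 : md v = 0 := by unfold md; rw [hi, h, natDegree_zero]
    have h1 : (v i₀).natDegree = 0 := Nat.le_zero.1 (h0 ▸ le_md v i₀)
    rw [h0, ← h1]
    exact leadingCoeff_ne_zero.2 h₀
  · refine ⟨i, ?_⟩
    have : md v = (v i).natDegree := hi
    rw [this]
    exact leadingCoeff_ne_zero.2 h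

variable {K : Type*} [Field K] [Algebra F[X] K] [IsFractionRing F[X] K]

/-- The vector `w` over `K = F(t)` is projectively equal to a primitive vector of polynomials
of maximal degree `k`. -/
def HasHt {n : ℕ} (w : Fin n → K) (k : ℕ) : Prop :=
  ∃ (v : Fin n → F[X]) (c : K), c ≠ 0 ∧ (∀ i, w i = c * algebraMap F[X] K (v i)) ∧
    Ideal.span (Set.range v) = ⊤ ∧ md v = k

omit [IsFractionRing F[X] K] in
lemma HasHt.smul {n : ℕ} {w : Fin n → K} {k : ℕ} (h : HasHt (F := F) w k) {c : K} (hc : c ≠ 0)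
    {w' : Fin n → K} (hw : ∀ i, w' i = c * w i) : HasHt (F := F) w' k := by
  obtain ⟨v, c', hc', hv, hs, hm⟩ := h
  exact ⟨v, c * c', mul_ne_zero hc hc', fun i => by rw [hw, hv, mul_assoc], hs, hm⟩

lemma exists_ne_of_span_top {n : ℕ} {v : Fin n → F[X]} (h : Ideal.span (Set.range v) = ⊤) :
    ∃ i, v i ≠ 0 := by
  by_contra hcon
  push Not at hcon
  have : Set.range v ⊆ {0} := by
    rintro _ ⟨i, rfl⟩; exact hcon i
  have h1 : Ideal.span (Set.range v) ≤ ⊥ := by
    rw [Ideal.span_le]
    intro x hx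
    have := this hx
    simpa using this
  rw [h] at h1
  exact absurd (top_le_iff.1 h1) (by simp)

lemma HasHt.unique {n : ℕ} {w : Fin n → K} {k k' : ℕ} (h : HasHt (F := F) w k)
    (h' : HasHt (F := F) w k') : k = k' := by
  obtain ⟨v, c, hc, hv, hs, hm⟩ := h
  obtain ⟨v', c', hc', hv', hs', hm'⟩ := h'
  -- one direction
  have aux : ∀ (v v' : Fin n → F[X]) (c c' : K), c ≠ 0 → c' ≠ 0 →
      (∀ i, c * algebraMap F[X] K (v i) = c' * algebraMap F[X] K (v' i)) →
      Ideal.span (Set.range v') = ⊤ → Ideal.span (Set.range v) = ⊤ → md v ≤ md v' := by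
    intro v v' c c' hc hc' hvv hs' hs
    -- c'/c is a polynomial
    have h1 : (1 : F[X]) ∈ Ideal.span (Set.range v') := by rw [hs']; trivial
    have h2 : (1 : F[X]) ∈ Ideal.span (Set.range v) := by rw [hs]; trivial
    have hpoly : ∀ p ∈ Ideal.span (Set.range v'),
        ∃ r : F[X], (c' / c) * algebraMap F[X] K p = algebraMap F[X] K r := by
      intro p hp
      induction hp using Submodule.span_induction with
      | mem x hx =>
        obtain ⟨i, rfl⟩ := hx
        refine ⟨v i, ?_⟩
        rw [div_mul_eq_mul_div, ← hvv i, mul_div_assoc, mul_comm c, div_mul_cancel₀ _ hc]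
      | zero => exact ⟨0, by simp⟩
      | add x y _ _ hx hy =>
        obtain ⟨r, hr⟩ := hx
        obtain ⟨s, hs⟩ := hy
        exact ⟨r + s, by rw [map_add, mul_add, hr, hs, map_add]⟩
      | smul a x _ hx =>
        obtain ⟨r, hr⟩ := hx
        exact ⟨a * r, by rw [smul_eq_mul, map_mul, map_mul, ← hr]; ring⟩
    have hpoly' : ∀ p ∈ Ideal.span (Set.range v),
        ∃ r : F[X], (c / c') * algebraMap F[X] K p = algebraMap F[X] K r := by
      intro p hp
      induction hp using Submodule.span_induction with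
      | mem x hx =>
        obtain ⟨i, rfl⟩ := hx
        refine ⟨v' i, ?_⟩
        rw [div_mul_eq_mul_div, hvv i, mul_div_assoc, mul_comm c', div_mul_cancel₀ _ hc']
      | zero => exact ⟨0, by simp⟩
      | add x y _ _ hx hy =>
        obtain ⟨r, hr⟩ := hx
        obtain ⟨s, hs⟩ := hy
        exact ⟨r + s, by rw [map_add, mul_add, hr, hs, map_add]⟩
      | smul a x _ hx =>
        obtain ⟨r, hr⟩ := hx
        exact ⟨a * r, by rw [smul_eq_mul, map_mul, map_mul, ← hr]; ring⟩
    obtain ⟨r, hr⟩ := hpoly 1 h1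
    obtain ⟨s, hs⟩ := hpoly' 1 h2
    rw [map_one, mul_one] at hr hs
    have hrs : r * s = 1 := by
      apply IsFractionRing.injective F[X] K
      rw [map_mul, ← hr, ← hs, map_one]
      field_simp
    apply md_le
    intro i
    have hvi : v i = r * v' i := by
      apply IsFractionRing.injective F[X] K
      rw [map_mul, ← hr]
      have := hvv i
      field_simp
      linear_combination this
    have hu : IsUnit r := IsUnit.of_mul_eq_one _ hrs
    rw [hvi]
    calc (r * v' i).natDegree ≤ r.natDegree + (v' i).natDegree := natDegree_mul_le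
      _ = (v' i).natDegree := by rw [natDegree_eq_zero_of_isUnit hu, zero_add]
      _ ≤ md v' := le_md _ _
  rw [← hm, ← hm']
  apply le_antisymm
  · exact aux v v' c c' hc hc' (fun i => by rw [← hv, ← hv']) hs' hs
  · exact aux v' v c' c hc' hc (fun i => by rw [← hv, ← hv']) hs hs'

/-- Existence of the height of a nonzero vector in dimension 2. -/
lemma HasHt.exists_two (x y : K) (hxy : x ≠ 0 ∨ y ≠ 0) : ∃ k, HasHt (F := F) ![x, y] k := by
  classical
  -- common denominators
  obtain ⟨p, s, hs, hp⟩ := IsFractionRing.div_surjective (A := F[X]) x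
  obtain ⟨q, r, hr, hq⟩ := IsFractionRing.div_surjective (A := F[X]) y
  have hs0 : algebraMap F[X] K s ≠ 0 := by
    rw [Ne, IsFractionRing.to_map_eq_zero_iff]; exact nonZeroDivisors.ne_zero hs
  have hr0 : algebraMap F[X] K r ≠ 0 := by
    rw [Ne, IsFractionRing.to_map_eq_zero_iff]; exact nonZeroDivisors.ne_zero hr
  set A := p * r
  set B := q * s
  have hAB : A ≠ 0 ∨ B ≠ 0 := by
    rcases hxy with h | h
    · left
      refine mul_ne_zero ?_ (nonZeroDivisors.ne_zero hr)
      rintro rfl; apply h; rw [← hp]; simp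
    · right
      refine mul_ne_zero ?_ (nonZeroDivisors.ne_zero hs)
      rintro rfl; apply h; rw [← hq]; simp
  set g := EuclideanDomain.gcd A B
  have hg0 : g ≠ 0 := by
    intro h
    rw [EuclideanDomain.gcd_eq_zero_iff] at h
    tauto
  obtain ⟨A', hA'⟩ := EuclideanDomain.gcd_dvd_left A B
  obtain ⟨B', hB'⟩ := EuclideanDomain.gcd_dvd_right A B
  have hbez := EuclideanDomain.gcd_eq_gcd_ab A B
  refine ⟨md ![A', B'], ![A', B'], algebraMap F[X] K g / (algebraMap F[X] K s * algebraMap F[X] K r),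
    ?_, ?_, ?_, rfl⟩
  · apply div_ne_zero _ (mul_ne_zero hs0 hr0)
    rw [Ne, IsFractionRing.to_map_eq_zero_iff]; exact hg0
  · intro i
    fin_cases i
    · show x = _ * algebraMap F[X] K A'
      rw [div_mul_eq_mul_div, ← map_mul]
      change x = algebraMap F[X] K (EuclideanDomain.gcd A B * A') / _
      rw [← hA', ← hp, map_mul]
      field_simp
    · show y = _ * algebraMap F[X] K B'
      rw [div_mul_eq_mul_div, ← map_mul]
      change y = algebraMap F[X] K (EuclideanDomain.gcd A B * B') / _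
      rw [← hB', ← hq, map_mul]
      field_simp
  · rw [Ideal.eq_top_iff_one]
    have h1 : (1 : F[X]) = EuclideanDomain.gcdA A B * A' + EuclideanDomain.gcdB A B * B' := by
      apply mul_left_cancel₀ hg0
      change g = A * _ + B * _ at hbez
      rw [mul_one]
      calc g = A * EuclideanDomain.gcdA A B + B * EuclideanDomain.gcdB A B := hbez
        _ = g * (EuclideanDomain.gcdA A B * A' + EuclideanDomain.gcdB A B * B') := by
          have e1 : A = g * A' := hA'
          have e2 : B = g * B' := hB'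
          linear_combination (EuclideanDomain.gcdA A B) * e1 + (EuclideanDomain.gcdB A B) * e2
    rw [h1]
    apply Ideal.add_mem
    · exact Ideal.mul_mem_left _ _ (Ideal.subset_span ⟨0, rfl⟩)
    · exact Ideal.mul_mem_left _ _ (Ideal.subset_span ⟨1, rfl⟩)

end Pool.Agent.Hhelper85
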