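import Mathlib
import Pool.Agent.Hhelper85.Height

/-!
# Heights of `sym2` vectors and of the add-sub map
-/

namespace Pool.Agent.Hhelper85

open Polynomial

section coeffs

variable {R : Type*} [CommRing R]

def dsc (a b c : R) : R :=
  -(4 * a) ^ 2 * (4 * a * c - b ^ 2) - 8 * (2 * b) ^ 3 - 27 * (4 * c) ^ 2
    + 9 * (4 * a) * (2 * b) * (4 * c)

lemma bez (a b c s t u : R) : ∃ c00 c01 c02 c10 c11 c12 c20 c21 c22 : R,
    c00 * A0 b c (4 * a * c - b ^ 2) s t u + c01 * A1 a b c s t u + c02 * A2 s t u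
      = dsc a b c * s ^ 4 ∧
    c10 * A0 b c (4 * a * c - b ^ 2) s t u + c11 * A1 a b c s t u + c12 * A2 s t u
      = dsc a b c * t ^ 4 ∧
    c20 * A0 b c (4 * a * c - b ^ 2) s t u + c21 * A1 a b c s t u + c22 * A2 s t u
      = dsc a b c * u ^ 4 := by
  obtain ⟨b2, hb2⟩ : ∃ b2, b2 = 4 * a := ⟨_, rfl⟩
  obtain ⟨b4, hb4⟩ : ∃ b4, b4 = 2 * b := ⟨_, rfl⟩
  obtain ⟨b6, hb6⟩ : ∃ b6, b6 = 4 * c := ⟨_, rfl⟩
  obtain ⟨b8, hb8⟩ : ∃ b8, b8 = 4 * a * c - b ^ 2 := ⟨_, rfl⟩
  refine ⟨(-b2^2*b8+9*b2*b4*b6-8*b4^3-27*b6^2)*s^2 + (2*b2*b4*b8-2*b4^2*b6-10*b6*b8)*s*t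
      +(-b2*b6*b8+b4*b6^2)*s*u+(3*b4^2*b8-3*b4*b6^2)*t^2+(3*b4*b6*b8-3*b6^3)*t*u,
    (-b2*b4*b8+b4^2*b6+5*b6*b8)*s^2+(2*b2*b6*b8-2*b4*b6^2-10*b8^2)*s*t+(-b2*b8^2+b4*b6*b8)*s*u
      +(3*b4*b6*b8-3*b6^3)*t^2+(3*b4*b8^2-3*b6^2*b8)*t*u,
    (b2*b6*b8-8*b4^2*b8+7*b4*b6^2)*s^2+(-6*b4*b6*b8+6*b6^3)*s*t+(-8*b4*b8^2+8*b6^2*b8)*s*u,
    96*b6*s*t+(12*b2*b6-64*b8)*t^2+16*b4*b6*t*u,
    -48*b6*s^2+32*b8*s*t+(-4*b2*b8+16*b4*b6)*t^2+16*b4*b8*t*u,
    -12*b2*b6*s^2+(8*b2*b8-32*b4*b6)*s*t-12*b6^2*s*u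
      +(-b2^2*b8+9*b2*b4*b6-8*b4^3-27*b6^2)*t^2+(4*b2*b4*b8-4*b2*b6^2)*t*u,
    -12*t^2-4*b2*t*u+(b2^2-32*b4)*u^2,
    6*s*t-b2*s*u-5*b4*t*u+(b2*b4-27*b6)*u^2,
    -8*b4*s*u-12*b6*t*u+(b4^2-28*b8)*u^2, ?_, ?_, ?_⟩
  · subst hb2 hb4 hb6 hb8; simp only [A0, A1, A2, dsc]; ring
  · subst hb2 hb4 hb6 hb8; simp only [A0, A1, A2, dsc]; ring
  · subst hb2 hb4 hb6 hb8; simp only [A0, A1, A2, dsc]; ring

end coeffs

variable {F : Type*} [Field F]

lemma span_pair_top {p q : F[X]} (h : Ideal.span (Set.range ![p, q]) = ⊤) :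
    ∃ x y : F[X], x * p + y * q = 1 := by
  have h1 : (1 : F[X]) ∈ Ideal.span (Set.range ![p, q]) := by rw [h]; trivial
  have h2 : Set.range ![p, q] = {p, q} := by
    ext z
    simp only [Set.mem_range, Fin.exists_fin_two, Matrix.cons_val_zero, Matrix.cons_val_one,
      Set.mem_insert_iff, Set.mem_singleton_iff, eq_comm]
  rw [h2, Ideal.mem_span_pair] at h1
  exact h1

lemma mem_span3 (v : Fin 3 → F[X]) (i : Fin 3) (r : F[X]) :
    r * v i ∈ Ideal.span (Set.range v) :=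
  Ideal.mul_mem_left _ _ (Ideal.subset_span ⟨i, rfl⟩)

variable {K : Type*} [Field K] [Algebra F[X] K] [IsFractionRing F[X] K]

omit [IsFractionRing F[X] K] in
/-- Height of a `sym2` vector. -/
lemma HasHt.sym2 {x₁ y₁ x₂ y₂ : K} {k₁ k₂ : ℕ} (h₁ : HasHt (F := F) ![x₁, y₁] k₁)
    (h₂ : HasHt (F := F) ![x₂, y₂] k₂) :
    HasHt (F := F) ![x₁ * x₂, x₁ * y₂ + x₂ * y₁, y₁ * y₂] (k₁ + k₂) := by
  obtain ⟨v, c, hc, hv, hs, hm⟩ := h₁
  obtain ⟨v', c', hc', hv', hs', hm'⟩ := h₂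
  have e0 : v = ![v 0, v 1] := by ext i; fin_cases i <;> rfl
  have e0' : v' = ![v' 0, v' 1] := by ext i; fin_cases i <;> rfl
  obtain ⟨x, y, hxy⟩ := span_pair_top (by rw [← e0]; exact hs)
  obtain ⟨z, w, hzw⟩ := span_pair_top (by rw [← e0']; exact hs')
  have hx₁ : x₁ = c * algebraMap F[X] K (v 0) := hv 0
  have hy₁ : y₁ = c * algebraMap F[X] K (v 1) := hv 1
  have hx₂ : x₂ = c' * algebraMap F[X] K (v' 0) := hv' 0
  have hy₂ : y₂ = c' * algebraMap F[X] K (v' 1) := hv' 1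
  refine ⟨![v 0 * v' 0, v 0 * v' 1 + v' 0 * v 1, v 1 * v' 1], c * c', mul_ne_zero hc hc',
    ?_, ?_, ?_⟩
  · intro i
    fin_cases i
    · simp [hx₁, hx₂]; ring
    · simp [hx₁, hx₂, hy₁, hy₂]; ring
    · simp [hy₁, hy₂]; ring
  · rw [Ideal.eq_top_iff_one]
    set V : Fin 3 → F[X] := ![v 0 * v' 0, v 0 * v' 1 + v' 0 * v 1, v 1 * v' 1]
    have h1 : (1 : F[X]) =
        (2 - (x * z * V 0 + y * w * V 2 + y * z * V 1)) * (x * z) * V 0
        + (2 - (x * z * V 0 + y * w * V 2 + y * z * V 1)) * (y * w) * V 2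
        + (2 - (x * z * V 0 + y * w * V 2 + y * z * V 1)) * (y * z) * V 1
        + (x * w - y * z) ^ 2 * (v 0 * v' 1) * V 1
        + (-(x * w - y * z) ^ 2 * V 2) * V 0 := by
      have hE : 1 - (x * z * V 0 + y * w * V 2 + y * z * V 1) = (x * w - y * z) * (v 0 * v' 1) := by
        have : (x * v 0 + y * v 1) * (z * v' 0 + w * v' 1) = 1 := by rw [hxy, hzw, one_mul]
        simp only [V, Matrix.cons_val_zero, Matrix.cons_val_one, Matrix.cons_val]
        linear_combination (-1 : F[X]) * this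
      have hp : (v 0 * v' 1) ^ 2 = (v 0 * v' 1) * V 1 - V 0 * V 2 := by
        simp only [V, Matrix.cons_val_zero, Matrix.cons_val_one, Matrix.cons_val]
        ring
      generalize V 0 = s at *
      generalize V 1 = m at *
      generalize V 2 = u at *
      generalize v 0 * v' 1 = p at *
      linear_combination (1 - (x * z * s + y * w * u + y * z * m) + (x * w - y * z) * p) * hE
        + (x * w - y * z) ^ 2 * hp
    rw [h1]
    exact Ideal.add_mem _ (Ideal.add_mem _ (Ideal.add_mem _ (Ideal.add_mem _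
      (mem_span3 V 0 _) (mem_span3 V 2 _)) (mem_span3 V 1 _)) (mem_span3 V 1 _)) (mem_span3 V 0 _)
  · have t0 := T.self (v 0) (hm ▸ le_md v 0)
    have t1 := T.self (v 1) (hm ▸ le_md v 1)
    have t0' := T.self (v' 0) (hm' ▸ le_md v' 0)
    have t1' := T.self (v' 1) (hm' ▸ le_md v' 1)
    have hne : (v 0).coeff k₁ ≠ 0 ∨ (v 1).coeff k₁ ≠ 0 := by
      obtain ⟨i, hi⟩ := exists_coeff_ne v (exists_ne_of_span_top hs)
      rw [hm] at hi
      fin_cases i
      · exact Or.inl hi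
      · exact Or.inr hi
    have hne' : (v' 0).coeff k₂ ≠ 0 ∨ (v' 1).coeff k₂ ≠ 0 := by
      obtain ⟨i, hi⟩ := exists_coeff_ne v' (exists_ne_of_span_top hs')
      rw [hm'] at hi
      fin_cases i
      · exact Or.inl hi
      · exact Or.inr hi
    have u0 := t0.mul t0'
    have u2 := t1.mul t1'
    have u1 : T (v 0 * v' 1 + v' 0 * v 1) (k₁ + k₂)
        ((v 0).coeff k₁ * (v' 1).coeff k₂ + (v' 0).coeff k₂ * (v 1).coeff k₁) := by
      apply T.add (t0.mul t1')
      rw [add_comm k₁ k₂]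
      exact t0'.mul t1
    have hdeg : ∀ i, ((![v 0 * v' 0, v 0 * v' 1 + v' 0 * v 1, v 1 * v' 1] : Fin 3 → F[X]) i).natDegree
        ≤ k₁ + k₂ := by
      intro i
      fin_cases i
      · exact u0.1
      · exact u1.1
      · exact u2.1
    by_cases c0 : (v 0 * v' 0).coeff (k₁ + k₂) = 0
    · by_cases c2 : (v 1 * v' 1).coeff (k₁ + k₂) = 0
      · refine md_eq_of hdeg 1 ?_
        show (v 0 * v' 1 + v' 0 * v 1).coeff (k₁ + k₂) ≠ 0
        rw [u0.2] at c0
        rw [u2.2] at c2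
        rw [u1.2]
        rcases mul_eq_zero.1 c0 with h | h
        · have hb : (v 1).coeff k₁ ≠ 0 := by tauto
          have hb' : (v' 1).coeff k₂ = 0 := by
            rcases mul_eq_zero.1 c2 with h' | h'
            · exact absurd h' hb
            · exact h'
          have ha' : (v' 0).coeff k₂ ≠ 0 := by tauto
          rw [h, zero_mul, zero_add]
          exact mul_ne_zero ha' hb
        · have hb : (v' 1).coeff k₂ ≠ 0 := by tauto
          have hb' : (v 1).coeff k₁ = 0 := by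
            rcases mul_eq_zero.1 c2 with h' | h'
            · exact h'
            · exact absurd h' hb
          have ha' : (v 0).coeff k₁ ≠ 0 := by tauto
          rw [h, zero_mul, add_zero]
          exact mul_ne_zero ha' hb
      · exact md_eq_of hdeg 2 c2
    · exact md_eq_of hdeg 0 c0

/-- Constants of `F` inside `K`. -/
noncomputable abbrev cst (K : Type*) [Field K] [Algebra F[X] K] (a : F) : K := algebraMap F[X] K (C a)

omit [IsFractionRing F[X] K] in
/-- Height of the image of the add-sub map. -/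
lemma HasHt.addSub {a b c : F} (hd : dsc a b c ≠ 0) {w : Fin 3 → K} {k : ℕ}
    (h : HasHt (F := F) w k) :
    HasHt (F := F) ![A0 (cst K b) (cst K c) (4 * cst K a * cst K c - cst K b ^ 2) (w 0) (w 1) (w 2),
      A1 (cst K a) (cst K b) (cst K c) (w 0) (w 1) (w 2), A2 (w 0) (w 1) (w 2)] (2 * k) := by
  obtain ⟨v, κ, hκ, hv, hs, hm⟩ := h
  set s := v 0 with hsdef
  set t := v 1 with htdef
  set u := v 2 with hudef
  set P0 : F[X] := A0 (C b) (C c) (4 * C a * C c - C b ^ 2) s t u with hP0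
  set P1 : F[X] := A1 (C a) (C b) (C c) s t u with hP1
  set P2 : F[X] := A2 s t u with hP2
  refine ⟨![P0, P1, P2], κ ^ 2, pow_ne_zero _ hκ, ?_, ?_, ?_⟩
  · have w0 : w 0 = κ * algebraMap F[X] K s := hv 0
    have w1 : w 1 = κ * algebraMap F[X] K t := hv 1
    have w2 : w 2 = κ * algebraMap F[X] K u := hv 2
    intro i
    fin_cases i
    · simp only [Fin.zero_eta, Matrix.cons_val_zero, w0, w1, w2, P0, A0, cst]
      simp only [map_sub, map_mul, map_pow, map_ofNat]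
      ring
    · simp only [Fin.mk_one, Matrix.cons_val_one, Matrix.cons_val_zero, w0, w1, w2, P1, A1, cst]
      simp only [map_add, map_mul, map_pow, map_ofNat]
      ring
    · simp only [Fin.reduceFinMk, Matrix.cons_val, w0, w1, w2, P2, A2]
      simp only [map_sub, map_mul, map_pow, map_ofNat]
      ring
  · obtain ⟨c00, c01, c02, c10, c11, c12, c20, c21, c22, h0, h1, h2⟩ :=
      bez (C a) (C b) (C c) s t u
    have hD : dsc (C a) (C b) (C c) = C (dsc a b c) := by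
      simp only [dsc, map_neg, map_sub, map_add, map_mul, map_pow, map_ofNat]
    have hmem : ∀ i, v i ^ 4 ∈ Ideal.span (Set.range ![P0, P1, P2]) := by
      have key : ∀ (r0 r1 r2 x : F[X]), r0 * P0 + r1 * P1 + r2 * P2 = dsc (C a) (C b) (C c) * x →
          x ∈ Ideal.span (Set.range ![P0, P1, P2]) := by
        intro r0 r1 r2 x hx
        have : x = C (dsc a b c)⁻¹ * (r0 * P0 + r1 * P1 + r2 * P2) := by
          rw [hx, hD, ← mul_assoc, ← C_mul, inv_mul_cancel₀ hd, C_1, one_mul]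
        rw [this]
        apply Ideal.mul_mem_left
        exact Ideal.add_mem _ (Ideal.add_mem _ (mem_span3 ![P0, P1, P2] 0 _)
          (mem_span3 ![P0, P1, P2] 1 _)) (mem_span3 ![P0, P1, P2] 2 _)
      intro i
      fin_cases i
      · exact key _ _ _ _ h0
      · exact key _ _ _ _ h1
      · exact key _ _ _ _ h2
    have htop := Ideal.span_pow_eq_top (Set.range v) hs 4
    rw [← top_le_iff, ← htop, Ideal.span_le]
    rintro _ ⟨_, ⟨i, rfl⟩, rfl⟩
    exact hmem i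
  · have t0 := T.self s (hm ▸ le_md v 0)
    have t1 := T.self t (hm ▸ le_md v 1)
    have t2 := T.self u (hm ▸ le_md v 2)
    set α := s.coeff k
    set β := t.coeff k
    set γ := u.coeff k
    have hne : α ≠ 0 ∨ β ≠ 0 ∨ γ ≠ 0 := by
      obtain ⟨i, hi⟩ := exists_coeff_ne v (exists_ne_of_span_top hs)
      rw [hm] at hi
      fin_cases i
      · exact Or.inl hi
      · exact Or.inr (Or.inl hi)
      · exact Or.inr (Or.inr hi)
    have m2 : k + k = 2 * k := by ring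
    have T0 : T P0 (2 * k) (A0 b c (4 * a * c - b ^ 2) α β γ) := by
      have e : P0 = s * s - C (2 * b) * (s * u) - C (4 * c) * (t * u)
          - C (4 * a * c - b ^ 2) * (u * u) := by
        simp only [P0, A0, C_mul, C_sub, C_pow, map_ofNat]; ring
      have e' : A0 b c (4 * a * c - b ^ 2) α β γ = α * α - (2 * b) * (α * γ) - (4 * c) * (β * γ)
          - (4 * a * c - b ^ 2) * (γ * γ) := by
        simp only [A0]; ring
      rw [e, e', ← m2]
      exact (((t0.mul t0).sub ((t0.mul t2).const _)).sub ((t1.mul t2).const _)).sub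
        ((t2.mul t2).const _)
    have T1 : T P1 (2 * k) (A1 a b c α β γ) := by
      have e : P1 = C 2 * (t * s) + C (4 * a) * (s * u) + C (2 * b) * (t * u)
          + C (4 * c) * (u * u) := by
        simp only [P1, A1, C_mul, map_ofNat]; ring
      have e' : A1 a b c α β γ = 2 * (β * α) + (4 * a) * (α * γ) + (2 * b) * (β * γ)
          + (4 * c) * (γ * γ) := by
        simp only [A1]; ring
      rw [e, e', ← m2]
      exact ((((t1.mul t0).const _).add ((t0.mul t2).const _)).add ((t1.mul t2).const _)).add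
        ((t2.mul t2).const _)
    have T2 : T P2 (2 * k) (A2 α β γ) := by
      have e : P2 = t * t - C 4 * (s * u) := by
        simp only [P2, A2, map_ofNat]; ring
      have e' : A2 α β γ = β * β - 4 * (α * γ) := by
        simp only [A2]; ring
      rw [e, e', ← m2]
      exact (t1.mul t1).sub ((t0.mul t2).const _)
    obtain ⟨c00, c01, c02, c10, c11, c12, c20, c21, c22, h0, h1, h2⟩ := bez a b c α β γ
    have hnz : A0 b c (4 * a * c - b ^ 2) α β γ ≠ 0 ∨ A1 a b c α β γ ≠ 0 ∨ A2 α β γ ≠ 0 := by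
      by_contra hcon
      push Not at hcon
      obtain ⟨z0, z1, z2⟩ := hcon
      rw [z0, z1, z2] at h0 h1 h2
      simp only [mul_zero, add_zero] at h0 h1 h2
      rcases hne with h | h | h
      · exact (mul_ne_zero hd (pow_ne_zero 4 h)) h0.symm
      · exact (mul_ne_zero hd (pow_ne_zero 4 h)) h1.symm
      · exact (mul_ne_zero hd (pow_ne_zero 4 h)) h2.symm
    have hdeg : ∀ i, ((![P0, P1, P2] : Fin 3 → F[X]) i).natDegree ≤ 2 * k := by
      intro i
      fin_cases i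
      · exact T0.1
      · exact T1.1
      · exact T2.1
    rcases hnz with h | h | h
    · exact md_eq_of hdeg 0 (by show P0.coeff (2 * k) ≠ 0; rw [T0.2]; exact h)
    · exact md_eq_of hdeg 1 (by show P1.coeff (2 * k) ≠ 0; rw [T1.2]; exact h)
    · exact md_eq_of hdeg 2 (by show P2.coeff (2 * k) ≠ 0; rw [T2.2]; exact h)

end Pool.Agent.Hhelper85
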