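import Mathlib
import Pool.Agent.Hhelper85.Height2

/-!
# Substitution into rational functions multiplies degrees
-/

namespace Pool.Agent.Hhelper85

open Polynomial

section hom

variable {R : Type*} [CommRing R]

/-- Homogenisation of degree `n` of the polynomial `A`, evaluated at `(x, y)`. -/
noncomputable def hm (A : R[X]) (n : ℕ) (x y : R) : R :=
  ∑ i ∈ Finset.range (n + 1), A.coeff i * x ^ i * y ^ (n - i)

lemma hm_eval {A : R[X]} {n : ℕ} (hA : A.natDegree ≤ n) (x : R) : hm A n x 1 = A.eval x := by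
  rw [eval_eq_sum_range' (Nat.lt_succ_of_le hA)]
  simp [hm]

lemma hm_scale (A : R[X]) (n : ℕ) (x y κ : R) : hm A n (κ * x) (κ * y) = κ ^ n * hm A n x y := by
  simp only [hm, Finset.mul_sum]
  apply Finset.sum_congr rfl
  intro i hi
  have hi' : i ≤ n := Nat.lt_succ_iff.1 (Finset.mem_range.1 hi)
  have : κ ^ n = κ ^ i * κ ^ (n - i) := by rw [← pow_add]; congr 1; omega
  rw [mul_pow, mul_pow, this]
  ring

lemma hm_map {S : Type*} [CommRing S] (σ : R →+* S) (A : R[X]) (n : ℕ) (x y : R) :
    σ (hm A n x y) = hm (A.map σ) n (σ x) (σ y) := by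
  simp [hm, map_sum, map_mul, map_pow, coeff_map]

lemma hm_zero (A : R[X]) (n : ℕ) (x : R) : hm A n x 0 = A.coeff n * x ^ n := by
  rw [hm, Finset.sum_range_succ]
  rw [Finset.sum_eq_zero]
  · simp
  · intro i hi
    have : n - i ≠ 0 := by
      have := Finset.mem_range.1 hi
      omega
    rw [zero_pow this, mul_zero]

end hom

variable {F : Type*} [Field F]

/-- Two coprime forms have no common zero. -/
lemma hm_ne {A B : F[X]} (hAB : IsCoprime A B) {n : ℕ} (hA : A.natDegree ≤ n)
    (hB : B.natDegree ≤ n) (hn : A.coeff n ≠ 0 ∨ B.coeff n ≠ 0)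
    {L : Type*} [Field L] (σ : F →+* L) (x y : L) (hxy : x ≠ 0 ∨ y ≠ 0)
    (h1 : hm (A.map σ) n x y = 0) (h2 : hm (B.map σ) n x y = 0) : False := by
  by_cases hy : y = 0
  · subst hy
    have hx : x ≠ 0 := by tauto
    rw [hm_zero, coeff_map] at h1 h2
    have e1 := (mul_eq_zero.1 h1).resolve_right (pow_ne_zero _ hx)
    have e2 := (mul_eq_zero.1 h2).resolve_right (pow_ne_zero _ hx)
    rw [map_eq_zero] at e1 e2
    tauto
  · obtain ⟨p, q, hpq⟩ := hAB
    have f1 : hm (A.map σ) n (y * (x / y)) (y * 1) = 0 := by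
      rw [mul_div_cancel₀ _ hy, mul_one]; exact h1
    have f2 : hm (B.map σ) n (y * (x / y)) (y * 1) = 0 := by
      rw [mul_div_cancel₀ _ hy, mul_one]; exact h2
    rw [hm_scale] at f1 f2
    have g1 := (mul_eq_zero.1 f1).resolve_left (pow_ne_zero _ hy)
    have g2 := (mul_eq_zero.1 f2).resolve_left (pow_ne_zero _ hy)
    rw [hm_eval ((natDegree_map_le).trans hA)] at g1
    rw [hm_eval ((natDegree_map_le).trans hB)] at g2
    have := congrArg (fun r => (r.map σ).eval (x / y)) hpq
    simp only [Polynomial.map_add, Polynomial.map_mul, eval_add, eval_mul, g1, g2, mul_zero,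
      add_zero, Polynomial.map_one, eval_one] at this
    exact zero_ne_one this

lemma T.sum {ι : Type*} (s : Finset ι) (p : ι → F[X]) (m : ℕ) (α : ι → F)
    (h : ∀ i ∈ s, T (p i) m (α i)) : T (∑ i ∈ s, p i) m (∑ i ∈ s, α i) := by
  classical
  induction s using Finset.induction_on with
  | empty => exact ⟨by simp, by simp⟩
  | insert i s hi ih =>
    rw [Finset.sum_insert hi, Finset.sum_insert hi]
    exact (h i (Finset.mem_insert_self i s)).add (ih fun j hj => h j (Finset.mem_insert_of_mem hj))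

lemma T.pow {p : F[X]} {m : ℕ} {α : F} (h : T p m α) (n : ℕ) : T (p ^ n) (n * m) (α ^ n) := by
  induction n with
  | zero => exact ⟨by simp, by simp⟩
  | succ n ih =>
    rw [pow_succ, pow_succ, Nat.succ_mul]
    exact ih.mul h

lemma T.hm (A : F[X]) (n k : ℕ) {p q : F[X]} {α β : F} (hp : T p k α) (hq : T q k β) :
    T (hm (A.map C) n p q) (n * k) (hm A n α β) := by
  unfold Pool.Agent.Hhelper85.hm
  apply T.sum
  intro i hi
  have hi' : i ≤ n := Nat.lt_succ_iff.1 (Finset.mem_range.1 hi)
  have h1 : n * k = i * k + (n - i) * k := by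
    rw [← add_mul]; congr 1; omega
  rw [coeff_map, h1, mul_assoc, mul_assoc]
  exact ((hp.pow i).mul (hq.pow (n - i))).const _

variable {K : Type*} [Field K] [Algebra F[X] K]

/-- Substituting a rational function `u` (given projectively by `(x : y)`) of degree `k` into
the coprime pair `(A : B)` of degree `n` gives degree `n * k`. -/
lemma HasHt.comp {A B : F[X]} (hAB : IsCoprime A B) {n : ℕ} (hA : A.natDegree ≤ n)
    (hB : B.natDegree ≤ n) (hn : A.coeff n ≠ 0 ∨ B.coeff n ≠ 0) {x y : K} {k : ℕ}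
    (h : HasHt (F := F) ![x, y] k) :
    HasHt (F := F) ![Pool.Agent.Hhelper85.hm (A.map ((algebraMap F[X] K).comp C)) n x y,
      Pool.Agent.Hhelper85.hm (B.map ((algebraMap F[X] K).comp C)) n x y] (n * k) := by
  obtain ⟨v, c, hc, hv, hs, hm'⟩ := h
  have hx : x = c * algebraMap F[X] K (v 0) := hv 0
  have hy : y = c * algebraMap F[X] K (v 1) := hv 1
  set PA := Pool.Agent.Hhelper85.hm (A.map C) n (v 0) (v 1) with hPA
  set PB := Pool.Agent.Hhelper85.hm (B.map C) n (v 0) (v 1) with hPB
  refine ⟨![PA, PB], c ^ n, pow_ne_zero _ hc, ?_, ?_, ?_⟩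
  · intro i
    fin_cases i
    · simp only [Fin.zero_eta, Matrix.cons_val_zero]
      rw [hx, hy, hm_scale, hPA, hm_map, Polynomial.map_map]
    · simp only [Fin.mk_one, Matrix.cons_val_one, Matrix.cons_val_zero]
      rw [hx, hy, hm_scale, hPB, hm_map, Polynomial.map_map]
  · by_contra hne
    obtain ⟨M, hM, hle⟩ := Ideal.exists_le_maximal _ hne
    let _ := Ideal.Quotient.field M
    have zA : Ideal.Quotient.mk M PA = 0 := by
      rw [Ideal.Quotient.eq_zero_iff_mem]
      exact hle (Ideal.subset_span ⟨0, rfl⟩)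
    have zB : Ideal.Quotient.mk M PB = 0 := by
      rw [Ideal.Quotient.eq_zero_iff_mem]
      exact hle (Ideal.subset_span ⟨1, rfl⟩)
    rw [hPA, hm_map, Polynomial.map_map] at zA
    rw [hPB, hm_map, Polynomial.map_map] at zB
    refine hm_ne hAB hA hB hn ((Ideal.Quotient.mk M).comp C) _ _ ?_ zA zB
    by_contra hcon
    push Not at hcon
    obtain ⟨h0, h1⟩ := hcon
    rw [Ideal.Quotient.eq_zero_iff_mem] at h0 h1
    have : Ideal.span (Set.range v) ≤ M := by
      rw [Ideal.span_le]
      rintro _ ⟨i, rfl⟩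
      fin_cases i
      · exact h0
      · exact h1
    rw [hs] at this
    exact hM.ne_top (top_le_iff.1 this)
  · have t0 := T.self (v 0) (hm' ▸ le_md v 0)
    have t1 := T.self (v 1) (hm' ▸ le_md v 1)
    have TA := T.hm A n k t0 t1
    have TB := T.hm B n k t0 t1
    have hne : (v 0).coeff k ≠ 0 ∨ (v 1).coeff k ≠ 0 := by
      obtain ⟨i, hi⟩ := exists_coeff_ne v (exists_ne_of_span_top hs)
      rw [hm'] at hi
      fin_cases i
      · exact Or.inl hi
      · exact Or.inr hi
    have hnz : Pool.Agent.Hhelper85.hm A n ((v 0).coeff k) ((v 1).coeff k) ≠ 0 ∨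
        Pool.Agent.Hhelper85.hm B n ((v 0).coeff k) ((v 1).coeff k) ≠ 0 := by
      by_contra hcon
      push Not at hcon
      refine hm_ne hAB hA hB hn (RingHom.id F) _ _ hne ?_ ?_
      · rw [Polynomial.map_id]; exact hcon.1
      · rw [Polynomial.map_id]; exact hcon.2
    have hdeg : ∀ i, ((![PA, PB] : Fin 2 → F[X]) i).natDegree ≤ n * k := by
      intro i
      fin_cases i
      · exact TA.1
      · exact TB.1
    rcases hnz with h | h
    · exact md_eq_of hdeg 0 (by show PA.coeff (n * k) ≠ 0; rw [TA.2]; exact h)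
    · exact md_eq_of hdeg 1 (by show PB.coeff (n * k) ≠ 0; rw [TB.2]; exact h)

end Pool.Agent.Hhelper85
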