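import Mathlib
import Pool.Agent.Hhelper85.Height2

/-!
# The degree form on the points of a twist, over `F(t)`, of a curve over `F`
-/

namespace Pool.Agent.Hhelper85

open Polynomial WeierstrassCurve WeierstrassCurve.Affine

variable {F : Type*} [Field F] {K : Type*} [Field K] [Algebra F[X] K] [IsFractionRing F[X] K]

variable (K) in
/-- The twist by `D ∈ K` of the curve `y² = x³ + a x² + b x + c` over `F`, as a curve over `K`. -/
noncomputable abbrev Tw (a b c : F) (D : K) : WeierstrassCurve.Affine K :=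
  EC K (D * cst K a) (D ^ 2 * cst K b) (D ^ 3 * cst K c)

/-- The vector `(x(P)/D : 1)`. -/
noncomputable def uv {a b c : F} {D : K} (P : (Tw K a b c D).Point) : Fin 2 → K :=
  ![P.xRep 0, D * P.xRep 1]

omit [IsFractionRing F[X] K] in
@[simp] lemma uv_zero {a b c : F} {D : K} : uv (0 : (Tw K a b c D).Point) = ![1, 0] := by
  simp [uv]

omit [IsFractionRing F[X] K] in
@[simp] lemma uv_some {a b c : F} {D : K} {x y : K} (h : (Tw K a b c D).Nonsingular x y) :
    uv (Point.some x y h) = ![x, D] := by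
  simp [uv]

omit [IsFractionRing F[X] K] in
lemma uv_neg {a b c : F} {D : K} (P : (Tw K a b c D).Point) : uv (-P) = uv P := by
  simp [uv]

lemma exists_ht {a b c : F} {D : K} (hD : D ≠ 0) (P : (Tw K a b c D).Point) :
    ∃ k, HasHt (F := F) (uv P) k := by
  cases P with
  | zero => exact HasHt.exists_two _ _ (Or.inl (by rw [← Point.zero_def]; simp))
  | some x y h => exact HasHt.exists_two _ _ (Or.inr (by simpa using hD))

open Classical in
/-- The degree of (the x-coordinate divided by `D` of) a point. -/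
noncomputable def deg {a b c : F} {D : K} (P : (Tw K a b c D).Point) : ℕ :=
  if h : ∃ k, HasHt (F := F) (uv P) k then h.choose else 0

lemma hasHt_deg {a b c : F} {D : K} (hD : D ≠ 0) (P : (Tw K a b c D).Point) :
    HasHt (F := F) (uv P) (deg P) := by
  unfold deg
  rw [dif_pos (exists_ht hD P)]
  exact (exists_ht hD P).choose_spec

lemma deg_eq_of_hasHt {a b c : F} {D : K} (hD : D ≠ 0) {P : (Tw K a b c D).Point} {k : ℕ}
    (h : HasHt (F := F) (uv P) k) : deg P = k :=
  (hasHt_deg hD P).unique h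

lemma deg_neg {a b c : F} {D : K} (hD : D ≠ 0) (P : (Tw K a b c D).Point) :
    deg (-P) = deg P :=
  deg_eq_of_hasHt hD (by rw [uv_neg]; exact hasHt_deg hD P)

lemma span_one_zero : Ideal.span (Set.range (![1, 0] : Fin 2 → F[X])) = ⊤ := by
  rw [Ideal.eq_top_iff_one]
  exact Ideal.subset_span ⟨0, rfl⟩

lemma deg_zero {a b c : F} {D : K} (hD : D ≠ 0) : deg (0 : (Tw K a b c D).Point) = 0 := by
  apply deg_eq_of_hasHt hD
  refine ⟨![1, 0], 1, one_ne_zero, ?_, span_one_zero, ?_⟩
  · intro i; fin_cases i <;> simp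
  · apply Nat.le_zero.1
    apply md_le
    intro i; fin_cases i <;> simp

variable [DecidableEq K]

/-- The parallelogram law. -/
theorem parallelogram {a b c : F} (hd : dsc a b c ≠ 0) {D : K} (hD : D ≠ 0)
    (P Q : (Tw K a b c D).Point) :
    deg (P + Q) + deg (P - Q) = 2 * (deg P + deg Q) := by
  have h1 := (hasHt_deg hD (P + Q)).sym2 (hasHt_deg hD (P - Q))
  have h2 := ((hasHt_deg hD P).sym2 (hasHt_deg hD Q)).addSub hd
  apply h1.unique
  obtain ⟨k, hk, k0, k1, k2⟩ := addSub_formula P Q
  apply h2.smul (inv_ne_zero hk)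
  have hS : ∀ P Q : (Tw K a b c D).Point, P.sym2x Q =
      ![P.xRep 0 * Q.xRep 0, P.xRep 0 * Q.xRep 1 + P.xRep 1 * Q.xRep 0,
        P.xRep 1 * Q.xRep 1] := fun P Q => rfl
  rw [hS, hS] at k0 k1 k2
  simp only [Matrix.cons_val_zero, Matrix.cons_val_one, Matrix.cons_val] at k0 k1 k2
  intro i
  fin_cases i
  · simp only [Fin.zero_eta, Matrix.cons_val_zero, Matrix.cons_val_one, Matrix.cons_val]
    rw [eq_inv_mul_iff_mul_eq₀ hk, ← k0]
    simp only [A0]
    ring
  · simp only [Fin.mk_one, Matrix.cons_val_zero, Matrix.cons_val_one, Matrix.cons_val]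
    rw [eq_inv_mul_iff_mul_eq₀ hk]
    simp only [A1] at k1 ⊢
    linear_combination (-D) * k1
  · simp only [Fin.reduceFinMk, Matrix.cons_val_zero, Matrix.cons_val_one, Matrix.cons_val]
    rw [eq_inv_mul_iff_mul_eq₀ hk]
    simp only [A2] at k2 ⊢
    linear_combination (-D ^ 2) * k2

end Pool.Agent.Hhelper85
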