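import Mathlib

/-!
# Integer valued functions satisfying the parallelogram law
-/

namespace Pool.Agent.Hhelper85

variable {G : Type*} [AddCommGroup G]

/-- The parallelogram law. -/
def Par (f : G → ℤ) : Prop := ∀ x y, f (x + y) + f (x - y) = 2 * (f x + f y)

/-- The associated bilinear form. -/
def Bf (f : G → ℤ) (x y : G) : ℤ := f (x + y) - f x - f y

namespace Par

variable {f : G → ℤ} (h : Par f)
include h

lemma zero : f 0 = 0 := by
  have := h 0 0
  simp only [add_zero, sub_zero] at this
  linarith

lemma neg (x : G) : f (-x) = f x := by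
  have := h 0 x
  rw [zero_add, zero_sub, h.zero] at this
  linarith

lemma sub_eq (x y : G) : f (x - y) = f x + f y - Bf f x y := by
  have := h x y
  simp only [Bf]
  linarith

set_option linter.unusedSectionVars false in
lemma add_eq (x y : G) : f (x + y) = f x + f y + Bf f x y := by
  simp only [Bf]
  ring

omit h in
lemma _root_.Pool.Agent.Hhelper85.Bf_comm (f : G → ℤ) (x y : G) : Bf f x y = Bf f y x := by
  simp only [Bf, add_comm y x]
  ring

lemma add_left (x y z : G) : Bf f (x + y) z = Bf f x z + Bf f y z := by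
  have h1 := h (x + z) y
  have h2 := h (x - y) z
  have h3 := h x (y + z)
  have h4 := h x y
  have e1 : x + z - y = x - y + z := by abel
  have e2 : x - (y + z) = x - y - z := by abel
  have e3 : x + (y + z) = x + y + z := by abel
  have e4 : x + z + y = x + y + z := by abel
  rw [e1, e4] at h1
  rw [e2, e3] at h3
  simp only [Bf]
  linarith

lemma add_right (x y z : G) : Bf f x (y + z) = Bf f x y + Bf f x z := by
  rw [Bf_comm f x, h.add_left, Bf_comm f y, Bf_comm f z]

lemma zero_left (y : G) : Bf f 0 y = 0 := by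
  simp [Bf, h.zero]

lemma zero_right (y : G) : Bf f y 0 = 0 := by
  simp [Bf, h.zero]

lemma neg_left (x y : G) : Bf f (-x) y = -Bf f x y := by
  have := h.add_left x (-x) y
  rw [add_neg_cancel, h.zero_left] at this
  linarith

lemma neg_right (x y : G) : Bf f x (-y) = -Bf f x y := by
  rw [Bf_comm, h.neg_left, Bf_comm]

lemma sub_left (x y z : G) : Bf f (x - y) z = Bf f x z - Bf f y z := by
  rw [sub_eq_add_neg, h.add_left, h.neg_left]; ring

lemma sub_right (x y z : G) : Bf f x (y - z) = Bf f x y - Bf f x z := by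
  rw [sub_eq_add_neg, h.add_right, h.neg_right]; ring

/-- The bilinear form as a bundled homomorphism. -/
def bil : G →+ G →+ ℤ where
  toFun x :=
    { toFun := Bf f x
      map_zero' := h.zero_right x
      map_add' := h.add_right x }
  map_zero' := by ext y; exact h.zero_left y
  map_add' x y := by ext z; exact h.add_left x y z

lemma zsmul_left (n : ℤ) (x y : G) : Bf f (n • x) y = n * Bf f x y := by
  have : h.bil (n • x) y = n • h.bil x y := by
    rw [map_zsmul]; rfl
  change Bf f (n • x) y = n • Bf f x y at this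
  rw [this, smul_eq_mul]

lemma zsmul_right (n : ℤ) (x y : G) : Bf f x (n • y) = n * Bf f x y := by
  rw [Bf_comm, h.zsmul_left, Bf_comm]

lemma self (x : G) : Bf f x x = 2 * f x := by
  have := h x x
  rw [sub_self, h.zero] at this
  simp only [Bf]
  linarith

lemma zsmul (n : ℤ) (x : G) : f (n • x) = n ^ 2 * f x := by
  have h1 := h.self (n • x)
  rw [h.zsmul_left, h.zsmul_right, h.self] at h1
  linarith

/-- Cauchy–Schwarz. -/
lemma cs (hf : ∀ x, 0 ≤ f x) (x y : G) : Bf f x y ^ 2 ≤ 4 * (f x * f y) := by
  -- consider `f (B x - 2 f(x) y)`-like combinations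
  have key : ∀ m n : ℤ, 0 ≤ m ^ 2 * f x + m * n * Bf f x y + n ^ 2 * f y := by
    intro m n
    have := hf (m • x + n • y)
    rw [h.add_eq, h.zsmul, h.zsmul, h.zsmul_left, h.zsmul_right] at this
    linarith
  by_contra hcon
  push Not at hcon
  have k1 := key (-Bf f x y) (2 * f x)
  have k2 := key (2 * f y) (-Bf f x y)
  have e1 : (-Bf f x y) ^ 2 * f x + -Bf f x y * (2 * f x) * Bf f x y + (2 * f x) ^ 2 * f y
      = -(f x) * (Bf f x y ^ 2 - 4 * (f x * f y)) := by ring
  have e2 : (2 * f y) ^ 2 * f x + (2 * f y) * (-Bf f x y) * Bf f x y + (-Bf f x y) ^ 2 * f y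
      = -(f y) * (Bf f x y ^ 2 - 4 * (f x * f y)) := by ring
  rw [e1] at k1
  rw [e2] at k2
  have hx := hf x
  have hy := hf y
  have hpos : 0 < Bf f x y ^ 2 - 4 * (f x * f y) := by linarith
  have hx0 : f x = 0 := by nlinarith
  have hy0 : f y = 0 := by nlinarith
  have k3 := key 1 1
  have k4 := key 1 (-1)
  rw [hx0, hy0] at k3 k4
  have hB : Bf f x y = 0 := by linarith
  rw [hB, hx0, hy0] at hcon
  norm_num at hcon

lemma eq_zero_of_left (hf : ∀ x, 0 ≤ f x) {x : G} (hx : f x = 0) (y : G) : Bf f x y = 0 := by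
  have := h.cs hf x y
  rw [hx, zero_mul, mul_zero] at this
  have h2 : Bf f x y ^ 2 = 0 := le_antisymm this (sq_nonneg _)
  exact pow_eq_zero_iff (two_ne_zero) |>.1 h2

end Par

end Pool.Agent.Hhelper85
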