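import Mathlib
import Pool.Agent.Hhelper85.AddSub

/-!
# Maps between curves given by a field homomorphism and a scaling
-/

namespace Pool.Agent.Hhelper85

open WeierstrassCurve WeierstrassCurve.Affine

variable {K L : Type*} [Field K] [Field L]

lemma nonsingular_iff'' (a b c x y : K) :
    (EC K a b c).Nonsingular x y ↔ y ^ 2 = x ^ 3 + a * x ^ 2 + b * x + c ∧
      (3 * x ^ 2 + 2 * a * x + b ≠ 0 ∨ 2 * y ≠ 0) := by
  rw [WeierstrassCurve.Affine.nonsingular_iff, equation_iff']
  simp only [EC]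
  constructor
  · rintro ⟨h1, h2 | h2⟩
    · exact ⟨h1, Or.inl fun h => h2 (by linear_combination -h)⟩
    · exact ⟨h1, Or.inr fun h => h2 (by linear_combination h)⟩
  · rintro ⟨h1, h2 | h2⟩
    · exact ⟨h1, Or.inl fun h => h2 (by linear_combination -h)⟩
    · exact ⟨h1, Or.inr fun h => h2 (by linear_combination h)⟩

lemma scale_nonsingular (σ : K →+* L) (l : L) (hl : l ≠ 0) {a b c : K} {a' b' c' : L}
    (ha : a' = l ^ 2 * σ a) (hb : b' = l ^ 4 * σ b) (hc : c' = l ^ 6 * σ c) {x y : K}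
    (h : (EC K a b c).Nonsingular x y) :
    (EC L a' b' c').Nonsingular (l ^ 2 * σ x) (l ^ 3 * σ y) := by
  rw [nonsingular_iff''] at h ⊢
  obtain ⟨h1, h2⟩ := h
  subst ha hb hc
  refine ⟨?_, ?_⟩
  · have := congrArg σ h1
    simp only [map_pow, map_add, map_mul] at this
    linear_combination l ^ 6 * this
  · rcases h2 with h2 | h2
    · left
      intro h
      apply h2
      apply σ.injective
      have h3 : l ^ 4 * σ (3 * x ^ 2 + 2 * a * x + b) = 0 := by
        simp only [map_pow, map_add, map_mul, map_ofNat]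
        linear_combination h
      rw [map_zero]
      exact (mul_eq_zero.1 h3).resolve_left (pow_ne_zero _ hl)
    · right
      intro h
      apply h2
      apply σ.injective
      have h3 : l ^ 3 * σ (2 * y) = 0 := by
        simp only [map_mul, map_ofNat]
        linear_combination h
      rw [map_zero]
      exact (mul_eq_zero.1 h3).resolve_left (pow_ne_zero _ hl)

variable [DecidableEq K] [DecidableEq L]

lemma scale_slope (σ : K →+* L) (l : L) (hl : l ≠ 0) {a b c : K} {a' b' c' : L}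
    (ha : a' = l ^ 2 * σ a) (hb : b' = l ^ 4 * σ b) (hc : c' = l ^ 6 * σ c) (x₁ x₂ y₁ y₂ : K) :
    (EC L a' b' c').slope (l ^ 2 * σ x₁) (l ^ 2 * σ x₂) (l ^ 3 * σ y₁) (l ^ 3 * σ y₂)
      = l * σ ((EC K a b c).slope x₁ x₂ y₁ y₂) := by
  subst ha hb hc
  by_cases hx : x₁ = x₂
  · subst hx
    by_cases hy : y₁ = -y₂
    · rw [slope_of_Y_eq rfl (by rw [negY', hy]; simp), slope_of_Y_eq rfl (by rw [negY', hy])]
      simp
    · rw [slope_of_Y_ne rfl (by
        rw [negY']
        intro h
        apply hy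
        apply σ.injective
        rw [map_neg]
        have : l ^ 3 * (σ y₁ + σ y₂) = 0 := by linear_combination h
        have := (mul_eq_zero.1 this).resolve_left (pow_ne_zero _ hl)
        linear_combination this), slope_of_Y_ne rfl (by rw [negY']; exact hy)]
      rw [negY', negY']
      simp only [EC]
      rw [map_div₀]
      simp only [map_sub, map_add, map_mul, map_pow, map_neg, map_ofNat, map_zero]
      rw [show l ^ 3 * σ y₁ - -(l ^ 3 * σ y₁) = l ^ 3 * (σ y₁ - -σ y₁) by ring]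
      rw [show 3 * (l ^ 2 * σ x₁) ^ 2 + 2 * (l ^ 2 * σ a) * (l ^ 2 * σ x₁) + l ^ 4 * σ b
        - 0 * (l ^ 3 * σ y₁) = l ^ 3 * (l * (3 * σ x₁ ^ 2 + 2 * σ a * σ x₁ + σ b - 0 * σ y₁)) by ring]
      rw [mul_div_mul_left _ _ (pow_ne_zero _ hl), mul_div_assoc]
  · have hx' : l ^ 2 * σ x₁ ≠ l ^ 2 * σ x₂ := by
      intro h
      exact hx (σ.injective (mul_left_cancel₀ (pow_ne_zero _ hl) h))
    rw [slope_of_X_ne hx', slope_of_X_ne hx, map_div₀, map_sub, map_sub, ← mul_sub, ← mul_sub,
      show l ^ 3 = l ^ 2 * l by ring, mul_assoc, mul_div_mul_left _ _ (pow_ne_zero _ hl),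
      mul_div_assoc]

/-- The homomorphism on points attached to a field homomorphism and a scaling factor. -/
noncomputable def scale (σ : K →+* L) (l : L) (hl : l ≠ 0) {a b c : K} {a' b' c' : L}
    (ha : a' = l ^ 2 * σ a) (hb : b' = l ^ 4 * σ b) (hc : c' = l ^ 6 * σ c) :
    (EC K a b c).Point →+ (EC L a' b' c').Point where
  toFun P := match P with
    | 0 => 0
    | .some x y h => .some (l ^ 2 * σ x) (l ^ 3 * σ y) (scale_nonsingular σ l hl ha hb hc h)
  map_zero' := rfl
  map_add' := by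
    rintro (_ | ⟨x₁, y₁, h₁⟩) (_ | ⟨x₂, y₂, h₂⟩)
    any_goals rfl
    by_cases hxy : x₁ = x₂ ∧ y₁ = (EC K a b c).negY x₂ y₂
    · rw [Point.add_of_Y_eq hxy.left hxy.right]
      have e1 := hxy.1
      have e2 := hxy.2
      rw [negY'] at e2
      exact (Point.add_of_Y_eq (by rw [e1]) (by rw [negY', e2]; simp)).symm
    · have hxy' : ¬ (l ^ 2 * σ x₁ = l ^ 2 * σ x₂ ∧
          l ^ 3 * σ y₁ = (EC L a' b' c').negY (l ^ 2 * σ x₂) (l ^ 3 * σ y₂)) := by
        rintro ⟨h1, h2⟩
        apply hxy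
        rw [negY'] at h2 ⊢
        refine ⟨σ.injective (mul_left_cancel₀ (pow_ne_zero _ hl) h1), σ.injective ?_⟩
        rw [map_neg]
        apply mul_left_cancel₀ (pow_ne_zero 3 hl)
        rw [h2]; ring
      rw [Point.add_some hxy]
      show _ = Point.some _ _ (scale_nonsingular σ l hl ha hb hc h₁)
        + Point.some _ _ (scale_nonsingular σ l hl ha hb hc h₂)
      rw [Point.add_some hxy']
      show Point.some _ _ _ = Point.some _ _ _
      have hs := scale_slope σ l hl ha hb hc x₁ x₂ y₁ y₂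
      congr 1
      · rw [hs]
        simp only [addX, EC, map_sub, map_add, map_mul, map_pow, map_zero, ha]
        ring
      · rw [hs]
        simp only [addY, negAddY, negY, addX, EC, map_sub, map_add, map_mul, map_pow, map_neg,
          map_zero, ha]
        ring

@[simp] lemma scale_zero (σ : K →+* L) (l : L) (hl : l ≠ 0) {a b c : K} {a' b' c' : L}
    (ha : a' = l ^ 2 * σ a) (hb : b' = l ^ 4 * σ b) (hc : c' = l ^ 6 * σ c) :
    scale σ l hl ha hb hc 0 = 0 := rfl

@[simp] lemma scale_some (σ : K →+* L) (l : L) (hl : l ≠ 0) {a b c : K} {a' b' c' : L}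
    (ha : a' = l ^ 2 * σ a) (hb : b' = l ^ 4 * σ b) (hc : c' = l ^ 6 * σ c) {x y : K}
    (h : (EC K a b c).Nonsingular x y) :
    scale σ l hl ha hb hc (.some x y h) =
      .some (l ^ 2 * σ x) (l ^ 3 * σ y) (scale_nonsingular σ l hl ha hb hc h) := rfl

lemma scale_injective (σ : K →+* L) (l : L) (hl : l ≠ 0) {a b c : K} {a' b' c' : L}
    (ha : a' = l ^ 2 * σ a) (hb : b' = l ^ 4 * σ b) (hc : c' = l ^ 6 * σ c) :
    Function.Injective (scale σ l hl ha hb hc) := by
  rintro (_ | ⟨x₁, y₁, h₁⟩) (_ | ⟨x₂, y₂, h₂⟩) h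
  · rfl
  · cases h
  · cases h
  · change Point.some _ _ _ = Point.some _ _ _ at h
    rw [Point.some.injEq] at h
    obtain ⟨h1, h2⟩ := h
    have e1 := σ.injective (mul_left_cancel₀ (pow_ne_zero _ hl) h1)
    have e2 := σ.injective (mul_left_cancel₀ (pow_ne_zero _ hl) h2)
    subst e1 e2
    rfl

end Pool.Agent.Hhelper85
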