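import Mathlib
import Pool.Agent.Hhelper85.Deg
import Pool.Agent.Hhelper85.Scale
import Pool.Agent.Hhelper85.Quad
import Pool.Agent.Hhelper85.Comp

/-!
# Frobenius on the twisted points
-/

namespace Pool.Agent.Hhelper85

open Polynomial WeierstrassCurve WeierstrassCurve.Affine

variable {F : Type*} [Field F] {K : Type*} [Field K] [Algebra F[X] K] [IsFractionRing F[X] K]

section Psi

variable (p : ℕ) [Fact p.Prime] [CharP K p] (n : ℕ)

omit [IsFractionRing F[X] K] in
lemma cst_pow (hfix : ∀ x : F, x ^ p ^ n = x) (x : F) : (cst K x) ^ p ^ n = cst K x := by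
  rw [cst, ← map_pow, ← C_pow, hfix]

omit [Fact p.Prime] [CharP K p] [Algebra F[X] K] [IsFractionRing F[X] K] in
lemma half_pow (hp : p ≠ 2) [Fact p.Prime] : 2 * ((p ^ n - 1) / 2) = p ^ n - 1 := by
  have hodd : Odd (p ^ n) := ((Fact.out : p.Prime).odd_of_ne_two hp).pow
  obtain ⟨k, hk⟩ := hodd
  rw [hk]; omega

omit [Algebra F[X] K] [IsFractionRing F[X] K] in
lemma lsq (hp : p ≠ 2) [Fact p.Prime] {D : K} (hD : D ≠ 0) :
    ((D ^ ((p ^ n - 1) / 2))⁻¹) ^ 2 * D ^ p ^ n = D := by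
  have h1 : 0 < p ^ n := pow_pos (Fact.out : p.Prime).pos _
  have h2 : (D ^ ((p ^ n - 1) / 2)) ^ 2 * D = D ^ p ^ n := by
    rw [← pow_mul, mul_comm _ 2, half_pow p n hp, ← pow_succ]
    congr 1; omega
  rw [← h2]
  have : (D ^ ((p ^ n - 1) / 2)) ≠ 0 := pow_ne_zero _ hD
  field_simp

variable [DecidableEq K]

/-- The `p ^ n`-Frobenius on the points of the twist by `D`. -/
noncomputable def Psi (hp : p ≠ 2) (hfix : ∀ x : F, x ^ p ^ n = x) {a b c : F} {D : K}
    (hD : D ≠ 0) : (Tw K a b c D).Point →+ (Tw K a b c D).Point :=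
  scale (iterateFrobenius K p n) ((D ^ ((p ^ n - 1) / 2))⁻¹)
    (inv_ne_zero (pow_ne_zero _ hD))
    (by
      rw [iterateFrobenius_def, mul_pow, cst_pow p n hfix, ← mul_assoc, lsq p n hp hD])
    (by
      rw [iterateFrobenius_def, mul_pow, cst_pow p n hfix, ← mul_assoc]
      congr 1
      calc D ^ 2 = (((D ^ ((p ^ n - 1) / 2))⁻¹) ^ 2 * D ^ p ^ n) ^ 2 := by rw [lsq p n hp hD]
        _ = _ := by ring)
    (by
      rw [iterateFrobenius_def, mul_pow, cst_pow p n hfix, ← mul_assoc]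
      congr 1
      calc D ^ 3 = (((D ^ ((p ^ n - 1) / 2))⁻¹) ^ 2 * D ^ p ^ n) ^ 3 := by rw [lsq p n hp hD]
        _ = _ := by ring)

lemma coprime_X_pow_one (m : ℕ) : IsCoprime (X ^ m : F[X]) 1 := isCoprime_one_right

omit [IsFractionRing F[X] K] [DecidableEq K] [Fact p.Prime] [CharP K p] in
lemma HasHt.pow' {x y : K} {k : ℕ} (m : ℕ) (h : HasHt (F := F) ![x, y] k) :
    HasHt (F := F) ![x ^ m, y ^ m] (m * k) := by
  have h1 := h.comp (coprime_X_pow_one m) (n := m) (by rw [natDegree_X_pow]) (by simp)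
    (Or.inl (by rw [coeff_X_pow_self]; exact one_ne_zero))
  have e1 : hm ((X ^ m : F[X]).map ((algebraMap F[X] K).comp C)) m x y = x ^ m := by
    rw [Polynomial.map_pow, map_X, hm, Finset.sum_eq_single m]
    · simp
    · intro i _ hi
      rw [coeff_X_pow, if_neg hi]; simp
    · intro h; exact absurd (Finset.mem_range.2 (Nat.lt_succ_self m)) h
  have e2 : hm ((1 : F[X]).map ((algebraMap F[X] K).comp C)) m x y = y ^ m := by
    rw [Polynomial.map_one, hm, Finset.sum_eq_single 0]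
    · simp
    · intro i _ hi
      rw [coeff_one, if_neg hi]; simp
    · intro h; exact absurd (Finset.mem_range.2 (Nat.succ_pos m)) h
  rw [e1, e2] at h1
  exact h1

lemma deg_Psi (hp : p ≠ 2) (hfix : ∀ x : F, x ^ p ^ n = x) {a b c : F} {D : K}
    (hD : D ≠ 0) (P : (Tw K a b c D).Point) :
    deg (Psi p n hp hfix hD P) = p ^ n * deg P := by
  apply deg_eq_of_hasHt hD
  have h := hasHt_deg hD P
  cases P with
  | zero =>
    rw [← Point.zero_def] at h ⊢
    rw [map_zero, deg_zero hD, mul_zero, ← deg_zero (a := a) (b := b) (c := c) hD]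
    exact hasHt_deg hD 0
  | some x y hns =>
    rw [uv_some] at h
    have h2 := h.pow' (p ^ n)
    apply h2.smul (c := ((D ^ ((p ^ n - 1) / 2))⁻¹) ^ 2)
      (pow_ne_zero _ (inv_ne_zero (pow_ne_zero _ hD)))
    intro i
    have e : Psi p n hp hfix hD (Point.some x y hns) = _ := scale_some _ _ _ _ _ _ hns
    rw [e, uv_some]
    fin_cases i
    · simp [iterateFrobenius_def]
    · simp only [Fin.mk_one, Matrix.cons_val_one, Matrix.cons_val_zero]
      rw [lsq p n hp hD]

end Psi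

end Pool.Agent.Hhelper85
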