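import Mathlib
import Pool.Agent.Hhelper85.Height2

/-!
# The polynomials describing `x(φ - 1)`
-/

set_option linter.unusedSectionVars false

namespace Pool.Agent.Hhelper85

open Polynomial

variable {F : Type*} [Field F] [Fintype F] [DecidableEq F]

/-- The cubic. -/
noncomputable def fp {R : Type*} [CommRing R] (a b c : R) : R[X] :=
  X ^ 3 + C a * X ^ 2 + C b * X + C c

lemma fp_eval {R : Type*} [CommRing R] (a b c x : R) :
    (fp a b c).eval x = x ^ 3 + a * x ^ 2 + b * x + c := by
  simp [fp]

lemma prod_X_sub_C' : ∏ x : F, (X - C x : F[X]) = X ^ Fintype.card F - X := by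
  have hdeg := FiniteField.X_pow_card_sub_X_natDegree_eq F (Fintype.one_lt_card (α := F))
  have hroots := FiniteField.roots_X_pow_card_sub_X F
  have hmonic : (X ^ Fintype.card F - X : F[X]).Monic :=
    monic_X_pow_sub (by rw [degree_X]; exact_mod_cast Fintype.one_lt_card (α := F))
  have := prod_multiset_X_sub_C_of_monic_of_roots_card_eq hmonic
    (by rw [hroots, hdeg]; simp)
  rw [hroots] at this
  exact this

/-- The multiplicity `e x`. -/
noncomputable def ex (a b c x : F) : ℕ :=
  if (fp a b c).eval x = 0 then 1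
  else if ((fp a b c).eval x) ^ ((Fintype.card F - 1) / 2) = 1 then 0 else 2

lemma ex_le (a b c x : F) : ex a b c x ≤ 2 := by
  unfold ex; split_ifs <;> omega

noncomputable def Npoly (a b c : F) : F[X] :=
  fp a b c * (fp a b c ^ ((Fintype.card F - 1) / 2) + 1) ^ 2
    - (C a + X ^ Fintype.card F + X) * (X ^ Fintype.card F - X) ^ 2

noncomputable def Mpoly (F : Type*) [Field F] [Fintype F] : F[X] := (X ^ Fintype.card F - X) ^ 2

noncomputable def gpoly (a b c : F) : F[X] := ∏ x : F, (X - C x) ^ ex a b c x

noncomputable def M0poly (a b c : F) : F[X] := ∏ x : F, (X - C x) ^ (2 - ex a b c x)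

/-- Number of points, in terms of `ex`. -/
noncomputable def Npt (a b c : F) : ℕ := 1 + ∑ x : F, (2 - ex a b c x)

lemma M_eq (a b c : F) : Mpoly F = gpoly a b c * M0poly a b c := by
  rw [Mpoly, ← prod_X_sub_C', gpoly, M0poly, ← Finset.prod_mul_distrib, ← Finset.prod_pow]
  apply Finset.prod_congr rfl
  intro x _
  rw [← pow_add]
  congr 1
  have := ex_le a b c x
  omega

lemma natDegree_prod_pow (e : F → ℕ) : (∏ x : F, (X - C x : F[X]) ^ e x).natDegree = ∑ x : F, e x := by
  rw [natDegree_prod_of_monic _ _ (fun x _ => (monic_X_sub_C x).pow _)]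
  apply Finset.sum_congr rfl
  intro x _
  rw [(monic_X_sub_C x).natDegree_pow, natDegree_X_sub_C, mul_one]

lemma natDegree_fp (a b c : F) : (fp a b c).natDegree ≤ 3 := by
  unfold fp
  compute_degree

lemma card_odd (h2 : (2 : F) ≠ 0) : 2 * ((Fintype.card F - 1) / 2) + 1 = Fintype.card F := by
  have hchar : ringChar F ≠ 2 := by
    intro h
    apply h2
    have := CharP.cast_eq_zero F (ringChar F)
    rw [h] at this
    exact_mod_cast this
  have hodd := FiniteField.odd_card_of_char_ne_two hchar
  omega

lemma half_pos (h2 : (2 : F) ≠ 0) : 1 ≤ (Fintype.card F - 1) / 2 := by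
  have h := card_odd h2
  have := Fintype.one_lt_card (α := F)
  omega

lemma sub_dvd_self (x : F) : (X - C x : F[X]) ∣ X ^ Fintype.card F - X := by
  rw [dvd_iff_isRoot]
  simp [FiniteField.pow_card]

lemma pow_dvd_N (h2 : (2 : F) ≠ 0) (a b c x : F) : (X - C x) ^ ex a b c x ∣ Npoly a b c := by
  unfold Npoly
  unfold ex
  split_ifs with h h'
  · rw [pow_one]
    apply dvd_sub
    · apply Dvd.dvd.mul_right
      rw [dvd_iff_isRoot]; exact h
    · apply Dvd.dvd.mul_left
      exact (sub_dvd_self x).trans (dvd_pow_self _ two_ne_zero)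
  · rw [pow_zero]; exact one_dvd _
  · apply dvd_sub
    · apply Dvd.dvd.mul_left
      apply pow_dvd_pow_of_dvd
      rw [dvd_iff_isRoot]
      have h1 : ((fp a b c).eval x) ^ ((Fintype.card F - 1) / 2) = -1 := by
        have hsq : (((fp a b c).eval x) ^ ((Fintype.card F - 1) / 2)) ^ 2 = 1 := by
          rw [← pow_mul, mul_comm]
          have := card_odd h2
          have h3 : 2 * ((Fintype.card F - 1) / 2) = Fintype.card F - 1 := by omega
          rw [h3, FiniteField.pow_card_sub_one_eq_one _ h]
        have : (((fp a b c).eval x) ^ ((Fintype.card F - 1) / 2) - 1) *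
            (((fp a b c).eval x) ^ ((Fintype.card F - 1) / 2) + 1) = 0 := by
          linear_combination hsq
        rcases mul_eq_zero.1 this with h4 | h4
        · exact absurd (by linear_combination h4) h'
        · linear_combination h4
      rw [IsRoot.def, eval_add, eval_pow, h1, eval_one]; ring
    · apply Dvd.dvd.mul_left
      apply pow_dvd_pow_of_dvd
      exact sub_dvd_self x

lemma g_dvd_N (h2 : (2 : F) ≠ 0) (a b c : F) : gpoly a b c ∣ Npoly a b c := by
  unfold gpoly
  apply Finset.prod_dvd_of_coprime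
  · intro x _ y _ hxy
    apply IsCoprime.pow
    exact isCoprime_X_sub_C_of_isUnit_sub (sub_ne_zero.2 hxy).isUnit
  · intro x _
    exact pow_dvd_N h2 a b c x

noncomputable def N0poly (h2 : (2 : F) ≠ 0) (a b c : F) : F[X] := (g_dvd_N h2 a b c).choose

lemma N_eq (h2 : (2 : F) ≠ 0) (a b c : F) :
    Npoly a b c = gpoly a b c * N0poly h2 a b c := (g_dvd_N h2 a b c).choose_spec

lemma fp_pow_card (a b c : F) :
    (fp a b c) ^ Fintype.card F = X ^ (3 * Fintype.card F) + C a * X ^ (2 * Fintype.card F)
      + C b * X ^ Fintype.card F + C c := by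
  obtain ⟨p, hp⟩ := CharP.exists F
  obtain ⟨n, hprime, hcard⟩ := FiniteField.card F p
  have := Fact.mk hprime
  rw [hcard, fp, add_pow_char_pow, add_pow_char_pow, add_pow_char_pow, mul_pow, mul_pow,
    ← C_pow, ← C_pow, ← C_pow, ← hcard, FiniteField.pow_card, FiniteField.pow_card,
    FiniteField.pow_card, ← pow_mul, ← pow_mul]

lemma natDegree_N (h2 : (2 : F) ≠ 0) (a b c : F) :
    (Npoly a b c).natDegree = 2 * Fintype.card F + 1 := by
  have hc := card_odd h2
  have hh := half_pos h2
  set q := Fintype.card F with hq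
  set h := (q - 1) / 2 with hh'
  have key : Npoly a b c = X ^ (2 * q + 1) + (X ^ (q + 2) + C (2 * a) * X ^ (q + 1)
      + C b * X ^ q + C c + 2 * fp a b c ^ (h + 1) + C b * X + C c) := by
    have e1 : fp a b c * fp a b c ^ (2 * h) = X ^ (3 * q) + C a * X ^ (2 * q)
      + C b * X ^ q + C c := by
      rw [← fp_pow_card a b c, ← hq, ← hc]; ring
    have e2 : Npoly a b c = fp a b c * fp a b c ^ (2 * h) + 2 * fp a b c ^ (h + 1) + fp a b c
        - (C a + X ^ q + X) * (X ^ q - X) ^ 2 := by
      rw [Npoly]; ring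
    rw [e2, e1, fp]
    simp only [C_mul, map_ofNat]
    ring
  rw [key, natDegree_add_eq_left_of_natDegree_lt]
  · rw [natDegree_X_pow]
  · rw [natDegree_X_pow]
    apply Nat.lt_succ_of_le
    have hf : (fp a b c ^ (h + 1)).natDegree ≤ 2 * q := by
      calc (fp a b c ^ (h + 1)).natDegree ≤ (h + 1) * (fp a b c).natDegree := natDegree_pow_le
        _ ≤ (h + 1) * 3 := Nat.mul_le_mul_left _ (natDegree_fp a b c)
        _ ≤ 2 * q := by omega
    have b1 : (X ^ (q + 2) : F[X]).natDegree ≤ 2 * q := by
      rw [natDegree_X_pow]; omega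
    have b2 : (C (2 * a) * X ^ (q + 1) : F[X]).natDegree ≤ 2 * q :=
      (natDegree_C_mul_X_pow_le _ _).trans (by omega)
    have b3 : (C b * X ^ q : F[X]).natDegree ≤ 2 * q :=
      (natDegree_C_mul_X_pow_le _ _).trans (by omega)
    have b4 : (C c : F[X]).natDegree ≤ 2 * q := by rw [natDegree_C]; omega
    have b5 : (2 * fp a b c ^ (h + 1)).natDegree ≤ 2 * q := by
      have : (2 : F[X]) = C 2 := (map_ofNat C 2).symm
      rw [this]
      exact (natDegree_C_mul_le _ _).trans hf
    have b6 : (C b * X : F[X]).natDegree ≤ 2 * q :=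
      (natDegree_C_mul_le _ _).trans (natDegree_X_le.trans (by omega))
    exact natDegree_add_le_of_degree_le (natDegree_add_le_of_degree_le
      (natDegree_add_le_of_degree_le (natDegree_add_le_of_degree_le
        (natDegree_add_le_of_degree_le (natDegree_add_le_of_degree_le b1 b2) b3) b4) b5) b6) b4

lemma N_ne_zero (h2 : (2 : F) ≠ 0) (a b c : F) : Npoly a b c ≠ 0 := by
  intro h
  have := natDegree_N h2 a b c
  rw [h, natDegree_zero] at this
  omega

lemma sum_ex (a b c : F) : ∑ x : F, ex a b c x + ∑ x : F, (2 - ex a b c x) = 2 * Fintype.card F := by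
  rw [← Finset.sum_add_distrib]
  have : ∀ x ∈ (Finset.univ : Finset F), ex a b c x + (2 - ex a b c x) = 2 := by
    intro x _
    have := ex_le a b c x
    omega
  rw [Finset.sum_congr rfl this]
  simp [mul_comm]

lemma natDegree_N0 (h2 : (2 : F) ≠ 0) (a b c : F) : (N0poly h2 a b c).natDegree = Npt a b c := by
  have h1 := N_eq h2 a b c
  have hN := N_ne_zero h2 a b c
  have hg : gpoly a b c ≠ 0 := by
    intro h; rw [h, zero_mul] at h1; exact hN h1
  have hN0 : N0poly h2 a b c ≠ 0 := by
    intro h; rw [h, mul_zero] at h1; exact hN h1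
  have h3 := natDegree_mul hg hN0
  rw [← h1, natDegree_N h2, gpoly, natDegree_prod_pow] at h3
  have := sum_ex a b c
  unfold Npt
  omega

lemma natDegree_M0 (a b c : F) : (M0poly a b c).natDegree ≤ Npt a b c := by
  rw [M0poly, natDegree_prod_pow, Npt]; omega

lemma N0_coeff (h2 : (2 : F) ≠ 0) (a b c : F) : (N0poly h2 a b c).coeff (Npt a b c) ≠ 0 := by
  rw [← natDegree_N0 h2 a b c]
  have h1 := N_eq h2 a b c
  have hN := N_ne_zero h2 a b c
  have hN0 : N0poly h2 a b c ≠ 0 := by
    intro h; rw [h, mul_zero] at h1; exact hN h1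
  exact leadingCoeff_ne_zero.2 hN0

/-- If `f(x) = 0` then `f'(x) ≠ 0`. -/
lemma deriv_ne {a b c : F} (hd : dsc a b c ≠ 0) {x : F}
    (hx : x ^ 3 + a * x ^ 2 + b * x + c = 0) : 3 * x ^ 2 + 2 * a * x + b ≠ 0 := by
  intro h
  apply hd
  have hc : c = -(x ^ 3 + a * x ^ 2 + b * x) := by linear_combination hx
  have hb : b = -(3 * x ^ 2 + 2 * a * x) := by linear_combination h
  subst hc
  subst hb
  simp only [dsc]
  ring

lemma coprime_N0_M0 (h2 : (2 : F) ≠ 0) {a b c : F} (hd : dsc a b c ≠ 0) :
    IsCoprime (N0poly h2 a b c) (M0poly a b c) := by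
  rw [M0poly]
  apply IsCoprime.prod_right
  intro x _
  by_cases he : ex a b c x = 2
  · rw [he]; simp [isCoprime_one_right]
  · apply IsCoprime.pow_right
    -- `N0.eval x ≠ 0`
    have hroot : ¬ (X - C x) ∣ N0poly h2 a b c := by
      intro hdvd
      have hpow : (X - C x) ^ ex a b c x ∣ gpoly a b c := by
        rw [gpoly]
        exact Finset.dvd_prod_of_mem (fun x => (X - C x) ^ ex a b c x) (Finset.mem_univ x)
      have h3 : (X - C x) ^ (ex a b c x + 1) ∣ Npoly a b c := by
        rw [pow_succ, N_eq h2]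
        exact mul_dvd_mul hpow hdvd
      unfold ex at he h3
      split_ifs at he h3 with h h'
      · -- `f(x) = 0`
        have hsq : (X - C x) ^ 2 ∣ fp a b c * (fp a b c ^ ((Fintype.card F - 1) / 2) + 1) ^ 2 := by
          have h4 : (X - C x) ^ 2 ∣ (C a + X ^ Fintype.card F + X) * (X ^ Fintype.card F - X) ^ 2 :=
            Dvd.dvd.mul_left (pow_dvd_pow_of_dvd (sub_dvd_self x) 2) _
          have h5 := dvd_add h3 h4
          rw [Npoly, sub_add_cancel] at h5
          exact h5
        have hcop : IsCoprime ((X - C x) ^ 2) ((fp a b c ^ ((Fintype.card F - 1) / 2) + 1) ^ 2) := by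
          apply IsCoprime.pow
          apply (irreducible_X_sub_C x).coprime_iff_not_dvd.2
          rw [dvd_iff_isRoot, IsRoot.def, eval_add, eval_pow, h, eval_one,
            zero_pow (by have := half_pos h2; omega), zero_add]
          exact one_ne_zero
        have h6 := hcop.dvd_of_dvd_mul_right hsq
        -- so `f'(x) = 0`
        obtain ⟨r, hr⟩ := h6
        have h7 : (derivative (fp a b c)).eval x = 0 := by
          rw [hr, derivative_mul, derivative_pow]
          simp
        have h8 : (derivative (fp a b c)).eval x = 3 * x ^ 2 + 2 * a * x + b := by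
          simp [fp, derivative_pow]
          ring
        rw [fp_eval] at h
        rw [h8] at h7
        exact deriv_ne hd h h7
      · -- residue
        rw [zero_add, pow_one, dvd_iff_isRoot, IsRoot.def, Npoly] at h3
        simp only [eval_sub, eval_mul, eval_pow, eval_add, eval_one, eval_C, eval_X] at h3
        rw [h', FiniteField.pow_card, sub_self] at h3
        have h9 : (fp a b c).eval x * 4 = 0 := by linear_combination h3
        have h4ne : (4 : F) ≠ 0 := by
          have : (4 : F) = 2 * 2 := by norm_num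
          rw [this]; exact mul_ne_zero h2 h2
        exact (mul_ne_zero h h4ne) h9
      · exact he rfl
    exact ((irreducible_X_sub_C x).coprime_iff_not_dvd.2 hroot).symm

end Pool.Agent.Hhelper85
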