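import Mathlib
import Pool.Agent.Hhelper85.Frob
import Pool.Agent.Hhelper85.FrobPoly

/-!
# `deg (φ C - C) = N · deg C`
-/

set_option linter.unusedSectionVars false

namespace Pool.Agent.Hhelper85

open Polynomial WeierstrassCurve WeierstrassCurve.Affine

variable {F : Type*} [Field F] [Fintype F] [DecidableEq F]
variable {K : Type*} [Field K] [Algebra F[X] K] [IsFractionRing F[X] K] [DecidableEq K]
variable (p : ℕ) [Fact p.Prime] [CharP K p] (n : ℕ)

lemma mem_of_pow_eq {u : K} (hu : u ^ Fintype.card F = u) : ∃ e : F, u = cst K e := by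
  have h := congrArg (fun r => (r.map ((algebraMap F[X] K).comp C)).eval u) (prod_X_sub_C' (F := F))
  simp only [Polynomial.map_prod, Polynomial.map_sub, map_X, map_C, eval_prod, eval_sub, eval_X,
    eval_C, Polynomial.map_pow, eval_pow, hu, sub_self] at h
  rw [Finset.prod_eq_zero_iff] at h
  obtain ⟨e, -, he⟩ := h
  exact ⟨e, sub_eq_zero.1 he⟩

lemma deg_of_const {a b c : F} {D : K} (hD : D ≠ 0) {x y : K}
    (h : (Tw K a b c D).Nonsingular x y) {e : F} (he : x = D * cst K e) :
    deg (Point.some x y h : (Tw K a b c D).Point) = 0 := by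
  apply deg_eq_of_hasHt hD
  rw [uv_some]
  refine ⟨![C e, 1], D, hD, ?_, ?_, ?_⟩
  · intro i
    fin_cases i
    · exact he
    · simp
  · rw [Ideal.eq_top_iff_one]
    exact Ideal.subset_span ⟨1, rfl⟩
  · apply Nat.le_zero.1
    apply md_le
    intro i; fin_cases i <;> simp

lemma deg_two {a b c : F} (hd : dsc a b c ≠ 0) {D : K} (hD : D ≠ 0) (P : (Tw K a b c D).Point)
    (hP : deg P = 0) : deg (P + P) = 0 := by
  have := parallelogram hd hD P P
  rw [sub_self, deg_zero hD, hP] at this
  omega

theorem deg_Psi_sub (hp : p ≠ 2) (hfix : ∀ x : F, x ^ p ^ n = x) (hq : p ^ n = Fintype.card F)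
    (h2 : (2 : F) ≠ 0) {a b c : F} (hd : dsc a b c ≠ 0) {D : K} (hD : D ≠ 0)
    (P : (Tw K a b c D).Point) :
    deg (Psi p n hp hfix hD P - P) = Npt a b c * deg P := by
  cases P with
  | zero => rw [← Point.zero_def, map_zero, sub_zero, deg_zero hD, mul_zero]
  | some x y hns =>
    have heq := ((nonsingular_iff'' _ _ _ _ _).1 hns).1
    set l : K := (D ^ ((p ^ n - 1) / 2))⁻¹ with hl
    have hl2 : l ^ 2 * D ^ p ^ n = D := lsq p n hp hD
    have hΨ : Psi p n hp hfix hD (Point.some x y hns) = Point.some _ _ _ :=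
      scale_some _ _ _ _ _ _ hns
    rw [hΨ]
    simp only [iterateFrobenius_def]
    -- normalised coordinates
    obtain ⟨u, hu⟩ : ∃ u, u = x / D := ⟨_, rfl⟩
    obtain ⟨s, hs⟩ : ∃ s, s = y / D ^ 2 := ⟨_, rfl⟩
    have hx : x = D * u := by rw [hu]; field_simp
    have hy : y = D ^ 2 * s := by rw [hs]; field_simp
    obtain ⟨w, hw⟩ : ∃ w, w = u ^ 3 + cst K a * u ^ 2 + cst K b * u + cst K c := ⟨_, rfl⟩
    have hsw : D * s ^ 2 = w := by
      rw [hx, hy] at heq
      have h3 : D ^ 3 * (D * s ^ 2) = D ^ 3 * w := by rw [hw]; linear_combination heq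
      exact mul_left_cancel₀ (pow_ne_zero 3 hD) h3
    obtain ⟨m, hm⟩ : ∃ m, m = (p ^ n - 1) / 2 := ⟨_, rfl⟩
    have hpn : p ^ n = 2 * m + 1 := by
      have h1 := half_pow p n hp
      have h3 : 0 < p ^ n := pow_pos (Fact.out : p.Prime).pos _
      omega
    have hlD : l * D ^ m = 1 := by
      rw [hl, ← hm]; exact inv_mul_cancel₀ (pow_ne_zero _ hD)
    have hx1 : l ^ 2 * x ^ p ^ n = D * u ^ p ^ n := by
      rw [hx, mul_pow, ← mul_assoc, hl2]
    have hy1 : l ^ 3 * y ^ p ^ n = D ^ 2 * s * w ^ m := by
      rw [hy, ← hsw, hpn]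
      have e1 : l ^ 3 * D ^ (3 * m) = 1 := by
        rw [mul_comm 3 m, pow_mul, ← mul_pow, hlD, one_pow]
      calc l ^ 3 * (D ^ 2 * s) ^ (2 * m + 1)
          = (l ^ 3 * D ^ (3 * m)) * (D ^ 2 * s * (D * s ^ 2) ^ m) := by
            rw [mul_pow, mul_pow, ← pow_mul, ← pow_mul]
            ring
        _ = _ := by rw [e1, one_mul]
    by_cases hxx : l ^ 2 * x ^ p ^ n = x
    · -- constant case
      have hu' : u ^ Fintype.card F = u := by
        rw [hx1, hx, hq] at hxx
        exact mul_left_cancel₀ hD hxx
      obtain ⟨e, he⟩ := mem_of_pow_eq hu'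
      have hdeg : deg (Point.some x y hns : (Tw K a b c D).Point) = 0 :=
        deg_of_const hD hns (by rw [hx, he])
      rw [hdeg, mul_zero]
      have hor := (Point.X_eq_iff (h₁ := scale_nonsingular (iterateFrobenius K p n) l
        (inv_ne_zero (pow_ne_zero _ hD))
        (a' := D * cst K a) (b' := D ^ 2 * cst K b) (c' := D ^ 3 * cst K c)
        (by
          rw [iterateFrobenius_def, mul_pow, cst_pow p n hfix, ← mul_assoc, hl2])
        (by
          rw [iterateFrobenius_def, mul_pow, cst_pow p n hfix, ← mul_assoc]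
          congr 1
          calc D ^ 2 = (l ^ 2 * D ^ p ^ n) ^ 2 := by rw [hl2]
            _ = _ := by ring)
        (by
          rw [iterateFrobenius_def, mul_pow, cst_pow p n hfix, ← mul_assoc]
          congr 1
          calc D ^ 3 = (l ^ 2 * D ^ p ^ n) ^ 3 := by rw [hl2]
            _ = _ := by ring) hns) (h₂ := hns)).1
        (by rw [iterateFrobenius_def]; exact hxx)
      simp only [iterateFrobenius_def] at hor
      rcases hor with h | h
      · rw [h, sub_self, deg_zero hD]
      · rw [h]
        have e1 : -(Point.some x y hns : (Tw K a b c D).Point) - Point.some x y hns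
            = -(Point.some x y hns + Point.some x y hns) := by abel
        rw [e1, deg_neg hD]
        exact deg_two hd hD _ hdeg
    · -- general case
      have huu : u ^ p ^ n - u ≠ 0 := by
        intro h
        apply hxx
        rw [hx1, hx, sub_eq_zero.1 h]
      apply deg_eq_of_hasHt hD
      rw [sub_eq_add_neg, Point.neg_some, Point.add_of_X_ne hxx, uv_some]
      -- height of `(u : 1)`
      have hu1 : HasHt (F := F) ![u, 1] (deg (Point.some x y hns : (Tw K a b c D).Point)) := by
        have h := hasHt_deg hD (Point.some x y hns : (Tw K a b c D).Point)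
        rw [uv_some] at h
        apply h.smul (inv_ne_zero hD)
        intro i
        fin_cases i
        · simp only [Fin.zero_eta, Matrix.cons_val_zero]; rw [hx]; field_simp
        · simp only [Fin.mk_one, Matrix.cons_val_one, Matrix.cons_val_zero]; field_simp
      have hcomp := hu1.comp (coprime_N0_M0 h2 hd) (n := Npt a b c)
        (by rw [natDegree_N0]) (natDegree_M0 a b c) (Or.inl (N0_coeff h2 a b c))
      rw [hm_eval (natDegree_map_le.trans (by rw [natDegree_N0])),
        hm_eval (natDegree_map_le.trans (natDegree_M0 a b c))] at hcomp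
      -- evaluations
      set φ : F →+* K := (algebraMap F[X] K).comp C with hφ
      have eN : ((Npoly a b c).map φ).eval u
          = ((gpoly a b c).map φ).eval u * ((N0poly h2 a b c).map φ).eval u := by
        rw [N_eq h2, Polynomial.map_mul, eval_mul]
      have eM : ((Mpoly F).map φ).eval u
          = ((gpoly a b c).map φ).eval u * ((M0poly a b c).map φ).eval u := by
        rw [M_eq a b c, Polynomial.map_mul, eval_mul]
      have eM' : ((Mpoly F).map φ).eval u = (u ^ p ^ n - u) ^ 2 := by
        simp [Mpoly, hq]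
      have hcst : ∀ z : F, φ z = cst K z := fun z => rfl
      have ef : ((fp a b c).map φ).eval u = w := by
        simp [fp, hcst, hw]
      have eN' : ((Npoly a b c).map φ).eval u
          = w * (w ^ m + 1) ^ 2 - (cst K a + u ^ p ^ n + u) * (u ^ p ^ n - u) ^ 2 := by
        rw [Npoly]
        simp only [Polynomial.map_sub, Polynomial.map_mul, Polynomial.map_pow, Polynomial.map_add,
          Polynomial.map_one, eval_sub, eval_mul, eval_pow, eval_add, eval_one, ef, map_C, map_X,
          eval_C, eval_X, hcst, ← hq, hm]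
      have hM0 : ((Mpoly F).map φ).eval u ≠ 0 := by rw [eM']; exact pow_ne_zero _ huu
      have hg0 : ((gpoly a b c).map φ).eval u ≠ 0 := by
        intro h; rw [eM, h, zero_mul] at hM0; exact hM0 rfl
      have hM00 : ((M0poly a b c).map φ).eval u ≠ 0 := by
        intro h; rw [eM, h, mul_zero] at hM0; exact hM0 rfl
      apply hcomp.smul (c := D / ((M0poly a b c).map φ).eval u) (div_ne_zero hD hM00)
      intro i
      fin_cases i
      · simp only [Fin.zero_eta, Matrix.cons_val_zero]
        -- x₃ * M0 = D * N0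
        have hmain : (Tw K a b c D).addX (l ^ 2 * x ^ p ^ n) x
            ((Tw K a b c D).slope (l ^ 2 * x ^ p ^ n) x (l ^ 3 * y ^ p ^ n)
              ((Tw K a b c D).negY x y)) * ((Mpoly F).map φ).eval u
              = D * ((Npoly a b c).map φ).eval u := by
          rw [eM', eN', slope_of_X_ne hxx, negY', hx1, hy1]
          simp only [addX, EC]
          rw [hx, hy]
          have e1 : D ^ 2 * s * w ^ m - -(D ^ 2 * s) = D * (D * s * (w ^ m + 1)) := by ring
          have e2 : D * u ^ p ^ n - D * u = D * (u ^ p ^ n - u) := by ring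
          rw [e1, e2, mul_div_mul_left _ _ hD]
          have e3 : D ^ 2 * s ^ 2 = D * w := by rw [← hsw]; ring
          field_simp
          linear_combination (w ^ m + 1) ^ 2 * hsw
        rw [eM, eN] at hmain
        have h3 : (Tw K a b c D).addX (l ^ 2 * x ^ p ^ n) x
            ((Tw K a b c D).slope (l ^ 2 * x ^ p ^ n) x (l ^ 3 * y ^ p ^ n)
              ((Tw K a b c D).negY x y)) * ((M0poly a b c).map φ).eval u
              = D * ((N0poly h2 a b c).map φ).eval u := by
          apply mul_left_cancel₀ hg0
          linear_combination hmain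
        rw [div_mul_eq_mul_div, eq_div_iff hM00]
        exact h3
      · simp only [Fin.mk_one, Matrix.cons_val_one, Matrix.cons_val_zero]
        rw [div_mul_cancel₀ _ hM00]

end Pool.Agent.Hhelper85
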