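import Mathlib
import Pool.Agent.Hhelper85.Weil

/-!
# The trace recursion and the Hasse bound
-/

set_option linter.unusedSectionVars false

namespace Pool.Agent.Hhelper85

open Polynomial WeierstrassCurve WeierstrassCurve.Affine

section abstract_form

variable {G : Type*} [AddCommGroup G] {f : G → ℤ} (h : Par f) (hf : ∀ x, 0 ≤ f x)
  (ψ : G →+ G) (q N : ℤ) (hq : ∀ x, f (ψ x) = q * f x) (hN : ∀ x, f (ψ x - x) = N * f x)
include h hf hq hN

omit hf hN in
lemma Bf_psi (x y : G) : Bf f (ψ x) (ψ y) = q * Bf f x y := by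
  simp only [Bf, ← map_add, hq]
  ring

omit hf in
lemma Bf_one (x : G) : Bf f (ψ x) x = (q + 1 - N) * f x := by
  have h1 := h.sub_eq (ψ x) x
  rw [hN, hq] at h1
  linarith

omit hf in
lemma Bf_two (x : G) : Bf f (ψ (ψ x)) x = ((q + 1 - N) ^ 2 - 2 * q) * f x := by
  have h1 := hN (ψ x + x)
  rw [map_add] at h1
  have e1 : ψ (ψ x) + ψ x - (ψ x + x) = ψ (ψ x) - x := by abel
  rw [e1, h.sub_eq, h.add_eq, hq, hq, Bf_one h ψ q N hq hN] at h1
  linear_combination -h1

lemma char_zero (x : G) : f (ψ (ψ x) - (q + 1 - N) • ψ x + q • x) = 0 := by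
  have h2 := Bf_two h ψ q N hq hN x
  have h1 := Bf_one h ψ q N hq hN x
  have h3 : Bf f (ψ (ψ x)) (ψ x) = q * ((q + 1 - N) * f x) := by
    rw [Bf_psi h ψ q hq, h1]
  rw [h.add_eq, h.sub_eq, h.sub_left, h.zsmul_right, h.zsmul_right, h.zsmul_right,
    h.zsmul_left, h.zsmul, h.zsmul, hq, hq, h1, h2, h3]
  ring

lemma trace_rec (x y : G) : Bf f (ψ (ψ x)) y = (q + 1 - N) * Bf f (ψ x) y - q * Bf f x y := by
  have h1 := h.eq_zero_of_left hf (char_zero h hf ψ q N hq hN x) y
  rw [h.add_left, h.sub_left, h.zsmul_left, h.zsmul_left] at h1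
  linarith

lemma hasse_abs {x : G} (hx : 0 < f x) : (q + 1 - N) ^ 2 ≤ 4 * q := by
  have h1 := h.cs hf (ψ x) x
  rw [Bf_one h ψ q N hq hN, hq] at h1
  have h2 : (q + 1 - N) ^ 2 * (f x * f x) ≤ 4 * q * (f x * f x) := by linarith
  exact le_of_mul_le_mul_right h2 (mul_pos hx hx)

end abstract_form

variable {F : Type*} [Field F]

section generic

variable (F) in
/-- The rational function field used here. -/
abbrev RF : Type _ := FractionRing F[X]

lemma fp_ne_zero (a b c : F) : fp a b c ≠ 0 := by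
  intro h
  have := congrArg (fun r => r.coeff 3) h
  simp [fp] at this

/-- The generic point parameter `D = f(t)`. -/
noncomputable def Dgen (a b c : F) : RF F := algebraMap F[X] (RF F) (fp a b c)

lemma Dgen_ne (a b c : F) : Dgen a b c ≠ 0 := by
  rw [Dgen, Ne, IsFractionRing.to_map_eq_zero_iff]
  exact fp_ne_zero a b c

lemma gen_eq (a b c : F) : (Dgen a b c ^ 2) ^ 2 =
    (algebraMap F[X] (RF F) X * Dgen a b c) ^ 3
      + (Dgen a b c * cst (RF F) a) * (algebraMap F[X] (RF F) X * Dgen a b c) ^ 2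
      + (Dgen a b c ^ 2 * cst (RF F) b) * (algebraMap F[X] (RF F) X * Dgen a b c)
      + Dgen a b c ^ 3 * cst (RF F) c := by
  have h : Dgen a b c = (algebraMap F[X] (RF F) X) ^ 3
      + cst (RF F) a * (algebraMap F[X] (RF F) X) ^ 2 + cst (RF F) b * (algebraMap F[X] (RF F) X)
      + cst (RF F) c := by
    simp only [Dgen, fp, cst, map_add, map_mul, map_pow]
  linear_combination (Dgen a b c ^ 3) * h

lemma gen_ns (h2 : (2 : F) ≠ 0) (a b c : F) :
    (Tw (RF F) a b c (Dgen a b c)).Nonsingular (algebraMap F[X] (RF F) X * Dgen a b c)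
      (Dgen a b c ^ 2) := by
  rw [nonsingular_iff'']
  refine ⟨gen_eq a b c, Or.inr ?_⟩
  have h2' : (2 : RF F) ≠ 0 := by
    have : (2 : RF F) = cst (RF F) (2 : F) :=
      (map_ofNat ((algebraMap F[X] (RF F)).comp C) 2).symm
    rw [this, cst, Ne, IsFractionRing.to_map_eq_zero_iff, C_eq_zero]
    exact h2
  exact mul_ne_zero h2' (pow_ne_zero _ (Dgen_ne a b c))

/-- The generic point. -/
noncomputable def Pgen (h2 : (2 : F) ≠ 0) (a b c : F) : (Tw (RF F) a b c (Dgen a b c)).Point :=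
  Point.some _ _ (gen_ns h2 a b c)

lemma deg_Pgen (h2 : (2 : F) ≠ 0) (a b c : F) : deg (Pgen h2 a b c) = 1 := by
  apply deg_eq_of_hasHt (Dgen_ne a b c)
  rw [Pgen, uv_some]
  refine ⟨![X, 1], Dgen a b c, Dgen_ne a b c, ?_, ?_, ?_⟩
  · intro i; fin_cases i
    · simp [mul_comm]
    · simp
  · rw [Ideal.eq_top_iff_one]
    exact Ideal.subset_span ⟨1, rfl⟩
  · refine md_eq_of (fun i => ?_) 0 ?_
    · fin_cases i
      · show (X : F[X]).natDegree ≤ 1
        exact natDegree_X_le
      · show (1 : F[X]).natDegree ≤ 1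
        rw [natDegree_one]; exact Nat.zero_le _
    · show (X : F[X]).coeff 1 ≠ 0
      rw [coeff_X_one]; exact one_ne_zero

end generic

section base_change

variable {F' : Type*} [Field F'] (i : F →+* F')

/-- Base change of rational functions. -/
noncomputable def bc : RF F →+* RF F' :=
  IsFractionRing.lift (A := F[X]) (K := RF F)
    (g := (algebraMap F'[X] (RF F')).comp (Polynomial.mapRingHom i))
    (by
      intro x y hxy
      have h1 := IsFractionRing.injective F'[X] (RF F') hxy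
      exact Polynomial.map_injective i i.injective h1)

lemma bc_algebraMap (p : F[X]) :
    bc i (algebraMap F[X] (RF F) p) = algebraMap F'[X] (RF F') (p.map i) := by
  rw [bc, IsFractionRing.lift_algebraMap]
  rfl

lemma bc_cst (x : F) : bc i (cst (RF F) x) = cst (RF F') (i x) := by
  rw [cst, bc_algebraMap, map_C]

lemma HasHt.bc {n : ℕ} {w : Fin n → RF F} {k : ℕ} (h : HasHt (F := F) w k) :
    HasHt (F := F') (fun j => Pool.Agent.Hhelper85.bc i (w j)) k := by
  obtain ⟨v, c, hc, hv, hs, hm⟩ := h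
  refine ⟨fun j => (v j).map i, Pool.Agent.Hhelper85.bc i c, (_root_.map_ne_zero _).2 hc, ?_, ?_, ?_⟩
  · intro j
    show Pool.Agent.Hhelper85.bc i (w j) = _ * algebraMap F'[X] (RF F') ((v j).map i)
    rw [hv, map_mul, bc_algebraMap]
  · have h1 : Ideal.map (mapRingHom i) (Ideal.span (Set.range v)) = ⊤ := by
      rw [hs, Ideal.map_top]
    rw [Ideal.map_span] at h1
    rw [← h1]
    congr 1
    ext z
    simp only [Set.mem_range, Set.mem_image, exists_exists_eq_and, coe_mapRingHom]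
  · rw [← hm]
    unfold md
    apply Finset.sup_congr rfl
    intro j _
    exact natDegree_map_eq_of_injective i.injective _

lemma Dgen_bc (a b c : F) : bc i (Dgen a b c) = Dgen (i a) (i b) (i c) := by
  rw [Dgen, bc_algebraMap, Dgen]
  congr 1
  simp [fp]

variable [DecidableEq (RF F)] [DecidableEq (RF F')]

/-- Base change of points. -/
noncomputable def bcP (a b c : F) : (Tw (RF F) a b c (Dgen a b c)).Point →+
    (Tw (RF F') (i a) (i b) (i c) (Dgen (i a) (i b) (i c))).Point :=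
  scale (bc i) 1 one_ne_zero
    (by rw [map_mul, bc_cst, Dgen_bc]; ring)
    (by rw [map_mul, map_pow, bc_cst, Dgen_bc]; ring)
    (by rw [map_mul, map_pow, bc_cst, Dgen_bc]; ring)

lemma bcP_some {a b c : F} {x y : RF F} (h : (Tw (RF F) a b c (Dgen a b c)).Nonsingular x y) :
    ∃ h', bcP i a b c (.some x y h) = .some (bc i x) (bc i y) h' := by
  have e : bcP i a b c (.some x y h) = _ := scale_some _ _ _ _ _ _ h
  have e1 : (1 : RF F') ^ 2 * bc i x = bc i x := by ring
  have e2 : (1 : RF F') ^ 3 * bc i y = bc i y := by ring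
  refine ⟨?_, ?_⟩
  · have := scale_nonsingular (bc i) 1 one_ne_zero
      (a' := Dgen (i a) (i b) (i c) * cst (RF F') (i a))
      (b' := Dgen (i a) (i b) (i c) ^ 2 * cst (RF F') (i b))
      (c' := Dgen (i a) (i b) (i c) ^ 3 * cst (RF F') (i c))
      (by rw [map_mul, bc_cst, Dgen_bc]; ring)
      (by rw [map_mul, map_pow, bc_cst, Dgen_bc]; ring)
      (by rw [map_mul, map_pow, bc_cst, Dgen_bc]; ring) h
    rwa [e1, e2] at this
  · rw [e, Point.some.injEq]
    exact ⟨e1, e2⟩

lemma deg_bcP {a b c : F} (P : (Tw (RF F) a b c (Dgen a b c)).Point) :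
    deg (bcP i a b c P) = deg P := by
  cases P with
  | zero => rw [← Point.zero_def, map_zero, deg_zero (Dgen_ne _ _ _), deg_zero (Dgen_ne _ _ _)]
  | some x y h =>
    obtain ⟨h', e⟩ := bcP_some i h
    rw [e]
    apply deg_eq_of_hasHt (Dgen_ne _ _ _)
    have h1 := (hasHt_deg (Dgen_ne _ _ _) (Point.some x y h)).bc i
    rw [uv_some] at h1 ⊢
    convert h1 using 1
    ext j
    fin_cases j
    · rfl
    · exact (Dgen_bc i a b c).symm

lemma bcP_Pgen (h2 : (2 : F) ≠ 0) (h2' : (2 : F') ≠ 0) (a b c : F) :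
    bcP i a b c (Pgen h2 a b c) = Pgen h2' (i a) (i b) (i c) := by
  rw [Pgen]
  obtain ⟨h', e⟩ := bcP_some i (gen_ns h2 a b c)
  rw [e, Pgen, Point.some.injEq]
  refine ⟨?_, ?_⟩
  · rw [map_mul, Dgen_bc, bc_algebraMap, map_X]
  · rw [map_pow, Dgen_bc]

end base_change

end Pool.Agent.Hhelper85
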