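import Mathlib
import Pool.Agent.Hhelper85.Weil2

/-!
# Traces over extensions of a finite field
-/

set_option linter.unusedSectionVars false

namespace Pool.Agent.Hhelper85

open Polynomial WeierstrassCurve WeierstrassCurve.Affine

section iterate

variable {F : Type*} [Field F] {K : Type*} [Field K] [Algebra F[X] K] [IsFractionRing F[X] K]
  [DecidableEq K] (p : ℕ) [Fact p.Prime] [CharP K p]

lemma Psi_some (n : ℕ) (hp : p ≠ 2) (hfix : ∀ x : F, x ^ p ^ n = x) {a b c : F} {D : K}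
    (hD : D ≠ 0) {x y : K} (h : (Tw K a b c D).Nonsingular x y) :
    ∃ h', Psi p n hp hfix hD (Point.some x y h) =
      Point.some (((D ^ ((p ^ n - 1) / 2))⁻¹) ^ 2 * x ^ p ^ n)
        (((D ^ ((p ^ n - 1) / 2))⁻¹) ^ 3 * y ^ p ^ n) h' := by
  have e : Psi p n hp hfix hD (Point.some x y h) = _ := scale_some _ _ _ _ _ _ h
  simp only [iterateFrobenius_def] at e
  exact ⟨_, e⟩

lemma half_add (n k : ℕ) (hp : p ≠ 2) :
    (p ^ n - 1) / 2 + (p ^ k - 1) / 2 * p ^ n = (p ^ (n + k) - 1) / 2 := by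
  have h1 := half_pow p n hp
  have h2 := half_pow p k hp
  have h3 := half_pow p (n + k) hp
  have hpos : ∀ j, 0 < p ^ j := fun j => pow_pos (Fact.out : p.Prime).pos _
  have := hpos n
  have := hpos k
  have := hpos (n + k)
  set A := (p ^ n - 1) / 2
  set B := (p ^ k - 1) / 2
  set E := (p ^ (n + k) - 1) / 2
  have e1 : p ^ n = 2 * A + 1 := by omega
  have e2 : p ^ k = 2 * B + 1 := by omega
  have e3 : p ^ (n + k) = 2 * E + 1 := by omega
  rw [pow_add, e1, e2] at e3
  rw [e1]
  nlinarith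

lemma Psi_Psi (n k : ℕ) (hp : p ≠ 2) (hn : ∀ x : F, x ^ p ^ n = x) (hk : ∀ x : F, x ^ p ^ k = x)
    (hnk : ∀ x : F, x ^ p ^ (n + k) = x) {a b c : F} {D : K} (hD : D ≠ 0)
    (P : (Tw K a b c D).Point) :
    Psi p n hp hn hD (Psi p k hp hk hD P) = Psi p (n + k) hp hnk hD P := by
  cases P with
  | zero => rw [← Point.zero_def, map_zero, map_zero, map_zero]
  | some x y h =>
    obtain ⟨h1, e1⟩ := Psi_some p k hp hk hD h
    rw [e1]
    obtain ⟨h2, e2⟩ := Psi_some p n hp hn hD h1
    obtain ⟨h3, e3⟩ := Psi_some p (n + k) hp hnk hD h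
    rw [e2, e3, Point.some.injEq]
    have e4 : (D ^ ((p ^ (n + k) - 1) / 2))⁻¹ =
        (D ^ ((p ^ n - 1) / 2))⁻¹ * ((D ^ ((p ^ k - 1) / 2))⁻¹) ^ p ^ n := by
      rw [← half_add p n k hp, pow_add, mul_inv, pow_mul, inv_pow]
    have e5 : ∀ z : K, z ^ p ^ (n + k) = (z ^ p ^ k) ^ p ^ n := by
      intro z; rw [← pow_mul, ← pow_add, add_comm]
    constructor
    · rw [e4, e5]; ring
    · rw [e4, e5]; ring

end iterate

/-- The sequence of traces. -/
def tseq (A q : ℤ) : ℕ → ℤ
  | 0 => 2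
  | 1 => A
  | (m + 2) => A * tseq A q (m + 1) - q * tseq A q m

section trace

variable (F : Type*) [Field F] [Fintype F] [DecidableEq F]

/-- The trace of Frobenius. -/
def tr (a b c : F) : ℤ := -∑ x : F, quadraticChar F (x ^ 3 + a * x ^ 2 + b * x + c)

variable {F}

lemma ringChar_ne (h2 : (2 : F) ≠ 0) : ringChar F ≠ 2 := by
  intro h
  apply h2
  have := CharP.cast_eq_zero F (ringChar F)
  rw [h] at this
  exact_mod_cast this

lemma two_sub_ex (h2 : (2 : F) ≠ 0) (a b c x : F) :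
    ((2 - ex a b c x : ℕ) : ℤ) = 1 + quadraticChar F (x ^ 3 + a * x ^ 2 + b * x + c) := by
  have hc := card_odd h2
  unfold ex
  rw [fp_eval]
  split_ifs with h h'
  · rw [h, MulChar.map_zero]; norm_num
  · have : quadraticChar F (x ^ 3 + a * x ^ 2 + b * x + c) = 1 := by
      rw [quadraticChar_eq_pow_of_char_ne_two (ringChar_ne h2) h, if_pos]
      rw [show Fintype.card F / 2 = (Fintype.card F - 1) / 2 by omega]
      exact h'
    rw [this]; norm_num
  · have : quadraticChar F (x ^ 3 + a * x ^ 2 + b * x + c) = -1 := by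
      rw [quadraticChar_eq_pow_of_char_ne_two (ringChar_ne h2) h, if_neg]
      rw [show Fintype.card F / 2 = (Fintype.card F - 1) / 2 by omega]
      exact h'
    rw [this]; norm_num

lemma Npt_eq (h2 : (2 : F) ≠ 0) (a b c : F) :
    (Npt a b c : ℤ) = Fintype.card F + 1 - tr F a b c := by
  rw [Npt, tr]
  push_cast
  rw [Finset.sum_congr rfl fun x _ => two_sub_ex h2 a b c x, Finset.sum_add_distrib]
  simp
  ring

end trace

section main

lemma par_deg {F : Type*} [Field F] {K : Type*} [Field K] [Algebra F[X] K] [IsFractionRing F[X] K]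
    [DecidableEq K] {a b c : F} (hd : dsc a b c ≠ 0) {D : K} (hD : D ≠ 0) :
    Par (fun P : (Tw K a b c D).Point => (deg P : ℤ)) := by
  intro x y
  have := parallelogram hd hD x y
  simp only
  exact_mod_cast this

variable {F : Type*} [Field F] [Fintype F] [DecidableEq F] {a b c : F}

lemma card_pow (F : Type*) [Field F] [Fintype F] :
    ∃ p n : ℕ, ∃ _ : Fact p.Prime, CharP F p ∧ Fintype.card F = p ^ n ∧ n ≠ 0 := by
  obtain ⟨p, hp⟩ := CharP.exists F
  obtain ⟨n, hprime, hcard⟩ := FiniteField.card F p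
  exact ⟨p, n, ⟨hprime⟩, hp, hcard, n.2.ne'⟩

lemma fix_pow (p n : ℕ) (hq : Fintype.card F = p ^ n) (m : ℕ) (x : F) : x ^ p ^ (n * m) = x := by
  induction m with
  | zero => simp
  | succ m ih =>
    rw [Nat.mul_succ, pow_add, pow_mul, ih, ← hq, FiniteField.pow_card]

section

variable (p n : ℕ) [Fact p.Prime] [CharP F p]

lemma bcP_Psi {F' : Type*} [Field F'] (i : F →+* F') [CharP F' p]
    [DecidableEq (RF F)] [DecidableEq (RF F')] (k : ℕ) (hp : p ≠ 2)
    (hk : ∀ x : F, x ^ p ^ k = x) (hk' : ∀ x : F', x ^ p ^ k = x)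
    (P : (Tw (RF F) a b c (Dgen a b c)).Point) :
    bcP i a b c (Psi p k hp hk (Dgen_ne a b c) P)
      = Psi p k hp hk' (Dgen_ne _ _ _) (bcP i a b c P) := by
  cases P with
  | zero => simp only [← Point.zero_def, map_zero]
  | some x y h =>
    obtain ⟨h1, e1⟩ := Psi_some p k hp hk (Dgen_ne a b c) h
    obtain ⟨h3, e3⟩ := bcP_some i h
    rw [e1, e3]
    obtain ⟨h2, e2⟩ := bcP_some i h1
    obtain ⟨h4, e4⟩ := Psi_some p k hp hk' (Dgen_ne (i a) (i b) (i c)) h3
    rw [e2, e4, Point.some.injEq]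
    simp only [map_mul, map_pow, map_inv₀, Dgen_bc]
    exact ⟨trivial, trivial⟩

end

/-- The Hasse bound. -/
theorem hasse (h2 : (2 : F) ≠ 0) (hd : dsc a b c ≠ 0) :
    (tr F a b c) ^ 2 ≤ 4 * Fintype.card F := by
  classical
  obtain ⟨p, n, hprime, hchar, hcard, hn0⟩ := card_pow F
  have hp : p ≠ 2 := by
    rintro rfl
    exact h2 (by exact_mod_cast CharP.cast_eq_zero F 2)
  have hfix : ∀ x : F, x ^ p ^ n = x := fun x => by rw [← hcard, FiniteField.pow_card]
  have h1 := hasse_abs (par_deg hd (Dgen_ne a b c)) (fun x => Int.natCast_nonneg _)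
    (Psi p n hp hfix (Dgen_ne a b c)) (Fintype.card F) (Npt a b c)
    (fun x => by
      rw [deg_Psi, hcard]; push_cast; ring)
    (fun x => by
      rw [deg_Psi_sub p n hp hfix hcard.symm h2 hd]; push_cast; ring)
    (x := Pgen h2 a b c) (by rw [deg_Pgen]; norm_num)
  rw [Npt_eq h2] at h1
  have e : ((Fintype.card F : ℤ) + 1 - (Fintype.card F + 1 - tr F a b c)) = tr F a b c := by ring
  rwa [e] at h1

/-- The trace over an extension of degree `m`. -/
theorem tr_ext (h2 : (2 : F) ≠ 0) (hd : dsc a b c ≠ 0) {F' : Type*} [Field F'] [Fintype F']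
    [DecidableEq F'] (i : F →+* F') {m : ℕ} (hm0 : m ≠ 0)
    (hm : Fintype.card F' = Fintype.card F ^ m) :
    tr F' (i a) (i b) (i c) = tseq (tr F a b c) (Fintype.card F) m := by
  classical
  obtain ⟨p, n, hprime, hchar, hcard, hn0⟩ := card_pow F
  have hchar' : CharP F' p := charP_of_injective_ringHom i.injective p
  have hp : p ≠ 2 := by
    rintro rfl
    exact h2 (by exact_mod_cast CharP.cast_eq_zero F 2)
  have h2' : (2 : F') ≠ 0 := by
    rw [← map_ofNat i 2]
    exact (_root_.map_ne_zero i).2 h2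
  have hd' : dsc (i a) (i b) (i c) ≠ 0 := by
    have : dsc (i a) (i b) (i c) = i (dsc a b c) := by simp [dsc, map_ofNat]
    rw [this]
    exact (_root_.map_ne_zero i).2 hd
  have hfix : ∀ x : F, x ^ p ^ n = x := fun x => by rw [← hcard, FiniteField.pow_card]
  have hfixm : ∀ m : ℕ, ∀ x : F, x ^ p ^ (n * m) = x := fun m x => fix_pow p n hcard m x
  have hcard' : Fintype.card F' = p ^ (n * m) := by rw [hm, hcard, pow_mul]
  have hfix' : ∀ x : F', x ^ p ^ (n * m) = x := fun x => by rw [← hcard', FiniteField.pow_card]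
  set P0 := Pgen h2 a b c with hP0
  set ψ := Psi p n hp hfix (Dgen_ne a b c) with hψ
  -- iterates
  have hiter : ∀ m : ℕ, ψ^[m + 1] P0 = Psi p (n * (m + 1)) hp (hfixm (m + 1)) (Dgen_ne a b c) P0 := by
    intro m
    induction m with
    | zero =>
      simp only [zero_add, Function.iterate_one, mul_one, hψ]
    | succ m ih =>
      rw [Function.iterate_succ_apply', ih, hψ]
      rw [Psi_Psi p n (n * (m + 1)) hp hfix (hfixm (m + 1))
        (by intro x; have := hfixm (m + 1 + 1) x; rwa [Nat.mul_succ, add_comm] at this)]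
      congr 2
      ring
  have hpar := par_deg hd (Dgen_ne a b c)
  have hq0 : ∀ x, (fun P : (Tw (RF F) a b c (Dgen a b c)).Point => (deg P : ℤ)) (ψ x)
      = (Fintype.card F : ℤ) * (deg x : ℤ) := by
    intro x
    simp only [hψ]
    rw [deg_Psi, hcard]; push_cast; ring
  have hN0 : ∀ x, (fun P : (Tw (RF F) a b c (Dgen a b c)).Point => (deg P : ℤ)) (ψ x - x)
      = (Npt a b c : ℤ) * (deg x : ℤ) := by
    intro x
    simp only [hψ]
    rw [deg_Psi_sub p n hp hfix hcard.symm h2 hd]; push_cast; ring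
  have hA : (Fintype.card F : ℤ) + 1 - Npt a b c = tr F a b c := by rw [Npt_eq h2]; ring
  have hseq : ∀ m : ℕ, Bf (fun P : (Tw (RF F) a b c (Dgen a b c)).Point => (deg P : ℤ))
      (ψ^[m] P0) P0 = tseq (tr F a b c) (Fintype.card F) m := by
    intro m
    induction m using Nat.twoStepInduction with
    | zero =>
      rw [Function.iterate_zero, id, hpar.self, hP0, deg_Pgen, tseq]; norm_num
    | one =>
      rw [Function.iterate_one, Bf_one hpar ψ _ _ hq0 hN0, hA, hP0, deg_Pgen, tseq]; norm_num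
    | more m ih0 ih1 =>
      rw [Function.iterate_succ_apply', Function.iterate_succ_apply',
        trace_rec hpar (fun x => Int.natCast_nonneg _) ψ _ _ hq0 hN0, hA, tseq, ← ih0, ← ih1,
        Function.iterate_succ_apply']
  -- over the extension
  obtain ⟨m, rfl⟩ : ∃ k, m = k + 1 := ⟨m - 1, by omega⟩
  rw [← hseq, hiter]
  have hpar' := par_deg hd' (Dgen_ne (i a) (i b) (i c))
  have h1 := Bf_one hpar' (Psi p (n * (m + 1)) hp hfix' (Dgen_ne (i a) (i b) (i c)))
    (Fintype.card F') (Npt (i a) (i b) (i c))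
    (fun x => by
      rw [deg_Psi, hcard']; push_cast; ring)
    (fun x => by
      rw [deg_Psi_sub p _ hp hfix' hcard'.symm h2' hd']; push_cast; ring) (Pgen h2' _ _ _)
  rw [deg_Pgen, Npt_eq h2'] at h1
  have e : ((Fintype.card F' : ℤ) + 1 - (Fintype.card F' + 1 - tr F' (i a) (i b) (i c)))
      * ((1 : ℕ) : ℤ) = tr F' (i a) (i b) (i c) := by push_cast; ring
  rw [e] at h1
  rw [← h1, ← bcP_Pgen i h2 h2' a b c, ← bcP_Psi p i (n * (m + 1)) hp (hfixm (m + 1)) hfix']
  simp only [Bf, ← map_add, deg_bcP, hP0]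

end main

end Pool.Agent.Hhelper85
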