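import Mathlib
import Pool.Agent.Hhelper85.Weil3

/-!
# Number of points
-/

set_option linter.unusedSectionVars false

namespace Pool.Agent.Hhelper85

open Polynomial WeierstrassCurve WeierstrassCurve.Affine

variable {F : Type*} [Field F] [Fintype F] [DecidableEq F] {a b c : F}

lemma nonsingular_of_eq (h2 : (2 : F) ≠ 0) (hd : dsc a b c ≠ 0) {x y : F}
    (h : y ^ 2 = x ^ 3 + a * x ^ 2 + b * x + c) : (EC F a b c).Nonsingular x y := by
  rw [nonsingular_iff'']
  refine ⟨h, ?_⟩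
  by_cases hy : y = 0
  · left
    apply deriv_ne hd
    rw [← h, hy]; ring
  · right
    exact mul_ne_zero h2 hy

/-- Points as `none` or solutions of the equation. -/
noncomputable def pointEquiv (h2 : (2 : F) ≠ 0) (hd : dsc a b c ≠ 0) :
    (EC F a b c).Point ≃ Option {xy : F × F // xy.2 ^ 2 = xy.1 ^ 3 + a * xy.1 ^ 2 + b * xy.1 + c} where
  toFun P := match P with
    | 0 => none
    | .some x y h => some ⟨(x, y), ((nonsingular_iff'' _ _ _ _ _).1 h).1⟩
  invFun o := match o with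
    | none => 0
    | some ⟨(x, y), h⟩ => .some x y (nonsingular_of_eq h2 hd h)
  left_inv := by rintro (_ | ⟨x, y, h⟩) <;> rfl
  right_inv := by rintro (_ | ⟨⟨x, y⟩, h⟩) <;> rfl

lemma card_point (h2 : (2 : F) ≠ 0) (hd : dsc a b c ≠ 0) :
    (Nat.card (EC F a b c).Point : ℤ) = Fintype.card F + 1 - tr F a b c := by
  classical
  rw [Nat.card_congr (pointEquiv h2 hd), Nat.card_eq_fintype_card, Fintype.card_option]
  have h3 : (Fintype.card {xy : F × F // xy.2 ^ 2 = xy.1 ^ 3 + a * xy.1 ^ 2 + b * xy.1 + c} : ℤ)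
      = ∑ x : F, (quadraticChar F (x ^ 3 + a * x ^ 2 + b * x + c) + 1) := by
    have e : {xy : F × F // xy.2 ^ 2 = xy.1 ^ 3 + a * xy.1 ^ 2 + b * xy.1 + c} ≃
        Σ x : F, {y : F // y ^ 2 = x ^ 3 + a * x ^ 2 + b * x + c} :=
      { toFun := fun z => ⟨z.1.1, ⟨z.1.2, z.2⟩⟩
        invFun := fun z => ⟨(z.1, z.2.1), z.2.2⟩
        left_inv := by rintro ⟨⟨x, y⟩, h⟩; rfl
        right_inv := by rintro ⟨x, ⟨y, h⟩⟩; rfl }
    rw [Fintype.card_congr e, Fintype.card_sigma]
    push_cast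
    apply Finset.sum_congr rfl
    intro x _
    rw [← quadraticChar_card_sqrts (ringChar_ne h2)]
    rw [Set.toFinset_card]
    norm_cast
  push_cast
  rw [h3, Finset.sum_add_distrib, tr]
  simp
  ring

end Pool.Agent.Hhelper85
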