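import Mathlib

/-!
# Definitions: Euler products of elliptic curves over arithmetic schemes, universal curves
-/

namespace Pool.Agent.TateBSD

open Polynomial

/-! ### The Euler product `Φ₁` of a curve over an affine base -/

section Euler

variable {R : Type*} [CommRing R]

/-- `q_y`: the number of elements of the residue field at the closed point `m` of `Spec R`. -/
noncomputable def qy (m : MaximalSpectrum R) : ℕ := Nat.card (R ⧸ m.asIdeal)

/-- The trace of Frobenius at `m` on `H¹` of the reduction `E_m` of the curve `W`:
`q_y + 1 - # E_m(k(y))`. -/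
noncomputable def trace (W : WeierstrassCurve R) (m : MaximalSpectrum R) : ℤ :=
  qy m + 1 - Nat.card (W.map (Ideal.Quotient.mk m.asIdeal)).toAffine.Point

/-- The local factor `P_{y,1}(q_y^{-s})⁻¹` with `P_{y,1}(T) = 1 - trace T + q_y T²`. -/
noncomputable def localFactor (W : WeierstrassCurve R) (m : MaximalSpectrum R) (s : ℂ) : ℂ :=
  (1 - (trace W m : ℂ) * (qy m : ℂ) ^ (-s) + (qy m : ℂ) * ((qy m : ℂ) ^ (-s)) ^ 2)⁻¹

end Euler

/-! ### The universal curve with marked points -/

/-- A commutative ring with two marked elements `a`, `b`, thought of as the coefficients of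
`y² = x³ + a x + b`. -/
structure CurveRing where
  /-- the ring -/
  R : Type
  /-- its ring structure -/
  [ring : CommRing R]
  /-- the coefficient `a` -/
  a : R
  /-- the coefficient `b` -/
  b : R

attribute [instance] CurveRing.ring

/-- The curve `y² = x³ + a x + b` over the ring. -/
def CurveRing.curve (S : CurveRing) : WeierstrassCurve S.R := ⟨0, 0, 0, S.a, S.b⟩

/-- Adjoin an (affine) point of the curve: the new ring is the affine coordinate ring
`S[x, y] / (y² - x³ - a x - b)`. -/
noncomputable def CurveRing.adjoinPoint (S : CurveRing) : CurveRing where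
  R := S.curve.toAffine.CoordinateRing
  a := algebraMap S.R S.curve.toAffine.CoordinateRing S.a
  b := algebraMap S.R S.curve.toAffine.CoordinateRing S.b

/-- The universal ring `R₀[a, b, 1 / (4 a³ + 27 b²)]`. -/
noncomputable def universalBase (R₀ : Type) [CommRing R₀] : CurveRing where
  R := Localization.Away (4 * (C X) ^ 3 + 27 * X ^ 2 : R₀[X][X])
  a := algebraMap R₀[X][X] (Localization.Away (4 * (C X) ^ 3 + 27 * X ^ 2 : R₀[X][X])) (C X)
  b := algebraMap R₀[X][X] (Localization.Away (4 * (C X) ^ 3 + 27 * X ^ 2 : R₀[X][X])) X

/-- The base of the universal curve with `r` marked points: the coordinate ring of the `r`-fold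
fibre power of the affine part of the universal curve over `R₀`. -/
noncomputable def universal (R₀ : Type) [CommRing R₀] (r : ℕ) : CurveRing :=
  CurveRing.adjoinPoint^[r] (universalBase R₀)

end Pool.Agent.TateBSD
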