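import Mathlib
import Pool.Agent.Hhelper85.Count
import Pool.Agent.Hhelper85.TateDefs

/-!
# Finiteness of residue fields of finitely generated rings; homomorphisms to finite fields
-/

set_option linter.unusedSectionVars false

namespace Pool.Agent.Hhelper85

open Polynomial WeierstrassCurve WeierstrassCurve.Affine

section jac

instance isJacobson_int : IsJacobsonRing ℤ := by
  rw [isJacobsonRing_iff_prime_eq]
  intro P hP
  by_cases hbot : P = ⊥
  · subst hbot
    rw [eq_bot_iff]
    intro x hx
    rw [Ideal.mem_jacobson_bot] at hx
    by_contra hx0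
    have hx0' : x ≠ 0 := fun h => hx0 (by simpa using h)
    -- use `x * (3 x) + 1`-type elements
    have h1 := hx x
    rw [Int.isUnit_iff] at h1
    have h2 := hx (-x)
    rw [Int.isUnit_iff] at h2
    have h3 : 0 < x * x := mul_self_pos.mpr hx0'
    rcases h1 with h1 | h1
    · nlinarith
    · nlinarith
  · have hmax : P.IsMaximal := hP.isMaximal hbot
    exact Ideal.jacobson_eq_self_of_isMaximal

lemma finite_of_ft (S : Type*) [Field S] [Algebra.FiniteType ℤ S] : Finite S := by
  have hfin : Module.Finite ℤ S := finite_of_finite_type_of_isJacobsonRing ℤ S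
  obtain ⟨p, hp⟩ := CharP.exists S
  have hp0 : p ≠ 0 := by
    rintro rfl
    have : CharZero S := CharP.charP_to_charZero S
    have hinj : Function.Injective (algebraMap ℤ S) := by
      intro a b hab
      simpa using hab
    have : IsField ℤ := isField_of_isIntegral_of_isField hinj (Field.toIsField S)
    exact Int.not_isField this
  have hprime : Fact p.Prime := ⟨(CharP.char_is_prime_or_zero S p).resolve_right hp0⟩
  let _ : Algebra (ZMod p) S := ZMod.algebra S p
  have : Module.Finite (ZMod p) S := Module.Finite.of_restrictScalars_finite ℤ (ZMod p) S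
  exact Module.finite_of_finite (ZMod p)

end jac

section res

variable {R : Type*} [CommRing R] [Algebra.FiniteType ℤ R]

instance finite_quot (m : MaximalSpectrum R) : Finite (R ⧸ m.asIdeal) := by
  have := m.isMaximal
  have h : Algebra.FiniteType ℤ (R ⧸ m.asIdeal) :=
    Algebra.FiniteType.of_surjective (Ideal.Quotient.mkₐ ℤ m.asIdeal)
      (Ideal.Quotient.mkₐ_surjective ℤ m.asIdeal)
  exact @finite_of_ft (R ⧸ m.asIdeal) (Ideal.Quotient.field m.asIdeal) h

instance finite_hom (k : Type*) [CommRing k] [Finite k] : Finite (R →+* k) := by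
  obtain ⟨s, hs⟩ := (inferInstance : Algebra.FiniteType ℤ R).out
  have : Function.Injective (fun (φ : R →+* k) (x : s) => φ x) := by
    intro φ ψ h
    have h1 : φ.toIntAlgHom = ψ.toIntAlgHom := by
      apply AlgHom.ext_of_adjoin_eq_top hs
      intro x hx
      exact congrFun h ⟨x, hx⟩
    ext x
    exact congrArg (fun f : R →ₐ[ℤ] k => f x) h1
  exact Finite.of_injective _ this

/-- The kernel of a homomorphism to a finite field, as a closed point. -/
noncomputable def kerM {k : Type*} [Field k] [Finite k] (φ : R →+* k) : MaximalSpectrum R :=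
  ⟨RingHom.ker φ, by
    have := RingHom.ker_isPrime φ
    have : Finite (R ⧸ RingHom.ker φ) := Finite.of_injective _ (RingHom.kerLift_injective φ)
    exact Ideal.Quotient.maximal_of_isField _ (Finite.isField_of_domain _)⟩

end res

end Pool.Agent.Hhelper85
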