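import Mathlib
import Pool.Agent.Hhelper85.Deg
import Pool.Agent.Hhelper85.FrobPoly
import Pool.Agent.Hhelper85.Scale

/-!
# Four squares in a pencil, and points of degree zero
-/

set_option linter.unusedSectionVars false

namespace Pool.Agent.Hhelper85

open Polynomial WeierstrassCurve WeierstrassCurve.Affine

section algclosed

variable {k : Type*} [Field k]

lemma coprime_lin {s t : k[X]} (h : IsCoprime s t) {a b c d : k} (hdet : a * d - b * c ≠ 0) :
    IsCoprime (C a * s + C b * t) (C c * s + C d * t) := by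
  obtain ⟨u, v, huv⟩ := h
  have hinv : (C (a * d - b * c)⁻¹ : k[X]) * (C a * C d - C b * C c) = 1 := by
    rw [← C_mul, ← C_mul, ← C_sub, ← C_mul, inv_mul_cancel₀ hdet, C_1]
  refine ⟨C (a * d - b * c)⁻¹ * (u * C d - v * C c), C (a * d - b * c)⁻¹ * (v * C a - u * C b), ?_⟩
  linear_combination huv + (u * s + v * t) * hinv

variable [IsAlgClosed k]

lemma sq_of_mul {A B S : k[X]} (h : IsCoprime A B) (hS : A * B = S ^ 2) : ∃ s, A = s ^ 2 := by
  obtain ⟨d, hd⟩ := exists_associated_pow_of_mul_eq_pow' h hS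
  obtain ⟨u, hu⟩ := hd
  obtain ⟨r, hr, hur⟩ := Polynomial.isUnit_iff.1 u.isUnit
  obtain ⟨w, hw⟩ := IsAlgClosed.exists_pow_nat_eq r (n := 2) (by norm_num)
  refine ⟨d * C w, ?_⟩
  rw [← hu, ← hur, mul_pow, ← C_pow, hw]

lemma four_squares (h2 : (2 : k) ≠ 0) : ∀ (n : ℕ) (A B : k[X]), IsCoprime A B →
    A.natDegree ≤ n → B.natDegree ≤ n → ∀ (α β : Fin 4 → k),
    (∀ i j, i ≠ j → α i * β j - α j * β i ≠ 0) →
    (∀ i, ∃ s, C (α i) * A + C (β i) * B = s ^ 2) → A.natDegree = 0 ∧ B.natDegree = 0 := by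
  intro n
  induction n using Nat.strong_induction_on with
  | _ n ih =>
    intro A B hAB hA hB α β hdet hsq
    rcases Nat.eq_zero_or_pos n with hn | hn
    · subst hn
      exact ⟨Nat.le_zero.1 hA, Nat.le_zero.1 hB⟩
    obtain ⟨s, hs⟩ := hsq 0
    obtain ⟨t, ht⟩ := hsq 1
    set δ := α 0 * β 1 - α 1 * β 0 with hδ
    have hδ0 : δ ≠ 0 := hdet 0 1 (by decide)
    have hcop : IsCoprime (s ^ 2) (t ^ 2) := by
      rw [← hs, ← ht]
      apply coprime_lin hAB
      intro h; apply hδ0; rw [hδ]; linear_combination h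
    have hst : IsCoprime s t := (IsCoprime.pow_iff (by norm_num) (by norm_num)).1 hcop
    have hds : s.natDegree ≤ n / 2 := by
      have : (s ^ 2).natDegree ≤ n := by
        rw [← hs]
        exact natDegree_add_le_of_degree_le ((natDegree_C_mul_le _ _).trans hA)
          ((natDegree_C_mul_le _ _).trans hB)
      rw [natDegree_pow] at this
      omega
    have hdt : t.natDegree ≤ n / 2 := by
      have : (t ^ 2).natDegree ≤ n := by
        rw [← ht]
        exact natDegree_add_le_of_degree_le ((natDegree_C_mul_le _ _).trans hA)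
          ((natDegree_C_mul_le _ _).trans hB)
      rw [natDegree_pow] at this
      omega
    have hinv : (C δ⁻¹ : k[X]) * (C (α 0) * C (β 1) - C (α 1) * C (β 0)) = 1 := by
      rw [← C_mul, ← C_mul, ← C_sub, ← C_mul, ← hδ, inv_mul_cancel₀ hδ0, C_1]
    -- the two remaining combinations
    have key : ∀ i : Fin 4, i ≠ 0 → i ≠ 1 → ∃ γ ε : k,
        γ ^ 2 = (α i * β 1 - α 1 * β i) / δ ∧ ε ^ 2 = -((α 0 * β i - α i * β 0) / δ) ∧
        γ ≠ 0 ∧ ε ≠ 0 ∧ (∃ r, C γ * s + C (-ε) * t = r ^ 2) ∧ (∃ r, C γ * s + C ε * t = r ^ 2) := by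
      intro i hi0 hi1
      obtain ⟨γ, hγ⟩ := IsAlgClosed.exists_pow_nat_eq ((α i * β 1 - α 1 * β i) / δ) (n := 2)
        (by norm_num)
      obtain ⟨ε, hε⟩ := IsAlgClosed.exists_pow_nat_eq (-((α 0 * β i - α i * β 0) / δ)) (n := 2)
        (by norm_num)
      have hγ0 : γ ≠ 0 := by
        rintro rfl
        have h1 : (α i * β 1 - α 1 * β i) / δ = 0 := by rw [← hγ]; norm_num
        rw [div_eq_zero_iff] at h1
        exact h1.elim (hdet i 1 hi1) hδ0
      have hε0 : ε ≠ 0 := by
        rintro rfl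
        have h1 : (α 0 * β i - α i * β 0) / δ = 0 := by
          have : -((α 0 * β i - α i * β 0) / δ) = 0 := by rw [← hε]; norm_num
          linear_combination -this
        rw [div_eq_zero_iff] at h1
        exact h1.elim (hdet 0 i (Ne.symm hi0)) hδ0
      obtain ⟨r, hr⟩ := hsq i
      have e1 : (C γ * s + C (-ε) * t) * (C γ * s + C ε * t) = r ^ 2 := by
        have c1 : (C γ : k[X]) ^ 2 = (C (α i) * C (β 1) - C (α 1) * C (β i)) * C δ⁻¹ := by
          rw [← C_pow, hγ, div_eq_mul_inv, C_mul, C_sub, C_mul, C_mul]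
        have c2 : (C ε : k[X]) ^ 2 = -((C (α 0) * C (β i) - C (α i) * C (β 0)) * C δ⁻¹) := by
          rw [← C_pow, hε, div_eq_mul_inv, C_neg, C_mul, C_sub, C_mul, C_mul]
        rw [← hr, C_neg]
        have e2 : (C γ * s + -C ε * t) * (C γ * s + C ε * t)
            = (C γ) ^ 2 * s ^ 2 - (C ε) ^ 2 * t ^ 2 := by ring
        rw [e2, c1, c2, ← hs, ← ht]
        linear_combination (C (α i) * A + C (β i) * B) * hinv
      have hc : IsCoprime (C γ * s + C (-ε) * t) (C γ * s + C ε * t) := by
        apply coprime_lin hst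
        intro h
        have : 2 * (γ * ε) = 0 := by linear_combination h
        rcases mul_eq_zero.1 this with h | h
        · exact h2 h
        · exact (mul_ne_zero hγ0 hε0) h
      refine ⟨γ, ε, hγ, hε, hγ0, hε0, sq_of_mul hc e1, sq_of_mul hc.symm (by rw [mul_comm]; exact e1)⟩
    obtain ⟨γ2, ε2, hγ2, hε2, hγ20, hε20, ⟨r1, hr1⟩, ⟨r2, hr2⟩⟩ := key 2 (by decide) (by decide)
    obtain ⟨γ3, ε3, hγ3, hε3, hγ30, hε30, ⟨r3, hr3⟩, ⟨r4, hr4⟩⟩ := key 3 (by decide) (by decide)
    have hcross : (γ2 * ε3) ^ 2 - (ε2 * γ3) ^ 2 ≠ 0 := by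
      have e : (γ2 * ε3) ^ 2 - (ε2 * γ3) ^ 2 = γ2 ^ 2 * ε3 ^ 2 - ε2 ^ 2 * γ3 ^ 2 := by ring
      rw [e, hγ2, hε2, hγ3, hε3]
      have e' : (α 2 * β 1 - α 1 * β 2) / δ * -((α 0 * β 3 - α 3 * β 0) / δ)
          - -((α 0 * β 2 - α 2 * β 0) / δ) * ((α 3 * β 1 - α 1 * β 3) / δ)
          = -(α 2 * β 3 - α 3 * β 2) / δ := by
        field_simp
        rw [hδ]; ring
      rw [e']
      exact div_ne_zero (neg_ne_zero.2 (hdet 2 3 (by decide))) hδ0
    have hm : γ2 * ε3 - ε2 * γ3 ≠ 0 := by
      intro h; apply hcross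
      linear_combination (γ2 * ε3 + ε2 * γ3) * h
    have hp : γ2 * ε3 + ε2 * γ3 ≠ 0 := by
      intro h; apply hcross
      linear_combination (γ2 * ε3 - ε2 * γ3) * h
    have h2a : 2 * (γ2 * ε2) ≠ 0 := mul_ne_zero h2 (mul_ne_zero hγ20 hε20)
    have h2b : 2 * (γ3 * ε3) ≠ 0 := mul_ne_zero h2 (mul_ne_zero hγ30 hε30)
    have hlt : n / 2 < n := Nat.div_lt_self hn (by norm_num)
    have hres := ih (n / 2) hlt s t hst hds hdt ![γ2, γ2, γ3, γ3] ![-ε2, ε2, -ε3, ε3]
      (by
        intro i j hij h
        fin_cases i <;> fin_cases j <;>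
          simp only [Fin.zero_eta, Fin.mk_one, Fin.reduceFinMk, Matrix.cons_val_zero,
            Matrix.cons_val_one, Matrix.cons_val, ne_eq, not_true_eq_false] at h hij
        · exact h2a (by linear_combination h)
        · exact hm (by linear_combination -h)
        · exact hp (by linear_combination h)
        · exact h2a (by linear_combination -h)
        · exact hp (by linear_combination -h)
        · exact hm (by linear_combination h)
        · exact hm (by linear_combination h)
        · exact hp (by linear_combination h)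
        · exact h2b (by linear_combination h)
        · exact hp (by linear_combination -h)
        · exact hm (by linear_combination -h)
        · exact h2b (by linear_combination -h))
      (by
        intro i
        fin_cases i
        · exact ⟨r1, hr1⟩
        · exact ⟨r2, hr2⟩
        · exact ⟨r3, hr3⟩
        · exact ⟨r4, hr4⟩)
    obtain ⟨d0, d1⟩ := hres
    have hs0 : (s ^ 2).natDegree = 0 := by rw [natDegree_pow, d0]
    have ht0 : (t ^ 2).natDegree = 0 := by rw [natDegree_pow, d1]
    have eA : A = C δ⁻¹ * (C (β 1) * s ^ 2 - C (β 0) * t ^ 2) := by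
      rw [← hs, ← ht]; linear_combination (-A) * hinv
    have eB : B = C δ⁻¹ * (C (α 0) * t ^ 2 - C (α 1) * s ^ 2) := by
      rw [← hs, ← ht]; linear_combination (-B) * hinv
    constructor
    · rw [eA]
      apply Nat.le_zero.1
      refine (natDegree_C_mul_le _ _).trans ((natDegree_sub_le _ _).trans (max_le ?_ ?_))
      · exact (natDegree_C_mul_le _ _).trans hs0.le
      · exact (natDegree_C_mul_le _ _).trans ht0.le
    · rw [eB]
      apply Nat.le_zero.1
      refine (natDegree_C_mul_le _ _).trans ((natDegree_sub_le _ _).trans (max_le ?_ ?_))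
      · exact (natDegree_C_mul_le _ _).trans ht0.le
      · exact (natDegree_C_mul_le _ _).trans hs0.le

/-- Roots of the cubic over an algebraically closed field. -/
lemma exists_roots (h2 : (2 : k) ≠ 0) (a b c : k) : ∃ e0 e1 e2 : k,
    a = -(e0 + e1 + e2) ∧ b = e0 * e1 + e0 * e2 + e1 * e2 ∧ c = -(e0 * e1 * e2) := by
  have hdeg : (fp a b c).degree ≠ 0 := by
    have h3 : (fp a b c).coeff 3 ≠ 0 := by
      have : (fp a b c).coeff 3 = 1 := by simp [fp]
      rw [this]; exact one_ne_zero
    intro h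
    have := eq_C_of_degree_eq_zero h
    rw [this] at h3
    simp at h3
  obtain ⟨e0, he0⟩ := IsAlgClosed.exists_root _ hdeg
  rw [IsRoot.def, fp_eval] at he0
  set A := a + e0 with hA
  set B := b + e0 * A with hB
  obtain ⟨w, hw⟩ := IsAlgClosed.exists_pow_nat_eq (A ^ 2 - 4 * B) (n := 2) (by norm_num)
  refine ⟨e0, (-A + w) / 2, (-A - w) / 2, ?_, ?_, ?_⟩
  · field_simp
    rw [hA]; ring
  · have e1 : (-A + w) / 2 * ((-A - w) / 2) = B := by
      field_simp
      linear_combination -hw
    have e2 : e0 * ((-A + w) / 2) + e0 * ((-A - w) / 2) = - e0 * A := by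
      field_simp; ring
    rw [e1, e2, hB]; ring
  · have e1 : (-A + w) / 2 * ((-A - w) / 2) = B := by
      field_simp
      linear_combination -hw
    rw [mul_assoc, e1, hB, hA]
    linear_combination he0

end algclosed

lemma dsc_roots {R : Type*} [CommRing R] (e0 e1 e2 : R) :
    dsc (-(e0 + e1 + e2)) (e0 * e1 + e0 * e2 + e1 * e2) (-(e0 * e1 * e2))
      = 16 * ((e0 - e1) * (e0 - e2) * (e1 - e2)) ^ 2 := by
  simp only [dsc]; ring

lemma dsc_map {R S : Type*} [CommRing R] [CommRing S] (i : R →+* S) (a b c : R) :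
    dsc (i a) (i b) (i c) = i (dsc a b c) := by
  simp only [dsc, map_add, map_sub, map_mul, map_pow, map_neg, map_ofNat]

section

variable {F : Type*} [Field F]

lemma coprime_map {F' : Type*} [Field F'] (i : F →+* F') {A B : F[X]} (h : IsCoprime A B) :
    IsCoprime (A.map i) (B.map i) := by
  have := h.map (mapRingHom i)
  simpa using this

/-- Key lemma: there are no nonconstant points. -/
lemma const_of_square (h2 : (2 : F) ≠ 0) {a b c : F} (hd : dsc a b c ≠ 0) {N M S : F[X]}
    (hNM : IsCoprime N M)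
    (h : M * (N ^ 3 + C a * N ^ 2 * M + C b * N * M ^ 2 + C c * M ^ 3) = S ^ 2) :
    N.natDegree = 0 ∧ M.natDegree = 0 := by
  set k := AlgebraicClosure F
  set i : F →+* k := algebraMap F k
  have h2' : (2 : k) ≠ 0 := by
    rw [← map_ofNat i 2]; exact (_root_.map_ne_zero i).2 h2
  have hd' : dsc (i a) (i b) (i c) ≠ 0 := by
    rw [dsc_map]; exact (_root_.map_ne_zero i).2 hd
  obtain ⟨e0, e1, e2, ha, hb, hc⟩ := exists_roots h2' (i a) (i b) (i c)
  rw [ha, hb, hc, dsc_roots] at hd'
  have hne : (e0 - e1) * (e0 - e2) * (e1 - e2) ≠ 0 := by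
    intro h0; apply hd'; rw [h0]; ring
  have h01 : e0 - e1 ≠ 0 := by intro h0; apply hne; rw [h0]; ring
  have h02 : e0 - e2 ≠ 0 := by intro h0; apply hne; rw [h0]; ring
  have h12 : e1 - e2 ≠ 0 := by intro h0; apply hne; rw [h0]; ring
  set N' := N.map i with hN'
  set M' := M.map i with hM'
  have hcop : IsCoprime N' M' := coprime_map i hNM
  have hprod : M' * ((N' - C e0 * M') * (N' - C e1 * M') * (N' - C e2 * M')) = (S.map i) ^ 2 := by
    have h1 := congrArg (Polynomial.map i) h
    simp only [Polynomial.map_mul, Polynomial.map_add, Polynomial.map_pow, map_C] at h1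
    rw [ha, hb, hc] at h1
    rw [← h1]
    simp only [C_neg, C_add, C_mul]
    ring
  have cM : ∀ e : k, IsCoprime M' (N' - C e * M') := by
    intro e
    have := coprime_lin hcop (a := 0) (b := 1) (c := 1) (d := -e) (by norm_num)
    simpa [sub_eq_add_neg] using this
  have cN : ∀ e e' : k, e - e' ≠ 0 → IsCoprime (N' - C e * M') (N' - C e' * M') := by
    intro e e' hee
    have := coprime_lin hcop (a := 1) (b := -e) (c := 1) (d := -e')
      (by intro h0; apply hee; linear_combination h0)
    simpa [sub_eq_add_neg] using this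
  have sM : ∃ s, M' = s ^ 2 := by
    refine sq_of_mul (B := (N' - C e0 * M') * (N' - C e1 * M') * (N' - C e2 * M')) ?_ hprod
    exact ((cM e0).mul_right (cM e1)).mul_right (cM e2)
  have s0 : ∃ s, N' - C e0 * M' = s ^ 2 := by
    refine sq_of_mul (B := M' * (N' - C e1 * M') * (N' - C e2 * M')) (S := S.map i) ?_ ?_
    · exact ((cM e0).symm.mul_right (cN e0 e1 h01)).mul_right (cN e0 e2 h02)
    · rw [← hprod]; ring
  have s1 : ∃ s, N' - C e1 * M' = s ^ 2 := by
    refine sq_of_mul (B := M' * (N' - C e0 * M') * (N' - C e2 * M')) (S := S.map i) ?_ ?_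
    · exact ((cM e1).symm.mul_right (cN e0 e1 h01).symm).mul_right (cN e1 e2 h12)
    · rw [← hprod]; ring
  have s2 : ∃ s, N' - C e2 * M' = s ^ 2 := by
    refine sq_of_mul (B := M' * (N' - C e0 * M') * (N' - C e1 * M')) (S := S.map i) ?_ ?_
    · exact ((cM e2).symm.mul_right (cN e0 e2 h02).symm).mul_right (cN e1 e2 h12).symm
    · rw [← hprod]; ring
  have hres := four_squares h2' (max N'.natDegree M'.natDegree) N' M' hcop (le_max_left _ _)
    (le_max_right _ _) ![0, 1, 1, 1] ![1, -e0, -e1, -e2]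
    (by
      intro u v huv h0
      fin_cases u <;> fin_cases v <;>
        simp only [Fin.zero_eta, Fin.mk_one, Fin.reduceFinMk, Matrix.cons_val_zero,
          Matrix.cons_val_one, Matrix.cons_val, ne_eq, not_true_eq_false] at h0 huv
      · exact one_ne_zero (α := k) (by linear_combination -h0)
      · exact one_ne_zero (α := k) (by linear_combination -h0)
      · exact one_ne_zero (α := k) (by linear_combination -h0)
      · exact one_ne_zero (α := k) (by linear_combination h0)
      · exact h01 (by linear_combination h0)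
      · exact h02 (by linear_combination h0)
      · exact one_ne_zero (α := k) (by linear_combination h0)
      · exact h01 (by linear_combination -h0)
      · exact h12 (by linear_combination h0)
      · exact one_ne_zero (α := k) (by linear_combination h0)
      · exact h02 (by linear_combination -h0)
      · exact h12 (by linear_combination -h0))
    (by
      intro u
      fin_cases u
      · obtain ⟨s, hs⟩ := sM; exact ⟨s, by simpa using hs⟩
      · obtain ⟨s, hs⟩ := s0; exact ⟨s, by simpa [sub_eq_add_neg] using hs⟩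
      · obtain ⟨s, hs⟩ := s1; exact ⟨s, by simpa [sub_eq_add_neg] using hs⟩
      · obtain ⟨s, hs⟩ := s2; exact ⟨s, by simpa [sub_eq_add_neg] using hs⟩)
  rw [hN', hM', natDegree_map, natDegree_map] at hres
  exact hres

variable {K : Type*} [Field K] [Algebra F[X] K] [IsFractionRing F[X] K]

lemma isPoly_of_sq {z : K} {p : F[X]} (h : z ^ 2 = algebraMap F[X] K p) :
    ∃ s : F[X], algebraMap F[X] K s = z ∧ s ^ 2 = p := by
  have hint : _root_.IsIntegral F[X] (z ^ 2) := by rw [h]; exact isIntegral_algebraMap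
  obtain ⟨s, hs⟩ := IsIntegrallyClosed.exists_algebraMap_eq_of_isIntegral_pow (R := F[X])
    (n := 2) (by norm_num) hint
  refine ⟨s, hs, ?_⟩
  apply IsFractionRing.injective F[X] K
  rw [map_pow, hs, h]

/-- The homogenised cubic. -/
noncomputable def Wf (a b c : F) (N M : F[X]) : F[X] :=
  N ^ 3 + C a * N ^ 2 * M + C b * N * M ^ 2 + C c * M ^ 3

/-- Representation of a point by polynomials. -/
lemma exists_rep {a b c : F} {d : F[X]} (hd0 : d ≠ 0) {x y : K}
    (h : (Tw K a b c (algebraMap F[X] K d)).Nonsingular x y) :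
    ∃ N M S : F[X], IsCoprime N M ∧ M ≠ 0 ∧
      deg (Point.some x y h : (Tw K a b c (algebraMap F[X] K d)).Point)
        = max N.natDegree M.natDegree ∧
      x * algebraMap F[X] K M = algebraMap F[X] K d * algebraMap F[X] K N ∧
      y * algebraMap F[X] K M ^ 2 = algebraMap F[X] K d * algebraMap F[X] K S ∧
      d * (M * Wf a b c N M) = S ^ 2 := by
  have hD : algebraMap F[X] K d ≠ 0 := by
    rwa [Ne, IsFractionRing.to_map_eq_zero_iff]
  have hh := hasHt_deg hD (Point.some x y h : (Tw K a b c (algebraMap F[X] K d)).Point)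
  rw [uv_some] at hh
  obtain ⟨v, κ, hκ, hv, hs, hm⟩ := hh
  have hx : x = κ * algebraMap F[X] K (v 0) := hv 0
  have hy : algebraMap F[X] K d = κ * algebraMap F[X] K (v 1) := hv 1
  have e0 : v = ![v 0, v 1] := by ext i; fin_cases i <;> rfl
  obtain ⟨r, s, hrs⟩ := span_pair_top (by rw [← e0]; exact hs)
  have hM0 : v 1 ≠ 0 := by
    intro h0; rw [h0, map_zero, mul_zero] at hy; exact hD hy
  have hM0' : algebraMap F[X] K (v 1) ≠ 0 := by
    rwa [Ne, IsFractionRing.to_map_eq_zero_iff]
  have heq := ((nonsingular_iff'' _ _ _ _ _).1 h).1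
  have hW : algebraMap F[X] K (Wf a b c (v 0) (v 1)) = algebraMap F[X] K (v 0) ^ 3
      + cst K a * algebraMap F[X] K (v 0) ^ 2 * algebraMap F[X] K (v 1)
      + cst K b * algebraMap F[X] K (v 0) * algebraMap F[X] K (v 1) ^ 2
      + cst K c * algebraMap F[X] K (v 1) ^ 3 := by
    simp only [Wf, cst, map_add, map_mul, map_pow]
  have hyW : y ^ 2 = κ ^ 3 * algebraMap F[X] K (Wf a b c (v 0) (v 1)) := by
    rw [heq, hW, hx, hy]; ring
  obtain ⟨S, hS1, hS2⟩ := isPoly_of_sq (F := F) (K := K) (z := algebraMap F[X] K (v 1) * y / κ)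
    (p := d * (v 1 * Wf a b c (v 0) (v 1)))
    (by
      rw [map_mul, map_mul, div_pow, mul_pow, hyW, hy]
      field_simp)
  refine ⟨v 0, v 1, S, ⟨r, s, hrs⟩, hM0, ?_, ?_, ?_, hS2.symm⟩
  · rw [← hm]
    unfold md
    rw [Fin.univ_succ]
    simp
  · rw [hx, hy]; ring
  · rw [hS1, hy]; field_simp

lemma algebraMap_one_ne : (algebraMap F[X] K (1 : F[X])) ≠ 0 := by simp

/-- Points on the constant curve have degree zero. -/
theorem deg_eq_zero_const (h2 : (2 : F) ≠ 0) {a b c : F} (hd : dsc a b c ≠ 0)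
    (P : (Tw K a b c (algebraMap F[X] K 1)).Point) : deg P = 0 := by
  cases P with
  | zero => rw [← Point.zero_def, deg_zero algebraMap_one_ne]
  | some x y h =>
    obtain ⟨N, M, S, hc, -, hdeg, -, -, hS⟩ := exists_rep (one_ne_zero (α := F[X])) h
    obtain ⟨hN, hM⟩ := const_of_square h2 hd hc (by rw [← hS, one_mul, Wf])
    rw [hdeg, hN, hM, max_self]

/-- Points on the twist by the variable have degree zero. -/
theorem deg_eq_zero_X (h2 : (2 : F) ≠ 0) {a b c : F} (hd : dsc a b c ≠ 0)
    (P : (Tw K a b c (algebraMap F[X] K X)).Point) : deg P = 0 := by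
  have hX : algebraMap F[X] K X ≠ 0 := by
    rw [Ne, IsFractionRing.to_map_eq_zero_iff]; exact X_ne_zero
  cases P with
  | zero => rw [← Point.zero_def, deg_zero hX]
  | some x y h =>
    obtain ⟨N, M, S, hc, -, hdeg, -, -, hS⟩ := exists_rep (X_ne_zero (R := F)) h
    have hXS : (X : F[X]) ∣ S := by
      apply prime_X.dvd_of_dvd_pow (n := 2)
      rw [← hS]; exact dvd_mul_right _ _
    obtain ⟨S1, rfl⟩ := hXS
    have h1 : M * Wf a b c N M = X * S1 ^ 2 := by
      apply mul_left_cancel₀ (X_ne_zero (R := F))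
      rw [hS]; ring
    have hce : IsCoprime (expand F 2 N) (expand F 2 M) := by
      have := hc.map (expand F 2 : F[X] →ₐ[F] F[X]).toRingHom
      exact this
    have h2e := congrArg (expand F 2) h1
    rw [map_mul, map_mul, expand_X, map_pow] at h2e
    obtain ⟨hN, hM⟩ := const_of_square h2 hd hce (S := X * expand F 2 S1) (by
      rw [mul_pow, ← h2e, Wf]
      simp only [map_add, map_mul, map_pow, expand_C])
    rw [natDegree_expand] at hN hM
    rw [hdeg]
    have : N.natDegree = 0 := by omega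
    have : M.natDegree = 0 := by omega
    omega

end

end Pool.Agent.Hhelper85
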