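import Mathlib
import Pool.Agent.Hhelper85.FinRes
import Pool.Agent.Hhelper85.FourSq

/-!
# Local factors: traces, homomorphisms of finite fields, logarithms
-/

set_option linter.unusedSectionVars false

namespace Pool.Agent.Hhelper85

open Polynomial WeierstrassCurve WeierstrassCurve.Affine

/-- The trace of Frobenius, defined from the number of points. -/
noncomputable def trc (k : Type*) [CommRing k] (a b c : k) : ℤ :=
  Nat.card k + 1 - Nat.card (EC k a b c).Point

section trc

variable {k : Type*} [Field k] [Finite k] {a b c : k}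

lemma trc_eq [Fintype k] [DecidableEq k] (h2 : (2 : k) ≠ 0) (hd : dsc a b c ≠ 0) :
    trc k a b c = tr k a b c := by
  rw [trc, card_point h2 hd, Nat.card_eq_fintype_card]
  ring

lemma trc_hasse (h2 : (2 : k) ≠ 0) (hd : dsc a b c ≠ 0) : trc k a b c ^ 2 ≤ 4 * Nat.card k := by
  classical
  have := Fintype.ofFinite k
  rw [trc_eq h2 hd, Nat.card_eq_fintype_card]
  exact hasse h2 hd

lemma trc_ext (h2 : (2 : k) ≠ 0) (hd : dsc a b c ≠ 0) {k' : Type*} [Field k'] [Finite k']
    (i : k →+* k') {j : ℕ} (hj0 : j ≠ 0) (hj : Nat.card k' = Nat.card k ^ j) :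
    trc k' (i a) (i b) (i c) = tseq (trc k a b c) (Nat.card k) j := by
  classical
  have := Fintype.ofFinite k
  have := Fintype.ofFinite k'
  have h2' : (2 : k') ≠ 0 := by
    rw [← map_ofNat i 2]; exact (_root_.map_ne_zero i).2 h2
  have hd' : dsc (i a) (i b) (i c) ≠ 0 := by
    rw [dsc_map]; exact (_root_.map_ne_zero i).2 hd
  rw [Nat.card_eq_fintype_card, Nat.card_eq_fintype_card] at hj
  rw [trc_eq h2 hd, trc_eq h2' hd', Nat.card_eq_fintype_card]
  exact tr_ext h2 hd i hj0 hj

end trc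

section homs

lemma charP_of_natCard {k : Type*} [Field k] [Finite k] {p n : ℕ} [Fact p.Prime]
    (h : Nat.card k = p ^ n) : CharP k p := by
  have := Fintype.ofFinite k
  exact charP_of_card_eq_prime_pow (R := k) (p := p) (f := n) (by
    rw [← Nat.card_eq_fintype_card]; exact h)

variable {k k' : Type*} [Field k] [Finite k] [Field k'] [Finite k'] {p d j : ℕ} [Fact p.Prime]

lemma card_hom (hk : Nat.card k = p ^ d) (hk' : Nat.card k' = p ^ (d * j)) :
    Nat.card (k →+* k') = d := by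
  have := charP_of_natCard hk
  have := charP_of_natCard hk'
  let _ : Algebra (ZMod p) k := ZMod.algebra k p
  let _ : Algebra (ZMod p) k' := ZMod.algebra k' p
  have hp1 : 1 < p := (Fact.out : p.Prime).one_lt
  have e1 : Module.finrank (ZMod p) k = d := by
    have := FiniteField.pow_finrank_eq_natCard p k
    rw [hk] at this
    exact Nat.pow_right_injective hp1 this
  have e2 : Module.finrank (ZMod p) k' = d * j := by
    have := FiniteField.pow_finrank_eq_natCard p k'
    rw [hk'] at this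
    exact Nat.pow_right_injective hp1 this
  have h := FiniteField.natCard_algHom_of_finrank_dvd (F := ZMod p) (K := k) (L := k')
    (by rw [e1, e2]; exact dvd_mul_right _ _)
  rw [e1] at h
  rw [← h]
  apply Nat.card_congr
  refine ⟨fun φ => { φ with commutes' := fun x => ?_ }, fun φ => φ.toRingHom, ?_, ?_⟩
  · exact congrFun (congrArg DFunLike.coe
      (RingHom.ext_zmod (φ.comp (algebraMap (ZMod p) k)) (algebraMap (ZMod p) k'))) x
  · intro φ; rfl
  · intro φ; rfl

lemma exists_pow_of_hom {p' n : ℕ} [Fact p'.Prime] (φ : k →+* k') (hk : Nat.card k = p ^ d)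
    (hk' : Nat.card k' = p' ^ n) (hn : n ≠ 0) : p' = p ∧ ∃ j, n = d * j := by
  let _ : Algebra k k' := φ.toAlgebra
  have h1 : Nat.card k' = Nat.card k ^ Module.finrank k k' := Module.natCard_eq_pow_finrank
  rw [hk, hk', ← pow_mul] at h1
  have hpp : p' = p := by
    have h2 : p' ∣ p ^ (d * Module.finrank k k') := by
      rw [← h1]; exact dvd_pow_self _ hn
    have h3 := (Fact.out : p'.Prime).dvd_of_dvd_pow h2
    exact (Nat.prime_dvd_prime_iff_eq Fact.out Fact.out).1 h3
  subst hpp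
  exact ⟨rfl, _, Nat.pow_right_injective (Fact.out : p'.Prime).one_lt h1⟩

end homs

section loc

lemma tseq_eq {A q : ℤ} {α β : ℂ} (h1 : α + β = A) (h2 : α * β = q) (n : ℕ) :
    (tseq A q n : ℂ) = α ^ n + β ^ n := by
  induction n using Nat.twoStepInduction with
  | zero => simp [tseq]; norm_num
  | one => simp [tseq, h1]
  | more n ih0 ih1 =>
    rw [tseq]
    push_cast
    rw [ih0, ih1, ← h1, ← h2]
    ring

/-- The logarithm of the local factor. -/
lemma local_log {A : ℤ} {q : ℕ} (hA : A ^ 2 ≤ 4 * q) {x : ℂ} (hx : q * ‖x‖ ^ 2 < 1) :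
    ∃ L : ℂ, HasSum (fun k : ℕ => (tseq A q k : ℂ) * x ^ k / k) L ∧
      Complex.exp L = (1 - A * x + q * x ^ 2)⁻¹ := by
  set δ : ℝ := Real.sqrt (4 * q - A ^ 2) with hδ
  have hnn : (0 : ℝ) ≤ 4 * q - A ^ 2 := by
    have : ((A ^ 2 : ℤ) : ℝ) ≤ ((4 * q : ℤ) : ℝ) := by exact_mod_cast hA
    push_cast at this
    linarith
  have hδ2 : δ ^ 2 = 4 * q - A ^ 2 := Real.sq_sqrt hnn
  set α : ℂ := ⟨A / 2, δ / 2⟩ with hα
  set β : ℂ := ⟨A / 2, -δ / 2⟩ with hβ
  have h1 : α + β = A := by
    apply Complex.ext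
    · simp [hα, hβ]
    · simp [hα, hβ]; ring
  have h2 : α * β = ((q : ℤ) : ℂ) := by
    apply Complex.ext
    · simp [hα, hβ]
      have : (A : ℝ) / 2 * (A / 2) - δ / 2 * (-δ / 2) = (A ^ 2 + δ ^ 2) / 4 := by ring
      rw [this, hδ2]; ring
    · simp [hα, hβ]; ring
  have nα : ‖α‖ ^ 2 = q := by
    rw [← Complex.normSq_eq_norm_sq, Complex.normSq_mk]
    have : (A : ℝ) / 2 * (A / 2) + δ / 2 * (δ / 2) = (A ^ 2 + δ ^ 2) / 4 := by ring
    rw [this, hδ2]; ring
  have nβ : ‖β‖ ^ 2 = q := by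
    rw [← Complex.normSq_eq_norm_sq, Complex.normSq_mk]
    have : (A : ℝ) / 2 * (A / 2) + -δ / 2 * (-δ / 2) = (A ^ 2 + δ ^ 2) / 4 := by ring
    rw [this, hδ2]; ring
  have bα : ‖α * x‖ < 1 := by
    rw [norm_mul]
    have : (‖α‖ * ‖x‖) ^ 2 < 1 := by rw [mul_pow, nα]; exact hx
    nlinarith [mul_nonneg (norm_nonneg α) (norm_nonneg x)]
  have bβ : ‖β * x‖ < 1 := by
    rw [norm_mul]
    have : (‖β‖ * ‖x‖) ^ 2 < 1 := by rw [mul_pow, nβ]; exact hx
    nlinarith [mul_nonneg (norm_nonneg β) (norm_nonneg x)]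
  have hne : ∀ z : ℂ, ‖z‖ < 1 → 1 - z ≠ 0 := by
    intro z hz h0
    have : z = 1 := by linear_combination -h0
    rw [this, norm_one] at hz
    exact lt_irrefl _ hz
  refine ⟨-Complex.log (1 - α * x) + -Complex.log (1 - β * x), ?_, ?_⟩
  · have := (Complex.hasSum_taylorSeries_neg_log bα).add (Complex.hasSum_taylorSeries_neg_log bβ)
    convert this using 1
    ext k
    rw [tseq_eq h1 h2]
    ring
  · rw [Complex.exp_add, Complex.exp_neg, Complex.exp_neg, Complex.exp_log (hne _ bα),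
      Complex.exp_log (hne _ bβ), ← mul_inv]
    congr 1
    have h2' : α * β = q := by rw [h2]; simp
    rw [← h1, ← h2']
    ring

end loc

end Pool.Agent.Hhelper85
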