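import Mathlib
import Pool.Agent.Hhelper85.LocalFac

/-!
# The Euler product as the exponential of a sum over points with values in finite fields
-/

set_option linter.unusedSectionVars false

namespace Pool.Agent.Hhelper85

open Polynomial WeierstrassCurve WeierstrassCurve.Affine Pool.Agent.TateBSD

local instance primeFact (p : Nat.Primes) : Fact (p : ℕ).Prime := ⟨p.2⟩

/-- The field with `p ^ n` elements. -/
abbrev GF (p : Nat.Primes) (n : ℕ) : Type := GaloisField (p : ℕ) n

instance (p : Nat.Primes) (n : ℕ) : Finite (GF p n) := inferInstance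

section points

variable (R : Type*) [CommRing R] [Algebra.FiniteType ℤ R]

/-- Points with values in finite fields. -/
abbrev PtsAll : Type _ := Σ x : Nat.Primes × ℕ, (R →+* GF x.1 x.2)

variable {R}

lemma exists_prime_pow (m : MaximalSpectrum R) :
    ∃ (p : Nat.Primes) (d : ℕ), Nat.card (R ⧸ m.asIdeal) = (p : ℕ) ^ d ∧ d ≠ 0 := by
  have := m.isMaximal
  let _ := Ideal.Quotient.field m.asIdeal
  have hfin : Finite (R ⧸ m.asIdeal) := finite_quot m
  have := Fintype.ofFinite (R ⧸ m.asIdeal)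
  obtain ⟨p, n, hp, -, hcard, hn⟩ := card_pow (R ⧸ m.asIdeal)
  exact ⟨⟨p, hp.out⟩, n, by rw [Nat.card_eq_fintype_card]; exact hcard, hn⟩

/-- The residue characteristic. -/
noncomputable def pm (m : MaximalSpectrum R) : Nat.Primes := (exists_prime_pow m).choose

/-- The degree of the residue field over its prime field. -/
noncomputable def dm (m : MaximalSpectrum R) : ℕ := (exists_prime_pow m).choose_spec.choose

lemma card_quot (m : MaximalSpectrum R) : Nat.card (R ⧸ m.asIdeal) = (pm m : ℕ) ^ dm m :=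
  (exists_prime_pow m).choose_spec.choose_spec.1

lemma dm_ne (m : MaximalSpectrum R) : dm m ≠ 0 := (exists_prime_pow m).choose_spec.choose_spec.2

/-- Homomorphisms with a given kernel. -/
lemma hom_data {m : MaximalSpectrum R} {x : Nat.Primes × ℕ} (hx : x.2 ≠ 0) (φ : R →+* GF x.1 x.2)
    (h : kerM φ = m) : x.1 = pm m ∧ ∃ j, x.2 = dm m * j := by
  subst h
  have := (kerM φ).isMaximal
  let _ := Ideal.Quotient.field (kerM φ).asIdeal
  have hfin : Finite (R ⧸ (kerM φ).asIdeal) := finite_quot (kerM φ)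
  have h1 := exists_pow_of_hom (k := R ⧸ (kerM φ).asIdeal) (k' := GF x.1 x.2)
    (p := pm (kerM φ)) (d := dm (kerM φ)) (p' := x.1) (n := x.2)
    (RingHom.kerLift φ) (card_quot _) (GaloisField.card _ _ hx) hx
  exact ⟨Subtype.ext h1.1, h1.2⟩

/-- The kernel together with the relative degree. -/
noncomputable def kap' (h : PtsAll R) : MaximalSpectrum R × ℕ :=
  (kerM h.2, h.1.2 / dm (kerM h.2))

/-- The fibre over `(m, k)` has `dm m` elements. -/
lemma card_fiber (m : MaximalSpectrum R) {k : ℕ} (hk : k ≠ 0) :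
    Nat.card {h : PtsAll R // kap' h = (m, k)} = dm m := by
  have := m.isMaximal
  let _ := Ideal.Quotient.field m.asIdeal
  have hfin : Finite (R ⧸ m.asIdeal) := finite_quot m
  have hne : dm m * k ≠ 0 := mul_ne_zero (dm_ne m) hk
  have h1 := card_hom (k := R ⧸ m.asIdeal) (k' := GF (pm m) (dm m * k)) (p := pm m) (d := dm m)
    (j := k) (card_quot m) (GaloisField.card _ _ hne)
  conv_rhs => rw [← h1]
  symm
  -- the map
  have hker : ∀ ψ : R ⧸ m.asIdeal →+* GF (pm m) (dm m * k),
      kerM (ψ.comp (Ideal.Quotient.mk m.asIdeal)) = m := by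
    intro ψ
    apply MaximalSpectrum.ext
    show RingHom.ker _ = _
    rw [RingHom.ker_comp_of_injective _ ψ.injective, Ideal.mk_ker]
  have hmap : ∀ ψ : R ⧸ m.asIdeal →+* GF (pm m) (dm m * k),
      kap' (⟨(pm m, dm m * k), ψ.comp (Ideal.Quotient.mk m.asIdeal)⟩ : PtsAll R) = (m, k) := by
    intro ψ
    simp only [kap', hker]
    rw [Nat.mul_div_cancel_left _ (Nat.pos_of_ne_zero (dm_ne m))]
  apply Nat.card_congr
  refine Equiv.ofBijective (fun ψ => (⟨⟨(pm m, dm m * k), ψ.comp (Ideal.Quotient.mk m.asIdeal)⟩,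
    hmap ψ⟩ : {h : PtsAll R // kap' h = (m, k)})) ⟨?_, ?_⟩
  · intro ψ ψ' h
    have h2 := Sigma.mk.inj (Subtype.ext_iff.1 h)
    have h3 := eq_of_heq h2.2
    exact Ideal.Quotient.ringHom_ext h3
  · rintro ⟨⟨⟨p, n⟩, φ⟩, hh⟩
    simp only [kap', Prod.mk.injEq] at hh
    obtain ⟨hm, hkk⟩ := hh
    have hn : n ≠ 0 := by
      rintro rfl
      rw [Nat.zero_div] at hkk
      exact hk hkk.symm
    obtain ⟨e1, j, e2⟩ := hom_data (x := (p, n)) hn φ hm
    simp only at e1 e2
    have hj : j = k := by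
      rw [hm, e2, Nat.mul_div_cancel_left _ (Nat.pos_of_ne_zero (dm_ne m))] at hkk
      exact hkk
    subst hj
    subst e1
    subst e2
    have hle : ∀ a ∈ m.asIdeal, φ a = 0 := by
      intro a ha
      have : a ∈ (kerM φ).asIdeal := by rw [hm]; exact ha
      exact this
    refine ⟨Ideal.Quotient.lift m.asIdeal φ hle, ?_⟩
    apply Subtype.ext
    simp only
    congr 1

end points

section euler

variable {R : Type*} [CommRing R] [Algebra.FiniteType ℤ R] (a b c : R)

/-- The value at a point of the summand. -/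
noncomputable def vH (s : ℂ) (h : PtsAll R) : ℂ :=
  (trc (GF h.1.1 h.1.2) (h.2 a) (h.2 b) (h.2 c) : ℂ) * ((h.1.1 : ℂ) ^ (-s)) ^ h.1.2 / h.1.2

/-- The trace at a closed point. -/
noncomputable def trm (m : MaximalSpectrum R) : ℤ :=
  trc (R ⧸ m.asIdeal) (Ideal.Quotient.mk _ a) (Ideal.Quotient.mk _ b) (Ideal.Quotient.mk _ c)

/-- The value at a pair. -/
noncomputable def uI (s : ℂ) (i : MaximalSpectrum R × ℕ) : ℂ :=
  (tseq (trm a b c i.1) (qy i.1) i.2 : ℂ) * ((qy i.1 : ℂ) ^ (-s)) ^ i.2 / i.2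

variable {a b c} (h2 : IsUnit (2 : R)) (hd : IsUnit (dsc a b c))
include h2 hd

lemma two_ne_of {k : Type*} [Field k] (φ : R →+* k) : (2 : k) ≠ 0 := by
  rw [← map_ofNat φ 2]; exact (h2.map φ).ne_zero

lemma dsc_ne_of {k : Type*} [Field k] (φ : R →+* k) : dsc (φ a) (φ b) (φ c) ≠ 0 := by
  rw [dsc_map]; exact (hd.map φ).ne_zero

omit [Algebra.FiniteType ℤ R] in
lemma qy_cpow [Algebra.FiniteType ℤ R] (m : MaximalSpectrum R) (s : ℂ) :
    (qy m : ℂ) ^ (-s) = ((pm m : ℂ) ^ (-s)) ^ dm m := by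
  rw [qy, card_quot, Nat.cast_pow, ← Complex.natCast_cpow_natCast_mul, Complex.cpow_nat_mul]

lemma vH_eq (s : ℂ) {h : PtsAll R} (hn : h.1.2 ≠ 0) :
    vH a b c s h = uI a b c s (kap' h) / dm (kerM h.2) := by
  obtain ⟨⟨p, n⟩, φ⟩ := h
  simp only at hn
  obtain ⟨e1, j, e2⟩ := hom_data (x := (p, n)) hn φ rfl
  simp only at e1 e2
  set m := kerM φ with hm
  have := m.isMaximal
  let _ := Ideal.Quotient.field m.asIdeal
  have hfin : Finite (R ⧸ m.asIdeal) := finite_quot m
  have hj0 : j ≠ 0 := by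
    rintro rfl
    exact hn (by rw [e2, mul_zero])
  have hjd : n / dm m = j := by
    rw [e2, Nat.mul_div_cancel_left _ (Nat.pos_of_ne_zero (dm_ne m))]
  have hcard : Nat.card (GF p n) = Nat.card (R ⧸ m.asIdeal) ^ j := by
    rw [GaloisField.card _ _ hn, card_quot, ← pow_mul, ← e2, e1]
  have htr := trc_ext (k := R ⧸ m.asIdeal) (a := Ideal.Quotient.mk _ a)
    (b := Ideal.Quotient.mk _ b) (c := Ideal.Quotient.mk _ c)
    (two_ne_of h2 hd (Ideal.Quotient.mk m.asIdeal)) (dsc_ne_of h2 hd (Ideal.Quotient.mk m.asIdeal))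
    (k' := GF p n) (RingHom.kerLift φ) hj0 hcard
  have hdm : (dm m : ℂ) ≠ 0 := by exact_mod_cast dm_ne m
  have hjc : (j : ℂ) ≠ 0 := by exact_mod_cast hj0
  have hvals : trc (GF p n) (φ a) (φ b) (φ c) = tseq (trm a b c m) (qy m) j := htr
  simp only [vH, uI, kap', ← hm, hjd, hvals]
  rw [qy_cpow h2 hd, ← e1, ← pow_mul, ← e2]
  have hnc : (n : ℂ) = dm m * j := by rw [e2]; push_cast; ring
  rw [hnc]
  field_simp

lemma hasSum_fiber (s : ℂ) (i : MaximalSpectrum R × ℕ) :
    HasSum (fun h : {h : PtsAll R // kap' h = i} => vH a b c s h.1) (uI a b c s i) := by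
  obtain ⟨m, k⟩ := i
  by_cases hk : k = 0
  · subst hk
    have h0 : uI a b c s (m, 0) = 0 := by simp [uI]
    rw [h0]
    have h1 : ∀ h : {h : PtsAll R // kap' h = (m, 0)}, vH a b c s h.1 = 0 := by
      rintro ⟨⟨⟨p, n⟩, φ⟩, hh⟩
      simp only [kap', Prod.mk.injEq] at hh
      by_cases hn : n = 0
      · subst hn; simp [vH]
      · exfalso
        obtain ⟨e1, j, e2⟩ := hom_data (x := (p, n)) hn φ rfl
        simp only at e1 e2
        have hjd : n / dm (kerM φ) = j :=
          Nat.div_eq_of_eq_mul_right (Nat.pos_of_ne_zero (dm_ne _)) e2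
        rw [hjd] at hh
        rw [hh.2, mul_zero] at e2
        exact hn e2
    simp only [h1]
    exact hasSum_zero
  · have hc := card_fiber m hk
    have hfin : Finite {h : PtsAll R // kap' h = (m, k)} :=
      Nat.finite_of_card_ne_zero (by rw [hc]; exact dm_ne m)
    have := Fintype.ofFinite {h : PtsAll R // kap' h = (m, k)}
    have h1 : ∀ h : {h : PtsAll R // kap' h = (m, k)},
        vH a b c s h.1 = uI a b c s (m, k) / dm m := by
      rintro ⟨h, hh⟩
      have hn : h.1.2 ≠ 0 := by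
        intro h0
        simp only [kap', Prod.mk.injEq, h0, Nat.zero_div] at hh
        exact hk hh.2.symm
      rw [vH_eq h2 hd s hn, hh]
      have : kerM h.2 = m := congrArg Prod.fst hh
      rw [this]
    simp only [h1]
    have h3 := hasSum_fintype (fun _ : {h : PtsAll R // kap' h = (m, k)} =>
      uI a b c s (m, k) / dm m)
    rw [Finset.sum_const, Finset.card_univ, ← Nat.card_eq_fintype_card, hc, nsmul_eq_mul,
      mul_div_cancel₀] at h3
    · exact h3
    · exact_mod_cast dm_ne m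

lemma hasSum_uI (s : ℂ) (hs : Summable (vH a b c s)) :
    HasSum (uI a b c s) (∑' h, vH a b c s h) := by
  have h1 := (Equiv.sigmaFiberEquiv (kap' (R := R))).hasSum_iff.2 hs.hasSum
  exact h1.sigma (fun i => hasSum_fiber h2 hd s i)

omit [Algebra.FiniteType ℤ R] h2 hd in
lemma trace_EC (m : MaximalSpectrum R) : TateBSD.trace (EC R a b c) m = trm a b c m := by
  have h : WeierstrassCurve.map (EC R a b c) (Ideal.Quotient.mk m.asIdeal)
      = EC (R ⧸ m.asIdeal) (Ideal.Quotient.mk _ a) (Ideal.Quotient.mk _ b)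
        (Ideal.Quotient.mk _ c) := by
    ext <;> simp [EC]
  rw [TateBSD.trace, h]
  rfl

lemma trm_hasse (m : MaximalSpectrum R) : trm a b c m ^ 2 ≤ 4 * qy m := by
  have := m.isMaximal
  let _ := Ideal.Quotient.field m.asIdeal
  have hfin : Finite (R ⧸ m.asIdeal) := finite_quot m
  exact trc_hasse (k := R ⧸ m.asIdeal) (two_ne_of h2 hd (Ideal.Quotient.mk m.asIdeal))
    (dsc_ne_of h2 hd (Ideal.Quotient.mk m.asIdeal))

omit h2 hd in
lemma two_le_qy (m : MaximalSpectrum R) : 2 ≤ qy m := by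
  rw [qy, card_quot]
  exact (pm m).2.two_le.trans (Nat.le_self_pow (dm_ne m) _)

omit h2 hd in
lemma norm_qy (m : MaximalSpectrum R) (s : ℂ) : ‖(qy m : ℂ) ^ (-s)‖ = (qy m : ℝ) ^ (-s.re) := by
  rw [Complex.norm_natCast_cpow_of_pos (by have := two_le_qy m; omega)]
  simp

theorem euler_product {s : ℂ} (hs : 1 / 2 < s.re) (hsum : Summable (vH a b c s)) :
    HasProd (fun m : MaximalSpectrum R => localFactor (EC R a b c) m s)
      (Complex.exp (∑' h, vH a b c s h)) := by
  have hloc : ∀ m : MaximalSpectrum R, ∃ L : ℂ,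
      HasSum (fun k : ℕ => uI a b c s (m, k)) L ∧
      Complex.exp L = localFactor (EC R a b c) m s := by
    intro m
    have hq := two_le_qy m
    have hx : (qy m : ℝ) * ‖(qy m : ℂ) ^ (-s)‖ ^ 2 < 1 := by
      rw [norm_qy, ← Real.rpow_natCast, ← Real.rpow_mul (by positivity)]
      have hqpos : (0 : ℝ) < qy m := by exact_mod_cast (by omega : 0 < qy m)
      have e : (qy m : ℝ) * (qy m : ℝ) ^ (-s.re * (2 : ℕ)) = (qy m : ℝ) ^ (1 - 2 * s.re) := by
        conv_lhs => rw [← Real.rpow_one (qy m : ℝ)]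
        rw [Real.rpow_one, ← Real.rpow_one_add' (by positivity)]
        · congr 1; push_cast; ring
        · push_cast; linarith
      rw [e]
      apply Real.rpow_lt_one_of_one_lt_of_neg
      · exact_mod_cast (by omega : 1 < qy m)
      · linarith
    obtain ⟨L, hL1, hL2⟩ := local_log (A := trm a b c m) (q := qy m) (trm_hasse h2 hd m) hx
    refine ⟨L, hL1, ?_⟩
    rw [hL2, localFactor, trace_EC]
  choose L hL1 hL2 using hloc
  have h1 := (hasSum_uI h2 hd s hsum).prod_fiberwise hL1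
  have h3 := h1.cexp
  convert h3 using 1
  ext m
  exact (hL2 m).symm

end euler

end Pool.Agent.Hhelper85
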