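import Mathlib
import Pool.Agent.Hhelper85.Weil3

/-!
# Moments of the traces of the curves `y² = x³ + a x + b` over a finite field
-/

set_option linter.unusedSectionVars false

namespace Pool.Agent.Hhelper85

section moments

variable {k : Type*} [Field k] [Fintype k] [DecidableEq k]

/-- The trace of `y² = x³ + a x + b`. -/
def TT (a b : k) : ℤ := tr k 0 a b

lemma TT_eq (a b : k) : TT a b = -∑ u : k, quadraticChar k (u ^ 3 + a * u + b) := by
  unfold TT tr
  congr 1
  apply Finset.sum_congr rfl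
  intro u _
  congr 1
  ring

lemma TT_twist {ν : k} (hν : ν ≠ 0) (a b : k) :
    TT (ν ^ 2 * a) (ν ^ 3 * b) = quadraticChar k ν * TT a b := by
  rw [TT_eq, TT_eq, mul_neg, Finset.mul_sum]
  congr 1
  have hbij : Function.Bijective (fun v : k => ν * v) := by
    refine ⟨fun x y h => mul_left_cancel₀ hν h, fun y => ⟨y / ν, ?_⟩⟩
    field_simp
  rw [← hbij.sum_comp]
  apply Finset.sum_congr rfl
  intro v _
  have e : (ν * v) ^ 3 + ν ^ 2 * a * (ν * v) + ν ^ 3 * b = ν ^ 3 * (v ^ 3 + a * v + b) := by ring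
  rw [e, map_mul, map_pow]
  congr 1
  have h1 := quadraticChar_sq_one hν
  calc quadraticChar k ν ^ 3 = quadraticChar k ν ^ 2 * quadraticChar k ν := by ring
    _ = _ := by rw [h1, one_mul]

/-- The good parameters. -/
def Gd (k : Type*) [Field k] [Fintype k] [DecidableEq k] : Finset (k × k) :=
  Finset.univ.filter fun x => 4 * x.1 ^ 3 + 27 * x.2 ^ 2 ≠ 0

/-- The moments. -/
def SS (k : Type*) [Field k] [Fintype k] [DecidableEq k] (j r : ℕ) : ℤ :=
  ∑ x ∈ Gd k, TT x.1 x.2 ^ j * (Fintype.card k - TT x.1 x.2) ^ r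

lemma SS_succ (j r : ℕ) : SS k j (r + 1) = Fintype.card k * SS k j r - SS k (j + 1) r := by
  unfold SS
  rw [Finset.mul_sum, ← Finset.sum_sub_distrib]
  apply Finset.sum_congr rfl
  intro x _
  ring

lemma SS_odd (h2 : (2 : k) ≠ 0) {j : ℕ} (hj : Odd j) : SS k j 0 = 0 := by
  obtain ⟨ν, hν⟩ := quadraticChar_exists_neg_one (ringChar_ne h2)
  have hν0 : ν ≠ 0 := by
    rintro rfl
    rw [MulChar.map_zero] at hν
    norm_num at hν
  have h : SS k j 0 = -SS k j 0 := by
    unfold SS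
    rw [← Finset.sum_neg_distrib]
    symm
    refine Finset.sum_nbij' (fun x => (ν ^ 2 * x.1, ν ^ 3 * x.2))
      (fun x => (x.1 / ν ^ 2, x.2 / ν ^ 3)) ?_ ?_ ?_ ?_ ?_
    · intro x hx
      simp only [Gd, Finset.mem_filter, Finset.mem_univ, true_and] at hx ⊢
      have e : 4 * (ν ^ 2 * x.1) ^ 3 + 27 * (ν ^ 3 * x.2) ^ 2
          = ν ^ 6 * (4 * x.1 ^ 3 + 27 * x.2 ^ 2) := by ring
      rw [e]
      exact mul_ne_zero (pow_ne_zero _ hν0) hx
    · intro x hx
      simp only [Gd, Finset.mem_filter, Finset.mem_univ, true_and] at hx ⊢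
      have e : 4 * (x.1 / ν ^ 2) ^ 3 + 27 * (x.2 / ν ^ 3) ^ 2
          = (4 * x.1 ^ 3 + 27 * x.2 ^ 2) / ν ^ 6 := by field_simp
      rw [e]
      exact div_ne_zero hx (pow_ne_zero _ hν0)
    · intro x _
      ext <;> simp [hν0]
    · intro x _
      ext <;> simp only <;> field_simp
    · intro x _
      simp only
      rw [TT_twist hν0, hν, pow_zero, pow_zero, mul_one, mul_one, neg_one_mul, hj.neg_pow]
  omega

lemma sum_sq_char : ∑ y : k, quadraticChar k y ^ 2 = Fintype.card k - 1 := by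
  have h : ∀ y : k, quadraticChar k y ^ 2 = 1 - (if y = 0 then 1 else 0) := by
    intro y
    by_cases hy : y = 0
    · rw [hy, MulChar.map_zero, if_pos rfl]; norm_num
    · rw [quadraticChar_sq_one hy, if_neg hy]; norm_num
  rw [Finset.sum_congr rfl fun y _ => h y, Finset.sum_sub_distrib]
  simp

lemma sum_affine {f : k → ℤ} {α β : k} (hα : α ≠ 0) : ∑ x : k, f (α * x + β) = ∑ x : k, f x := by
  have hbij : Function.Bijective (fun v : k => α * v + β) := by
    refine ⟨fun x y h => mul_left_cancel₀ hα (add_right_cancel h), fun y => ⟨(y - β) / α, ?_⟩⟩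
    field_simp
    ring
  exact hbij.sum_comp f

lemma M2_all (h2 : (2 : k) ≠ 0) :
    ∑ a : k, ∑ b : k, TT a b ^ 2 = (Fintype.card k : ℤ) ^ 2 * (Fintype.card k - 1) := by
  have h0 : ∑ x : k, quadraticChar k x = 0 := quadraticChar_sum_zero (ringChar_ne h2)
  have h1 : ∀ a b : k, TT a b ^ 2 = ∑ u : k, ∑ v : k,
      quadraticChar k (u ^ 3 + a * u + b) * quadraticChar k (v ^ 3 + a * v + b) := by
    intro a b
    rw [TT_eq, neg_sq, sq, Finset.sum_mul_sum]
  have h3 : ∀ u v : k, ∑ a : k, ∑ b : k,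
      quadraticChar k (u ^ 3 + a * u + b) * quadraticChar k (v ^ 3 + a * v + b)
      = if u = v then (Fintype.card k : ℤ) * (Fintype.card k - 1) else 0 := by
    intro u v
    split_ifs with huv
    · subst huv
      have : ∀ a : k, ∑ b : k, quadraticChar k (u ^ 3 + a * u + b)
          * quadraticChar k (u ^ 3 + a * u + b) = Fintype.card k - 1 := by
        intro a
        rw [← sum_sq_char, ← sum_affine (f := fun y => quadraticChar k y ^ 2)
          (one_ne_zero (α := k)) (β := u ^ 3 + a * u)]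
        apply Finset.sum_congr rfl
        intro b _
        rw [← sq]
        congr 2
        ring
      rw [Finset.sum_congr rfl fun a _ => this a]
      simp
      ring
    · have hvu : v - u ≠ 0 := sub_ne_zero.2 (Ne.symm huv)
      have e1 : ∀ a : k, ∑ b : k,
          quadraticChar k (u ^ 3 + a * u + b) * quadraticChar k (v ^ 3 + a * v + b)
          = ∑ y : k, quadraticChar k y * quadraticChar k ((v - u) * a + (y + v ^ 3 - u ^ 3)) := by
        intro a
        rw [← sum_affine (f := fun y => quadraticChar k y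
          * quadraticChar k ((v - u) * a + (y + v ^ 3 - u ^ 3))) (one_ne_zero (α := k))
          (β := u ^ 3 + a * u)]
        apply Finset.sum_congr rfl
        intro b _
        congr 2
        · ring
        · ring
      rw [Finset.sum_congr rfl fun a _ => e1 a, Finset.sum_comm]
      apply Finset.sum_eq_zero
      intro y _
      rw [← Finset.mul_sum, sum_affine (f := fun z => quadraticChar k z) hvu, h0, mul_zero]
  calc ∑ a : k, ∑ b : k, TT a b ^ 2
      = ∑ u : k, ∑ v : k, ∑ a : k, ∑ b : k,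
        quadraticChar k (u ^ 3 + a * u + b) * quadraticChar k (v ^ 3 + a * v + b) := by
        rw [Finset.sum_congr rfl fun a _ => Finset.sum_congr rfl fun b _ => h1 a b]
        rw [Finset.sum_congr rfl fun a _ => Finset.sum_comm]
        rw [Finset.sum_comm]
        apply Finset.sum_congr rfl
        intro u _
        rw [Finset.sum_congr rfl fun a _ => Finset.sum_comm]
        rw [Finset.sum_comm]
    _ = (Fintype.card k : ℤ) ^ 2 * (Fintype.card k - 1) := by
        rw [Finset.sum_congr rfl fun u _ => Finset.sum_congr rfl fun v _ => h3 u v]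
        simp
        ring

lemma TT_sing (h2 : (2 : k) ≠ 0) (c : k) :
    TT (-3 * c ^ 2) (2 * c ^ 3) = quadraticChar k (3 * c) := by
  have h0 : ∑ x : k, quadraticChar k x = 0 := quadraticChar_sum_zero (ringChar_ne h2)
  have h1 : ∀ u : k, quadraticChar k (u ^ 3 + -3 * c ^ 2 * u + 2 * c ^ 3)
      = quadraticChar k (1 * u + 2 * c) - (if u = c then quadraticChar k (3 * c) else 0) := by
    intro u
    have e : u ^ 3 + -3 * c ^ 2 * u + 2 * c ^ 3 = (u - c) ^ 2 * (u + 2 * c) := by ring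
    rw [e, map_mul, map_pow]
    split_ifs with huc
    · subst huc
      rw [sub_self, MulChar.map_zero]
      have : (1 : k) * u + 2 * u = 3 * u := by ring
      rw [this]; ring
    · rw [quadraticChar_sq_one (sub_ne_zero.2 huc), one_mul, sub_zero, one_mul]
  rw [TT_eq, Finset.sum_congr rfl fun u _ => h1 u, Finset.sum_sub_distrib,
    sum_affine (f := fun z => quadraticChar k z) (one_ne_zero), h0]
  simp

lemma M2_sing (h2 : (2 : k) ≠ 0) (h3 : (3 : k) ≠ 0) :
    ∑ x ∈ Finset.univ.filter (fun x : k × k => ¬ (4 * x.1 ^ 3 + 27 * x.2 ^ 2 ≠ 0)),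
      TT x.1 x.2 ^ 2 = Fintype.card k - 1 := by
  have h27 : (27 : k) ≠ 0 := by
    have : (27 : k) = 3 ^ 3 := by norm_num
    rw [this]; exact pow_ne_zero _ h3
  have h4 : (4 : k) ≠ 0 := by
    have : (4 : k) = 2 ^ 2 := by norm_num
    rw [this]; exact pow_ne_zero _ h2
  rw [← sum_sq_char, ← sum_affine (f := fun y => quadraticChar k y ^ 2) h3 (β := 0)]
  symm
  refine Finset.sum_nbij' (fun c => (-3 * c ^ 2, 2 * c ^ 3))
      (fun x => -(3 * x.2) / (2 * x.1)) ?_ ?_ ?_ ?_ ?_
  · intro c _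
    simp only [Finset.mem_filter, Finset.mem_univ, true_and, not_not]
    ring
  · intro x _
    exact Finset.mem_univ _
  · intro c _
    by_cases hc : c = 0
    · subst hc; simp
    · simp only
      field_simp
  · intro x hx
    simp only [Finset.mem_filter, Finset.mem_univ, true_and, not_not] at hx
    by_cases hx1 : x.1 = 0
    · have hx2 : x.2 = 0 := by
        rw [hx1] at hx
        have : 27 * x.2 ^ 2 = 0 := by linear_combination hx
        exact pow_eq_zero_iff (two_ne_zero) |>.1 ((mul_eq_zero.1 this).resolve_left h27)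
      ext
      · simp [hx1, hx2]
      · simp [hx1, hx2]
    · ext
      · simp only
        field_simp
        linear_combination (-1) * hx
      · simp only
        field_simp
        linear_combination (-x.2) * hx
  · intro c _
    simp only
    rw [TT_sing h2, add_zero]

lemma SS_two (h2 : (2 : k) ≠ 0) (h3 : (3 : k) ≠ 0) :
    SS k 2 0 = (Fintype.card k : ℤ) ^ 2 * (Fintype.card k - 1) - (Fintype.card k - 1) := by
  have h := Finset.sum_filter_add_sum_filter_not (Finset.univ : Finset (k × k))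
    (fun x => 4 * x.1 ^ 3 + 27 * x.2 ^ 2 ≠ 0) (fun x => TT x.1 x.2 ^ 2)
  rw [M2_sing h2 h3, Fintype.sum_prod_type, M2_all h2] at h
  have e : SS k 2 0 = ∑ x ∈ Finset.univ.filter (fun x : k × k => 4 * x.1 ^ 3 + 27 * x.2 ^ 2 ≠ 0),
      TT x.1 x.2 ^ 2 := by
    unfold SS Gd
    apply Finset.sum_congr rfl
    intro x _
    rw [pow_zero, mul_one]
  rw [e]
  linarith

lemma dsc_short (a b : k) : dsc 0 a b = -16 * (4 * a ^ 3 + 27 * b ^ 2) := by
  simp only [dsc]; ring

lemma TT_bound (h2 : (2 : k) ≠ 0) {x : k × k} (hx : x ∈ Gd k) :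
    TT x.1 x.2 ^ 2 ≤ 4 * Fintype.card k := by
  apply hasse h2
  rw [dsc_short]
  simp only [Gd, Finset.mem_filter, Finset.mem_univ, true_and] at hx
  apply mul_ne_zero _ hx
  have : (-16 : k) = -(2 ^ 4) := by norm_num
  rw [this]; exact neg_ne_zero.2 (pow_ne_zero _ h2)

lemma card_Gd : ((Gd k).card : ℤ) ≤ (Fintype.card k : ℤ) ^ 2 := by
  have h : (Gd k).card ≤ (Finset.univ : Finset (k × k)).card := Finset.card_filter_le _ _
  rw [Finset.card_univ, Fintype.card_prod] at h
  have : ((Gd k).card : ℤ) ≤ ((Fintype.card k * Fintype.card k : ℕ) : ℤ) := by exact_mod_cast h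
  push_cast at this
  linarith [sq (Fintype.card k : ℤ)]

lemma one_le_card : (1 : ℤ) ≤ Fintype.card k := by
  exact_mod_cast Fintype.card_pos (α := k)

lemma abs_TT_le (h2 : (2 : k) ≠ 0) {x : k × k} (hx : x ∈ Gd k) :
    |TT x.1 x.2| ≤ 2 * Fintype.card k := by
  have h := TT_bound h2 hx
  have hq := one_le_card (k := k)
  apply abs_le_of_sq_le_sq _ (by linarith)
  nlinarith

lemma abs_sub_le' (h2 : (2 : k) ≠ 0) {x : k × k} (hx : x ∈ Gd k) :
    |(Fintype.card k : ℤ) - TT x.1 x.2| ≤ 3 * Fintype.card k := by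
  have h := abs_TT_le h2 hx
  have hq := one_le_card (k := k)
  rw [abs_le] at h ⊢
  constructor <;> linarith [h.1, h.2]

lemma SS_four (h2 : (2 : k) ≠ 0) (r : ℕ) :
    |SS k 4 r| ≤ 16 * 3 ^ r * (Fintype.card k : ℤ) ^ (r + 4) := by
  have hq := one_le_card (k := k)
  have hterm : ∀ x ∈ Gd k, |TT x.1 x.2 ^ 4 * (Fintype.card k - TT x.1 x.2) ^ r|
      ≤ 16 * (Fintype.card k : ℤ) ^ 2 * (3 * Fintype.card k) ^ r := by
    intro x hx
    rw [abs_mul, abs_pow, abs_pow]
    apply mul_le_mul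
    · have h1 := TT_bound h2 hx
      have h0 : 0 ≤ TT x.1 x.2 ^ 2 := sq_nonneg _
      calc |TT x.1 x.2| ^ 4 = (TT x.1 x.2 ^ 2) ^ 2 := by
            rw [show (4 : ℕ) = 2 * 2 by norm_num, pow_mul, sq_abs]
        _ ≤ (4 * (Fintype.card k : ℤ)) ^ 2 := pow_le_pow_left₀ h0 h1 2
        _ = _ := by ring
    · exact pow_le_pow_left₀ (abs_nonneg _) (abs_sub_le' h2 hx) r
    · positivity
    · positivity
  calc |SS k 4 r| ≤ ∑ x ∈ Gd k, |TT x.1 x.2 ^ 4 * (Fintype.card k - TT x.1 x.2) ^ r| :=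
        Finset.abs_sum_le_sum_abs _ _
    _ ≤ ∑ x ∈ Gd k, 16 * (Fintype.card k : ℤ) ^ 2 * (3 * Fintype.card k) ^ r :=
        Finset.sum_le_sum hterm
    _ = (Gd k).card * (16 * (Fintype.card k : ℤ) ^ 2 * (3 * Fintype.card k) ^ r) := by
        rw [Finset.sum_const, nsmul_eq_mul]
    _ ≤ (Fintype.card k : ℤ) ^ 2 * (16 * (Fintype.card k : ℤ) ^ 2 * (3 * Fintype.card k) ^ r) :=
        mul_le_mul_of_nonneg_right card_Gd (by positivity)
    _ = _ := by rw [mul_pow]; ring

/-- Constants. -/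
def C3 : ℕ → ℤ
  | 0 => 0
  | r + 1 => C3 r + 16 * 3 ^ r

/-- Constants. -/
def C2 : ℕ → ℤ
  | 0 => 2
  | r + 1 => C2 r + C3 r

/-- Constants. -/
def C1 : ℕ → ℤ
  | 0 => 0
  | r + 1 => C1 r + C2 r

lemma SS_three (h2 : (2 : k) ≠ 0) (r : ℕ) :
    |SS k 3 r| ≤ C3 r * (Fintype.card k : ℤ) ^ (r + 3) := by
  have hq := one_le_card (k := k)
  induction r with
  | zero => rw [SS_odd h2 (by decide)]; simp [C3]
  | succ r ih =>
    rw [SS_succ]
    have h4 := SS_four h2 r
    calc |(Fintype.card k : ℤ) * SS k 3 r - SS k (3 + 1) r|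
        ≤ |(Fintype.card k : ℤ) * SS k 3 r| + |SS k (3 + 1) r| := abs_sub _ _
      _ = (Fintype.card k : ℤ) * |SS k 3 r| + |SS k 4 r| := by
          rw [abs_mul, abs_of_nonneg (by linarith)]
      _ ≤ (Fintype.card k : ℤ) * (C3 r * (Fintype.card k : ℤ) ^ (r + 3))
          + 16 * 3 ^ r * (Fintype.card k : ℤ) ^ (r + 4) := by
          gcongr
      _ = _ := by rw [C3]; ring

lemma SS_two' (h2 : (2 : k) ≠ 0) (h3 : (3 : k) ≠ 0) (r : ℕ) :
    |SS k 2 r - (Fintype.card k : ℤ) ^ (r + 3)| ≤ C2 r * (Fintype.card k : ℤ) ^ (r + 2) := by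
  have hq := one_le_card (k := k)
  induction r with
  | zero =>
    rw [SS_two h2 h3, abs_le, C2]
    simp only [zero_add]
    constructor <;> nlinarith
  | succ r ih =>
    rw [SS_succ]
    have h4 := SS_three h2 r
    calc |(Fintype.card k : ℤ) * SS k 2 r - SS k (2 + 1) r - (Fintype.card k : ℤ) ^ (r + 1 + 3)|
        = |(Fintype.card k : ℤ) * (SS k 2 r - (Fintype.card k : ℤ) ^ (r + 3)) - SS k 3 r| := by
          congr 1; ring
      _ ≤ |(Fintype.card k : ℤ) * (SS k 2 r - (Fintype.card k : ℤ) ^ (r + 3))| + |SS k 3 r| :=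
          abs_sub _ _
      _ = (Fintype.card k : ℤ) * |SS k 2 r - (Fintype.card k : ℤ) ^ (r + 3)| + |SS k 3 r| := by
          rw [abs_mul, abs_of_nonneg (by linarith)]
      _ ≤ (Fintype.card k : ℤ) * (C2 r * (Fintype.card k : ℤ) ^ (r + 2))
          + C3 r * (Fintype.card k : ℤ) ^ (r + 3) := by
          gcongr
      _ = _ := by rw [C2]; ring

/-- The main asymptotics. -/
theorem SS_one (h2 : (2 : k) ≠ 0) (h3 : (3 : k) ≠ 0) (r : ℕ) :
    |SS k 1 r + r * (Fintype.card k : ℤ) ^ (r + 2)| ≤ C1 r * (Fintype.card k : ℤ) ^ (r + 1) := by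
  have hq := one_le_card (k := k)
  induction r with
  | zero => rw [SS_odd h2 (by decide)]; simp [C1]
  | succ r ih =>
    rw [SS_succ]
    have h4 := SS_two' h2 h3 r
    calc |(Fintype.card k : ℤ) * SS k 1 r - SS k (1 + 1) r
          + ((r + 1 : ℕ) : ℤ) * (Fintype.card k : ℤ) ^ (r + 1 + 2)|
        = |(Fintype.card k : ℤ) * (SS k 1 r + r * (Fintype.card k : ℤ) ^ (r + 2))
          - (SS k 2 r - (Fintype.card k : ℤ) ^ (r + 3))| := by
          congr 1; push_cast; ring
      _ ≤ |(Fintype.card k : ℤ) * (SS k 1 r + r * (Fintype.card k : ℤ) ^ (r + 2))|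
          + |SS k 2 r - (Fintype.card k : ℤ) ^ (r + 3)| := abs_sub _ _
      _ = (Fintype.card k : ℤ) * |SS k 1 r + r * (Fintype.card k : ℤ) ^ (r + 2)|
          + |SS k 2 r - (Fintype.card k : ℤ) ^ (r + 3)| := by
          rw [abs_mul, abs_of_nonneg (by linarith)]
      _ ≤ (Fintype.card k : ℤ) * (C1 r * (Fintype.card k : ℤ) ^ (r + 1))
          + C2 r * (Fintype.card k : ℤ) ^ (r + 2) := by
          gcongr
      _ = _ := by rw [C1]; ring

/-- A bound for the sum of the absolute values. -/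
theorem SS_abs (h2 : (2 : k) ≠ 0) (r : ℕ) :
    ∑ x ∈ Gd k, |((TT x.1 x.2 * (Fintype.card k - TT x.1 x.2) ^ r : ℤ) : ℝ)|
      ≤ 2 * 3 ^ r * (Fintype.card k : ℝ) ^ (r + 2) * Real.sqrt (Fintype.card k) := by
  have hq := one_le_card (k := k)
  have hterm : ∀ x ∈ Gd k, |((TT x.1 x.2 * (Fintype.card k - TT x.1 x.2) ^ r : ℤ) : ℝ)|
      ≤ 2 * Real.sqrt (Fintype.card k) * (3 * Fintype.card k) ^ r := by
    intro x hx
    push_cast
    rw [abs_mul, abs_pow]
    apply mul_le_mul
    · have h1 := TT_bound h2 hx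
      have h1' : ((TT x.1 x.2 : ℝ)) ^ 2 ≤ 4 * Fintype.card k := by exact_mod_cast h1
      apply abs_le_of_sq_le_sq _ (by positivity)
      rw [mul_pow, Real.sq_sqrt (by positivity)]
      linarith
    · apply pow_le_pow_left₀ (abs_nonneg _)
      have := abs_sub_le' h2 hx
      exact_mod_cast this
    · positivity
    · positivity
  have hcard : ((Gd k).card : ℝ) ≤ (Fintype.card k : ℝ) ^ 2 := by
    have := card_Gd (k := k)
    exact_mod_cast this
  calc _ ≤ ∑ x ∈ Gd k, 2 * Real.sqrt (Fintype.card k) * (3 * (Fintype.card k : ℝ)) ^ r :=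
        Finset.sum_le_sum hterm
    _ = (Gd k).card * (2 * Real.sqrt (Fintype.card k) * (3 * (Fintype.card k : ℝ)) ^ r) := by
        rw [Finset.sum_const, nsmul_eq_mul]
    _ ≤ (Fintype.card k : ℝ) ^ 2 * (2 * Real.sqrt (Fintype.card k)
          * (3 * (Fintype.card k : ℝ)) ^ r) :=
        mul_le_mul_of_nonneg_right hcard (by positivity)
    _ = _ := by rw [mul_pow]; ring

end moments

end Pool.Agent.Hhelper85
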