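import Mathlib
import Pool.Agent.Hhelper85.FourSq

/-!
# Halving points
-/

set_option linter.unusedSectionVars false

namespace Pool.Agent.Hhelper85

open Polynomial WeierstrassCurve WeierstrassCurve.Affine

section halve

variable {K : Type*} [Field K] [DecidableEq K]

lemma deriv_ne' {a b c : K} (hd : dsc a b c ≠ 0) {x : K}
    (hx : x ^ 3 + a * x ^ 2 + b * x + c = 0) : 3 * x ^ 2 + 2 * a * x + b ≠ 0 := by
  intro h
  apply hd
  have hc : c = -(x ^ 3 + a * x ^ 2 + b * x) := by linear_combination hx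
  have hb : b = -(3 * x ^ 2 + 2 * a * x) := by linear_combination h
  subst hc
  subst hb
  simp only [dsc]
  ring

/-- The halving lemma. -/
lemma halve (h2 : (2 : K) ≠ 0) {a b c D ν0 ν1 ν2 x0 y0 : K} (hD : D ≠ 0)
    (E0 : ν0 ^ 2 - 2 * c * ν1 * ν2 + a * c * ν2 ^ 2 = x0)
    (E1 : 2 * ν0 * ν1 - 2 * b * ν1 * ν2 + (a * b - c) * ν2 ^ 2 = -D)
    (E2 : ν1 ^ 2 + 2 * ν0 * ν2 - 2 * a * ν1 * ν2 + (a ^ 2 - b) * ν2 ^ 2 = 0)
    (hP : (EC K (D * a) (D ^ 2 * b) (D ^ 3 * c)).Nonsingular x0 y0) :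
    ∃ Q : (EC K (D * a) (D ^ 2 * b) (D ^ 3 * c)).Point, Q + Q = Point.some x0 y0 hP := by
  have hν2 : ν2 ≠ 0 := by
    rintro rfl
    have h1 : ν1 = 0 := by
      have : ν1 ^ 2 = 0 := by linear_combination E2
      exact pow_eq_zero_iff (two_ne_zero) |>.1 this
    apply hD
    rw [h1] at E1
    linear_combination E1
  obtain ⟨u, hu⟩ : ∃ u, u = ν1 / ν2 - a := ⟨_, rfl⟩
  have hν1 : ν1 = ν2 * (u + a) := by rw [hu]; field_simp; ring
  have hν0 : 2 * ν0 = ν2 * (b - u ^ 2) := by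
    apply mul_left_cancel₀ hν2
    rw [hν1] at E2
    linear_combination E2
  have hDf : D = ν2 ^ 2 * (u ^ 3 + a * u ^ 2 + b * u + c) := by
    rw [hν1] at E1
    linear_combination E1 - (ν2 * (u + a)) * hν0
  have hx0 : 4 * x0 = ν2 ^ 2 * ((u ^ 2 - b) ^ 2 - 8 * c * u - 4 * a * c) := by
    rw [← E0, hν1]
    linear_combination (2 * ν0 + ν2 * (b - u ^ 2)) * hν0
  have hy1 : (D ^ 2 / ν2) ^ 2 = (D * u) ^ 3 + (D * a) * (D * u) ^ 2 + (D ^ 2 * b) * (D * u)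
      + D ^ 3 * c := by
    have : (D ^ 2 / ν2) ^ 2 = D ^ 3 * (D / ν2 ^ 2) := by field_simp
    rw [this]
    have : D / ν2 ^ 2 = u ^ 3 + a * u ^ 2 + b * u + c := by
      rw [hDf]; field_simp
    rw [this]; ring
  have hy1ne : D ^ 2 / ν2 ≠ 0 := div_ne_zero (pow_ne_zero _ hD) hν2
  have hns : (EC K (D * a) (D ^ 2 * b) (D ^ 3 * c)).Nonsingular (D * u) (D ^ 2 / ν2) := by
    rw [nonsingular_iff'']
    exact ⟨hy1, Or.inr (mul_ne_zero h2 hy1ne)⟩
  have hYne : D ^ 2 / ν2 ≠ (EC K (D * a) (D ^ 2 * b) (D ^ 3 * c)).negY (D * u) (D ^ 2 / ν2) := by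
    rw [negY']
    intro h
    have : 2 * (D ^ 2 / ν2) = 0 := by linear_combination h
    exact mul_ne_zero h2 hy1ne this
  set Q : (EC K (D * a) (D ^ 2 * b) (D ^ 3 * c)).Point := Point.some _ _ hns with hQ
  have h4 : (4 : K) ≠ 0 := by
    have : (4 : K) = 2 * 2 := by norm_num
    rw [this]; exact mul_ne_zero h2 h2
  -- the x-coordinate of the double
  have hslope : (EC K (D * a) (D ^ 2 * b) (D ^ 3 * c)).slope (D * u) (D * u) (D ^ 2 / ν2)
      (D ^ 2 / ν2) = ν2 * (3 * u ^ 2 + 2 * a * u + b) / 2 := by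
    rw [slope_of_Y_ne rfl hYne, negY']
    simp only [EC]
    have e3 : D ^ 2 / ν2 - -(D ^ 2 / ν2) = 2 * D ^ 2 / ν2 := by ring
    have e4 : 3 * (D * u) ^ 2 + 2 * (D * a) * (D * u) + D ^ 2 * b - 0 * (D ^ 2 / ν2)
        = D ^ 2 * (3 * u ^ 2 + 2 * a * u + b) := by ring
    rw [e3, e4]
    field_simp
  have hX : (EC K (D * a) (D ^ 2 * b) (D ^ 3 * c)).addX (D * u) (D * u)
      ((EC K (D * a) (D ^ 2 * b) (D ^ 3 * c)).slope (D * u) (D * u) (D ^ 2 / ν2)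
      (D ^ 2 / ν2)) = x0 := by
    rw [hslope]
    simp only [addX, EC]
    apply mul_left_cancel₀ h4
    rw [hx0]
    field_simp
    rw [hDf]
    ring
  have hor : Q + Q = Point.some x0 y0 hP ∨ Q + Q = -Point.some x0 y0 hP := by
    rw [hQ, Point.add_self_of_Y_ne hYne]
    exact Point.X_eq_iff.1 hX
  rcases hor with h | h
  · exact ⟨Q, h⟩
  · refine ⟨-Q, ?_⟩
    rw [← neg_add, h, neg_neg]

/-- The line relation. -/
lemma line_rel {K' : Type*} [Field K'] (j : K →+* K') {A B C x1 x2 y1 y2 : K} {e : K'}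
    (h1 : (EC K A B C).Nonsingular x1 y1)
    (h2 : (EC K A B C).Nonsingular x2 y2) (hx : x1 ≠ x2)
    (he : e ^ 3 + j A * e ^ 2 + j B * e + j C = 0) :
    ∃ (x3 y3 : K) (h3 : (EC K A B C).Nonsingular x3 y3) (w : K'),
      (Point.some x1 y1 h1 + Point.some x2 y2 h2 : (EC K A B C).Point) = Point.some x3 y3 h3 ∧
      (j x1 - e) * (j x2 - e) * (j x3 - e) = w ^ 2 := by
  have e1 := congrArg j ((equation_iff' A B C x1 y1).1 h1.1)
  have e2 := congrArg j ((equation_iff' A B C x2 y2).1 h2.1)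
  have hne : x1 - x2 ≠ 0 := sub_ne_zero.2 hx
  obtain ⟨l, hl⟩ : ∃ l, l = (y1 - y2) / (x1 - x2) := ⟨_, rfl⟩
  have hl' : l * (x1 - x2) = y1 - y2 := by rw [hl]; field_simp
  refine ⟨_, _, _, j l * (e - j x1) + j y1, Point.add_of_X_ne hx, ?_⟩
  rw [slope_of_X_ne hx, ← hl]
  simp only [addX, EC, map_sub, map_add, map_mul, map_pow, map_zero] at e1 e2 ⊢
  apply mul_left_cancel₀ ((_root_.map_ne_zero j).2 hne)
  have hy2 : j y2 = j y1 - j l * (j x1 - j x2) := by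
    rw [← map_sub, ← map_mul, hl', map_sub]; ring
  rw [hy2] at e2
  rw [map_sub]
  linear_combination (e - j x1) * e2 - (e - j x2) * e1 - (j x1 - j x2) * he

end halve

end Pool.Agent.Hhelper85
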