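import Mathlib
import Pool.Agent.Hhelper85.Halve
import Pool.Agent.Hhelper85.Comp

/-!
# Classification of the rational functions `u` with `f(t) f(u)` a square
-/

set_option linter.unusedSectionVars false

namespace Pool.Agent.Hhelper85

open Polynomial WeierstrassCurve WeierstrassCurve.Affine

lemma unit_sq {k : Type*} [Field k] {A B w : k[X]} {μ : k} (hμ : μ ≠ 0) (h : IsCoprime A B)
    (e : A * B = C μ * w ^ 2) : ∃ (c : k) (s : k[X]), c ≠ 0 ∧ A = C c * s ^ 2 := by
  have hu : IsUnit (C μ : k[X]) := isUnit_C.2 hμ.isUnit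
  have hc : IsCoprime A (C μ * B) := (isCoprime_mul_unit_left_right hu A B).2 h
  have e' : A * (C μ * B) = (C μ * w) ^ 2 := by
    linear_combination (C μ) * e
  obtain ⟨d, hd⟩ := exists_associated_pow_of_mul_eq_pow' hc e'
  obtain ⟨u, hu⟩ := hd
  obtain ⟨r, hr, hur⟩ := Polynomial.isUnit_iff.1 u.isUnit
  exact ⟨r, d, hr.ne_zero, by rw [← hu, ← hur]; ring⟩

section classify

variable {F L : Type*} [Field F] [Field L] (i : F →+* L) {a b c : F} {θ : L}

lemma deg_lin (hθF : ∀ x, i x ≠ θ) {N M : F[X]} (hM : M ≠ 0) :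
    (N.map i - C θ * M.map i).natDegree = max N.natDegree M.natDegree := by
  apply le_antisymm
  · refine (natDegree_sub_le _ _).trans (max_le ?_ ?_)
    · exact (natDegree_map_le).trans (le_max_left _ _)
    · exact (natDegree_C_mul_le _ _).trans ((natDegree_map_le).trans (le_max_right _ _))
  · apply le_natDegree_of_ne_zero
    rw [coeff_sub, coeff_C_mul, coeff_map, coeff_map]
    set k := max N.natDegree M.natDegree with hk
    by_cases hMk : M.coeff k = 0
    · rw [hMk, map_zero, mul_zero, sub_zero]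
      have hne : M.natDegree ≠ k := by
        intro h
        rw [← h] at hMk
        exact hM (leadingCoeff_eq_zero.1 hMk)
      have hNk : N.natDegree = k := by
        rcases max_choice N.natDegree M.natDegree with h | h
        · rw [hk, h]
        · exact absurd (h.symm.trans hk.symm) hne
      have hN0 : N ≠ 0 := by
        rintro rfl
        rw [natDegree_zero] at hNk
        have : M.natDegree ≤ k := le_max_right _ _
        omega
      rw [← hNk]
      exact (_root_.map_ne_zero i).2 (leadingCoeff_ne_zero.2 hN0)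
    · intro h
      have hi : i (M.coeff k) ≠ 0 := (_root_.map_ne_zero i).2 hMk
      apply hθF (N.coeff k / M.coeff k)
      rw [map_div₀]
      field_simp
      linear_combination h

lemma lin_eq_zero (hθF : ∀ x, i x ≠ θ) {N M : F[X]} (h : N.map i - C θ * M.map i = 0) :
    M = 0 := by
  by_contra hM
  obtain ⟨k, hk⟩ : ∃ k, M.coeff k ≠ 0 := by
    by_contra hcon
    push Not at hcon
    exact hM (Polynomial.ext (by simpa using hcon))
  have h1 := congrArg (fun r => r.coeff k) h
  simp only [coeff_sub, coeff_C_mul, coeff_map, coeff_zero] at h1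
  have hi : i (M.coeff k) ≠ 0 := (_root_.map_ne_zero i).2 hk
  apply hθF (N.coeff k / M.coeff k)
  rw [map_div₀]
  field_simp
  linear_combination h1

lemma fp_monic (a b c : F) : (fp a b c).Monic := by
  unfold fp
  monicity!

lemma fp_natDegree (a b c : F) : (fp a b c).natDegree = 3 := by
  unfold fp
  compute_degree!

lemma fp_irreducible (hno : ∀ x : F, x ^ 3 + a * x ^ 2 + b * x + c ≠ 0) :
    Irreducible (fp a b c) := by
  rw [(fp_monic a b c).irreducible_iff_roots_eq_zero_of_degree_le_three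
    (by rw [fp_natDegree]; norm_num) (by rw [fp_natDegree])]
  rw [Multiset.eq_zero_iff_forall_notMem]
  intro x hx
  rw [mem_roots (fp_monic a b c).ne_zero, IsRoot.def, fp_eval] at hx
  exact hno x hx

lemma fp_map (a b c : F) : (fp a b c).map i = fp (i a) (i b) (i c) := by
  simp [fp]

/-- The quadratic cofactor. -/
noncomputable def gq (A B θ : L) : L[X] := X ^ 2 + C (A + θ) * X + C (B + θ * (A + θ))

lemma gq_monic (A B θ : L) : (gq A B θ).Monic := by
  unfold gq
  monicity!

lemma gq_natDegree (A B θ : L) : (gq A B θ).natDegree = 2 := by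
  unfold gq
  compute_degree!

lemma gq_irreducible {A B θ : L} (hroot : ∀ z, z ^ 2 + (A + θ) * z + (B + θ * (A + θ)) ≠ 0) :
    Irreducible (gq A B θ) := by
  rw [(gq_monic A B θ).irreducible_iff_roots_eq_zero_of_degree_le_three
    (by rw [gq_natDegree]) (by rw [gq_natDegree]; norm_num)]
  rw [Multiset.eq_zero_iff_forall_notMem]
  intro x hx
  rw [mem_roots (gq_monic A B θ).ne_zero, IsRoot.def] at hx
  simp only [gq, eval_add, eval_pow, eval_X, eval_mul, eval_C] at hx
  exact hroot x hx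

lemma fp_factor {A B D θ : L} (hθ : θ ^ 3 + A * θ ^ 2 + B * θ + D = 0) :
    fp A B D = (X - C θ) * gq A B θ := by
  have h : (C D : L[X]) = -(C θ ^ 3 + C A * C θ ^ 2 + C B * C θ) := by
    rw [← C_pow, ← C_pow, ← C_mul, ← C_mul, ← C_add, ← C_add, ← C_neg]
    congr 1
    linear_combination hθ
  rw [fp, gq, h]
  simp only [C_add, C_mul]
  ring

lemma W_ne (hno : ∀ x : F, x ^ 3 + a * x ^ 2 + b * x + c ≠ 0) {N M : F[X]}
    (hNM : IsCoprime N M) : Wf a b c N M ≠ 0 := by
  intro hW
  have h1 : M ∣ N ^ 3 := ⟨-(C a * N ^ 2 + C b * N * M + C c * M ^ 2), by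
    rw [Wf] at hW; linear_combination hW⟩
  have h2 : IsUnit M := (hNM.symm.pow_right (n := 3)).isUnit_of_dvd' dvd_rfl h1
  obtain ⟨r, hr, hM'⟩ := Polynomial.isUnit_iff.1 h2
  have h3 := congrArg (fun p => p.eval 0) hW
  simp only [Wf, eval_add, eval_mul, eval_pow, eval_C, eval_zero, ← hM'] at h3
  apply hno (N.eval 0 / r)
  have hr0 := hr.ne_zero
  field_simp
  linear_combination h3

lemma W_leadingCoeff {N M : F[X]} (h : M.natDegree < N.natDegree) :
    (Wf a b c N M).leadingCoeff = N.leadingCoeff ^ 3 := by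
  have hN : T N N.natDegree N.leadingCoeff := T.self N le_rfl
  have hM : T M N.natDegree 0 := ⟨h.le, coeff_eq_zero_of_natDegree_lt h⟩
  have hN3 : T (N ^ 3) (3 * N.natDegree) (N.leadingCoeff ^ 3) := hN.pow 3
  have e1 : T (C a * N ^ 2 * M) (3 * N.natDegree) 0 := by
    have := ((hN.pow 2).mul hM).const a
    rw [mul_zero, mul_zero, show 2 * N.natDegree + N.natDegree = 3 * N.natDegree by ring,
      ← mul_assoc] at this
    exact this
  have e2 : T (C b * N * M ^ 2) (3 * N.natDegree) 0 := by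
    have := (hN.mul (hM.pow 2)).const b
    rw [zero_pow two_ne_zero, mul_zero, mul_zero,
      show N.natDegree + 2 * N.natDegree = 3 * N.natDegree by ring, ← mul_assoc] at this
    exact this
  have e3 : T (C c * M ^ 3) (3 * N.natDegree) 0 := by
    have := (hM.pow 3).const c
    rw [zero_pow (by norm_num), mul_zero] at this
    exact this
  have e4 : T (Wf a b c N M) (3 * N.natDegree) (N.leadingCoeff ^ 3) := by
    have := ((hN3.add e1).add e2).add e3
    simpa [Wf] using this
  have hN0 : N ≠ 0 := by rintro rfl; simp at h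
  have hl : N.leadingCoeff ^ 3 ≠ 0 := pow_ne_zero _ (leadingCoeff_ne_zero.2 hN0)
  have hd : (Wf a b c N M).natDegree = 3 * N.natDegree := by
    apply le_antisymm e4.1
    apply le_natDegree_of_ne_zero
    rw [e4.2]; exact hl
  rw [leadingCoeff, hd, e4.2]

lemma coprime_M_W {N M : F[X]} (hNM : IsCoprime N M) : IsCoprime M (Wf a b c N M) := by
  have h1 : Wf a b c N M = N ^ 3 + M * (C a * N ^ 2 + C b * N * M + C c * M ^ 2) := by
    rw [Wf]; ring
  rw [h1]
  exact (hNM.symm.pow_right (n := 3)).add_mul_left_right _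

/-- The quadratic form cofactor. -/
noncomputable def Gf (A B θ : L) (N M : L[X]) : L[X] :=
  N ^ 2 + C (A + θ) * N * M + C (B + θ * (A + θ)) * M ^ 2

lemma W_map (hθ : θ ^ 3 + i a * θ ^ 2 + i b * θ + i c = 0) (N M : F[X]) :
    (Wf a b c N M).map i = (N.map i - C θ * M.map i) * Gf (i a) (i b) θ (N.map i) (M.map i) := by
  have h : (C (i c) : L[X]) = -(C θ ^ 3 + C (i a) * C θ ^ 2 + C (i b) * C θ) := by
    rw [← C_pow, ← C_pow, ← C_mul, ← C_mul, ← C_add, ← C_add, ← C_neg]
    congr 1
    linear_combination hθ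
  simp only [Wf, Gf, Polynomial.map_add, Polynomial.map_mul, Polynomial.map_pow, map_C, h, C_add,
    C_mul]
  ring

lemma coprime_lin_G (hder : 3 * θ ^ 2 + 2 * i a * θ + i b ≠ 0) {N M : L[X]}
    (hNM : IsCoprime N M) : IsCoprime (N - C θ * M) (Gf (i a) (i b) θ N M) := by
  have h1 : Gf (i a) (i b) θ N M = C (3 * θ ^ 2 + 2 * i a * θ + i b) * M ^ 2
      + (N - C θ * M) * (N + C (i a + 2 * θ) * M) := by
    simp only [Gf, C_add, C_mul, C_pow, map_ofNat]
    ring
  rw [h1]
  apply IsCoprime.add_mul_left_right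
  have hu : IsUnit (C (3 * θ ^ 2 + 2 * i a * θ + i b) : L[X]) := isUnit_C.2 hder.isUnit
  rw [isCoprime_mul_unit_left_right hu]
  apply IsCoprime.pow_right
  have := coprime_lin hNM (a := 1) (b := -θ) (c := 0) (d := 1) (by norm_num)
  simpa [sub_eq_add_neg] using this

lemma G_eval {A B θ : L} (hroot : ∀ z, z ^ 2 + (A + θ) * z + (B + θ * (A + θ)) ≠ 0)
    {N M : L[X]} (hNM : IsCoprime N M) (x : L) : (Gf A B θ N M).eval x ≠ 0 := by
  intro h
  simp only [Gf, eval_add, eval_mul, eval_pow, eval_C] at h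
  obtain ⟨u, v, huv⟩ := hNM
  have h1 := congrArg (fun p => p.eval x) huv
  simp only [eval_add, eval_mul, eval_one] at h1
  by_cases hM : M.eval x = 0
  · rw [hM] at h h1
    have h2 : N.eval x = 0 := by
      have : N.eval x ^ 2 = 0 := by linear_combination h
      exact pow_eq_zero_iff (two_ne_zero) |>.1 this
    rw [h2] at h1
    simp at h1
  · apply hroot (N.eval x / M.eval x)
    field_simp
    linear_combination h

lemma not_mem_F (hno : ∀ x : F, x ^ 3 + a * x ^ 2 + b * x + c ≠ 0)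
    (hθ : θ ^ 3 + i a * θ ^ 2 + i b * θ + i c = 0) : ∀ x, i x ≠ θ := by
  rintro x rfl
  apply hno x
  apply i.injective
  simp only [map_add, map_mul, map_pow, map_zero]
  exact hθ

/-- If the image of `f` divides `N - θ M`, then `f ∣ M`. -/
lemma f_dvd (hθF : ∀ x, i x ≠ θ) {f N M : F[X]} (hf : f.Monic)
    (h : f.map i ∣ N.map i - C θ * M.map i) : f ∣ M := by
  rw [← modByMonic_eq_zero_iff_dvd hf]
  apply lin_eq_zero i hθF (N := N %ₘ f)
  rw [map_modByMonic _ hf, map_modByMonic _ hf]
  have h1 := (modByMonic_eq_zero_iff_dvd (hf.map i)).2 h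
  rw [sub_modByMonic, ← smul_eq_C_mul, smul_modByMonic] at h1
  rw [← smul_eq_C_mul]
  exact h1

/-- Final adjustment of the constants. -/
lemma adjust (hθF : ∀ x, i x ≠ θ) {N M : F[X]} (hM : M ≠ 0) (hlt : M.natDegree < N.natDegree)
    {μ : F} (hμ : μ ≠ 0) {w : F[X]} (hw : μ * (Wf a b c N M).leadingCoeff = w.leadingCoeff ^ 2)
    {P n : L[X]} (hP : P.Monic) {c0 : L}
    (h : N.map i - C θ * M.map i = C c0 * (P * n ^ 2)) :
    ∃ n' : L[X], C (i μ) * (N.map i - C θ * M.map i) = P * n' ^ 2 := by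
  have hN0 : N ≠ 0 := by rintro rfl; simp at hlt
  have hlN : N.leadingCoeff ≠ 0 := leadingCoeff_ne_zero.2 hN0
  have hlc : (N.map i - C θ * M.map i).leadingCoeff = i N.leadingCoeff := by
    rw [leadingCoeff, deg_lin i hθF hM, max_eq_left hlt.le, coeff_sub, coeff_C_mul, coeff_map,
      coeff_map, coeff_eq_zero_of_natDegree_lt hlt, map_zero, mul_zero, sub_zero]
    rfl
  have hlc2 : i N.leadingCoeff = c0 * n.leadingCoeff ^ 2 := by
    rw [← hlc, h, leadingCoeff_mul, leadingCoeff_C, leadingCoeff_mul, hP.leadingCoeff, one_mul,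
      leadingCoeff_pow]
  have hn0 : n.leadingCoeff ≠ 0 := by
    intro h0
    rw [h0] at hlc2
    have : i N.leadingCoeff = 0 := by rw [hlc2]; ring
    exact hlN ((_root_.map_eq_zero i).1 this)
  rw [W_leadingCoeff hlt] at hw
  have hμν : i μ * c0 = (i (w.leadingCoeff / N.leadingCoeff) / n.leadingCoeff) ^ 2 := by
    have h1 : i μ * i N.leadingCoeff ^ 3 = i w.leadingCoeff ^ 2 := by
      rw [← map_pow, ← map_mul, hw, map_pow]
    have hiN : i N.leadingCoeff ≠ 0 := (_root_.map_ne_zero i).2 hlN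
    rw [map_div₀]
    field_simp
    rw [← h1]
    linear_combination (-(i μ * i N.leadingCoeff ^ 2)) * hlc2
  refine ⟨C (i (w.leadingCoeff / N.leadingCoeff) / n.leadingCoeff) * n, ?_⟩
  rw [h, mul_pow, ← C_pow, ← hμν, C_mul]
  ring

theorem classify (hθ : θ ^ 3 + i a * θ ^ 2 + i b * θ + i c = 0)
    (hder : 3 * θ ^ 2 + 2 * i a * θ + i b ≠ 0)
    (hroot : ∀ z, z ^ 2 + (i a + θ) * z + (i b + θ * (i a + θ)) ≠ 0)
    (hno : ∀ x : F, x ^ 3 + a * x ^ 2 + b * x + c ≠ 0) {N M S : F[X]} (hNM : IsCoprime N M)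
    (hM : M ≠ 0) (h : fp a b c * (M * Wf a b c N M) = S ^ 2) :
    ∃ μ : F, μ ≠ 0 ∧ ∃ (m : F[X]) (n : L[X]), m ≠ 0 ∧
      ((C μ * M = fp a b c * m ^ 2 ∧ C (i μ) * (N.map i - C θ * M.map i) = n ^ 2) ∨
       (C μ * M = m ^ 2 ∧ C (i μ) * (N.map i - C θ * M.map i) = (X - C θ) * n ^ 2)) := by
  have hθF := not_mem_F i hno hθ
  have hirr := fp_irreducible hno
  have hfprime : Prime (fp a b c) := hirr.prime
  have hfne : fp a b c ≠ 0 := (fp_monic a b c).ne_zero
  have hW0 := W_ne hno hNM
  have hMW := coprime_M_W (a := a) (b := b) (c := c) hNM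
  -- `f` divides `S`
  obtain ⟨S1, rfl⟩ : fp a b c ∣ S := by
    apply hfprime.dvd_of_dvd_pow (n := 2)
    rw [← h]; exact dvd_mul_right _ _
  have h1 : M * Wf a b c N M = fp a b c * S1 ^ 2 := by
    apply mul_left_cancel₀ hfne
    rw [h]; ring
  have hcL : IsCoprime (N.map i) (M.map i) := coprime_map i hNM
  have hcG : IsCoprime (N.map i - C θ * M.map i) (Gf (i a) (i b) θ (N.map i) (M.map i)) :=
    coprime_lin_G i hder hcL
  have hWL := W_map i hθ N M
  have hM0sq : ∀ {m : F[X]} {e : F}, M = C e * m ^ 2 → m ≠ 0 := by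
    rintro m e he rfl
    apply hM; rw [he]; ring
  by_cases hfM : fp a b c ∣ M
  · -- first case
    obtain ⟨M1, hM1⟩ := hfM
    have h2 : M1 * Wf a b c N M = C 1 * S1 ^ 2 := by
      apply mul_left_cancel₀ hfne
      rw [← mul_assoc, ← hM1, h1]; simp
    have hc1 : IsCoprime M1 (Wf a b c N M) := by
      rw [hM1] at hMW
      rw [hM1]
      exact hMW.of_mul_left_right
    obtain ⟨μ, m0, hμ, hm0⟩ := unit_sq one_ne_zero hc1 h2
    have hm00 : m0 ≠ 0 := by
      rintro rfl
      apply hM; rw [hM1, hm0]; ring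
    -- `μ W` is a square
    have hdvd : m0 ∣ S1 := by
      have : m0 ^ 2 ∣ S1 ^ 2 := ⟨C μ * Wf a b c N M, by
        rw [C_1, one_mul] at h2
        rw [← h2, hm0]; ring⟩
      exact (IsIntegrallyClosed.pow_dvd_pow_iff two_ne_zero).1 this
    obtain ⟨w, rfl⟩ := hdvd
    have hw : C μ * Wf a b c N M = w ^ 2 := by
      apply mul_left_cancel₀ (pow_ne_zero 2 hm00)
      rw [C_1, one_mul] at h2
      rw [hm0] at h2
      linear_combination h2
    have hwl : μ * (Wf a b c N M).leadingCoeff = w.leadingCoeff ^ 2 := by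
      rw [← leadingCoeff_pow, ← hw, leadingCoeff_mul, leadingCoeff_C]
    -- over `L`
    have h3 : (N.map i - C θ * M.map i) * Gf (i a) (i b) θ (N.map i) (M.map i)
        = C (i μ)⁻¹ * (w.map i) ^ 2 := by
      have e := congrArg (Polynomial.map i) hw
      rw [Polynomial.map_mul, Polynomial.map_pow, map_C, hWL] at e
      rw [← e, ← mul_assoc, ← C_mul, inv_mul_cancel₀ ((_root_.map_ne_zero i).2 hμ), C_1, one_mul]
    obtain ⟨c0, n0, hc0, hn0⟩ := unit_sq (inv_ne_zero ((_root_.map_ne_zero i).2 hμ)) hcG h3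
    -- degrees
    have hdM : M.natDegree = 3 + 2 * m0.natDegree := by
      rw [hM1, hm0, natDegree_mul hfne (mul_ne_zero (C_ne_zero.2 hμ) (pow_ne_zero _ hm00)),
        fp_natDegree, natDegree_C_mul hμ, natDegree_pow]
    have hdN : max N.natDegree M.natDegree = 2 * n0.natDegree := by
      rw [← deg_lin i hθF hM, hn0, natDegree_C_mul hc0, natDegree_pow]
    have hlt : M.natDegree < N.natDegree := by
      rcases le_total N.natDegree M.natDegree with hle | hle
      · rw [max_eq_right hle] at hdN; omega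
      · rw [max_eq_left hle] at hdN; omega
    obtain ⟨n', hn'⟩ := adjust i hθF hM hlt hμ hwl (P := 1) monic_one (n := n0) (c0 := c0)
      (by rw [one_mul]; exact hn0)
    refine ⟨μ, hμ, C μ * m0, n', mul_ne_zero (C_ne_zero.2 hμ) hm00, Or.inl ⟨?_, ?_⟩⟩
    · rw [hM1, hm0]; ring
    · rw [hn', one_mul]
  · -- second case
    have hfW : fp a b c ∣ Wf a b c N M := by
      have : fp a b c ∣ M * Wf a b c N M := by rw [h1]; exact dvd_mul_right _ _
      exact (hfprime.dvd_or_dvd this).resolve_left hfM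
    obtain ⟨W1, hW1⟩ := hfW
    have h2 : M * W1 = C 1 * S1 ^ 2 := by
      apply mul_left_cancel₀ hfne
      rw [C_1, one_mul, ← h1, hW1]; ring
    have hc1 : IsCoprime M W1 := by
      rw [hW1] at hMW
      exact hMW.of_mul_right_right
    obtain ⟨μ, m0, hμ, hm0⟩ := unit_sq one_ne_zero hc1 h2
    have hm00 : m0 ≠ 0 := hM0sq hm0
    have hdvd : m0 ∣ S1 := by
      have : m0 ^ 2 ∣ S1 ^ 2 := ⟨C μ * W1, by
        rw [C_1, one_mul] at h2
        rw [← h2, hm0]; ring⟩
      exact (IsIntegrallyClosed.pow_dvd_pow_iff two_ne_zero).1 this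
    obtain ⟨w, rfl⟩ := hdvd
    have hw1 : C μ * W1 = w ^ 2 := by
      apply mul_left_cancel₀ (pow_ne_zero 2 hm00)
      rw [C_1, one_mul] at h2
      rw [hm0] at h2
      linear_combination h2
    have hw : C μ * Wf a b c N M = fp a b c * w ^ 2 := by
      rw [hW1, ← hw1]; ring
    have hwl : μ * (Wf a b c N M).leadingCoeff = w.leadingCoeff ^ 2 := by
      rw [← leadingCoeff_C μ, ← leadingCoeff_mul, hw, leadingCoeff_mul,
        (fp_monic a b c).leadingCoeff, one_mul, leadingCoeff_pow]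
    -- over `L`
    have hfac : (fp a b c).map i = (X - C θ) * gq (i a) (i b) θ := by
      rw [fp_map, fp_factor hθ]
    have h3 : (N.map i - C θ * M.map i) * Gf (i a) (i b) θ (N.map i) (M.map i)
        = C (i μ)⁻¹ * (((X - C θ) * gq (i a) (i b) θ) * (w.map i) ^ 2) := by
      have e := congrArg (Polynomial.map i) hw
      rw [Polynomial.map_mul, Polynomial.map_mul, Polynomial.map_pow, map_C, hWL, hfac] at e
      rw [← e, ← mul_assoc, ← C_mul, inv_mul_cancel₀ ((_root_.map_ne_zero i).2 hμ), C_1, one_mul]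
    have hp1 : Prime (X - C θ) := prime_X_sub_C θ
    have hp2 : Prime (gq (i a) (i b) θ) := (gq_irreducible hroot).prime
    have hd1 : (X - C θ) ∣ (N.map i - C θ * M.map i) := by
      have hd : (X - C θ) ∣ (N.map i - C θ * M.map i) * Gf (i a) (i b) θ (N.map i) (M.map i) := by
        rw [h3]
        exact Dvd.dvd.mul_left (Dvd.dvd.mul_right (dvd_mul_right _ _) _) _
      refine (hp1.dvd_or_dvd hd).resolve_right fun h0 => ?_
      rw [dvd_iff_isRoot] at h0
      exact G_eval hroot hcL θ h0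
    have hcop12 : IsCoprime (X - C θ) (gq (i a) (i b) θ) := by
      apply (irreducible_X_sub_C θ).coprime_iff_not_dvd.2
      rw [dvd_iff_isRoot, IsRoot.def]
      simp only [gq, eval_add, eval_pow, eval_X, eval_mul, eval_C]
      exact hroot θ
    have hd2 : gq (i a) (i b) θ ∣ Gf (i a) (i b) θ (N.map i) (M.map i) := by
      have hd : gq (i a) (i b) θ ∣
          (N.map i - C θ * M.map i) * Gf (i a) (i b) θ (N.map i) (M.map i) := by
        rw [h3]
        exact Dvd.dvd.mul_left (Dvd.dvd.mul_right (dvd_mul_left _ _) _) _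
      refine (hp2.dvd_or_dvd hd).resolve_left fun h0 => ?_
      apply hfM
      apply f_dvd i hθF (fp_monic a b c) (N := N)
      rw [hfac]
      exact hcop12.mul_dvd hd1 h0
    obtain ⟨A, hA⟩ := hd1
    obtain ⟨B, hB⟩ := hd2
    have hAB : A * B = C (i μ)⁻¹ * (w.map i) ^ 2 := by
      have hne : (X - C θ) * gq (i a) (i b) θ ≠ 0 := mul_ne_zero hp1.ne_zero hp2.ne_zero
      apply mul_left_cancel₀ hne
      rw [hA, hB] at h3
      linear_combination h3
    have hcAB : IsCoprime A B := by
      rw [hA, hB] at hcG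
      exact hcG.of_mul_left_right.of_mul_right_right
    obtain ⟨c0, n0, hc0, hn0⟩ := unit_sq (inv_ne_zero ((_root_.map_ne_zero i).2 hμ)) hcAB hAB
    have hn00 : n0 ≠ 0 := by
      rintro rfl
      apply hM
      apply lin_eq_zero i hθF (N := N)
      rw [hA, hn0]; ring
    have hdM : M.natDegree = 2 * m0.natDegree := by
      rw [hm0, natDegree_C_mul hμ, natDegree_pow]
    have hdN : max N.natDegree M.natDegree = 1 + 2 * n0.natDegree := by
      rw [← deg_lin i hθF hM, hA, hn0, natDegree_mul hp1.ne_zero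
        (mul_ne_zero (C_ne_zero.2 hc0) (pow_ne_zero _ hn00)), natDegree_X_sub_C,
        natDegree_C_mul hc0, natDegree_pow]
    have hlt : M.natDegree < N.natDegree := by
      rcases le_total N.natDegree M.natDegree with hle | hle
      · rw [max_eq_right hle] at hdN; omega
      · rw [max_eq_left hle] at hdN; omega
    obtain ⟨n', hn'⟩ := adjust i hθF hM hlt hμ hwl (P := X - C θ) (monic_X_sub_C θ) (n := n0)
      (c0 := c0) (by rw [hA, hn0]; ring)
    refine ⟨μ, hμ, C μ * m0, n', mul_ne_zero (C_ne_zero.2 hμ) hm00, Or.inr ⟨?_, hn'⟩⟩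
    rw [hm0]; ring

end classify

end Pool.Agent.Hhelper85
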