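import Mathlib
import Pool.Agent.Hhelper85.Classify
import Pool.Agent.Hhelper85.Weil3

/-!
# The two-descent
-/

set_option linter.unusedSectionVars false

namespace Pool.Agent.Hhelper85

open Polynomial WeierstrassCurve WeierstrassCurve.Affine

section descent

variable {F L : Type*} [Field F] [Field L] (i : F →+* L) {a b c : F} {θ : L}

/-- The data of a cubic extension generated by a root of `f`, with no other root. -/
structure Cub (i : F →+* L) (a b c : F) (θ : L) : Prop where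
  hθ : θ ^ 3 + i a * θ ^ 2 + i b * θ + i c = 0
  hroot : ∀ z, z ^ 2 + (i a + θ) * z + (i b + θ * (i a + θ)) ≠ 0
  hind : ∀ x0 x1 x2 : F, i x0 + i x1 * θ + i x2 * θ ^ 2 = 0 → x0 = 0 ∧ x1 = 0 ∧ x2 = 0
  hspan : ∀ z : L, ∃ x0 x1 x2 : F, z = i x0 + i x1 * θ + i x2 * θ ^ 2

variable {i}

lemma decomp (hspan : ∀ z : L, ∃ x0 x1 x2 : F, z = i x0 + i x1 * θ + i x2 * θ ^ 2) (n : L[X]) :
    ∃ n0 n1 n2 : F[X], n = n0.map i + C θ * n1.map i + C θ ^ 2 * n2.map i := by
  induction n using Polynomial.induction_on' with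
  | add p q hp hq =>
    obtain ⟨p0, p1, p2, hp⟩ := hp
    obtain ⟨q0, q1, q2, hq⟩ := hq
    refine ⟨p0 + q0, p1 + q1, p2 + q2, ?_⟩
    rw [hp, hq]
    simp only [Polynomial.map_add]
    ring
  | monomial k z =>
    obtain ⟨x0, x1, x2, hz⟩ := hspan z
    refine ⟨monomial k x0, monomial k x1, monomial k x2, ?_⟩
    rw [map_monomial, map_monomial, map_monomial, hz, ← C_pow, C_mul_monomial, C_mul_monomial,
      ← map_add, ← map_add]
    congr 1
    ring

lemma indep (hind : ∀ x0 x1 x2 : F, i x0 + i x1 * θ + i x2 * θ ^ 2 = 0 → x0 = 0 ∧ x1 = 0 ∧ x2 = 0)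
    {p0 p1 p2 : F[X]} (h : p0.map i + C θ * p1.map i + C θ ^ 2 * p2.map i = 0) :
    p0 = 0 ∧ p1 = 0 ∧ p2 = 0 := by
  have h1 : ∀ k, p0.coeff k = 0 ∧ p1.coeff k = 0 ∧ p2.coeff k = 0 := by
    intro k
    apply hind
    have := congrArg (fun r => r.coeff k) h
    simp only [coeff_add, ← C_pow, coeff_C_mul, coeff_map, coeff_zero] at this
    linear_combination this
  refine ⟨?_, ?_, ?_⟩ <;> ext k
  · simpa using (h1 k).1
  · simpa using (h1 k).2.1
  · simpa using (h1 k).2.2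

/-- Comparing coefficients in `n² = μ (N - θ M)`. -/
lemma coeffs (H : Cub i a b c θ) {n0 n1 n2 N' M' : F[X]}
    (h : N'.map i - C θ * M'.map i = (n0.map i + C θ * n1.map i + C θ ^ 2 * n2.map i) ^ 2) :
    n0 ^ 2 - 2 * C c * n1 * n2 + C a * C c * n2 ^ 2 = N' ∧
    2 * n0 * n1 - 2 * C b * n1 * n2 + (C a * C b - C c) * n2 ^ 2 = -M' ∧
    n1 ^ 2 + 2 * n0 * n2 - 2 * C a * n1 * n2 + (C a ^ 2 - C b) * n2 ^ 2 = 0 := by
  have hθ3 : (C θ : L[X]) ^ 3 = -(C (i a) * C θ ^ 2 + C (i b) * C θ + C (i c)) := by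
    rw [← C_pow, ← C_pow, ← C_mul, ← C_mul, ← C_add, ← C_add, ← C_neg]
    congr 1
    linear_combination H.hθ
  have key := indep H.hind
    (p0 := n0 ^ 2 - 2 * C c * n1 * n2 + C a * C c * n2 ^ 2 - N')
    (p1 := 2 * n0 * n1 - 2 * C b * n1 * n2 + (C a * C b - C c) * n2 ^ 2 + M')
    (p2 := n1 ^ 2 + 2 * n0 * n2 - 2 * C a * n1 * n2 + (C a ^ 2 - C b) * n2 ^ 2)
    (by
      simp only [Polynomial.map_add, Polynomial.map_sub, Polynomial.map_mul, Polynomial.map_pow,
        map_C, Polynomial.map_ofNat]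
      linear_combination -h - (2 * n1.map i * n2.map i + (C θ - C (i a)) * (n2.map i) ^ 2) * hθ3)
  obtain ⟨k0, k1, k2⟩ := key
  refine ⟨?_, ?_, k2⟩
  · linear_combination k0
  · linear_combination k1

variable [DecidableEq (RF F)]

/-- The first case: the point is divisible by `2`. -/
lemma div_of_case1 (h2 : (2 : F) ≠ 0) (H : Cub i a b c θ) {N M m : F[X]} {μ : F} (hμ : μ ≠ 0)
    {n : L[X]}
    (hm : m ≠ 0) (hM : C μ * M = fp a b c * m ^ 2)
    (hN : C (i μ) * (N.map i - C θ * M.map i) = n ^ 2) {x y : RF F}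
    (h : (Tw (RF F) a b c (Dgen a b c)).Nonsingular x y)
    (hx : x * algebraMap F[X] (RF F) M = Dgen a b c * algebraMap F[X] (RF F) N) :
    ∃ Q : (Tw (RF F) a b c (Dgen a b c)).Point, Q + Q = Point.some x y h := by
  obtain ⟨n0, n1, n2, rfl⟩ := decomp H.hspan n
  have hN' : (C μ * N).map i - C θ * (C μ * M).map i
      = (n0.map i + C θ * n1.map i + C θ ^ 2 * n2.map i) ^ 2 := by
    rw [← hN, Polynomial.map_mul, Polynomial.map_mul, map_C]; ring
  obtain ⟨k0, k1, k2⟩ := coeffs H hN'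
  set ι := algebraMap F[X] (RF F) with hι
  have hm' : ι m ≠ 0 := by rwa [hι, Ne, IsFractionRing.to_map_eq_zero_iff]
  have hD := Dgen_ne a b c
  have hμ' : cst (RF F) μ ≠ 0 := by
    rw [cst, Ne, IsFractionRing.to_map_eq_zero_iff, C_eq_zero]; exact hμ
  have h2' : (2 : RF F) ≠ 0 := by
    have : (2 : RF F) = cst (RF F) (2 : F) :=
      (map_ofNat ((algebraMap F[X] (RF F)).comp C) 2).symm
    rw [this, cst, Ne, IsFractionRing.to_map_eq_zero_iff, C_eq_zero]
    exact h2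
  have hMι : cst (RF F) μ * ι M = Dgen a b c * ι m ^ 2 := by
    have := congrArg ι hM
    rw [map_mul, map_mul, map_pow] at this
    exact this
  have K0 := congrArg ι k0
  have K1 := congrArg ι k1
  have K2 := congrArg ι k2
  simp only [map_add, map_sub, map_mul, map_pow, map_ofNat, map_neg, map_zero] at K0 K1 K2
  have ca : ∀ z : F, ι (C z) = cst (RF F) z := fun z => rfl
  simp only [ca] at K0 K1 K2
  refine halve h2' hD (ν0 := ι n0 / ι m) (ν1 := ι n1 / ι m) (ν2 := ι n2 / ι m) ?_ ?_ ?_ h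
  · have e : (ι n0 / ι m) ^ 2 - 2 * cst (RF F) c * (ι n1 / ι m) * (ι n2 / ι m)
        + cst (RF F) a * cst (RF F) c * (ι n2 / ι m) ^ 2
        = (ι n0 ^ 2 - 2 * cst (RF F) c * ι n1 * ι n2 + cst (RF F) a * cst (RF F) c * ι n2 ^ 2)
          / ι m ^ 2 := by
      field_simp
    rw [e, K0, div_eq_iff (pow_ne_zero _ hm')]
    apply mul_left_cancel₀ hD
    linear_combination (-cst (RF F) μ) * hx + x * hMι
  · have e : 2 * (ι n0 / ι m) * (ι n1 / ι m) - 2 * cst (RF F) b * (ι n1 / ι m) * (ι n2 / ι m)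
        + (cst (RF F) a * cst (RF F) b - cst (RF F) c) * (ι n2 / ι m) ^ 2
        = (2 * ι n0 * ι n1 - 2 * cst (RF F) b * ι n1 * ι n2
          + (cst (RF F) a * cst (RF F) b - cst (RF F) c) * ι n2 ^ 2) / ι m ^ 2 := by
      field_simp
    rw [e, K1, div_eq_iff (pow_ne_zero _ hm'), hMι]
    ring
  · have e : (ι n1 / ι m) ^ 2 + 2 * (ι n0 / ι m) * (ι n2 / ι m)
        - 2 * cst (RF F) a * (ι n1 / ι m) * (ι n2 / ι m)
        + (cst (RF F) a ^ 2 - cst (RF F) b) * (ι n2 / ι m) ^ 2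
        = (ι n1 ^ 2 + 2 * ι n0 * ι n2 - 2 * cst (RF F) a * ι n1 * ι n2
          + (cst (RF F) a ^ 2 - cst (RF F) b) * ι n2 ^ 2) / ι m ^ 2 := by
      field_simp
    rw [e, K2, zero_div]

/-- The second case. -/
lemma rel_of_case2 (H : Cub i a b c θ) (hno : ∀ x, x ^ 3 + a * x ^ 2 + b * x + c ≠ 0)
    {N M m : F[X]} {μ : F} (hμ : μ ≠ 0) {n : L[X]} (hM0 : M ≠ 0)
    (hm : m ≠ 0) (hM : C μ * M = m ^ 2)
    (hN : C (i μ) * (N.map i - C θ * M.map i) = (X - C θ) * n ^ 2) {x : RF F}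
    (hx : x * algebraMap F[X] (RF F) M = Dgen a b c * algebraMap F[X] (RF F) N) :
    ∃ w : RF L, w ≠ 0 ∧ bc i x - bc i (Dgen a b c) * cst (RF L) θ
      = algebraMap L[X] (RF L) (gq (i a) (i b) θ) * w ^ 2 := by
  set ι := algebraMap L[X] (RF L) with hι
  have hinj : ∀ p : L[X], p ≠ 0 → ι p ≠ 0 := by
    intro p hp; rwa [hι, Ne, IsFractionRing.to_map_eq_zero_iff]
  have hmap : ∀ p : F[X], p ≠ 0 → p.map i ≠ 0 := by
    intro p hp; exact (Polynomial.map_ne_zero_iff i.injective).2 hp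
  have hm' : ι (m.map i) ≠ 0 := hinj _ (hmap _ hm)
  have hM' : ι (M.map i) ≠ 0 := hinj _ (hmap _ hM0)
  have hn0 : n ≠ 0 := by
    rintro rfl
    have h1 : C (i μ) * (N.map i - C θ * M.map i) = 0 := by rw [hN]; ring
    have h3 := (mul_eq_zero.1 h1).resolve_left (C_ne_zero.2 ((_root_.map_ne_zero i).2 hμ))
    exact hM0 (lin_eq_zero i (not_mem_F i hno H.hθ) h3)
  refine ⟨ι (X - C θ) * ι n / ι (m.map i), ?_, ?_⟩
  · exact div_ne_zero (mul_ne_zero (hinj _ (X_sub_C_ne_zero θ)) (hinj _ hn0)) hm'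
  · have hDfac : bc i (Dgen a b c) = ι (X - C θ) * ι (gq (i a) (i b) θ) := by
      rw [Dgen_bc, Dgen, ← map_mul, ← fp_factor H.hθ]
    have hx' : bc i x * ι (M.map i) = bc i (Dgen a b c) * ι (N.map i) := by
      have := congrArg (bc i) hx
      rwa [map_mul, map_mul, bc_algebraMap, bc_algebraMap] at this
    have hMι : ι (C (i μ)) * ι (M.map i) = ι (m.map i) ^ 2 := by
      rw [← map_mul, ← map_pow, ← Polynomial.map_pow, ← hM, Polynomial.map_mul, map_C]
    have hNι : ι (C (i μ)) * (ι (N.map i) - cst (RF L) θ * ι (M.map i))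
        = ι (X - C θ) * ι n ^ 2 := by
      have := congrArg ι hN
      rw [map_mul, map_sub, map_mul, map_mul, map_pow] at this
      exact this
    have hμ' : ι (C (i μ)) ≠ 0 := hinj _ (C_ne_zero.2 ((_root_.map_ne_zero i).2 hμ))
    apply mul_left_cancel₀ (mul_ne_zero hμ' hM')
    rw [div_pow, mul_pow]
    have e : ι (C (i μ)) * ι (M.map i) * (ι (gq (i a) (i b) θ)
        * (ι (X - C θ) ^ 2 * ι n ^ 2 / ι (m.map i) ^ 2))
        = ι (gq (i a) (i b) θ) * ι (X - C θ) * (ι (X - C θ) * ι n ^ 2) := by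
      rw [hMι]; field_simp
    rw [e, ← hNι]
    linear_combination (ι (C (i μ))) * hx'
      + ι (C (i μ)) * (ι (N.map i) - cst (RF L) θ * ι (M.map i)) * hDfac

/-- Divisibility by `2` modulo the generic point. -/
theorem two_descent (h2 : (2 : F) ≠ 0) (hd : dsc a b c ≠ 0) (H : Cub i a b c θ)
    (hno : ∀ x, x ^ 3 + a * x ^ 2 + b * x + c ≠ 0)
    (P : (Tw (RF F) a b c (Dgen a b c)).Point) :
    ∃ Q, Q + Q = P ∨ Q + Q = P + Pgen h2 a b c := by
  have hder : 3 * θ ^ 2 + 2 * i a * θ + i b ≠ 0 := by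
    classical
    exact deriv_ne' (a := i a) (b := i b) (c := i c)
      (by rw [dsc_map]; exact (_root_.map_ne_zero i).2 hd) H.hθ
  cases P with
  | zero => exact ⟨0, Or.inl (by rw [← Point.zero_def]; simp)⟩
  | some x y h =>
    have hf0 : fp a b c ≠ 0 := (fp_monic a b c).ne_zero
    obtain ⟨N, M, S, hNM, hM, -, hx, -, hS⟩ := exists_rep hf0 h
    obtain ⟨μ, hμ, m, n, hm, hcase⟩ := classify i H.hθ hder H.hroot hno hNM hM hS
    rcases hcase with ⟨c1, c2⟩ | ⟨c1, c2⟩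
    · obtain ⟨Q, hQ⟩ := div_of_case1 h2 H hμ hm c1 c2 h hx
      exact ⟨Q, Or.inl hQ⟩
    · by_cases hxx : x = algebraMap F[X] (RF F) X * Dgen a b c
      · have hor := (Point.X_eq_iff (h₁ := h) (h₂ := gen_ns h2 a b c)).1 hxx
        rcases hor with h1 | h1
        · exact ⟨Point.some x y h, Or.inr (by rw [Pgen, ← h1])⟩
        · exact ⟨0, Or.inr (by rw [h1, Pgen]; rw [neg_add_cancel, add_zero])⟩
      · have he : (bc i (Dgen a b c) * cst (RF L) θ) ^ 3
            + bc i (Dgen a b c * cst (RF F) a) * (bc i (Dgen a b c) * cst (RF L) θ) ^ 2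
            + bc i (Dgen a b c ^ 2 * cst (RF F) b) * (bc i (Dgen a b c) * cst (RF L) θ)
            + bc i (Dgen a b c ^ 3 * cst (RF F) c) = 0 := by
          have h3 : cst (RF L) θ ^ 3 + cst (RF L) (i a) * cst (RF L) θ ^ 2
              + cst (RF L) (i b) * cst (RF L) θ + cst (RF L) (i c) = 0 := by
            have := congrArg (cst (RF L)) H.hθ
            simpa only [cst, map_add, map_mul, map_pow, map_zero, C_0] using this
          simp only [map_mul, map_pow, bc_cst]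
          linear_combination (bc i (Dgen a b c) ^ 3) * h3
        obtain ⟨x3, y3, h3, w, hsum, hw⟩ := line_rel (bc i) h (gen_ns h2 a b c) hxx he
        obtain ⟨N3, M3, S3, hNM3, hM3, -, hx3, -, hS3⟩ := exists_rep hf0 h3
        obtain ⟨μ3, hμ3, m3, n3, hm3, hcase3⟩ := classify i H.hθ hder H.hroot hno hNM3 hM3 hS3
        rcases hcase3 with ⟨d1, d2⟩ | ⟨d1, d2⟩
        · obtain ⟨Q, hQ⟩ := div_of_case1 h2 H hμ3 hm3 d1 d2 h3 hx3
          exact ⟨Q, Or.inr (by rw [hQ, Pgen, hsum])⟩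
        · exfalso
          obtain ⟨w1, hw1, e1⟩ := rel_of_case2 H hno hμ hM hm c1 c2 hx
          obtain ⟨w3, hw3, e3⟩ := rel_of_case2 H hno hμ3 hM3 hm3 d1 d2 hx3
          set ι := algebraMap L[X] (RF L) with hι
          have hinj : ∀ p : L[X], p ≠ 0 → ι p ≠ 0 := by
            intro p hp; rwa [hι, Ne, IsFractionRing.to_map_eq_zero_iff]
          have hDfac : bc i (Dgen a b c) = ι (X - C θ) * ι (gq (i a) (i b) θ) := by
            rw [Dgen_bc, Dgen, ← map_mul, ← fp_factor H.hθ]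
          have e2 : bc i (algebraMap F[X] (RF F) X * Dgen a b c)
              - bc i (Dgen a b c) * cst (RF L) θ = ι (gq (i a) (i b) θ) * ι (X - C θ) ^ 2 := by
            rw [map_mul, bc_algebraMap, map_X, hDfac]
            have : ι (X - C θ) = ι X - cst (RF L) θ := by rw [map_sub]
            rw [this]; ring
          rw [e1, e2, e3] at hw
          have hXθ : ι (X - C θ) ≠ 0 := hinj _ (X_sub_C_ne_zero θ)
          have hg : ι (gq (i a) (i b) θ) ≠ 0 := hinj _ (gq_monic _ _ _).ne_zero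
          have hsq : (w / (ι (gq (i a) (i b) θ) * w1 * ι (X - C θ) * w3)) ^ 2
              = ι (gq (i a) (i b) θ) := by
            rw [div_pow, ← hw]
            field_simp
          obtain ⟨s, -, hs⟩ := isPoly_of_sq hsq
          have hirr := gq_irreducible (A := i a) (B := i b) (θ := θ) H.hroot
          rw [← hs] at hirr
          exact (not_irreducible_pow (by norm_num)) hirr

end descent

end Pool.Agent.Hhelper85
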