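import Mathlib
import Pool.Agent.Hhelper85.Descent2

/-!
# The points of the generic twist are the multiples of the generic point
-/

set_option linter.unusedSectionVars false

namespace Pool.Agent.Hhelper85

open Polynomial WeierstrassCurve WeierstrassCurve.Affine

section cyclic

variable {F : Type*} [Field F] {a b c : F} [DecidableEq (RF F)]

lemma eq_zero_of_deg (hno : ∀ x, x ^ 3 + a * x ^ 2 + b * x + c ≠ 0)
    (P : (Tw (RF F) a b c (Dgen a b c)).Point) (hP : deg P = 0) : P = 0 := by
  cases P with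
  | zero => rfl
  | some x y h =>
    exfalso
    have hf0 : fp a b c ≠ 0 := (fp_monic a b c).ne_zero
    obtain ⟨N, M, S, hNM, hM, hdeg, -, -, hS⟩ := exists_rep hf0 h
    have hdeg' : max N.natDegree M.natDegree = 0 := by rw [← hdeg]; exact hP
    have hN0 : N.natDegree = 0 := by omega
    have hM0 : M.natDegree = 0 := by omega
    obtain ⟨n, rfl⟩ : ∃ n, N = C n := ⟨N.coeff 0, eq_C_of_natDegree_eq_zero hN0⟩
    obtain ⟨m, rfl⟩ : ∃ m, M = C m := ⟨M.coeff 0, eq_C_of_natDegree_eq_zero hM0⟩
    have hW0 := W_ne hno hNM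
    have hWc : Wf a b c (C n) (C m) = C (n ^ 3 + a * n ^ 2 * m + b * n * m ^ 2 + c * m ^ 3) := by
      simp only [Wf, C_add, C_mul, C_pow]
    rw [hWc] at hW0 hS
    have h1 := congrArg natDegree hS
    rw [natDegree_mul hf0 (mul_ne_zero hM hW0), fp_natDegree, natDegree_mul hM hW0, natDegree_C,
      natDegree_C, natDegree_pow] at h1
    omega

theorem gen_cyclic (h2 : (2 : F) ≠ 0) (hd : dsc a b c ≠ 0)
    (hno : ∀ x, x ^ 3 + a * x ^ 2 + b * x + c ≠ 0) {L : Type*} [Field L] {i : F →+* L} {θ : L}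
    (H : Cub i a b c θ) : ∀ (k : ℕ) (P : (Tw (RF F) a b c (Dgen a b c)).Point), deg P = k →
    ∃ n : ℤ, P = n • Pgen h2 a b c := by
  intro k
  have hD := Dgen_ne a b c
  have hpar := parallelogram hd hD
  have hg : deg (Pgen h2 a b c) = 1 := deg_Pgen h2 a b c
  have hdouble : ∀ Q : (Tw (RF F) a b c (Dgen a b c)).Point, deg (Q + Q) = 4 * deg Q := by
    intro Q
    have := hpar Q Q
    rw [sub_self, deg_zero hD] at this
    omega
  induction k using Nat.strong_induction_on with
  | _ k ih =>
    intro P hk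
    rcases Nat.eq_zero_or_pos k with h0 | hpos
    · exact ⟨0, by rw [eq_zero_of_deg hno P (by omega), zero_zsmul]⟩
    obtain ⟨Q, hQ | hQ⟩ := two_descent h2 hd H hno P
    · have h4 := hdouble Q
      rw [hQ, hk] at h4
      obtain ⟨n, hn⟩ := ih (deg Q) (by omega) Q rfl
      exact ⟨n + n, by rw [← hQ, hn, add_zsmul]⟩
    · have h4 := hdouble Q
      rw [hQ] at h4
      have h5 := hpar P (Pgen h2 a b c)
      rw [hk, hg] at h5
      by_cases hlt : deg Q < k
      · obtain ⟨n, hn⟩ := ih (deg Q) hlt Q rfl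
        refine ⟨n + n - 1, ?_⟩
        rw [sub_zsmul, add_zsmul, one_zsmul, ← hn, hQ]; exact (add_sub_cancel_right _ _).symm
      · have h6 : deg (P - Pgen h2 a b c) = 0 := by omega
        refine ⟨1, ?_⟩
        rw [one_zsmul]
        exact sub_eq_zero.1 (eq_zero_of_deg hno _ h6)

end cyclic

section cub

universe u

variable {F : Type u} [Field F] {a b c : F}

/-- The conditions used on the field: the `2`-torsion has the full symmetric group. -/
structure Good (F : Type*) [Field F] (a b c : F) : Prop where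
  h2 : (2 : F) ≠ 0
  hd : dsc a b c ≠ 0
  hno : ∀ x, x ^ 3 + a * x ^ 2 + b * x + c ≠ 0
  hsq : ∀ z, z ^ 2 ≠ dsc a b c

lemma fpR_monic {R : Type*} [CommRing R] (a b c : R) : (fp a b c).Monic := by
  unfold fp
  monicity!

lemma fp_eval₂ {R S : Type*} [CommRing R] [CommRing S] (i : R →+* S) (a b c : R) (θ : S) :
    (fp a b c).eval₂ i θ = θ ^ 3 + i a * θ ^ 2 + i b * θ + i c := by
  simp only [fp, eval₂_add, eval₂_mul, eval₂_pow, eval₂_X, eval₂_C]

lemma adj_root (a b c : F) : (AdjoinRoot.root (fp a b c)) ^ 3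
    + AdjoinRoot.of (fp a b c) a * (AdjoinRoot.root (fp a b c)) ^ 2
    + AdjoinRoot.of (fp a b c) b * (AdjoinRoot.root (fp a b c))
    + AdjoinRoot.of (fp a b c) c = 0 := by
  rw [← fp_eval₂]
  exact AdjoinRoot.eval₂_root (fp a b c)

lemma adj_basis (a b c : F) : ∃ B : Module.Basis (Fin 3) F (AdjoinRoot (fp a b c)),
    ∀ k, B k = AdjoinRoot.root (fp a b c) ^ (k : ℕ) := by
  have hm := fp_monic a b c
  have hpb : (AdjoinRoot.powerBasis' hm).dim = 3 := by
    rw [AdjoinRoot.powerBasis'_dim, fp_natDegree]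
  refine ⟨(AdjoinRoot.powerBasis' hm).basis.reindex (finCongr hpb), fun k => ?_⟩
  rw [Module.Basis.reindex_apply, PowerBasis.basis_eq_pow, AdjoinRoot.powerBasis'_gen]
  rfl

lemma Good.cub (hG : Good F a b c) : ∃ (L : Type u) (_ : Field L) (i : F →+* L) (θ : L),
    Cub i a b c θ := by
  have hirr := fp_irreducible hG.hno
  have := Fact.mk hirr
  obtain ⟨B, hB⟩ := adj_basis a b c
  have hθ := adj_root a b c
  have hi : ∀ x : F, AdjoinRoot.of (fp a b c) x = algebraMap F (AdjoinRoot (fp a b c)) x :=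
    fun x => rfl
  refine ⟨AdjoinRoot (fp a b c), inferInstance, AdjoinRoot.of (fp a b c),
    AdjoinRoot.root (fp a b c), hθ, ?_, ?_, ?_⟩
  · intro z hz
    -- the square root of the discriminant would be in the cubic field
    have hfin : Module.finrank F (AdjoinRoot (fp a b c)) = 3 := by
      rw [Module.finrank_eq_card_basis B, Fintype.card_fin]
    generalize AdjoinRoot.root (fp a b c) = θ at *
    obtain ⟨w, hw⟩ : ∃ w, w = -(AdjoinRoot.of (fp a b c) a) - θ - z := ⟨_, rfl⟩
    obtain ⟨ε, hε⟩ : ∃ ε, ε = 4 * ((θ - z) * (θ - w) * (z - w)) := ⟨_, rfl⟩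
    have hε2 : ε ^ 2 = AdjoinRoot.of (fp a b c) (dsc a b c) := by
      rw [← dsc_map]
      generalize AdjoinRoot.of (fp a b c) a = A at *
      generalize AdjoinRoot.of (fp a b c) b = B' at *
      generalize AdjoinRoot.of (fp a b c) c = C' at *
      have ha : A = -(θ + z + w) := by rw [hw]; ring
      have hb : B' = θ * z + θ * w + z * w := by
        rw [hw]
        linear_combination hz
      have hc : C' = -(θ * z * w) := by
        rw [hw]
        linear_combination hθ - θ * hz
      rw [ha, hb, hc, dsc_roots, hε]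
      ring
    have hnorm := congrArg (Algebra.norm F) hε2
    rw [map_pow, hi, Algebra.norm_algebraMap, hfin] at hnorm
    have hd := hG.hd
    apply hG.hsq (Algebra.norm F ε / dsc a b c)
    rw [div_pow, hnorm]
    field_simp
  · intro x0 x1 x2 h
    have hli := Fintype.linearIndependent_iff.1 B.linearIndependent ![x0, x1, x2] (by
      rw [Fin.sum_univ_three, hB, hB, hB]
      simp only [Matrix.cons_val_zero, Matrix.cons_val_one, Matrix.cons_val, Algebra.smul_def,
        ← hi]
      rw [← h]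
      simp)
    exact ⟨hli 0, hli 1, hli 2⟩
  · intro z
    refine ⟨B.repr z 0, B.repr z 1, B.repr z 2, ?_⟩
    conv_lhs => rw [← B.sum_repr z]
    rw [Fin.sum_univ_three, hB, hB, hB]
    simp only [Algebra.smul_def, ← hi]
    simp

end cub

end Pool.Agent.Hhelper85
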