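import Mathlib

/-!
# A lemma on ranks of abelian groups
-/

namespace Pool.Agent.Hhelper85

lemma rank_succ {G H : Type} [AddCommGroup G] [AddCommGroup H] (κ : H →+ G)
    (hκ : Function.Injective κ) (g : G) (hg : ∀ (n : ℤ) (h : H), n • g = κ h → n = 0)
    (hG : ∀ x : G, ∃ m : ℤ, m ≠ 0 ∧ ∃ (h : H) (n : ℤ), m • x = κ h + n • g) :
    Module.rank ℤ G = Module.rank ℤ H + 1 := by
  set k : H →ₗ[ℤ] G := κ.toIntLinearMap with hk
  have hkk : ∀ h, k h = κ h := fun h => rfl
  have hki : Function.Injective k := hκ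
  have h1 : Module.rank ℤ (LinearMap.range k) = Module.rank ℤ H := rank_range_of_injective k hki
  have h2 := rank_quotient_add_rank_of_isDomain (LinearMap.range k)
  set Q := G ⧸ LinearMap.range k
  set g' : Q := Submodule.Quotient.mk g with hg'
  -- the span of `g'`
  let s : ℤ →ₗ[ℤ] Q := LinearMap.toSpanSingleton ℤ Q g'
  have hs : Function.Injective s := by
    rw [injective_iff_map_eq_zero]
    intro n hn
    rw [LinearMap.toSpanSingleton_apply] at hn
    rw [hg', ← Submodule.Quotient.mk_smul, Submodule.Quotient.mk_eq_zero] at hn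
    obtain ⟨h, hh⟩ := hn
    exact hg n h hh.symm
  have h3 : Module.rank ℤ (LinearMap.range s) = 1 := by
    rw [rank_range_of_injective s hs, Module.rank_self]
  have h4 := rank_quotient_add_rank_of_isDomain (LinearMap.range s)
  have h5 : Module.rank ℤ (Q ⧸ LinearMap.range s) = 0 := by
    rw [rank_eq_zero_iff]
    intro x
    obtain ⟨y, rfl⟩ := Submodule.Quotient.mk_surjective _ x
    obtain ⟨z, rfl⟩ := Submodule.Quotient.mk_surjective _ y
    obtain ⟨m, hm, h, n, hmn⟩ := hG z
    refine ⟨m, hm, ?_⟩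
    rw [← Submodule.Quotient.mk_smul, Submodule.Quotient.mk_eq_zero]
    refine ⟨n, ?_⟩
    rw [LinearMap.toSpanSingleton_apply, hg', ← Submodule.Quotient.mk_smul,
      ← Submodule.Quotient.mk_smul]
    rw [Submodule.Quotient.eq]
    refine ⟨-h, ?_⟩
    rw [hkk, map_neg, hmn]
    abel
  rw [h5, zero_add, h3] at h4
  rw [← h2, h1, ← h4]
  exact add_comm _ _

end Pool.Agent.Hhelper85
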