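import Mathlib
import Pool.Agent.Hhelper85.Cyclic
import Pool.Agent.Hhelper85.RankLem

/-!
# Points over the function field of the curve
-/

set_option linter.unusedSectionVars false

namespace Pool.Agent.Hhelper85

open Polynomial WeierstrassCurve WeierstrassCurve.Affine

section quad

variable {K M : Type*} [Field K] [Field M]

/-- `M` is the quadratic extension of `K` generated by a square root `s` of `D`. -/
structure Qd (j : K →+* M) (D : K) (s : M) : Prop where
  hs : s ^ 2 = j D
  hspan : ∀ z, ∃ A B, z = j A + j B * s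
  hns : ∀ A, A ^ 2 ≠ D

namespace Qd

variable {j : K →+* M} {D : K} {s : M} (h : Qd j D s)
include h

lemma zero_of {A B : K} (h0 : j A + j B * s = 0) : A = 0 ∧ B = 0 := by
  have hB : B = 0 := by
    by_contra hB
    have hjB : j B ≠ 0 := (_root_.map_ne_zero j).2 hB
    apply h.hns (-A / B)
    apply j.injective
    rw [← h.hs, map_pow, map_div₀, map_neg]
    have : s = -j A / j B := by
      field_simp
      linear_combination h0
    rw [this]
  subst hB
  rw [map_zero, zero_mul, add_zero] at h0
  exact ⟨(_root_.map_eq_zero j).1 h0, rfl⟩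

lemma uniq {A B A' B' : K} (h0 : j A + j B * s = j A' + j B' * s) : A = A' ∧ B = B' := by
  have := h.zero_of (A := A - A') (B := B - B') (by
    rw [map_sub, map_sub]; linear_combination h0)
  exact ⟨sub_eq_zero.1 this.1, sub_eq_zero.1 this.2⟩

/-- The rational part. -/
noncomputable def re (z : M) : K := (h.hspan z).choose

/-- The coefficient of `s`. -/
noncomputable def im (z : M) : K := (h.hspan z).choose_spec.choose

lemma spec (z : M) : z = j (h.re z) + j (h.im z) * s := (h.hspan z).choose_spec.choose_spec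

lemma re_eq {z : M} {A B : K} (hz : z = j A + j B * s) : h.re z = A :=
  (h.uniq ((h.spec z).symm.trans hz)).1

lemma im_eq {z : M} {A B : K} (hz : z = j A + j B * s) : h.im z = B :=
  (h.uniq ((h.spec z).symm.trans hz)).2

/-- Conjugation. -/
noncomputable def conj : M →+* M where
  toFun z := j (h.re z) - j (h.im z) * s
  map_one' := by
    have h1 : (1 : M) = j 1 + j 0 * s := by simp
    rw [h.re_eq h1, h.im_eq h1]; simp
  map_zero' := by
    have h1 : (0 : M) = j 0 + j 0 * s := by simp
    rw [h.re_eq h1, h.im_eq h1]; simp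
  map_add' x y := by
    have h1 : x + y = j (h.re x + h.re y) + j (h.im x + h.im y) * s := by
      conv_lhs => rw [h.spec x, h.spec y]
      simp only [map_add]; ring
    rw [h.re_eq h1, h.im_eq h1]; simp only [map_add]; ring
  map_mul' x y := by
    have h1 : x * y = j (h.re x * h.re y + h.im x * h.im y * D)
        + j (h.re x * h.im y + h.im x * h.re y) * s := by
      conv_lhs => rw [h.spec x, h.spec y]
      simp only [map_add, map_mul, ← h.hs]; ring
    rw [h.re_eq h1, h.im_eq h1]; simp only [map_add, map_mul, ← h.hs]; ring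

lemma conj_apply (A B : K) : h.conj (j A + j B * s) = j A - j B * s := by
  show j (h.re _) - j (h.im _) * s = _
  rw [h.re_eq rfl, h.im_eq rfl]

lemma conj_j (A : K) : h.conj (j A) = j A := by
  have := h.conj_apply A 0
  simpa using this

lemma conj_s : h.conj s = -s := by
  have := h.conj_apply 0 1
  simpa using this

lemma conj_conj (z : M) : h.conj (h.conj z) = z := by
  rw [h.spec z, h.conj_apply]
  have e : j (h.re z) - j (h.im z) * s = j (h.re z) + j (-h.im z) * s := by
    rw [map_neg]; ring
  rw [e, h.conj_apply, map_neg]; ring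

lemma fixed (h2 : (2 : K) ≠ 0) {z : M} (hz : h.conj z = z) : ∃ A, z = j A := by
  obtain ⟨A, B, rfl⟩ := h.hspan z
  rw [h.conj_apply] at hz
  have h3 : j 0 + j (2 * B) * s = 0 := by
    rw [map_zero, map_mul, map_ofNat]; linear_combination -hz
  have hB : B = 0 := (mul_eq_zero.1 (h.zero_of h3).2).resolve_left h2
  exact ⟨A, by rw [hB]; simp⟩

lemma anti (h2 : (2 : K) ≠ 0) {z : M} (hz : h.conj z = -z) : ∃ B, z = j B * s := by
  obtain ⟨A, B, rfl⟩ := h.hspan z
  rw [h.conj_apply] at hz
  have h3 : j (2 * A) + j 0 * s = 0 := by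
    rw [map_zero, map_mul, map_ofNat]; linear_combination hz
  have hA : A = 0 := (mul_eq_zero.1 (h.zero_of h3).1).resolve_left h2
  exact ⟨B, by rw [hA]; simp⟩

lemma s_ne : s ≠ 0 := by
  rintro rfl
  have h0 := h.hs
  have : D = 0 := (_root_.map_eq_zero j).1 (by rw [← h0]; ring)
  exact h.hns 0 (by rw [this]; ring)

end Qd

end quad

section points

lemma ns_of_eq {K : Type*} [Field K] {a b c : K} (h2 : (2 : K) ≠ 0) (hd : dsc a b c ≠ 0) {x y : K}
    (h : y ^ 2 = x ^ 3 + a * x ^ 2 + b * x + c) : (EC K a b c).Nonsingular x y := by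
  rw [nonsingular_iff'']
  refine ⟨h, ?_⟩
  by_cases hy : y = 0
  · left
    classical
    apply deriv_ne' hd
    rw [← h, hy]; ring
  · right
    exact mul_ne_zero h2 hy

lemma dsc_tw {K : Type*} [Field K] (a b c D : K) :
    dsc (D * a) (D ^ 2 * b) (D ^ 3 * c) = D ^ 6 * dsc a b c := by
  simp only [dsc]; ring

variable {F M : Type*} [Field F] [Field M]

/-- The constants in `M`. -/
noncomputable def jc (j : RF F →+* M) : F →+* M :=
  j.comp ((algebraMap F[X] (RF F)).comp C)

lemma jc_apply (j : RF F →+* M) (x : F) : jc j x = j (cst (RF F) x) := rfl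

lemma two_ne_RF (h2 : (2 : F) ≠ 0) : (2 : RF F) ≠ 0 := by
  have : (2 : RF F) = cst (RF F) (2 : F) :=
    (map_ofNat ((algebraMap F[X] (RF F)).comp C) 2).symm
  rw [this, cst, Ne, IsFractionRing.to_map_eq_zero_iff, C_eq_zero]
  exact h2

variable [DecidableEq F] [DecidableEq M] [DecidableEq (RF F)] {a b c : F}

/-- Constant points. -/
noncomputable def kap (j : RF F →+* M) (a b c : F) :
    (EC F a b c).Point →+ (EC M (jc j a) (jc j b) (jc j c)).Point :=
  scale (jc j) 1 one_ne_zero (by ring) (by ring) (by ring)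

/-- Points of the twist. -/
noncomputable def tau {j : RF F →+* M} {s : M} (h : Qd j (Dgen a b c) s) :
    (Tw (RF F) a b c (Dgen a b c)).Point →+ (EC M (jc j a) (jc j b) (jc j c)).Point :=
  scale j s⁻¹ (inv_ne_zero h.s_ne)
    (by
      have := h.s_ne
      rw [map_mul, ← h.hs, jc_apply]; field_simp)
    (by
      have := h.s_ne
      rw [map_mul, map_pow, ← h.hs, jc_apply]; field_simp)
    (by
      have := h.s_ne
      rw [map_mul, map_pow, ← h.hs, jc_apply]; field_simp)

/-- Conjugation of points. -/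
noncomputable def sig {j : RF F →+* M} {s : M} (h : Qd j (Dgen a b c) s) :
    (EC M (jc j a) (jc j b) (jc j c)).Point →+ (EC M (jc j a) (jc j b) (jc j c)).Point :=
  scale h.conj 1 one_ne_zero
    (by rw [jc_apply, h.conj_j]; ring)
    (by rw [jc_apply, h.conj_j]; ring)
    (by rw [jc_apply, h.conj_j]; ring)

lemma sig_some {j : RF F →+* M} {s : M} (h : Qd j (Dgen a b c) s) {x y : M}
    (hP : (EC M (jc j a) (jc j b) (jc j c)).Nonsingular x y) :
    ∃ h', sig h (.some x y hP) = .some (h.conj x) (h.conj y) h' := by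
  have e : sig h (.some x y hP) = _ := scale_some _ _ _ _ _ _ hP
  have e1 : (1 : M) ^ 2 * h.conj x = h.conj x := by ring
  have e2 : (1 : M) ^ 3 * h.conj y = h.conj y := by ring
  have h' : (EC M (jc j a) (jc j b) (jc j c)).Nonsingular (h.conj x) (h.conj y) := by
    have := scale_nonsingular h.conj 1 one_ne_zero
      (a' := jc j a) (b' := jc j b) (c' := jc j c)
      (by rw [jc_apply, h.conj_j]; ring)
      (by rw [jc_apply, h.conj_j]; ring)
      (by rw [jc_apply, h.conj_j]; ring) hP
    rwa [e1, e2] at this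
  refine ⟨h', ?_⟩
  rw [e, Point.some.injEq]
  exact ⟨e1, e2⟩

lemma sig_sig {j : RF F →+* M} {s : M} (h : Qd j (Dgen a b c) s)
    (P : (EC M (jc j a) (jc j b) (jc j c)).Point) : sig h (sig h P) = P := by
  cases P with
  | zero => rw [← Point.zero_def, map_zero, map_zero]
  | some x y hP =>
    obtain ⟨h1, e1⟩ := sig_some h hP
    obtain ⟨h2, e2⟩ := sig_some h h1
    rw [e1, e2, Point.some.injEq]
    exact ⟨h.conj_conj x, h.conj_conj y⟩

/-- The fixed points are constant. -/
lemma fixed_point (h2 : (2 : F) ≠ 0) (hd : dsc a b c ≠ 0) {j : RF F →+* M} {s : M}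
    (h : Qd j (Dgen a b c) s)
    (P : (EC M (jc j a) (jc j b) (jc j c)).Point) (hP : sig h P = P) :
    ∃ Q, kap j a b c Q = P := by
  cases P with
  | zero => exact ⟨0, by rw [map_zero]; rfl⟩
  | some x y hns =>
    obtain ⟨h1, e1⟩ := sig_some h hns
    rw [e1, Point.some.injEq] at hP
    obtain ⟨A, hA⟩ := h.fixed (two_ne_RF h2) hP.1
    obtain ⟨B, hB⟩ := h.fixed (two_ne_RF h2) hP.2
    subst hA hB
    have heq := ((nonsingular_iff'' _ _ _ _ _).1 hns).1
    have heq' : B ^ 2 = A ^ 3 + cst (RF F) a * A ^ 2 + cst (RF F) b * A + cst (RF F) c := by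
      apply j.injective
      simp only [map_add, map_mul, map_pow]
      exact heq
    have hns' : (Tw (RF F) a b c (algebraMap F[X] (RF F) 1)).Nonsingular A B := by
      apply ns_of_eq (two_ne_RF h2)
      · rw [dsc_tw, map_one, one_pow, one_mul]
        have : dsc (cst (RF F) a) (cst (RF F) b) (cst (RF F) c) = cst (RF F) (dsc a b c) :=
          dsc_map ((algebraMap F[X] (RF F)).comp C) a b c
        rw [this, cst, Ne, IsFractionRing.to_map_eq_zero_iff, C_eq_zero]
        exact hd
      · rw [heq', map_one]; ring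
    have hdeg0 := deg_eq_zero_const h2 hd (Point.some A B hns' :
      (Tw (RF F) a b c (algebraMap F[X] (RF F) 1)).Point)
    obtain ⟨N, Mm, S, hNM, hM, hdeg, hx, hy, hS⟩ := exists_rep (one_ne_zero (α := F[X])) hns'
    rw [hdeg0] at hdeg
    have hN0 : N.natDegree = 0 := by omega
    have hM0 : Mm.natDegree = 0 := by omega
    obtain ⟨n, rfl⟩ : ∃ n, N = C n := ⟨N.coeff 0, eq_C_of_natDegree_eq_zero hN0⟩
    obtain ⟨m, rfl⟩ : ∃ m, Mm = C m := ⟨Mm.coeff 0, eq_C_of_natDegree_eq_zero hM0⟩
    have hm : m ≠ 0 := by rintro rfl; exact hM C_0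
    have hWc : Wf a b c (C n) (C m) = C (n ^ 3 + a * n ^ 2 * m + b * n * m ^ 2 + c * m ^ 3) := by
      simp only [Wf, C_add, C_mul, C_pow]
    rw [hWc, ← C_mul, one_mul] at hS
    have hS0 : S.natDegree = 0 := by
      have := congrArg natDegree hS
      rw [natDegree_C, natDegree_pow] at this
      omega
    obtain ⟨r, rfl⟩ : ∃ r, S = C r := ⟨S.coeff 0, eq_C_of_natDegree_eq_zero hS0⟩
    have hmι : algebraMap F[X] (RF F) (C m) ≠ 0 := by
      rw [Ne, IsFractionRing.to_map_eq_zero_iff, C_eq_zero]; exact hm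
    have hAe : A = cst (RF F) (n / m) := by
      have h3 : algebraMap F[X] (RF F) (C m) * cst (RF F) (n / m)
          = algebraMap F[X] (RF F) (C n) := by
        rw [cst, ← map_mul, ← C_mul, mul_div_cancel₀ _ hm]
      apply mul_left_cancel₀ hmι
      rw [h3, mul_comm, hx, map_one, one_mul]
    have hBe : B = cst (RF F) (r / m ^ 2) := by
      have h3 : algebraMap F[X] (RF F) (C m) ^ 2 * cst (RF F) (r / m ^ 2)
          = algebraMap F[X] (RF F) (C r) := by
        rw [cst, ← map_pow, ← map_mul, ← C_pow, ← C_mul, mul_div_cancel₀ _ (pow_ne_zero _ hm)]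
      apply mul_left_cancel₀ (pow_ne_zero 2 hmι)
      rw [h3, mul_comm, hy, map_one, one_mul]
    subst hAe hBe
    have hF : (r / m ^ 2) ^ 2 = (n / m) ^ 3 + a * (n / m) ^ 2 + b * (n / m) + c := by
      have hinj : Function.Injective (fun x : F => cst (RF F) x) := by
        intro x y hxy
        exact C_injective (IsFractionRing.injective F[X] (RF F) hxy)
      apply hinj
      simp only
      have hc : ∀ z : F, cst (RF F) z = ((algebraMap F[X] (RF F)).comp C) z := fun _ => rfl
      simp only [hc, map_add, map_mul, map_pow] at heq' ⊢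
      exact heq'
    refine ⟨Point.some _ _ (ns_of_eq h2 hd hF), ?_⟩
    have e : kap j a b c (Point.some _ _ (ns_of_eq h2 hd hF)) = _ := scale_some _ _ _ _ _ _ _
    rw [e, Point.some.injEq]
    constructor
    · rw [jc_apply]; ring
    · rw [jc_apply]; ring

/-- The anti-fixed points come from the twist. -/
lemma anti_point (h2 : (2 : F) ≠ 0) (hd : dsc a b c ≠ 0) {j : RF F →+* M} {s : M}
    (h : Qd j (Dgen a b c) s)
    (P : (EC M (jc j a) (jc j b) (jc j c)).Point) (hP : sig h P = -P) :
    ∃ Q, tau h Q = P := by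
  cases P with
  | zero => exact ⟨0, by rw [map_zero]; rfl⟩
  | some x y hns =>
    obtain ⟨h1, e1⟩ := sig_some h hns
    rw [e1, Point.neg_some, Point.some.injEq, negY'] at hP
    obtain ⟨A, hA⟩ := h.fixed (two_ne_RF h2) hP.1
    obtain ⟨B, hB⟩ := h.anti (two_ne_RF h2) hP.2
    subst hA hB
    have heq := ((nonsingular_iff'' _ _ _ _ _).1 hns).1
    have hD := Dgen_ne a b c
    have heq' : B ^ 2 * Dgen a b c
        = A ^ 3 + cst (RF F) a * A ^ 2 + cst (RF F) b * A + cst (RF F) c := by
      apply j.injective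
      simp only [map_add, map_mul, map_pow]
      rw [← h.hs, ← mul_pow]
      exact heq
    have hns' : (Tw (RF F) a b c (Dgen a b c)).Nonsingular (Dgen a b c * A)
        (Dgen a b c ^ 2 * B) := by
      apply ns_of_eq (two_ne_RF h2)
      · rw [dsc_tw]
        have : dsc (cst (RF F) a) (cst (RF F) b) (cst (RF F) c) = cst (RF F) (dsc a b c) :=
          dsc_map ((algebraMap F[X] (RF F)).comp C) a b c
        rw [this]
        apply mul_ne_zero (pow_ne_zero _ hD)
        rw [cst, Ne, IsFractionRing.to_map_eq_zero_iff, C_eq_zero]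
        exact hd
      · linear_combination (Dgen a b c ^ 3) * heq'
    refine ⟨Point.some _ _ hns', ?_⟩
    have e : tau h (Point.some _ _ hns') = _ := scale_some _ _ _ _ _ _ hns'
    have hs := h.s_ne
    rw [e, Point.some.injEq]
    constructor
    · rw [map_mul, ← h.hs]; field_simp
    · rw [map_mul, map_pow, ← h.hs]; field_simp

lemma sig_kap {j : RF F →+* M} {s : M} (h : Qd j (Dgen a b c) s) (Q : (EC F a b c).Point) :
    sig h (kap j a b c Q) = kap j a b c Q := by
  cases Q with
  | zero => rw [← Point.zero_def, map_zero, map_zero]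
  | some x y hns =>
    have e : kap j a b c (Point.some x y hns) = _ := scale_some _ _ _ _ _ _ hns
    rw [e]
    obtain ⟨h1, e1⟩ := sig_some h (scale_nonsingular (jc j) 1 one_ne_zero
      (a' := jc j a) (b' := jc j b) (c' := jc j c) (by ring) (by ring) (by ring) hns)
    rw [e1, Point.some.injEq]
    simp only [map_mul, map_pow, map_one, jc_apply, h.conj_j]
    exact ⟨trivial, trivial⟩

lemma sig_tau {j : RF F →+* M} {s : M} (h : Qd j (Dgen a b c) s)
    (Q : (Tw (RF F) a b c (Dgen a b c)).Point) : sig h (tau h Q) = -tau h Q := by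
  cases Q with
  | zero => rw [← Point.zero_def, map_zero, map_zero, neg_zero]
  | some x y hns =>
    have hs := h.s_ne
    have hns' := scale_nonsingular j s⁻¹ (inv_ne_zero h.s_ne)
      (a' := jc j a) (b' := jc j b) (c' := jc j c)
      (by rw [map_mul, ← h.hs, jc_apply]; field_simp)
      (by rw [map_mul, map_pow, ← h.hs, jc_apply]; field_simp)
      (by rw [map_mul, map_pow, ← h.hs, jc_apply]; field_simp) hns
    have e : tau h (Point.some x y hns) = Point.some _ _ hns' := scale_some _ _ _ _ _ _ hns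
    rw [e]
    obtain ⟨h1, e1⟩ := sig_some h hns'
    rw [e1, Point.neg_some, Point.some.injEq, negY']
    simp only [map_mul, map_pow, map_inv₀, h.conj_j, h.conj_s]
    constructor
    · rw [inv_neg]; ring
    · rw [inv_neg]; ring

end points

section rank

variable {F M : Type} [Field F] [Field M] [DecidableEq F] [DecidableEq M] [DecidableEq (RF F)]
  {a b c : F}

theorem rank_formula (hG : Good F a b c) {j : RF F →+* M} {s : M}
    (h : Qd j (Dgen a b c) s) :
    Module.rank ℤ (EC M (jc j a) (jc j b) (jc j c)).Point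
      = Module.rank ℤ (EC F a b c).Point + 1 := by
  obtain ⟨L, _, i, θ, H⟩ := hG.cub
  have hkinj : Function.Injective (kap j a b c) := scale_injective _ _ _ _ _ _
  have htinj : Function.Injective (tau h) := scale_injective _ _ _ _ _ _
  refine rank_succ (kap j a b c) hkinj (tau h (Pgen hG.h2 a b c)) ?_ ?_
  · intro n Q hn
    have h1 := congrArg (sig h) hn
    rw [sig_kap, ← hn, ← map_zsmul, sig_tau] at h1
    have h2 : tau h ((2 * n) • Pgen hG.h2 a b c) = 0 := by
      rw [mul_comm, mul_zsmul, two_zsmul, zsmul_add, map_add]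
      nth_rewrite 1 [← h1]
      exact neg_add_cancel _
    have h3 : (2 * n) • Pgen hG.h2 a b c = 0 := htinj (by rw [h2, map_zero])
    have hpar := par_deg hG.hd (Dgen_ne a b c)
    have h4 := hpar.zsmul (2 * n) (Pgen hG.h2 a b c)
    rw [h3, deg_zero (Dgen_ne a b c), deg_Pgen] at h4
    have h5 : (2 * n) ^ 2 = 0 := by
      push_cast at h4
      linarith
    have h6 : 2 * n = 0 := pow_eq_zero_iff (two_ne_zero) |>.1 h5
    omega
  · intro P
    refine ⟨2, two_ne_zero, ?_⟩
    obtain ⟨Q, hQ⟩ := fixed_point hG.h2 hG.hd h (P + sig h P) (by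
      rw [map_add, sig_sig, add_comm])
    obtain ⟨R, hR⟩ := anti_point hG.h2 hG.hd h (P - sig h P) (by
      rw [map_sub, sig_sig, neg_sub])
    obtain ⟨n, hn⟩ := gen_cyclic hG.h2 hG.hd hG.hno H _ R rfl
    refine ⟨Q, n, ?_⟩
    rw [hQ, ← map_zsmul, ← hn, hR, two_zsmul]
    abel

end rank

end Pool.Agent.Hhelper85
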