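import Mathlib
import Pool.Agent.Hhelper85.QuadExt

/-!
# Inheritance of the conditions, and the function field of the curve
-/

set_option linter.unusedSectionVars false

namespace Pool.Agent.Hhelper85

open Polynomial WeierstrassCurve WeierstrassCurve.Affine

section inherit

variable {F M : Type*} [Field F] [Field M] {a b c : F}

lemma cst_eq_hom (x : F) : cst (RF F) x = ((algebraMap F[X] (RF F)).comp C) x := rfl

/-- No root of `f` in `F(t)`. -/
lemma no_root_RF (hno : ∀ x : F, x ^ 3 + a * x ^ 2 + b * x + c ≠ 0) (A : RF F) :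
    A ^ 3 + cst (RF F) a * A ^ 2 + cst (RF F) b * A + cst (RF F) c ≠ 0 := by
  intro h
  have hint : _root_.IsIntegral F[X] A := by
    refine ⟨fp (C a) (C b) (C c), fpR_monic _ _ _, ?_⟩
    rw [fp_eval₂]
    exact h
  obtain ⟨p, hp⟩ := IsIntegrallyClosed.isIntegral_iff.1 hint
  have hW : Wf a b c p 1 = 0 := by
    apply IsFractionRing.injective F[X] (RF F)
    simp only [Wf, map_add, map_mul, map_pow, map_one, map_zero, hp, one_pow, mul_one]
    exact h
  exact W_ne hno isCoprime_one_right hW

lemma nonsquare_cst {d : F} (hd : ∀ z : F, z ^ 2 ≠ d) (A : RF F) : A ^ 2 ≠ cst (RF F) d := by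
  intro h
  obtain ⟨s, -, hs⟩ := isPoly_of_sq (p := C d) h
  have hdeg : s.natDegree = 0 := by
    have := congrArg natDegree hs
    rw [natDegree_pow, natDegree_C] at this
    omega
  obtain ⟨e, rfl⟩ : ∃ e, s = C e := ⟨s.coeff 0, eq_C_of_natDegree_eq_zero hdeg⟩
  apply hd e
  rw [← C_pow] at hs
  exact C_injective hs

lemma nonsquare_D {d : F} (hd : d ≠ 0) (A : RF F) : A ^ 2 * Dgen a b c ≠ cst (RF F) d := by
  intro h
  have h1 : (A * Dgen a b c) ^ 2 = algebraMap F[X] (RF F) (C d * fp a b c) := by
    rw [map_mul]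
    have e : (A * Dgen a b c) ^ 2 = (A ^ 2 * Dgen a b c) * Dgen a b c := by ring
    rw [e, h]; rfl
  obtain ⟨s, -, hs⟩ := isPoly_of_sq h1
  have := congrArg natDegree hs
  rw [natDegree_pow, natDegree_C_mul hd, fp_natDegree] at this
  omega

lemma Dgen_nonsquare (A : RF F) : A ^ 2 ≠ Dgen a b c := by
  intro h
  obtain ⟨s, -, hs⟩ := isPoly_of_sq h
  have := congrArg natDegree hs
  rw [natDegree_pow, fp_natDegree] at this
  omega

theorem Good.inherit (hG : Good F a b c) {j : RF F →+* M} {s : M} (h : Qd j (Dgen a b c) s) :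
    Good M (jc j a) (jc j b) (jc j c) where
  h2 := by
    have : (2 : M) = j 2 := (map_ofNat j 2).symm
    rw [this]
    exact (_root_.map_ne_zero j).2 (two_ne_RF hG.h2)
  hd := by
    rw [dsc_map]
    exact (_root_.map_ne_zero _).2 hG.hd
  hno := by
    intro z hz
    have h2M : (2 : M) ≠ 0 := by
      have : (2 : M) = j 2 := (map_ofNat j 2).symm
      rw [this]
      exact (_root_.map_ne_zero j).2 (two_ne_RF hG.h2)
    have key : ∀ A : RF F, (j A) ^ 3 + jc j a * (j A) ^ 2 + jc j b * (j A) + jc j c ≠ 0 := by
      intro A h0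
      apply no_root_RF hG.hno A
      apply j.injective
      simp only [map_add, map_mul, map_pow, map_zero]
      exact h0
    obtain ⟨A, B, rfl⟩ := h.hspan z
    by_cases hB : B = 0
    · subst hB
      rw [map_zero, zero_mul, add_zero] at hz
      exact key A hz
    · have hs := h.s_ne
      have hjB : j B ≠ 0 := (_root_.map_ne_zero j).2 hB
      have hz' : (j A - j B * s) ^ 3 + jc j a * (j A - j B * s) ^ 2 + jc j b * (j A - j B * s)
          + jc j c = 0 := by
        have := congrArg h.conj hz
        simpa only [map_add, map_mul, map_pow, h.conj_j, h.conj_s, jc_apply, map_zero,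
          mul_neg, ← sub_eq_add_neg] using this
      apply key (-(cst (RF F) a) - 2 * A)
      simp only [map_sub, map_neg, map_mul, map_ofNat]
      rw [← jc_apply]
      -- divide the difference of the two relations by the difference of the roots
      have hdiff : (2 * (j B * s)) * ((j A + j B * s) ^ 2 + (j A + j B * s) * (j A - j B * s)
          + (j A - j B * s) ^ 2 + jc j a * (2 * j A) + jc j b) = 0 := by
        linear_combination hz - hz'
      have hq := (mul_eq_zero.1 hdiff).resolve_left (mul_ne_zero h2M (mul_ne_zero hjB hs))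
      linear_combination hz + (-(jc j a) - 3 * j A - j B * s) * hq
  hsq := by
    intro z hz
    rw [dsc_map] at hz
    obtain ⟨A, B, rfl⟩ := h.hspan z
    have h1 : j (A ^ 2 + B ^ 2 * Dgen a b c) + j (2 * A * B) * s
        = j (cst (RF F) (dsc a b c)) + j 0 * s := by
      rw [← jc_apply, ← hz]
      simp only [map_add, map_mul, map_pow, map_ofNat, map_zero, ← h.hs]
      ring
    obtain ⟨e1, e2⟩ := h.uniq h1
    rcases mul_eq_zero.1 e2 with e2 | e2
    · have hA : A = 0 := (mul_eq_zero.1 e2).resolve_left (two_ne_RF hG.h2)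
      rw [hA] at e1
      apply nonsquare_D (a := a) (b := b) (c := c) hG.hd B
      rw [← e1]; ring
    · rw [e2] at e1
      apply nonsquare_cst hG.hsq A
      rw [← e1]; ring

end inherit

end Pool.Agent.Hhelper85
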