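import Mathlib
import Pool.Agent.Hhelper85.Inherit

/-!
# The function field of the curve over a domain
-/

set_option linter.unusedSectionVars false

namespace Pool.Agent.Hhelper85

open Polynomial WeierstrassCurve WeierstrassCurve.Affine

lemma fp_mapR {R S : Type*} [CommRing R] [CommRing S] (i : R →+* S) (a b c : R) :
    (fp a b c).map i = fp (i a) (i b) (i c) := by
  simp [fp]

section funfield

variable {R : Type*} [CommRing R] [IsDomain R] (a b c : R)

/-- The affine coordinate ring of `y² = x³ + a x² + b x + c` over `R`. -/
abbrev CR : Type _ := (EC R a b c).CoordinateRing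

variable {F : Type*} [Field F] [Algebra R F] [IsFractionRing R F]
  {M : Type*} [Field M] [Algebra (CR a b c) M] [IsFractionRing (CR a b c) M]

lemma injRM : Function.Injective ((algebraMap (CR a b c) M).comp (algebraMap R (CR a b c))) := by
  have h1 : Function.Injective (algebraMap R (CR a b c)) := FaithfulSMul.algebraMap_injective _ _
  exact (IsFractionRing.injective (CR a b c) M).comp h1

variable (F M) in
/-- The map from `F = Frac R`. -/
noncomputable def phi : F →+* M :=
  IsFractionRing.lift (A := R) (K := F) (injRM (M := M) a b c)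

lemma phi_algebraMap (x : R) :
    phi a b c F M (algebraMap R F x) = algebraMap (CR a b c) M (algebraMap R (CR a b c) x) := by
  rw [phi, IsFractionRing.lift_algebraMap]
  rfl

variable (F M) in
/-- The map from `F[X]`. -/
noncomputable def psi : F[X] →+* M :=
  eval₂RingHom (phi a b c F M) (algebraMap (CR a b c) M (algebraMap R[X] (CR a b c) X))

lemma psi_C (x : F) : psi a b c F M (C x) = phi a b c F M x := by
  simp [psi]

lemma psi_X : psi a b c F M X = algebraMap (CR a b c) M (algebraMap R[X] (CR a b c) X) := by
  simp [psi]

lemma psi_map (q : R[X]) : psi a b c F M (q.map (algebraMap R F))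
    = algebraMap (CR a b c) M (algebraMap R[X] (CR a b c) q) := by
  have h : (psi a b c F M).comp (mapRingHom (algebraMap R F))
      = (algebraMap (CR a b c) M).comp (algebraMap R[X] (CR a b c)) := by
    apply Polynomial.ringHom_ext
    · intro x
      simp only [RingHom.coe_comp, Function.comp_apply, coe_mapRingHom, map_C, psi_C,
        phi_algebraMap]
      rfl
    · simp only [RingHom.coe_comp, Function.comp_apply, coe_mapRingHom, map_X, psi_X]
  exact congrArg (fun f => f q) h

lemma psi_injective : Function.Injective (psi a b c F M) := by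
  rw [injective_iff_map_eq_zero]
  intro p hp
  obtain ⟨r, -, hr⟩ := IsLocalization.integerNormalization_spec (nonZeroDivisors R) p
  rw [← IsFractionRing.integerNormalization_eq_zero_iff (A := R) (K := F)]
  have h1 : psi a b c F M ((IsLocalization.integerNormalization (nonZeroDivisors R) p).map
      (algebraMap R F)) = 0 := by
    rw [hr, Algebra.smul_def, map_mul, hp, mul_zero]
  rw [psi_map] at h1
  have h2 : Function.Injective (algebraMap R[X] (CR a b c)) :=
    FaithfulSMul.algebraMap_injective _ _
  apply h2
  apply IsFractionRing.injective (CR a b c) M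
  rw [h1, map_zero, map_zero]

variable (F M) in
/-- The map from `F(t)`. -/
noncomputable def jmap : RF F →+* M :=
  IsFractionRing.lift (A := F[X]) (K := RF F) (psi_injective (F := F) (M := M) a b c)

lemma jmap_algebraMap (p : F[X]) :
    jmap a b c F M (algebraMap F[X] (RF F) p) = psi a b c F M p := by
  rw [jmap, IsFractionRing.lift_algebraMap]

lemma jc_jmap (x : F) : jc (jmap a b c F M) x = phi a b c F M x := by
  rw [jc_apply, cst, jmap_algebraMap, psi_C]

variable (M) in
/-- The square root. -/
noncomputable def smap : M := algebraMap (CR a b c) M (CoordinateRing.mk (EC R a b c) X)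

lemma mk_sq : (CoordinateRing.mk (EC R a b c) X) ^ 2 = algebraMap R[X] (CR a b c) (fp a b c) := by
  have h : algebraMap R[X] (CR a b c) (fp a b c) = CoordinateRing.mk (EC R a b c) (C (fp a b c)) :=
    rfl
  rw [h, ← map_pow]
  refine AdjoinRoot.mk_eq_mk.mpr ⟨1, ?_⟩
  rw [polynomial]
  simp only [EC, fp, zero_mul, map_zero, add_zero, mul_one]

lemma smap_sq : smap a b c M ^ 2 = jmap a b c F M (Dgen (algebraMap R F a) (algebraMap R F b)
    (algebraMap R F c)) := by
  rw [smap, ← map_pow, mk_sq, Dgen, jmap_algebraMap, ← fp_mapR, psi_map]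

lemma qd_jmap : Qd (jmap a b c F M) (Dgen (algebraMap R F a) (algebraMap R F b)
    (algebraMap R F c)) (smap a b c M) where
  hs := by
    exact smap_sq a b c
  hns := Dgen_nonsquare
  hspan := by
    set j := jmap a b c F M
    set s := smap a b c M
    set D := Dgen (algebraMap R F a) (algebraMap R F b) (algebraMap R F c)
    have hs : s ^ 2 = j D := smap_sq a b c
    have hmul : ∀ z w : M, (∃ A B, z = j A + j B * s) → (∃ A B, w = j A + j B * s) →
        ∃ A B, z * w = j A + j B * s := by
      rintro _ _ ⟨A, B, rfl⟩ ⟨A', B', rfl⟩
      refine ⟨A * A' + B * B' * D, A * B' + B * A', ?_⟩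
      simp only [map_add, map_mul, ← hs]
      ring
    have hinv : ∀ z : M, (∃ A B, z = j A + j B * s) → ∃ A B, z⁻¹ = j A + j B * s := by
      rintro _ ⟨A, B, rfl⟩
      by_cases hz : A ^ 2 - B ^ 2 * D = 0
      · -- then `A = B = 0`
        have hB : B = 0 := by
          by_contra hB
          apply Dgen_nonsquare (a := algebraMap R F a) (b := algebraMap R F b)
            (c := algebraMap R F c) (A / B)
          rw [div_pow, div_eq_iff (pow_ne_zero _ hB)]
          linear_combination hz
        have hA : A = 0 := by
          rw [hB] at hz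
          have : A ^ 2 = 0 := by linear_combination hz
          exact pow_eq_zero_iff (two_ne_zero) |>.1 this
        refine ⟨0, 0, ?_⟩
        rw [hA, hB]; simp
      · refine ⟨A / (A ^ 2 - B ^ 2 * D), -B / (A ^ 2 - B ^ 2 * D), ?_⟩
        have hn : j A ^ 2 - j B ^ 2 * s ^ 2 ≠ 0 := by
          have : j (A ^ 2 - B ^ 2 * D) ≠ 0 := (_root_.map_ne_zero j).2 hz
          simpa only [map_sub, map_mul, map_pow, ← hs] using this
        have hne : j A ^ 2 - j B ^ 2 * j D ≠ 0 := by rw [← hs]; exact hn
        apply inv_eq_of_mul_eq_one_right
        have e1 : (j A + j B * s) * (j (A / (A ^ 2 - B ^ 2 * D)) + j (-B / (A ^ 2 - B ^ 2 * D)) * s)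
            = (j A ^ 2 - j B ^ 2 * s ^ 2) / (j A ^ 2 - j B ^ 2 * j D) := by
          simp only [map_div₀, map_sub, map_mul, map_pow, map_neg]
          rw [eq_div_iff hne]
          have e2 : ∀ z : M, z / (j A ^ 2 - j B ^ 2 * j D) * (j A ^ 2 - j B ^ 2 * j D) = z :=
            fun z => div_mul_cancel₀ _ hne
          linear_combination (j A + j B * s) * e2 (j A) + (j A + j B * s) * s * e2 (-j B)
        rw [e1, hs, div_self hne]
    have hR : ∀ r : CR a b c, ∃ A B, algebraMap (CR a b c) M r = j A + j B * s := by
      intro r
      obtain ⟨p, q, rfl⟩ := CoordinateRing.exists_smul_basis_eq r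
      refine ⟨algebraMap F[X] (RF F) (p.map (algebraMap R F)),
        algebraMap F[X] (RF F) (q.map (algebraMap R F)), ?_⟩
      rw [map_add, Algebra.smul_def, Algebra.smul_def, mul_one, map_mul]
      rw [show j (algebraMap F[X] (RF F) (p.map (algebraMap R F))) = _ from
        jmap_algebraMap a b c _, psi_map,
        show j (algebraMap F[X] (RF F) (q.map (algebraMap R F))) = _ from
        jmap_algebraMap a b c _, psi_map]
      rfl
    intro z
    obtain ⟨u, v, hv, rfl⟩ := IsFractionRing.div_surjective (A := CR a b c) z
    rw [div_eq_mul_inv]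
    exact hmul _ _ (hR u) (hinv _ (hR v))

end funfield

section step

variable {R : Type} [CommRing R] [IsDomain R] (a b c : R)
  {F : Type} [Field F] [Algebra R F] [IsFractionRing R F]
  {M : Type} [Field M] [Algebra (CR a b c) M] [IsFractionRing (CR a b c) M]

/-- One more generic point: the conditions are preserved, and the rank goes up by one. -/
theorem step (hG : Good F (algebraMap R F a) (algebraMap R F b) (algebraMap R F c))
    [DecidableEq F] [DecidableEq M] :
    Good M (algebraMap (CR a b c) M (algebraMap R (CR a b c) a))
      (algebraMap (CR a b c) M (algebraMap R (CR a b c) b))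
      (algebraMap (CR a b c) M (algebraMap R (CR a b c) c)) ∧
    Module.rank ℤ (EC M (algebraMap (CR a b c) M (algebraMap R (CR a b c) a))
      (algebraMap (CR a b c) M (algebraMap R (CR a b c) b))
      (algebraMap (CR a b c) M (algebraMap R (CR a b c) c))).Point
      = Module.rank ℤ (EC F (algebraMap R F a) (algebraMap R F b) (algebraMap R F c)).Point + 1 := by
  classical
  have h := qd_jmap (F := F) (M := M) a b c
  have h1 := hG.inherit h
  have h2 := rank_formula hG h
  rw [jc_jmap, jc_jmap, jc_jmap, phi_algebraMap, phi_algebraMap, phi_algebraMap] at h1 h2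
  exact ⟨h1, h2⟩

end step

end Pool.Agent.Hhelper85
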