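import Mathlib
import Pool.Agent.Hhelper85.FunField

/-!
# The universal curve `y² = x³ + a x + b`
-/

set_option linter.unusedSectionVars false

namespace Pool.Agent.Hhelper85

open Polynomial WeierstrassCurve WeierstrassCurve.Affine

section general

/-- The conditions descend along field homomorphisms. -/
lemma Good.descend {F F' : Type*} [Field F] [Field F'] (i : F →+* F') {a b c : F}
    (h : Good F' (i a) (i b) (i c)) : Good F a b c where
  h2 := fun h0 => h.h2 (by rw [← map_ofNat i 2, h0, map_zero])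
  hd := fun h0 => h.hd (by rw [dsc_map, h0, map_zero])
  hno := fun x hx => h.hno (i x) (by
    rw [← map_pow, ← map_pow, ← map_mul, ← map_mul, ← map_add, ← map_add, ← map_add, hx, map_zero])
  hsq := fun z hz => h.hsq (i z) (by rw [dsc_map, ← hz, map_pow])

/-- Over `k(b)`, for `a ∈ k`. -/
lemma good_RF {k : Type*} [Field k] (h2 : (2 : k) ≠ 0) (h3 : (3 : k) ≠ 0) {a : k} (ha : a ≠ 0) :
    Good (RF k) 0 (cst (RF k) a) (algebraMap k[X] (RF k) X) where
  h2 := two_ne_RF h2
  hd := by
    have h : dsc (0 : RF k) (cst (RF k) a) (algebraMap k[X] (RF k) X)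
        = algebraMap k[X] (RF k) (C (-64 * a ^ 3) + C (-432) * X ^ 2) := by
      simp only [dsc, cst, map_add, map_mul, map_pow, map_neg, map_ofNat]
      ring
    rw [h, Ne, IsFractionRing.to_map_eq_zero_iff]
    intro h0
    have := congrArg (fun p => p.coeff 0) h0
    simp only [coeff_add, coeff_C_zero, coeff_C_mul, coeff_X_pow, coeff_zero] at this
    rw [if_neg (by norm_num), mul_zero, add_zero] at this
    have h64 : (-64 : k) ≠ 0 := by
      have : (-64 : k) = -(2 ^ 6) := by norm_num
      rw [this]; exact neg_ne_zero.2 (pow_ne_zero _ h2)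
    exact (mul_ne_zero h64 (pow_ne_zero _ ha)) this
  hno := by
    intro x hx
    have hint : _root_.IsIntegral k[X] x := by
      refine ⟨fp 0 (C a) X, fpR_monic _ _ _, ?_⟩
      rw [fp_eval₂, map_zero]
      exact hx
    obtain ⟨p, hp⟩ := IsIntegrallyClosed.isIntegral_iff.1 hint
    have h0 : p ^ 3 + C a * p + X = 0 := by
      apply IsFractionRing.injective k[X] (RF k)
      simp only [map_add, map_mul, map_pow, map_zero, hp]
      rw [zero_mul, add_zero] at hx
      exact hx
    by_cases hd : p.natDegree = 0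
    · obtain ⟨e, rfl⟩ : ∃ e, p = C e := ⟨p.coeff 0, eq_C_of_natDegree_eq_zero hd⟩
      have := congrArg (fun p => p.coeff 1) h0
      simp only [← C_pow, ← C_mul, coeff_add, coeff_C, coeff_X_one, coeff_zero] at this
      norm_num at this
    · have h1 : p ^ 3 = -(C a * p + X) := by linear_combination h0
      have h3 := congrArg natDegree h1
      rw [natDegree_pow, natDegree_neg] at h3
      have h4 : (C a * p + X).natDegree ≤ p.natDegree := by
        refine natDegree_add_le_of_degree_le (natDegree_C_mul_le _ _) ?_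
        exact natDegree_X_le.trans (by omega)
      omega
  hsq := by
    intro z hz
    have h : dsc (0 : RF k) (cst (RF k) a) (algebraMap k[X] (RF k) X)
        = algebraMap k[X] (RF k) (C (-64 * a ^ 3) + C (-432) * X ^ 2) := by
      simp only [dsc, cst, map_add, map_mul, map_pow, map_neg, map_ofNat]
      ring
    rw [h] at hz
    obtain ⟨s, -, hs⟩ := isPoly_of_sq hz
    have h64 : (-64 : k) ≠ 0 := by
      have : (-64 : k) = -(2 ^ 6) := by norm_num
      rw [this]; exact neg_ne_zero.2 (pow_ne_zero _ h2)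
    have h432 : (-432 : k) ≠ 0 := by
      have : (-432 : k) = -(2 ^ 4 * 3 ^ 3) := by norm_num
      rw [this]; exact neg_ne_zero.2 (mul_ne_zero (pow_ne_zero _ h2) (pow_ne_zero _ h3))
    have hsd : s.natDegree ≤ 1 := by
      have h5 : (C (-64 * a ^ 3) + C (-432) * X ^ 2 : k[X]).natDegree ≤ 2 := by
        refine natDegree_add_le_of_degree_le ?_ ?_
        · rw [natDegree_C]; norm_num
        · exact natDegree_C_mul_X_pow_le _ _
      rw [← hs, natDegree_pow] at h5
      omega
    obtain ⟨u, v, rfl⟩ := exists_eq_X_add_C_of_natDegree_le_one hsd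
    have e : (C u * X + C v) ^ 2 = C (v ^ 2) + C (2 * u * v) * X + C (u ^ 2) * X ^ 2 := by
      simp only [C_mul, C_pow, map_ofNat]; ring
    rw [e] at hs
    have c0 := congrArg (fun p => p.coeff 0) hs
    have c1 := congrArg (fun p => p.coeff 1) hs
    have c2 := congrArg (fun p => p.coeff 2) hs
    simp only [coeff_add, coeff_C_mul, coeff_C, coeff_X, coeff_X_pow] at c0 c1 c2
    norm_num at c0 c1 c2
    rcases c1 with (c1 | c1) | c1
    · exact h2 c1
    · rw [c1] at c2
      apply h432
      rw [← c2]; ring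
    · rw [c1] at c0
      apply mul_ne_zero h64 (pow_ne_zero 3 ha)
      linear_combination -c0

end general

section universal

variable (R₀ : Type*) [CommRing R₀]

/-- `4 a³ + 27 b²` in `R₀[a][b]`. -/
noncomputable def Dl : R₀[X][X] := 4 * (C X) ^ 3 + 27 * X ^ 2

/-- The base ring of the universal curve: `R₀[a, b, 1 / (4 a³ + 27 b²)]`. -/
abbrev UR : Type _ := Localization.Away (Dl R₀)

variable {R₀}

section lift

variable {T : Type*} [CommRing T] (f : R₀ →+* T) (x y : T)

/-- Evaluation `R₀[a][b] → T`. -/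
noncomputable def ev2 : R₀[X][X] →+* T := eval₂RingHom (eval₂RingHom f x) y

lemma ev2_C (r : R₀) : ev2 f x y (C (C r)) = f r := by simp [ev2]

lemma ev2_a : ev2 f x y (C X) = x := by simp [ev2]

lemma ev2_b : ev2 f x y X = y := by simp [ev2]

lemma Dl_eq : Dl R₀ = 4 * (C X) ^ 3 + 27 * X ^ 2 := rfl

lemma ev2_Dl : ev2 f x y (Dl R₀) = 4 * x ^ 3 + 27 * y ^ 2 := by
  rw [Dl_eq]
  simp only [map_add, map_mul, map_pow, map_ofNat, ev2_a, ev2_b]

/-- The map out of the universal base ring. -/
noncomputable def liftU (h : IsUnit (4 * x ^ 3 + 27 * y ^ 2)) : UR R₀ →+* T :=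
  IsLocalization.Away.lift (Dl R₀) (g := ev2 f x y) (by rw [ev2_Dl]; exact h)

lemma liftU_algebraMap (h : IsUnit (4 * x ^ 3 + 27 * y ^ 2)) (p : R₀[X][X]) :
    liftU f x y h (algebraMap _ (UR R₀) p) = ev2 f x y p := by
  rw [liftU, IsLocalization.Away.lift_eq]

lemma liftU_injective (h : IsUnit (4 * x ^ 3 + 27 * y ^ 2)) (hi : Function.Injective (ev2 f x y)) :
    Function.Injective (liftU f x y h) := by
  rw [injective_iff_map_eq_zero]
  intro z hz
  obtain ⟨⟨p, s⟩, hps⟩ := IsLocalization.surj (Submonoid.powers (Dl R₀)) z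
  simp only at hps
  have h1 := congrArg (liftU f x y h) hps
  rw [map_mul, hz, zero_mul, liftU_algebraMap] at h1
  have hp : p = 0 := hi (by rw [← h1, map_zero])
  rw [hp, map_zero] at hps
  exact (IsLocalization.map_units (UR R₀) s).mul_left_eq_zero.1 hps

end lift

/-- The element `a`. -/
noncomputable def aU : UR R₀ := algebraMap R₀[X][X] (UR R₀) (C X)

/-- The element `b`. -/
noncomputable def bU : UR R₀ := algebraMap R₀[X][X] (UR R₀) X

lemma isUnit_Dl : IsUnit (4 * (aU : UR R₀) ^ 3 + 27 * bU ^ 2) := by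
  have h : 4 * (aU : UR R₀) ^ 3 + 27 * bU ^ 2 = algebraMap _ (UR R₀) (Dl R₀) := by
    simp only [aU, bU, Dl_eq, map_add, map_mul, map_pow, map_ofNat]
  rw [h]
  exact IsLocalization.Away.algebraMap_isUnit _

variable [IsDomain R₀]

lemma Dl_ne : Dl R₀ ≠ 0 := by
  intro h
  have h1 := ev2_Dl (RingHom.id R₀) 1 0
  have h2 := ev2_Dl (RingHom.id R₀) 0 1
  rw [h, map_zero] at h1 h2
  apply one_ne_zero (α := R₀)
  linear_combination h2 - 7 * h1

instance : IsDomain (UR R₀) := by
  have hne := Dl_ne (R₀ := R₀)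
  exact IsLocalization.isDomain_localization (powers_le_nonZeroDivisors_of_noZeroDivisors hne)

lemma ev2_ext {T : Type*} [CommRing T] {g g' : R₀[X][X] →+* T}
    (h0 : ∀ r, g (C (C r)) = g' (C (C r))) (h1 : g (C X) = g' (C X)) (h2 : g X = g' X) :
    g = g' := by
  apply Polynomial.ringHom_ext'
  · apply Polynomial.ringHom_ext'
    · ext r; exact h0 r
    · exact h1
  · exact h2

lemma twist_X_points {F : Type*} [Field F] {a b : F} (hG : Good F 0 a b)
    [DecidableEq (RF F)]
    (Q : (Tw (RF F) 0 a b (algebraMap F[X] (RF F) X)).Point) : Q = 0 := by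
  have hdeg := deg_eq_zero_X hG.h2 hG.hd Q
  cases Q with
  | zero => rfl
  | some x y h =>
    exfalso
    obtain ⟨N, M, S, hNM, hM, hdeg', -, -, hS⟩ := exists_rep (X_ne_zero (R := F)) h
    rw [hdeg] at hdeg'
    have hN0 : N.natDegree = 0 := by omega
    have hM0 : M.natDegree = 0 := by omega
    obtain ⟨n, rfl⟩ : ∃ n, N = C n := ⟨N.coeff 0, eq_C_of_natDegree_eq_zero hN0⟩
    obtain ⟨m, rfl⟩ : ∃ m, M = C m := ⟨M.coeff 0, eq_C_of_natDegree_eq_zero hM0⟩
    have hW0 := W_ne hG.hno hNM
    have hWc : Wf 0 a b (C n) (C m) = C (n ^ 3 + 0 * n ^ 2 * m + a * n * m ^ 2 + b * m ^ 3) := by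
      simp only [Wf, C_add, C_mul, C_pow]
    rw [hWc] at hW0 hS
    have h1 := congrArg natDegree hS
    rw [natDegree_mul X_ne_zero (mul_ne_zero hM hW0), natDegree_X, natDegree_mul hM hW0,
      natDegree_C, natDegree_C, natDegree_pow] at h1
    omega

section good

variable (h2 : (2 : R₀) ≠ 0) (h3 : (3 : R₀) ≠ 0)
include h2 h3

theorem base_good (F : Type*) [Field F] [Algebra (UR R₀) F] [IsFractionRing (UR R₀) F] :
    Good F 0 (algebraMap (UR R₀) F aU) (algebraMap (UR R₀) F bU) := by
  set k₀ := FractionRing R₀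
  have hk2 : (2 : k₀) ≠ 0 := by
    have : (2 : k₀) = algebraMap R₀ k₀ 2 := (map_ofNat _ 2).symm
    rw [this, Ne, IsFractionRing.to_map_eq_zero_iff]; exact h2
  have hk3 : (3 : k₀) ≠ 0 := by
    have : (3 : k₀) = algebraMap R₀ k₀ 3 := (map_ofNat _ 3).symm
    rw [this, Ne, IsFractionRing.to_map_eq_zero_iff]; exact h3
  set k := RF k₀
  have hkk2 : (2 : k) ≠ 0 := two_ne_RF hk2
  have hkk3 : (3 : k) ≠ 0 := by
    have : (3 : k) = cst k (3 : k₀) := (map_ofNat ((algebraMap k₀[X] k).comp C) 3).symm
    rw [this, cst, Ne, IsFractionRing.to_map_eq_zero_iff, C_eq_zero]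
    exact hk3
  set x : RF k := cst (RF k) (algebraMap k₀[X] k X) with hx
  set y : RF k := algebraMap k[X] (RF k) X with hy
  set f : R₀ →+* RF k := ((algebraMap k[X] (RF k)).comp C).comp
    (((algebraMap k₀[X] k).comp C).comp (algebraMap R₀ k₀)) with hf
  have hev : ev2 f x y = ((algebraMap k[X] (RF k)).comp (mapRingHom
      ((algebraMap k₀[X] k).comp (mapRingHom (algebraMap R₀ k₀))))) := by
    apply ev2_ext
    · intro r
      rw [ev2_C]
      simp only [RingHom.coe_comp, Function.comp_apply, coe_mapRingHom, map_C, hf]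
    · rw [ev2_a]
      simp only [RingHom.coe_comp, Function.comp_apply, coe_mapRingHom, map_C, map_X, hx, cst]
    · rw [ev2_b]
      simp only [RingHom.coe_comp, Function.comp_apply, coe_mapRingHom, map_X, hy]
  have hinj : Function.Injective (ev2 f x y) := by
    rw [hev]
    apply (IsFractionRing.injective k[X] (RF k)).comp
    apply Polynomial.map_injective
    apply (IsFractionRing.injective k₀[X] k).comp
    apply Polynomial.map_injective
    exact IsFractionRing.injective R₀ k₀
  have hunit : IsUnit (4 * x ^ 3 + 27 * y ^ 2) := by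
    rw [← ev2_Dl f x y]
    apply IsUnit.mk0
    intro h0
    exact Dl_ne (hinj (by rw [h0, map_zero]))
  have hUinj := liftU_injective f x y hunit hinj
  let ρ : F →+* RF k := IsFractionRing.lift (A := UR R₀) (K := F) hUinj
  have hρ : ∀ z, ρ (algebraMap (UR R₀) F z) = liftU f x y hunit z := by
    intro z; exact IsFractionRing.lift_algebraMap _ _
  apply Good.descend ρ
  rw [map_zero, hρ, hρ, aU, bU, liftU_algebraMap, liftU_algebraMap, ev2_a, ev2_b]
  apply good_RF hkk2 hkk3
  rw [Ne, IsFractionRing.to_map_eq_zero_iff]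
  exact X_ne_zero

theorem base_points' (F : Type*) [Field F] [Algebra (UR R₀) F] [IsFractionRing (UR R₀) F]
    [DecidableEq F] (a b : F) (ha : a = algebraMap (UR R₀) F aU)
    (hb : b = algebraMap (UR R₀) F bU) (P : (EC F 0 a b).Point) : P = 0 := by
  classical
  have hG : Good F 0 a b := by rw [ha, hb]; exact base_good h2 h3 F
  -- the twisting homomorphism
  set f0 : R₀ →+* F := ((algebraMap (UR R₀) F).comp (algebraMap R₀[X][X] (UR R₀))).comp
    (C.comp C) with hf0
  set Θ : R₀[X][X] →+* F[X] := ev2 (C.comp f0) (C a * X ^ 2) (C b * X ^ 3) with hΘ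
  have hev1 : (evalRingHom 1).comp Θ = (algebraMap (UR R₀) F).comp
      (algebraMap R₀[X][X] (UR R₀)) := by
    apply ev2_ext
    · intro r
      simp only [RingHom.coe_comp, Function.comp_apply, hΘ, ev2_C, coe_evalRingHom, eval_C, hf0]
    · simp only [RingHom.coe_comp, Function.comp_apply, hΘ, ev2_a, coe_evalRingHom, eval_mul,
        eval_C, eval_pow, eval_X, one_pow, mul_one, ha, aU]
    · simp only [RingHom.coe_comp, Function.comp_apply, hΘ, ev2_b, coe_evalRingHom, eval_mul,
        eval_C, eval_pow, eval_X, one_pow, mul_one, hb, bU]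
  have hUi : Function.Injective (algebraMap R₀[X][X] (UR R₀)) :=
    IsLocalization.injective _ (powers_le_nonZeroDivisors_of_noZeroDivisors Dl_ne)
  have hΘinj : Function.Injective Θ := by
    have : Function.Injective ((evalRingHom 1).comp Θ) := by
      rw [hev1]
      exact (IsFractionRing.injective (UR R₀) F).comp hUi
    exact Function.Injective.of_comp this
  set t : RF F := algebraMap F[X] (RF F) X with ht
  set f : R₀ →+* RF F := (algebraMap F[X] (RF F)).comp (C.comp f0) with hf
  have hev : ev2 f (cst (RF F) a * t ^ 2) (cst (RF F) b * t ^ 3)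
      = (algebraMap F[X] (RF F)).comp Θ := by
    apply ev2_ext
    · intro r
      rw [ev2_C]
      simp only [RingHom.coe_comp, Function.comp_apply, hΘ, ev2_C, hf]
    · rw [ev2_a]
      simp only [RingHom.coe_comp, Function.comp_apply, hΘ, ev2_a, map_mul, map_pow, cst, ht]
    · rw [ev2_b]
      simp only [RingHom.coe_comp, Function.comp_apply, hΘ, ev2_b, map_mul, map_pow, cst, ht]
  have hinj : Function.Injective (ev2 f (cst (RF F) a * t ^ 2) (cst (RF F) b * t ^ 3)) := by
    rw [hev]
    exact (IsFractionRing.injective F[X] (RF F)).comp hΘinj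
  have hunit : IsUnit (4 * (cst (RF F) a * t ^ 2) ^ 3 + 27 * (cst (RF F) b * t ^ 3) ^ 2) := by
    rw [← ev2_Dl f]
    apply IsUnit.mk0
    intro h0
    exact Dl_ne (hinj (by rw [h0, map_zero]))
  have hUinj := liftU_injective f _ _ hunit hinj
  let θ : F →+* RF F := IsFractionRing.lift (A := UR R₀) (K := F) hUinj
  have hθ : ∀ z, θ (algebraMap (UR R₀) F z) = liftU f _ _ hunit z := by
    intro z; exact IsFractionRing.lift_algebraMap _ _
  have hθa : θ a = cst (RF F) a * t ^ 2 :=
    calc θ a = liftU f _ _ hunit aU := by rw [← hθ, ha]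
      _ = ev2 f (cst (RF F) a * t ^ 2) (cst (RF F) b * t ^ 3) (C X) := liftU_algebraMap _ _ _ _ _
      _ = _ := ev2_a _ _ _
  have hθb : θ b = cst (RF F) b * t ^ 3 :=
    calc θ b = liftU f _ _ hunit bU := by rw [← hθ, hb]
      _ = ev2 f (cst (RF F) a * t ^ 2) (cst (RF F) b * t ^ 3) X := liftU_algebraMap _ _ _ _ _
      _ = _ := ev2_b _ _ _
  let tw : (EC F 0 a b).Point →+ (Tw (RF F) 0 a b t).Point :=
    scale θ 1 one_ne_zero (by rw [cst, C_0, map_zero, map_zero]; ring)
      (by rw [hθa]; ring) (by rw [hθb]; ring)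
  have htinj : Function.Injective tw := scale_injective _ _ _ _ _ _
  apply htinj
  rw [map_zero]
  exact twist_X_points hG (tw P)

theorem base_points (F : Type*) [Field F] [Algebra (UR R₀) F] [IsFractionRing (UR R₀) F]
    [DecidableEq F]
    (P : (EC F 0 (algebraMap (UR R₀) F aU) (algebraMap (UR R₀) F bU)).Point) : P = 0 :=
  base_points' h2 h3 F _ _ rfl rfl P

end good

end universal

end Pool.Agent.Hhelper85
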