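import Mathlib
import Pool.Agent.Hhelper85.Base
import Pool.Agent.Hhelper85.TateDefs

/-!
# The tower of universal curves with marked points: domains and ranks
-/

set_option linter.unusedSectionVars false

namespace Pool.Agent.TateBSD

open Polynomial WeierstrassCurve WeierstrassCurve.Affine Pool.Agent.Hhelper85

lemma universal_zero (R₀ : Type) [CommRing R₀] : universal R₀ 0 = universalBase R₀ := rfl

lemma universal_succ (R₀ : Type) [CommRing R₀] (r : ℕ) :
    universal R₀ (r + 1) = (universal R₀ r).adjoinPoint :=
  Function.iterate_succ_apply' _ _ _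

/-- The rank statement for a marked ring. -/
structure RankGood (S : CurveRing) (r : ℕ) : Prop where
  dom : IsDomain S.R
  good : ∀ (F : Type) [Field F] [Algebra S.R F] [IsFractionRing S.R F],
    Good F 0 (algebraMap S.R F S.a) (algebraMap S.R F S.b)
  rank : ∀ (F : Type) [Field F] [Algebra S.R F] [IsFractionRing S.R F] [DecidableEq F],
    Module.rank ℤ (EC F 0 (algebraMap S.R F S.a) (algebraMap S.R F S.b)).Point = r

lemma rankGood_base (R₀ : Type) [CommRing R₀] [IsDomain R₀] (h2 : (2 : R₀) ≠ 0)
    (h3 : (3 : R₀) ≠ 0) : RankGood (universalBase R₀) 0 where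
  dom := inferInstanceAs (IsDomain (UR R₀))
  good := by
    intro F _ alg _
    letI : Algebra (UR R₀) F := alg
    haveI : IsFractionRing (UR R₀) F := ‹IsFractionRing (universalBase R₀).R F›
    exact base_good h2 h3 F
  rank := by
    intro F _ alg _ _
    letI : Algebra (UR R₀) F := alg
    haveI : IsFractionRing (UR R₀) F := ‹IsFractionRing (universalBase R₀).R F›
    have h := base_points h2 h3 F
    have : Subsingleton (EC F 0 (algebraMap (universalBase R₀).R F (universalBase R₀).a)
        (algebraMap (universalBase R₀).R F (universalBase R₀).b)).Point :=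
      ⟨fun P Q => (h P).trans (h Q).symm⟩
    rw [Nat.cast_zero]
    exact rank_subsingleton' ℤ _

lemma RankGood.adjoin {S : CurveRing} {r : ℕ} (h : RankGood S r) :
    RankGood S.adjoinPoint (r + 1) := by
  have hdom := h.dom
  have key : ∀ (M : Type) [Field M] [Algebra S.adjoinPoint.R M] [IsFractionRing S.adjoinPoint.R M]
      [DecidableEq M], Good M 0 (algebraMap S.adjoinPoint.R M S.adjoinPoint.a)
        (algebraMap S.adjoinPoint.R M S.adjoinPoint.b) ∧
      Module.rank ℤ (EC M 0 (algebraMap S.adjoinPoint.R M S.adjoinPoint.a)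
        (algebraMap S.adjoinPoint.R M S.adjoinPoint.b)).Point = ((r + 1 : ℕ) : Cardinal) := by
    intro M _ alg _ _
    letI : Algebra (CR (0 : S.R) S.a S.b) M := alg
    haveI : IsFractionRing (CR (0 : S.R) S.a S.b) M := ‹IsFractionRing S.adjoinPoint.R M›
    classical
    have hG := h.good (FractionRing S.R)
    have hr := h.rank (FractionRing S.R)
    have hst := step (R := S.R) (0 : S.R) S.a S.b (F := FractionRing S.R) (M := M)
      (by rw [map_zero]; exact hG)
    obtain ⟨h1, h2⟩ := hst
    have e0 : algebraMap (CR (0 : S.R) S.a S.b) M (algebraMap S.R (CR (0 : S.R) S.a S.b) 0) = 0 := by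
      rw [map_zero, map_zero]
    have e0' : algebraMap S.R (FractionRing S.R) 0 = 0 := map_zero _
    rw [e0] at h1 h2
    rw [e0', hr] at h2
    refine ⟨h1, ?_⟩
    rw [Nat.cast_succ]
    exact h2
  exact
    { dom := inferInstanceAs (IsDomain (EC S.R 0 S.a S.b).CoordinateRing)
      good := fun M _ _ _ => by
        classical
        exact (key M).1
      rank := fun M _ _ _ _ => (key M).2 }

theorem rankGood_universal (R₀ : Type) [CommRing R₀] [IsDomain R₀] (h2 : (2 : R₀) ≠ 0)
    (h3 : (3 : R₀) ≠ 0) (r : ℕ) : RankGood (universal R₀ r) r := by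
  induction r with
  | zero => exact rankGood_base R₀ h2 h3
  | succ r ih => rw [universal_succ]; exact ih.adjoin

end Pool.Agent.TateBSD
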