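import Mathlib
import Pool.Agent.Hhelper85.Euler
import Pool.Agent.Hhelper85.Moments
import Pool.Agent.Hhelper85.Tower

/-!
# Counting homomorphisms from the universal rings to finite fields
-/

set_option linter.unusedSectionVars false

namespace Pool.Agent.Hhelper85

open Polynomial WeierstrassCurve WeierstrassCurve.Affine Pool.Agent.TateBSD

section coordinate

variable {R : Type*} [CommRing R] {T : Type*} [CommRing T]

lemma polynomial_EC (a b c : R) :
    (EC R a b c).polynomial = X ^ 2 - C (X ^ 3 + C a * X ^ 2 + C b * X + C c) := by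
  rw [WeierstrassCurve.Affine.polynomial]
  simp [EC]

/-- Homomorphisms out of the affine coordinate ring. -/
noncomputable def CRlift (a b c : R) (f : R →+* T) (x y : T)
    (h : y ^ 2 = x ^ 3 + f a * x ^ 2 + f b * x + f c) : CR a b c →+* T :=
  AdjoinRoot.lift (eval₂RingHom f x) y (by
    rw [polynomial_EC, eval₂_sub, eval₂_X_pow, eval₂_C, coe_eval₂RingHom, h]
    simp)

lemma CRlift_of (a b c : R) (f : R →+* T) (x y : T)
    (h : y ^ 2 = x ^ 3 + f a * x ^ 2 + f b * x + f c) (p : R[X]) :
    CRlift a b c f x y h (algebraMap R[X] (CR a b c) p) = eval₂RingHom f x p :=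
  AdjoinRoot.lift_of _

lemma CRlift_y (a b c : R) (f : R →+* T) (x y : T)
    (h : y ^ 2 = x ^ 3 + f a * x ^ 2 + f b * x + f c) :
    CRlift a b c f x y h (CoordinateRing.mk (EC R a b c) X) = y :=
  AdjoinRoot.lift_root _

lemma CR_ext (a b c : R) {g g' : CR a b c →+* T}
    (h0 : g.comp (algebraMap R (CR a b c)) = g'.comp (algebraMap R (CR a b c)))
    (h1 : g (algebraMap R[X] (CR a b c) X) = g' (algebraMap R[X] (CR a b c) X))
    (h2 : g (CoordinateRing.mk (EC R a b c) X) = g' (CoordinateRing.mk (EC R a b c) X)) :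
    g = g' := by
  apply AdjoinRoot.ringHom_ext
  · apply Polynomial.ringHom_ext'
    · exact h0
    · exact h1
  · exact h2

lemma mk_sq' (a b c : R) :
    (CoordinateRing.mk (EC R a b c) X) ^ 2 = algebraMap R[X] (CR a b c) (fp a b c) := by
  have h : algebraMap R[X] (CR a b c) (fp a b c) = CoordinateRing.mk (EC R a b c) (C (fp a b c)) :=
    rfl
  rw [h, ← map_pow]
  refine AdjoinRoot.mk_eq_mk.mpr ⟨1, ?_⟩
  rw [WeierstrassCurve.Affine.polynomial]
  simp only [EC, fp, zero_mul, map_zero, add_zero, mul_one]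

lemma CR_rel (a b c : R) (g : CR a b c →+* T) :
    g (CoordinateRing.mk (EC R a b c) X) ^ 2 = g (algebraMap R[X] (CR a b c) X) ^ 3
      + g (algebraMap R (CR a b c) a) * g (algebraMap R[X] (CR a b c) X) ^ 2
      + g (algebraMap R (CR a b c) b) * g (algebraMap R[X] (CR a b c) X)
      + g (algebraMap R (CR a b c) c) := by
  rw [← map_pow, mk_sq']
  have e : ∀ x : R, algebraMap R (CR a b c) x = algebraMap R[X] (CR a b c) (C x) := fun _ => rfl
  rw [e, e, e]
  simp only [← map_pow, ← map_mul, ← map_add]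
  rfl

lemma sig_ext (a b c : R) {f f' : R →+* T} (hf : f' = f) {xy xy' : T × T} (hxy : xy' = xy)
    (h' : xy'.2 ^ 2 = xy'.1 ^ 3 + f' a * xy'.1 ^ 2 + f' b * xy'.1 + f' c)
    (h : xy.2 ^ 2 = xy.1 ^ 3 + f a * xy.1 ^ 2 + f b * xy.1 + f c) :
    (⟨f', ⟨xy', h'⟩⟩ : Σ f : R →+* T,
      {xy : T × T // xy.2 ^ 2 = xy.1 ^ 3 + f a * xy.1 ^ 2 + f b * xy.1 + f c}) = ⟨f, ⟨xy, h⟩⟩ := by
  subst hf
  subst hxy
  rfl

/-- Homomorphisms from the coordinate ring are homomorphisms from the base together with an affine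
point. -/
noncomputable def homEquiv (a b c : R) : (CR a b c →+* T) ≃
    Σ f : R →+* T, {xy : T × T // xy.2 ^ 2 = xy.1 ^ 3 + f a * xy.1 ^ 2 + f b * xy.1 + f c} where
  toFun g := ⟨g.comp (algebraMap R (CR a b c)),
    ⟨(g (algebraMap R[X] (CR a b c) X), g (CoordinateRing.mk (EC R a b c) X)), CR_rel a b c g⟩⟩
  invFun z := CRlift a b c z.1 z.2.1.1 z.2.1.2 z.2.2
  left_inv g := by
    apply CR_ext
    · ext x
      have e : algebraMap R (CR a b c) x = algebraMap R[X] (CR a b c) (C x) := rfl
      simp only [RingHom.coe_comp, Function.comp_apply]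
      rw [e, CRlift_of]
      simp [e]
    · rw [CRlift_of]; simp
    · rw [CRlift_y]
  right_inv := by
    rintro ⟨f, ⟨⟨x, y⟩, h⟩⟩
    have h1 : (CRlift a b c f x y h).comp (algebraMap R (CR a b c)) = f := by
      ext z
      have e : algebraMap R (CR a b c) z = algebraMap R[X] (CR a b c) (C z) := rfl
      simp only [RingHom.coe_comp, Function.comp_apply]
      rw [e, CRlift_of]
      simp
    have h2 : CRlift a b c f x y h (algebraMap R[X] (CR a b c) X) = x := by
      rw [CRlift_of]; simp
    have h3 := CRlift_y a b c f x y h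
    exact sig_ext a b c h1 (Prod.ext h2 h3) _ _

end coordinate

section sums

variable {k : Type*} [Field k] [Fintype k] [DecidableEq k] {A : Type*} [CommRing A]

lemma card_affine (h2 : (2 : k) ≠ 0) {a b c : k} (hd : dsc a b c ≠ 0) :
    (Fintype.card {xy : k × k // xy.2 ^ 2 = xy.1 ^ 3 + a * xy.1 ^ 2 + b * xy.1 + c} : ℤ)
      = Fintype.card k - tr k a b c := by
  classical
  have h := card_point h2 hd
  rw [Nat.card_congr (pointEquiv h2 hd), Nat.card_eq_fintype_card, Fintype.card_option] at h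
  push_cast at h
  linear_combination h

lemma sum_CR {R : Type*} [CommRing R] (a b c : R) [Fintype (R →+* k)] [Fintype (CR a b c →+* k)]
    (h2 : (2 : k) ≠ 0) (hd : ∀ f : R →+* k, dsc (f a) (f b) (f c) ≠ 0) (G : (R →+* k) → A) :
    ∑ ψ : CR a b c →+* k, G (ψ.comp (algebraMap R (CR a b c)))
      = ∑ f : R →+* k, ((Fintype.card k : A) - (tr k (f a) (f b) (f c) : ℤ)) * G f := by
  rw [Fintype.sum_equiv (homEquiv (T := k) a b c)
    (fun ψ : CR a b c →+* k => G (ψ.comp (algebraMap R (CR a b c)))) (fun z => G z.1)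
    (fun ψ => rfl), Fintype.sum_sigma]
  apply Finset.sum_congr rfl
  intro f _
  simp only [Finset.sum_const, Finset.card_univ, nsmul_eq_mul]
  congr 1
  have h := card_affine h2 (hd f)
  have h' := congrArg (Int.cast : ℤ → A) h
  push_cast at h'
  convert h'

lemma ev2_ext' {R₀ : Type*} [CommRing R₀] {T : Type*} [CommRing T] {g g' : R₀[X][X] →+* T}
    (h0 : ∀ r, g (C (C r)) = g' (C (C r))) (h1 : g (C X) = g' (C X)) (h2 : g X = g' X) :
    g = g' := by
  apply Polynomial.ringHom_ext'
  · apply Polynomial.ringHom_ext'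
    · ext r; exact h0 r
    · exact h1
  · exact h2

/-- Homomorphisms out of the universal ring. -/
noncomputable def homEquivU (R₀ : Type*) [CommRing R₀] :
    (UR R₀ →+* k) ≃ (R₀ →+* k) × {x : k × k // x ∈ Gd k} where
  toFun g := (g.comp ((algebraMap R₀[X][X] (UR R₀)).comp (C.comp C)), ⟨(g aU, g bU), by
    refine Finset.mem_filter.2 ⟨Finset.mem_univ _, ?_⟩
    have h := (isUnit_Dl (R₀ := R₀)).map g
    simp only [map_add, map_mul, map_pow, map_ofNat] at h
    exact h.ne_zero⟩)
  invFun z := liftU z.1 z.2.1.1 z.2.1.2 (by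
    exact isUnit_iff_ne_zero.2 (Finset.mem_filter.1 z.2.2).2)
  left_inv g := by
    apply IsLocalization.ringHom_ext (Submonoid.powers (Dl R₀))
    apply ev2_ext'
    · intro r
      simp only [RingHom.coe_comp, Function.comp_apply]
      rw [liftU_algebraMap, ev2_C]
      rfl
    · simp only [RingHom.coe_comp, Function.comp_apply]
      rw [liftU_algebraMap, ev2_a]
      rfl
    · simp only [RingHom.coe_comp, Function.comp_apply]
      rw [liftU_algebraMap, ev2_b]
      rfl
  right_inv := by
    rintro ⟨f, ⟨⟨x, y⟩, h⟩⟩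
    apply Prod.ext
    · ext r
      simp only [RingHom.coe_comp, Function.comp_apply]
      rw [liftU_algebraMap, ev2_C]
    · apply Subtype.ext
      apply Prod.ext
      · simp only [aU]; rw [liftU_algebraMap, ev2_a]
      · simp only [bU]; rw [liftU_algebraMap, ev2_b]

lemma sum_UR (R₀ : Type*) [CommRing R₀] [Fintype (R₀ →+* k)] [Fintype (UR R₀ →+* k)]
    (g : k → k → A) :
    ∑ ψ : UR R₀ →+* k, g (ψ aU) (ψ bU) = Fintype.card (R₀ →+* k) * ∑ x ∈ Gd k, g x.1 x.2 := by
  rw [Fintype.sum_equiv (homEquivU (k := k) R₀)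
    (fun ψ : UR R₀ →+* k => g (ψ aU) (ψ bU)) (fun z => g z.2.1.1 z.2.1.2)
    (fun ψ => rfl), Fintype.sum_prod_type]
  simp only [Finset.sum_const, Finset.card_univ, nsmul_eq_mul]
  congr 1
  exact Finset.sum_coe_sort (Gd k) (fun x => g x.1 x.2)

end sums

section tower

/-- Units needed. -/
structure UnitGood (S : CurveRing) : Prop where
  two : IsUnit (2 : S.R)
  dsc : IsUnit (dsc 0 S.a S.b)

lemma UnitGood.adjoin {S : CurveRing} (h : UnitGood S) : UnitGood S.adjoinPoint where
  two := by
    have := h.two.map (algebraMap S.R S.curve.toAffine.CoordinateRing)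
    rw [map_ofNat] at this
    exact this
  dsc := by
    have := h.dsc.map (algebraMap S.R S.curve.toAffine.CoordinateRing)
    rw [← dsc_map, map_zero] at this
    exact this

lemma unitGood_base (R₀ : Type) [CommRing R₀] (h2 : IsUnit (2 : R₀)) :
    UnitGood (universalBase R₀) where
  two := by
    have := h2.map ((algebraMap R₀[X][X] (UR R₀)).comp (C.comp C))
    rw [map_ofNat] at this
    exact this
  dsc := by
    have h1 : IsUnit (2 : UR R₀) := by
      have := h2.map ((algebraMap R₀[X][X] (UR R₀)).comp (C.comp C))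
      rw [map_ofNat] at this
      exact this
    have h3 : Pool.Agent.Hhelper85.dsc (0 : UR R₀) aU bU
        = -2 ^ 4 * (4 * (aU : UR R₀) ^ 3 + 27 * bU ^ 2) := by
      rw [Pool.Agent.Hhelper85.dsc]; ring
    have h4 : IsUnit (Pool.Agent.Hhelper85.dsc (0 : UR R₀) aU bU) := by
      rw [h3]
      exact ((h1.pow 4).neg).mul isUnit_Dl
    exact h4

lemma unitGood_universal (R₀ : Type) [CommRing R₀] (h2 : IsUnit (2 : R₀)) (r : ℕ) :
    UnitGood (universal R₀ r) := by
  induction r with
  | zero => exact unitGood_base R₀ h2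
  | succ r ih => rw [universal_succ]; exact ih.adjoin

end tower

end Pool.Agent.Hhelper85
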