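import Mathlib
import Pool.Agent.Hhelper85.HomCount

/-!
# Sums over points of the tower with values in a finite field
-/

set_option linter.unusedSectionVars false

namespace Pool.Agent.Hhelper85

open Polynomial WeierstrassCurve WeierstrassCurve.Affine Pool.Agent.TateBSD

section ft

lemma ft_trans {A B : Type*} [CommRing A] [CommRing B] [Algebra A B]
    (h1 : Algebra.FiniteType ℤ A) (h2 : Algebra.FiniteType A B) : Algebra.FiniteType ℤ B :=
  Algebra.FiniteType.trans h1 h2

lemma ft_base (R₀ : Type) [CommRing R₀] (h : Algebra.FiniteType ℤ R₀) :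
    Algebra.FiniteType ℤ (universalBase R₀).R := by
  have h0 : @Algebra.FiniteType ℤ R₀[X] _ _ (Ring.toIntAlgebra _) :=
    ft_trans (A := R₀) (B := R₀[X]) h inferInstance
  have h1 : @Algebra.FiniteType ℤ R₀[X][X] _ _ (Ring.toIntAlgebra _) :=
    ft_trans (A := R₀[X]) (B := R₀[X][X]) h0 inferInstance
  exact ft_trans (A := R₀[X][X]) (B := UR R₀) h1 inferInstance

lemma ft_adjoin (S : CurveRing) (h : Algebra.FiniteType ℤ S.R) :
    Algebra.FiniteType ℤ S.adjoinPoint.R := by
  have h1 : @Algebra.FiniteType ℤ S.R[X] _ _ (Ring.toIntAlgebra _) :=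
    ft_trans (A := S.R) (B := S.R[X]) h inferInstance
  exact ft_trans (A := S.R[X]) (B := AdjoinRoot S.curve.toAffine.polynomial) h1 inferInstance

instance ft_universal (R₀ : Type) [CommRing R₀] [Algebra.FiniteType ℤ R₀] (r : ℕ) :
    Algebra.FiniteType ℤ (universal R₀ r).R := by
  induction r with
  | zero => exact ft_base R₀ ‹_›
  | succ r ih =>
    rw [universal_succ]
    exact ft_adjoin _ ih

end ft

section sums

variable {k : Type*} [Field k] [Fintype k] [DecidableEq k] {A : Type*} [CommRing A]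

lemma sum_adjoin {S : CurveRing} (hS : UnitGood S) [Fintype (S.R →+* k)]
    [inst : Fintype (S.adjoinPoint.R →+* k)] (g : k → k → A) :
    ∑ ψ : S.adjoinPoint.R →+* k, g (ψ S.adjoinPoint.a) (ψ S.adjoinPoint.b)
      = ∑ f : S.R →+* k, ((Fintype.card k : A) - (TT (f S.a) (f S.b) : ℤ))
          * g (f S.a) (f S.b) := by
  by_cases hne : Nonempty (S.R →+* k)
  · obtain ⟨f₀⟩ := hne
    have h2 : (2 : k) ≠ 0 := by
      have := (hS.two.map f₀).ne_zero
      rwa [map_ofNat] at this
    have hd : ∀ f : S.R →+* k, dsc (f 0) (f S.a) (f S.b) ≠ 0 := by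
      intro f
      rw [dsc_map]
      exact (hS.dsc.map f).ne_zero
    let _ : Fintype (CR 0 S.a S.b →+* k) := inst
    have h := sum_CR (k := k) (A := A) (R := S.R) 0 S.a S.b h2 hd
      (fun f => g (f S.a) (f S.b))
    refine h.trans ?_
    apply Finset.sum_congr rfl
    intro f _
    rw [map_zero]
    rfl
  · have h1 : IsEmpty (S.R →+* k) := not_nonempty_iff.1 hne
    have h2 : IsEmpty (S.adjoinPoint.R →+* k) :=
      ⟨fun ψ => h1.elim (ψ.comp (algebraMap S.R S.curve.toAffine.CoordinateRing))⟩
    rw [Finset.univ_eq_empty, Finset.univ_eq_empty, Finset.sum_empty, Finset.sum_empty]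

theorem sum_universal (R₀ : Type) [CommRing R₀] (h2 : IsUnit (2 : R₀)) [Fintype (R₀ →+* k)]
    (hfin : ∀ r, Finite ((universal R₀ r).R →+* k)) (r : ℕ) :
    ∀ [Fintype ((universal R₀ r).R →+* k)] (g : k → k → A),
    ∑ ψ : (universal R₀ r).R →+* k, g (ψ (universal R₀ r).a) (ψ (universal R₀ r).b)
      = Fintype.card (R₀ →+* k) * ∑ x ∈ Gd k, ((Fintype.card k : A) - (TT x.1 x.2 : ℤ)) ^ r
          * g x.1 x.2 := by
  induction r with
  | zero =>
    intro inst g
    let _ : Fintype (UR R₀ →+* k) := inst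
    have h := sum_UR (k := k) (A := A) R₀ g
    simp only [pow_zero, one_mul]
    exact h
  | succ r ih =>
    have := hfin r
    have := Fintype.ofFinite ((universal R₀ r).R →+* k)
    rw [universal_succ]
    intro inst g
    rw [sum_adjoin (unitGood_universal R₀ h2 r)]
    have h := ih (fun x y => ((Fintype.card k : A) - (TT x y : ℤ)) * g x y)
    rw [h]
    congr 1
    apply Finset.sum_congr rfl
    intro x _
    rw [pow_succ]
    ring

end sums

end Pool.Agent.Hhelper85
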