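import Mathlib
import Pool.Agent.Hhelper85.TowerSum

/-!
# The analytic part
-/

set_option linter.unusedSectionVars false

namespace Pool.Agent.Hhelper85

open Polynomial WeierstrassCurve WeierstrassCurve.Affine Pool.Agent.TateBSD

section pw

/-- The number of points with values in a finite field. -/
noncomputable def hN (R₀ : Type*) [CommRing R₀] (x : Nat.Primes × ℕ) : ℕ :=
  Nat.card (R₀ →+* GF x.1 x.2)

/-- `q^{-s} / n` for `q = p ^ n`. -/
noncomputable def pw (s : ℂ) (x : Nat.Primes × ℕ) : ℂ := ((x.1 : ℂ) ^ (-s)) ^ x.2 / x.2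

/-- `q^{-σ} / n` for `q = p ^ n`. -/
noncomputable def pr (σ : ℝ) (x : Nat.Primes × ℕ) : ℝ := ((x.1 : ℝ) ^ (-σ)) ^ x.2 / x.2

lemma pr_nonneg (σ : ℝ) (x : Nat.Primes × ℕ) : 0 ≤ pr σ x := by
  unfold pr; positivity

lemma norm_pw (s : ℂ) (x : Nat.Primes × ℕ) : ‖pw s x‖ = pr s.re x := by
  rw [pw, pr, norm_div, norm_pow, Complex.norm_natCast_cpow_of_pos x.1.2.pos,
    Complex.norm_natCast, Complex.neg_re]

lemma pr_anti {σ τ : ℝ} (h : σ ≤ τ) (x : Nat.Primes × ℕ) : pr τ x ≤ pr σ x := by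
  unfold pr
  have h1 : (1 : ℝ) ≤ x.1 := by exact_mod_cast x.1.2.one_le
  gcongr

lemma pow_mul_pw (j : ℕ) (s : ℂ) (x : Nat.Primes × ℕ) :
    (((x.1 : ℂ) ^ x.2) ^ j) * pw s x = pw (s - j) x := by
  have hp : (x.1 : ℂ) ≠ 0 := by exact_mod_cast x.1.2.ne_zero
  rw [pw, pw, neg_sub, sub_eq_add_neg, Complex.cpow_add _ _ hp, Complex.cpow_natCast, mul_pow]
  ring

lemma pow_mul_pr (j : ℕ) (σ : ℝ) (x : Nat.Primes × ℕ) :
    (((x.1 : ℝ) ^ x.2) ^ j) * pr σ x = pr (σ - j) x := by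
  have hp : (0 : ℝ) < x.1 := by exact_mod_cast x.1.2.pos
  rw [pr, pr, neg_sub, sub_eq_add_neg, Real.rpow_add hp, Real.rpow_natCast, mul_pow]
  ring

lemma sqrt_mul_pr (σ : ℝ) (x : Nat.Primes × ℕ) :
    Real.sqrt ((x.1 : ℝ) ^ x.2) * pr σ x = pr (σ - 1 / 2) x := by
  have hp : (0 : ℝ) < x.1 := by exact_mod_cast x.1.2.pos
  rw [pr, pr, neg_sub, sub_eq_add_neg, Real.rpow_add hp, mul_pow, Real.sqrt_eq_rpow,
    ← Real.rpow_natCast, ← Real.rpow_natCast ((x.1 : ℝ) ^ ((1 : ℝ) / 2)), ← Real.rpow_mul hp.le,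
    ← Real.rpow_mul hp.le]
  rw [mul_comm ((x.2 : ℕ) : ℝ) ((1 : ℝ) / 2)]
  ring

lemma differentiable_pw (x : Nat.Primes × ℕ) : Differentiable ℂ (fun s => pw s x) := by
  have hp : (x.1 : ℂ) ≠ 0 := by exact_mod_cast x.1.2.ne_zero
  unfold pw
  apply Differentiable.div_const
  apply Differentiable.pow
  intro s
  exact (differentiableAt_id.neg).const_cpow (Or.inl hp)

lemma pw_zero (s : ℂ) (p : Nat.Primes) : pw s (p, 0) = 0 := by simp [pw]

end pw

section main

/-- The first moment attached to `(p, n)`. -/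
noncomputable def SSx (r : ℕ) (x : Nat.Primes × ℕ) : ℤ :=
  @SS (GF x.1 x.2) _ (Fintype.ofFinite _) (Classical.decEq _) 1 r

lemma C3_nonneg (r : ℕ) : 0 ≤ C3 r := by
  induction r with
  | zero => simp [C3]
  | succ r ih => rw [C3]; positivity

lemma C2_nonneg (r : ℕ) : 0 ≤ C2 r := by
  induction r with
  | zero => simp [C2]
  | succ r ih => rw [C2]; have := C3_nonneg r; positivity

lemma C1_nonneg (r : ℕ) : 0 ≤ C1 r := by
  induction r with
  | zero => simp [C1]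
  | succ r ih => rw [C1]; have := C2_nonneg r; positivity

local instance primeFact' (p : Nat.Primes) : Fact (p : ℕ).Prime := ⟨p.2⟩

lemma card_GF {x : Nat.Primes × ℕ} (hx : x.2 ≠ 0) : Nat.card (GF x.1 x.2) = (x.1 : ℕ) ^ x.2 :=
  GaloisField.card _ _ hx

variable {R₀ : Type} [CommRing R₀] [Algebra.FiniteType ℤ R₀] (h6 : IsUnit (6 : R₀))
include h6

omit [Algebra.FiniteType ℤ R₀] in
lemma six_units : IsUnit (2 : R₀) ∧ IsUnit (3 : R₀) := by
  have h : (6 : R₀) = 2 * 3 := by norm_num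
  rw [h] at h6
  exact ⟨isUnit_of_mul_isUnit_left h6, isUnit_of_mul_isUnit_right h6⟩

omit [Algebra.FiniteType ℤ R₀] in
lemma ne_of_hom {k : Type*} [Field k] (φ : R₀ →+* k) : (2 : k) ≠ 0 ∧ (3 : k) ≠ 0 := by
  obtain ⟨h2, h3⟩ := six_units h6
  have h2' := (h2.map φ).ne_zero
  have h3' := (h3.map φ).ne_zero
  rw [map_ofNat] at h2' h3'
  exact ⟨h2', h3'⟩

lemma hN_ne_zero {x : Nat.Primes × ℕ} (h : hN R₀ x ≠ 0) :
    (2 : GF x.1 x.2) ≠ 0 ∧ (3 : GF x.1 x.2) ≠ 0 := by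
  have : Nonempty (R₀ →+* GF x.1 x.2) := by
    by_contra hne
    rw [not_nonempty_iff] at hne
    exact h (Nat.card_of_isEmpty)
  exact ne_of_hom h6 this.some

/-- The bound for the terms. -/
lemma SSx_bound (r : ℕ) {x : Nat.Primes × ℕ} (h : hN R₀ x ≠ 0) (hx : x.2 ≠ 0) :
    |((SSx r x + r * ((x.1 : ℤ) ^ x.2) ^ (r + 2) : ℤ) : ℝ)|
      ≤ (C1 r : ℝ) * ((x.1 : ℝ) ^ x.2) ^ (r + 1) := by
  obtain ⟨h2, h3⟩ := hN_ne_zero h6 h
  let _ : Fintype (GF x.1 x.2) := Fintype.ofFinite _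
  let _ : DecidableEq (GF x.1 x.2) := Classical.decEq _
  have h1 := SS_one h2 h3 r
  have hc : Fintype.card (GF x.1 x.2) = (x.1 : ℕ) ^ x.2 := by
    rw [← Nat.card_eq_fintype_card]; exact card_GF hx
  rw [hc] at h1
  push_cast at h1
  exact_mod_cast h1

/-- The logarithmic remainder. -/
noncomputable def HH (R₀ : Type) [CommRing R₀] (r : ℕ) (s : ℂ) : ℂ :=
  ∑' x : Nat.Primes × ℕ,
    (hN R₀ x : ℂ) * ((SSx r x + r * ((x.1 : ℤ) ^ x.2) ^ (r + 2) : ℤ) : ℂ) * pw s x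

/-- The logarithm of the zeta function of the base. -/
noncomputable def LZ (R₀ : Type) [CommRing R₀] (s : ℂ) : ℂ :=
  ∑' x : Nat.Primes × ℕ, (hN R₀ x : ℂ) * pw s x

lemma term_bound (r : ℕ) (s : ℂ) (x : Nat.Primes × ℕ) :
    ‖(hN R₀ x : ℂ) * ((SSx r x + r * ((x.1 : ℤ) ^ x.2) ^ (r + 2) : ℤ) : ℂ) * pw s x‖
      ≤ C1 r * (hN R₀ x * pr (s.re - (r + 1 : ℕ)) x) := by
  obtain ⟨p, n⟩ := x
  by_cases hn : n = 0
  · subst hn
    simp [pw, pr]
  by_cases h : hN R₀ (p, n) = 0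
  · simp [h]
  · have h1 := SSx_bound h6 r h hn
    rw [norm_mul, norm_mul, Complex.norm_natCast, Complex.norm_intCast, norm_pw,
      ← pow_mul_pr]
    calc (hN R₀ (p, n) : ℝ) * |((SSx r (p, n) + r * ((p : ℤ) ^ n) ^ (r + 2) : ℤ) : ℝ)|
          * pr s.re (p, n)
        ≤ (hN R₀ (p, n) : ℝ) * ((C1 r : ℝ) * ((p : ℝ) ^ n) ^ (r + 1)) * pr s.re (p, n) := by
          apply mul_le_mul_of_nonneg_right _ (pr_nonneg _ _)
          exact mul_le_mul_of_nonneg_left h1 (by positivity)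
      _ = _ := by ring

variable {d : ℝ} (hd : ∀ σ : ℝ, d < σ → Summable fun x : Nat.Primes × ℕ => (hN R₀ x : ℝ) * pr σ x)
include hd

lemma summable_HH (r : ℕ) {s : ℂ} (hs : d + r + 1 < s.re) :
    Summable fun x : Nat.Primes × ℕ =>
      (hN R₀ x : ℂ) * ((SSx r x + r * ((x.1 : ℤ) ^ x.2) ^ (r + 2) : ℤ) : ℂ) * pw s x := by
  apply Summable.of_norm_bounded (g := fun x => C1 r * (hN R₀ x * pr (s.re - (r + 1 : ℕ)) x))
  · apply Summable.mul_left
    apply hd
    push_cast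
    linarith
  · exact term_bound h6 r s

/-- `HH` is holomorphic. -/
lemma differentiableOn_HH (r : ℕ) :
    DifferentiableOn ℂ (HH R₀ r) {s : ℂ | d + r + 1 < s.re} := by
  intro s hs
  have hs' : d + r + 1 < s.re := hs
  obtain ⟨τ, h1, h2⟩ := exists_between hs'
  have hopen : IsOpen {s : ℂ | τ < s.re} := isOpen_lt continuous_const Complex.continuous_re
  have key : DifferentiableOn ℂ (HH R₀ r) {s : ℂ | τ < s.re} := by
    apply Complex.differentiableOn_tsum_of_summable_norm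
      (u := fun x => C1 r * (hN R₀ x * pr (τ - (r + 1 : ℕ)) x))
    · apply Summable.mul_left
      apply hd
      push_cast
      linarith
    · intro x
      exact ((differentiable_pw x).const_mul _).differentiableOn
    · exact hopen
    · intro x w hw
      refine (term_bound h6 r w x).trans ?_
      have hw' : τ ≤ w.re := le_of_lt hw
      have hC : (0 : ℝ) ≤ C1 r := by
        have := C1_nonneg r
        exact_mod_cast this
      apply mul_le_mul_of_nonneg_left _ hC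
      apply mul_le_mul_of_nonneg_left _ (by positivity)
      apply pr_anti
      linarith
  exact ((key s h2).differentiableAt (hopen.mem_nhds h2)).differentiableWithinAt

end main

section fibre

variable {R₀ : Type} [CommRing R₀] [Algebra.FiniteType ℤ R₀] (h6 : IsUnit (6 : R₀))
include h6

omit [Algebra.FiniteType ℤ R₀] h6 in
lemma trc_TT {k : Type*} [Field k] [Fintype k] [DecidableEq k] (h2 : (2 : k) ≠ 0) {x : k × k}
    (hx : x ∈ Gd k) : trc k 0 x.1 x.2 = TT x.1 x.2 := by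
  have h := (Finset.mem_filter.1 hx).2
  apply trc_eq h2
  have e : dsc 0 x.1 x.2 = -2 ^ 4 * (4 * x.1 ^ 3 + 27 * x.2 ^ 2) := by
    rw [dsc]; ring
  rw [e]
  exact mul_ne_zero (neg_ne_zero.2 (pow_ne_zero _ h2)) h

omit [Algebra.FiniteType ℤ R₀] h6 in
lemma affine_nonneg {k : Type*} [Field k] [Fintype k] [DecidableEq k] (h2 : (2 : k) ≠ 0)
    {x : k × k} (hx : x ∈ Gd k) : 0 ≤ (Fintype.card k : ℤ) - TT x.1 x.2 := by
  have h := (Finset.mem_filter.1 hx).2
  have e : dsc 0 x.1 x.2 = -2 ^ 4 * (4 * x.1 ^ 3 + 27 * x.2 ^ 2) := by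
    rw [dsc]; ring
  have hd : dsc 0 x.1 x.2 ≠ 0 := by
    rw [e]
    exact mul_ne_zero (neg_ne_zero.2 (pow_ne_zero _ h2)) h
  have := card_affine h2 hd
  unfold TT
  rw [← this]
  positivity

lemma sum_trc (r : ℕ) (x : Nat.Primes × ℕ) [Fintype ((universal R₀ r).R →+* GF x.1 x.2)] :
    ∑ ψ : (universal R₀ r).R →+* GF x.1 x.2,
      (trc (GF x.1 x.2) (ψ 0) (ψ (universal R₀ r).a) (ψ (universal R₀ r).b) : ℂ)
      = hN R₀ x * SSx r x := by
  let _ : Fintype (GF x.1 x.2) := Fintype.ofFinite _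
  let _ : DecidableEq (GF x.1 x.2) := Classical.decEq _
  have := finite_hom (R := R₀) (GF x.1 x.2)
  let _ : Fintype (R₀ →+* GF x.1 x.2) := Fintype.ofFinite _
  have h := sum_universal (k := GF x.1 x.2) (A := ℂ) R₀ (six_units h6).1
    (fun r => finite_hom (R := (universal R₀ r).R) (GF x.1 x.2)) r
    (fun a b => (trc (GF x.1 x.2) 0 a b : ℂ))
  simp only [map_zero]
  rw [h, hN, Nat.card_eq_fintype_card]
  by_cases hne : Nonempty (R₀ →+* GF x.1 x.2)
  · obtain ⟨h2, h3⟩ := ne_of_hom h6 hne.some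
    congr 1
    rw [SSx, SS]
    push_cast
    apply Finset.sum_congr rfl
    intro y hy
    rw [trc_TT h2 hy]
    ring
  · rw [not_nonempty_iff] at hne
    rw [Fintype.card_eq_zero]
    simp

lemma sum_abs_trc (r : ℕ) {x : Nat.Primes × ℕ} (hx : x.2 ≠ 0)
    [Fintype ((universal R₀ r).R →+* GF x.1 x.2)] :
    ∑ ψ : (universal R₀ r).R →+* GF x.1 x.2,
      |(trc (GF x.1 x.2) (ψ 0) (ψ (universal R₀ r).a) (ψ (universal R₀ r).b) : ℝ)|
      ≤ hN R₀ x * (2 * 3 ^ r * ((x.1 : ℝ) ^ x.2) ^ (r + 2) * Real.sqrt ((x.1 : ℝ) ^ x.2)) := by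
  let _ : Fintype (GF x.1 x.2) := Fintype.ofFinite _
  let _ : DecidableEq (GF x.1 x.2) := Classical.decEq _
  have := finite_hom (R := R₀) (GF x.1 x.2)
  let _ : Fintype (R₀ →+* GF x.1 x.2) := Fintype.ofFinite _
  have h := sum_universal (k := GF x.1 x.2) (A := ℝ) R₀ (six_units h6).1
    (fun r => finite_hom (R := (universal R₀ r).R) (GF x.1 x.2)) r
    (fun a b => |(trc (GF x.1 x.2) 0 a b : ℝ)|)
  simp only [map_zero]
  rw [h, hN, Nat.card_eq_fintype_card]
  by_cases hne : Nonempty (R₀ →+* GF x.1 x.2)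
  · obtain ⟨h2, h3⟩ := ne_of_hom h6 hne.some
    apply mul_le_mul_of_nonneg_left _ (by positivity)
    have h1 := SS_abs h2 r
    have hc : Fintype.card (GF x.1 x.2) = (x.1 : ℕ) ^ x.2 := by
      rw [← Nat.card_eq_fintype_card]; exact card_GF hx
    rw [hc] at h1
    push_cast at h1
    refine le_trans (le_of_eq ?_) h1
    apply Finset.sum_congr rfl
    intro y hy
    rw [trc_TT h2 hy]
    have h4 := affine_nonneg h2 hy
    rw [hc] at h4 ⊢
    have h5 : (0 : ℝ) ≤ (x.1 : ℝ) ^ x.2 - TT y.1 y.2 := by exact_mod_cast h4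
    push_cast
    rw [abs_mul, abs_of_nonneg (pow_nonneg h5 r)]
    ring
  · rw [not_nonempty_iff] at hne
    rw [Fintype.card_eq_zero]
    simp

end fibre

section total

variable {R₀ : Type} [CommRing R₀] [Algebra.FiniteType ℤ R₀]

lemma vH_eq_pw {R : Type*} [CommRing R] [Algebra.FiniteType ℤ R] (a b c : R) (s : ℂ)
    (x : Nat.Primes × ℕ) (ψ : R →+* GF x.1 x.2) :
    vH a b c s ⟨x, ψ⟩ = (trc (GF x.1 x.2) (ψ a) (ψ b) (ψ c) : ℂ) * pw s x := by
  rw [vH, pw, mul_div_assoc]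

lemma norm_vH {R : Type*} [CommRing R] [Algebra.FiniteType ℤ R] (a b c : R) (s : ℂ)
    (x : Nat.Primes × ℕ) (ψ : R →+* GF x.1 x.2) :
    ‖vH a b c s ⟨x, ψ⟩‖ = |(trc (GF x.1 x.2) (ψ a) (ψ b) (ψ c) : ℝ)| * pr s.re x := by
  rw [vH_eq_pw, norm_mul, norm_pw, Complex.norm_intCast]

variable (h6 : IsUnit (6 : R₀)) {d : ℝ}
  (hd : ∀ σ : ℝ, d < σ → Summable fun x : Nat.Primes × ℕ => (hN R₀ x : ℝ) * pr σ x)
include h6 hd

lemma summable_vH (r : ℕ) {s : ℂ} (hs : d + r + 5 / 2 < s.re) :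
    Summable (vH (R := (universal R₀ r).R) 0 (universal R₀ r).a (universal R₀ r).b s) := by
  rw [← summable_norm_iff]
  rw [summable_sigma_of_nonneg (fun _ => norm_nonneg _)]
  refine ⟨fun x => ?_, ?_⟩
  · have := finite_hom (R := (universal R₀ r).R) (GF x.1 x.2)
    exact Summable.of_finite
  · apply Summable.of_nonneg_of_le (f := fun x => 2 * 3 ^ r * (hN R₀ x
      * pr (s.re - (r + 2 : ℕ) - 1 / 2) x))
    · intro x
      exact tsum_nonneg (fun _ => norm_nonneg _)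
    · intro x
      have := finite_hom (R := (universal R₀ r).R) (GF x.1 x.2)
      let _ := Fintype.ofFinite ((universal R₀ r).R →+* GF x.1 x.2)
      rw [tsum_fintype]
      simp only [norm_vH]
      rw [← Finset.sum_mul]
      by_cases hx : x.2 = 0
      · obtain ⟨p, n⟩ := x
        simp only at hx
        subst hx
        simp [pr]
      · rw [← sqrt_mul_pr, ← pow_mul_pr]
        calc _ ≤ (hN R₀ x * (2 * 3 ^ r * ((x.1 : ℝ) ^ x.2) ^ (r + 2)
              * Real.sqrt ((x.1 : ℝ) ^ x.2))) * pr s.re x :=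
            mul_le_mul_of_nonneg_right (sum_abs_trc h6 r hx) (pr_nonneg _ _)
          _ = _ := by ring
    · apply Summable.mul_left
      apply hd
      push_cast
      linarith

lemma tsum_vH (r : ℕ) {s : ℂ} (hs : d + r + 5 / 2 < s.re) :
    ∑' h, vH (R := (universal R₀ r).R) 0 (universal R₀ r).a (universal R₀ r).b s h
      = HH R₀ r s - r * LZ R₀ (s - (r + 2 : ℕ)) := by
  have h1 := summable_vH h6 hd r hs
  rw [h1.tsum_sigma]
  have h2 : ∀ x : Nat.Primes × ℕ,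
      ∑' ψ : (universal R₀ r).R →+* GF x.1 x.2,
        vH (R := (universal R₀ r).R) 0 (universal R₀ r).a (universal R₀ r).b s ⟨x, ψ⟩
      = (hN R₀ x : ℂ) * ((SSx r x + r * ((x.1 : ℤ) ^ x.2) ^ (r + 2) : ℤ) : ℂ) * pw s x
        - r * ((hN R₀ x : ℂ) * pw (s - (r + 2 : ℕ)) x) := by
    intro x
    have := finite_hom (R := (universal R₀ r).R) (GF x.1 x.2)
    let _ := Fintype.ofFinite ((universal R₀ r).R →+* GF x.1 x.2)
    rw [tsum_fintype]
    simp only [vH_eq_pw]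
    rw [← Finset.sum_mul, sum_trc h6, ← pow_mul_pw]
    push_cast
    ring
  simp only [h2]
  have h3 : Summable fun x : Nat.Primes × ℕ => (r : ℂ) * ((hN R₀ x : ℂ) * pw (s - (r + 2 : ℕ)) x) := by
    apply Summable.mul_left
    rw [← summable_norm_iff]
    simp only [norm_mul, Complex.norm_natCast, norm_pw]
    apply hd
    simp only [Complex.sub_re, Complex.natCast_re]
    push_cast
    linarith
  rw [(summable_HH h6 hd r (by linarith)).tsum_sub h3, tsum_mul_left]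
  rfl

/-- The Euler product of the universal curve with `r` marked points. -/
theorem hasProd_universal (hd0 : 0 ≤ d) (r : ℕ) {s : ℂ} (hs : d + r + 5 / 2 < s.re) :
    HasProd (fun m : MaximalSpectrum (universal R₀ r).R => localFactor (universal R₀ r).curve m s)
      (Complex.exp (HH R₀ r s - r * LZ R₀ (s - (r + 2 : ℕ)))) := by
  have hU := unitGood_universal R₀ (six_units h6).1 r
  have h := euler_product (R := (universal R₀ r).R) (a := 0) (b := (universal R₀ r).a)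
    (c := (universal R₀ r).b) hU.two hU.dsc (s := s) (by
      have : (0 : ℝ) ≤ r := by positivity
      linarith) (summable_vH h6 hd r hs)
  rw [tsum_vH h6 hd r hs] at h
  exact h

end total

end Pool.Agent.Hhelper85
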