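import Mathlib
import Pool.Agent.Hhelper85.Analytic

/-!
# The zeta function of the base
-/

set_option linter.unusedSectionVars false

namespace Pool.Agent.Hhelper85

open Pool.Agent.TateBSD

section zeta

variable {R : Type*} [CommRing R] [Algebra.FiniteType ℤ R]

/-- Real weights at pairs. -/
noncomputable def uR (σ : ℝ) (i : MaximalSpectrum R × ℕ) : ℝ := ((qy i.1 : ℝ) ^ (-σ)) ^ i.2 / i.2

/-- Complex weights at pairs. -/
noncomputable def uC (s : ℂ) (i : MaximalSpectrum R × ℕ) : ℂ := ((qy i.1 : ℂ) ^ (-s)) ^ i.2 / i.2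

lemma qy_rpow (m : MaximalSpectrum R) (σ : ℝ) :
    (qy m : ℝ) ^ (-σ) = ((pm m : ℝ) ^ (-σ)) ^ dm m := by
  have hp : (0 : ℝ) ≤ (pm m : ℕ) := by positivity
  rw [qy, card_quot, Nat.cast_pow, ← Real.rpow_natCast, ← Real.rpow_mul hp, mul_comm,
    Real.rpow_mul hp, Real.rpow_natCast]

lemma qy_cpow' (m : MaximalSpectrum R) (s : ℂ) :
    (qy m : ℂ) ^ (-s) = ((pm m : ℂ) ^ (-s)) ^ dm m := by
  rw [qy, card_quot, Nat.cast_pow, ← Complex.natCast_cpow_natCast_mul, Complex.cpow_nat_mul]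

/-- The data of a point. -/
lemma pt_data {h : PtsAll R} {m : MaximalSpectrum R} {k : ℕ} (hh : kap' h = (m, k)) (hk : k ≠ 0) :
    h.1.1 = pm m ∧ h.1.2 = dm m * k := by
  obtain ⟨⟨p, n⟩, φ⟩ := h
  simp only [kap', Prod.mk.injEq] at hh
  obtain ⟨hm, hkk⟩ := hh
  have hn : n ≠ 0 := by
    rintro rfl
    rw [Nat.zero_div] at hkk
    exact hk hkk.symm
  obtain ⟨e1, j, e2⟩ := hom_data (x := (p, n)) hn φ hm
  simp only at e1 e2
  have hj : j = k := by
    rw [hm, e2, Nat.mul_div_cancel_left _ (Nat.pos_of_ne_zero (dm_ne m))] at hkk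
    exact hkk
  subst hj
  exact ⟨e1, e2⟩

lemma pt_zero {h : PtsAll R} {m : MaximalSpectrum R} (hh : kap' h = (m, 0)) : h.1.2 = 0 := by
  obtain ⟨⟨p, n⟩, φ⟩ := h
  simp only [kap', Prod.mk.injEq] at hh
  by_contra hn
  obtain ⟨e1, j, e2⟩ := hom_data (x := (p, n)) hn φ rfl
  simp only at e1 e2
  have hjd : n / dm (kerM φ) = j :=
    Nat.div_eq_of_eq_mul_right (Nat.pos_of_ne_zero (dm_ne _)) e2
  rw [hjd] at hh
  rw [hh.2, mul_zero] at e2
  exact hn e2

lemma pr_fiber (σ : ℝ) {h : PtsAll R} {m : MaximalSpectrum R} {k : ℕ} (hh : kap' h = (m, k))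
    (hk : k ≠ 0) : pr σ h.1 = uR σ (m, k) / dm m := by
  obtain ⟨e1, e2⟩ := pt_data hh hk
  rw [pr, uR, e1, e2, qy_rpow, ← pow_mul]
  push_cast
  rw [div_div, mul_comm (k : ℝ)]

lemma pw_fiber (s : ℂ) {h : PtsAll R} {m : MaximalSpectrum R} {k : ℕ} (hh : kap' h = (m, k))
    (hk : k ≠ 0) : pw s h.1 = uC s (m, k) / dm m := by
  obtain ⟨e1, e2⟩ := pt_data hh hk
  rw [pw, uC, e1, e2, qy_cpow', ← pow_mul]
  push_cast
  rw [div_div, mul_comm (k : ℂ)]

lemma hasSum_fiber_const {A : Type*} [NormedField A] [CharZero A] (m : MaximalSpectrum R) {k : ℕ}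
    (hk : k ≠ 0) (u : A) :
    HasSum (fun _ : {h : PtsAll R // kap' h = (m, k)} => u / dm m) u := by
  have hc := card_fiber m hk
  have hfin : Finite {h : PtsAll R // kap' h = (m, k)} :=
    Nat.finite_of_card_ne_zero (by rw [hc]; exact dm_ne m)
  have := Fintype.ofFinite {h : PtsAll R // kap' h = (m, k)}
  have h3 := hasSum_fintype (fun _ : {h : PtsAll R // kap' h = (m, k)} => u / dm m)
  rw [Finset.sum_const, Finset.card_univ, ← Nat.card_eq_fintype_card, hc, nsmul_eq_mul,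
    mul_div_cancel₀] at h3
  · exact h3
  · exact_mod_cast dm_ne m

lemma hasSum_pr_fiber (σ : ℝ) (i : MaximalSpectrum R × ℕ) :
    HasSum (fun h : {h : PtsAll R // kap' h = i} => pr σ h.1.1) (uR σ i) := by
  obtain ⟨m, k⟩ := i
  by_cases hk : k = 0
  · subst hk
    have h0 : uR σ (m, 0) = 0 := by simp [uR]
    rw [h0]
    have h1 : ∀ h : {h : PtsAll R // kap' h = (m, 0)}, pr σ h.1.1 = 0 := by
      rintro ⟨h, hh⟩
      rw [pr, pt_zero hh]
      simp
    simp only [h1]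
    exact hasSum_zero
  · have h1 : ∀ h : {h : PtsAll R // kap' h = (m, k)}, pr σ h.1.1 = uR σ (m, k) / dm m :=
      fun h => pr_fiber σ h.2 hk
    simp only [h1]
    exact hasSum_fiber_const m hk _

lemma hasSum_pw_fiber (s : ℂ) (i : MaximalSpectrum R × ℕ) :
    HasSum (fun h : {h : PtsAll R // kap' h = i} => pw s h.1.1) (uC s i) := by
  obtain ⟨m, k⟩ := i
  by_cases hk : k = 0
  · subst hk
    have h0 : uC s (m, 0) = 0 := by simp [uC]
    rw [h0]
    have h1 : ∀ h : {h : PtsAll R // kap' h = (m, 0)}, pw s h.1.1 = 0 := by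
      rintro ⟨h, hh⟩
      rw [pw, pt_zero hh]
      simp
    simp only [h1]
    exact hasSum_zero
  · have h1 : ∀ h : {h : PtsAll R // kap' h = (m, k)}, pw s h.1.1 = uC s (m, k) / dm m :=
      fun h => pw_fiber s h.2 hk
    simp only [h1]
    exact hasSum_fiber_const m hk _

lemma two_le_qy' (m : MaximalSpectrum R) : (2 : ℝ) ≤ qy m := by
  exact_mod_cast two_le_qy m

lemma summable_uR {σ : ℝ} (hσ : 0 < σ)
    (h : Summable fun m : MaximalSpectrum R => (qy m : ℝ) ^ (-σ)) :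
    Summable (uR (R := R) σ) := by
  have h2 : (2 : ℝ) ^ (-σ) < 1 := Real.rpow_lt_one_of_one_lt_of_neg one_lt_two (by linarith)
  have hg : Summable fun k : ℕ => ((2 : ℝ) ^ (-σ)) ^ (k - 1) := by
    rw [← summable_nat_add_iff 1]
    simp only [Nat.add_sub_cancel]
    exact summable_geometric_of_lt_one (by positivity) h2
  have hmul := h.mul_of_nonneg hg (fun _ => by positivity) (fun _ => by positivity)
  apply Summable.of_nonneg_of_le _ _ hmul
  · intro i
    unfold uR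
    positivity
  · rintro ⟨m, k⟩
    simp only [uR]
    cases k with
    | zero => simp; positivity
    | succ k =>
      have hq : (0 : ℝ) ≤ (qy m : ℝ) ^ (-σ) := by positivity
      have hle : (qy m : ℝ) ^ (-σ) ≤ (2 : ℝ) ^ (-σ) :=
        Real.rpow_le_rpow_of_nonpos (by norm_num) (two_le_qy' m) (by linarith)
      have h1 : ((qy m : ℝ) ^ (-σ)) ^ (k + 1) / ((k + 1 : ℕ) : ℝ) ≤ ((qy m : ℝ) ^ (-σ)) ^ (k + 1) := by
        apply div_le_self (by positivity)
        push_cast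
        linarith [show (0 : ℝ) ≤ k by positivity]
      refine h1.trans ?_
      rw [pow_succ, Nat.add_sub_cancel, mul_comm]
      exact mul_le_mul_of_nonneg_left (pow_le_pow_left₀ hq hle k) hq

lemma summable_pr_pts {σ : ℝ} (hσ : 0 < σ)
    (h : Summable fun m : MaximalSpectrum R => (qy m : ℝ) ^ (-σ)) :
    Summable fun h : PtsAll R => pr σ h.1 := by
  have key : Summable (fun z : (Σ i : MaximalSpectrum R × ℕ, {h : PtsAll R // kap' h = i}) =>
      pr σ z.2.1.1) := by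
    apply (summable_sigma_of_nonneg (fun _ => pr_nonneg _ _)).2
    refine ⟨fun i => (hasSum_pr_fiber σ i).summable, ?_⟩
    have : (fun i : MaximalSpectrum R × ℕ => ∑' h : {h : PtsAll R // kap' h = i},
        pr σ h.1.1) = uR σ := by
      ext i
      exact (hasSum_pr_fiber σ i).tsum_eq
    rw [this]
    exact summable_uR hσ h
  exact (Equiv.sigmaFiberEquiv (kap' (R := R))).summable_iff.1 key

lemma summable_pw_pts {s : ℂ} (hσ : 0 < s.re)
    (h : Summable fun m : MaximalSpectrum R => (qy m : ℝ) ^ (-s.re)) :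
    Summable fun h : PtsAll R => pw s h.1 := by
  rw [← summable_norm_iff]
  simp only [norm_pw]
  exact summable_pr_pts hσ h

end zeta

section base

variable {R₀ : Type} [CommRing R₀] [Algebra.FiniteType ℤ R₀]

lemma tsum_const_hom {A : Type*} [NormedField A] (x : Nat.Primes × ℕ) (u : A) :
    ∑' _ : R₀ →+* GF x.1 x.2, u = (hN R₀ x : A) * u := by
  have := finite_hom (R := R₀) (GF x.1 x.2)
  let _ := Fintype.ofFinite (R₀ →+* GF x.1 x.2)
  rw [tsum_fintype, Finset.sum_const, Finset.card_univ, nsmul_eq_mul, hN,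
    Nat.card_eq_fintype_card]

lemma summable_hN {σ : ℝ} (hσ : 0 < σ)
    (h : Summable fun m : MaximalSpectrum R₀ => (qy m : ℝ) ^ (-σ)) :
    Summable fun x : Nat.Primes × ℕ => (hN R₀ x : ℝ) * pr σ x := by
  have h1 := summable_pr_pts hσ h
  have h2 := ((summable_sigma_of_nonneg (fun h : PtsAll R₀ => pr_nonneg σ h.1)).1 h1).2
  apply h2.congr
  intro x
  exact tsum_const_hom x (pr σ x)

lemma hasSum_uC {s : ℂ} (h1 : Summable fun h : PtsAll R₀ => pw s h.1) :
    HasSum (uC (R := R₀) s) (∑' h : PtsAll R₀, pw s h.1) := by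
  have h3 : HasSum (fun z : (Σ i : MaximalSpectrum R₀ × ℕ, {h : PtsAll R₀ // kap' h = i}) =>
      pw s z.2.1.1) (∑' h : PtsAll R₀, pw s h.1) :=
    (Equiv.sigmaFiberEquiv (kap' (R := R₀))).hasSum_iff.2 h1.hasSum
  exact h3.sigma (fun i => hasSum_pw_fiber s i)

lemma tsum_pts_pw {s : ℂ} (h1 : Summable fun h : PtsAll R₀ => pw s h.1) :
    ∑' h : PtsAll R₀, pw s h.1 = LZ R₀ s := by
  have h2 : ∑' h : PtsAll R₀, pw s h.1
      = ∑' (x : Nat.Primes × ℕ) (_ : R₀ →+* GF x.1 x.2), pw s x := h1.tsum_sigma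
  rw [h2, LZ]
  apply tsum_congr
  intro x
  exact tsum_const_hom x (pw s x)

lemma norm_qy_lt {s : ℂ} (hσ : 0 < s.re) (m : MaximalSpectrum R₀) :
    ‖(qy m : ℂ) ^ (-s)‖ < 1 := by
  rw [norm_qy]
  apply Real.rpow_lt_one_of_one_lt_of_neg
  · linarith [two_le_qy' m]
  · linarith

lemma one_sub_qy_ne {s : ℂ} (hσ : 0 < s.re) (m : MaximalSpectrum R₀) :
    1 - (qy m : ℂ) ^ (-s) ≠ 0 := by
  intro h0
  have h1 : (qy m : ℂ) ^ (-s) = 1 := by linear_combination -h0
  have h2 := norm_qy_lt hσ m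
  rw [h1, norm_one] at h2
  exact lt_irrefl _ h2

lemma hasSum_log {s : ℂ} (hσ : 0 < s.re) {L : ℂ} (h2 : HasSum (uC (R := R₀) s) L) :
    HasSum (fun m : MaximalSpectrum R₀ => -Complex.log (1 - (qy m : ℂ) ^ (-s))) L :=
  h2.prod_fiberwise (fun m => Complex.hasSum_taylorSeries_neg_log (norm_qy_lt hσ m))

/-- The Euler product of the base. -/
theorem hasProd_LZ {s : ℂ} (hσ : 0 < s.re)
    (h : Summable fun m : MaximalSpectrum R₀ => (qy m : ℝ) ^ (-s.re)) :
    HasProd (fun m : MaximalSpectrum R₀ => (1 - (qy m : ℂ) ^ (-s))⁻¹)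
      (Complex.exp (LZ R₀ s)) := by
  have h1 : Summable fun h : PtsAll R₀ => pw s h.1 := summable_pw_pts hσ h
  have h2 := hasSum_log hσ (hasSum_uC h1)
  rw [tsum_pts_pw h1] at h2
  have h6 := h2.cexp
  have h7 : (fun m : MaximalSpectrum R₀ => (1 - (qy m : ℂ) ^ (-s))⁻¹)
      = Complex.exp ∘ (fun m : MaximalSpectrum R₀ => -Complex.log (1 - (qy m : ℂ) ^ (-s))) := by
    ext m
    simp only [Function.comp_apply]
    rw [Complex.exp_neg, Complex.exp_log (one_sub_qy_ne hσ m)]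
  rw [h7]
  exact h6

end base

end Pool.Agent.Hhelper85
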