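import Mathlib
import Pool.Agent.Hhelper85.Analytic

/-!
# The base `ℤ[1/N]`
-/

set_option linter.unusedSectionVars false

namespace Pool.Agent.Hhelper85

open Filter Topology

/-- `ℤ[1/N]`. -/
abbrev ZN (N : ℕ) : Type := Localization.Away (N : ℤ)

local instance primeFact'' (p : Nat.Primes) : Fact (p : ℕ).Prime := ⟨p.2⟩

instance ft_ZN (N : ℕ) : @Algebra.FiniteType ℤ (ZN N) _ _ (Ring.toIntAlgebra _) :=
  ft_trans (A := ℤ) (B := ZN N) inferInstance inferInstance

lemma hN_ZN (N : ℕ) (x : Nat.Primes × ℕ) : hN (ZN N) x = if (x.1 : ℕ) ∣ N then 0 else 1 := by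
  have hsub : Subsingleton (ZN N →+* GF x.1 x.2) := by
    constructor
    intro f g
    apply IsLocalization.ringHom_ext (Submonoid.powers (N : ℤ))
    exact RingHom.ext_int _ _
  have hcast : ((N : ℕ) : GF x.1 x.2) = 0 ↔ (x.1 : ℕ) ∣ N := CharP.cast_eq_zero_iff _ _ _
  split_ifs with h
  · have : IsEmpty (ZN N →+* GF x.1 x.2) := by
      constructor
      intro f
      have h1 : IsUnit (algebraMap ℤ (ZN N) N) := IsLocalization.Away.algebraMap_isUnit _
      have h2 := (h1.map f).ne_zero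
      apply h2
      have h3 : f (algebraMap ℤ (ZN N) N) = ((N : ℕ) : GF x.1 x.2) := by
        rw [← RingHom.comp_apply]
        simp
      rw [h3]
      exact hcast.2 h
    exact Nat.card_of_isEmpty
  · have hu : IsUnit ((Int.castRingHom (GF x.1 x.2)) N) := by
      rw [isUnit_iff_ne_zero]
      simp only [eq_intCast, Int.cast_natCast]
      intro h0
      exact h (hcast.1 h0)
    have : Nonempty (ZN N →+* GF x.1 x.2) := ⟨IsLocalization.Away.lift (N : ℤ) hu⟩
    exact Nat.card_of_subsingleton this.some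

lemma summable_pr {σ : ℝ} (hσ : 1 < σ) : Summable fun x : Nat.Primes × ℕ => pr σ x := by
  have hinj : Function.Injective (fun x : Nat.Primes × ℕ => (x.1, x.2 + 1)) := by
    rintro ⟨p, n⟩ ⟨p', n'⟩ h
    simp only [Prod.mk.injEq, Nat.add_right_cancel_iff] at h
    exact Prod.ext h.1 h.2
  rw [← hinj.summable_iff]
  · have h1 : Summable fun n : ℕ => (n : ℝ) ^ (-σ) := Real.summable_nat_rpow.2 (by linarith)
    have h2 := h1.comp_injective
      (Subtype.val_injective.comp (Nat.Primes.prodNatEquiv).injective)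
    apply Summable.of_nonneg_of_le (fun _ => pr_nonneg _ _) _ h2
    rintro ⟨p, n⟩
    simp only [Function.comp_apply, Nat.Primes.coe_prodNatEquiv_apply, pr]
    have hp : (0 : ℝ) < (p : ℕ) := by exact_mod_cast p.2.pos
    rw [div_le_iff₀ (by positivity)]
    push_cast
    rw [← Real.rpow_natCast, ← Real.rpow_mul hp.le, mul_comm, Real.rpow_mul hp.le,
      Real.rpow_natCast]
    have hn : (1 : ℝ) ≤ (n : ℝ) + 1 := by linarith [show (0 : ℝ) ≤ n by positivity]
    apply le_mul_of_one_le_right (by positivity) hn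
  · rintro ⟨p, n⟩ hx
    cases n with
    | zero => simp [pr]
    | succ n => exact absurd ⟨(p, n), rfl⟩ hx

lemma summable_hN_ZN (N : ℕ) {σ : ℝ} (hσ : 1 < σ) :
    Summable fun x : Nat.Primes × ℕ => (hN (ZN N) x : ℝ) * pr σ x := by
  apply Summable.of_nonneg_of_le _ _ (summable_pr hσ)
  · intro x
    exact mul_nonneg (by positivity) (pr_nonneg _ _)
  · intro x
    rw [hN_ZN]
    split_ifs
    · simp [pr_nonneg]
    · simp

/-- The Euler factors at the bad primes. -/
noncomputable def PN (N : ℕ) (s : ℂ) : ℂ := ∏ p ∈ N.primeFactors, (1 - (p : ℂ) ^ (-s))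

lemma one_sub_ne {p : ℕ} (hp : 1 < p) {s : ℂ} (hs : 0 < s.re) : 1 - (p : ℂ) ^ (-s) ≠ 0 := by
  intro h
  have h1 : (p : ℂ) ^ (-s) = 1 := by linear_combination -h
  have h2 := congrArg norm h1
  rw [Complex.norm_natCast_cpow_of_pos (by omega), norm_one, Complex.neg_re] at h2
  have h3 : (p : ℝ) ^ (-s.re) < 1 :=
    Real.rpow_lt_one_of_one_lt_of_neg (by exact_mod_cast hp) (by linarith)
  linarith

lemma norm_cpow_lt {p : ℕ} (hp : 1 < p) {s : ℂ} (hs : 0 < s.re) : ‖(p : ℂ) ^ (-s)‖ < 1 := by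
  rw [Complex.norm_natCast_cpow_of_pos (by omega), Complex.neg_re]
  exact Real.rpow_lt_one_of_one_lt_of_neg (by exact_mod_cast hp) (by linarith)

lemma summable_pw {s : ℂ} (hs : 1 < s.re) : Summable fun x : Nat.Primes × ℕ => pw s x := by
  rw [← summable_norm_iff]
  simp only [norm_pw]
  exact summable_pr hs

lemma exp_LZ_ZN {N : ℕ} (hN0 : N ≠ 0) {s : ℂ} (hs : 1 < s.re) :
    Complex.exp (LZ (ZN N) s) = riemannZeta s * PN N s := by
  have hL : ∀ p : Nat.Primes, HasSum (fun n : ℕ => pw s (p, n))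
      (-Complex.log (1 - (p : ℂ) ^ (-s))) := by
    intro p
    exact Complex.hasSum_taylorSeries_neg_log (norm_cpow_lt p.2.one_lt (by linarith))
  -- the sum over everything
  have h1 : HasSum (fun p : Nat.Primes => -Complex.log (1 - (p : ℂ) ^ (-s)))
      (∑' x : Nat.Primes × ℕ, pw s x) :=
    (summable_pw hs).hasSum.prod_fiberwise hL
  have h2 : HasSum (fun p : Nat.Primes =>
      if (p : ℕ) ∣ N then 0 else -Complex.log (1 - (p : ℂ) ^ (-s))) (LZ (ZN N) s) := by
    have hsum : Summable fun x : Nat.Primes × ℕ => (hN (ZN N) x : ℂ) * pw s x := by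
      rw [← summable_norm_iff]
      simp only [norm_mul, Complex.norm_natCast, norm_pw]
      exact summable_hN_ZN N hs
    apply hsum.hasSum.prod_fiberwise
    intro p
    by_cases h : (p : ℕ) ∣ N
    · simp only [hN_ZN, h, if_true, Nat.cast_zero, zero_mul]
      exact hasSum_zero
    · simp only [hN_ZN, h, if_false, Nat.cast_one, one_mul]
      exact hL p
  have h3 : HasSum (fun p : Nat.Primes =>
      if (p : ℕ) ∣ N then -Complex.log (1 - (p : ℂ) ^ (-s)) else 0)
      (∑ p ∈ Finset.subtype Nat.Prime N.primeFactors, -Complex.log (1 - ((p : ℕ) : ℂ) ^ (-s))) := by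
    have h4 : (∑ p ∈ Finset.subtype Nat.Prime N.primeFactors,
        -Complex.log (1 - ((p : ℕ) : ℂ) ^ (-s)))
        = ∑ p ∈ Finset.subtype Nat.Prime N.primeFactors,
          if (p : ℕ) ∣ N then -Complex.log (1 - ((p : ℕ) : ℂ) ^ (-s)) else 0 := by
      apply Finset.sum_congr rfl
      intro p hp
      rw [Finset.mem_subtype] at hp
      rw [if_pos (Nat.dvd_of_mem_primeFactors hp)]
    rw [h4]
    apply hasSum_sum_of_ne_finset_zero
    intro p hp
    rw [if_neg]
    intro hdvd
    apply hp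
    exact Finset.mem_subtype.2 (Nat.mem_primeFactors.2 ⟨p.2, hdvd, hN0⟩)
  have h5 : LZ (ZN N) s = (∑' p : Nat.Primes, -Complex.log (1 - (p : ℂ) ^ (-s)))
      - ∑ p ∈ Finset.subtype Nat.Prime N.primeFactors, -Complex.log (1 - ((p : ℕ) : ℂ) ^ (-s)) := by
    have h6 := h1.sub h3
    have h7 : (fun p : Nat.Primes => -Complex.log (1 - (p : ℂ) ^ (-s))
        - if (p : ℕ) ∣ N then -Complex.log (1 - (p : ℂ) ^ (-s)) else 0)
        = fun p : Nat.Primes =>
          if (p : ℕ) ∣ N then 0 else -Complex.log (1 - (p : ℂ) ^ (-s)) := by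
      ext p
      split_ifs <;> ring
    rw [h7] at h6
    rw [h1.tsum_eq]
    exact h2.unique h6
  rw [h5, Complex.exp_sub, riemannZeta_eulerProduct_exp_log hs, div_eq_mul_inv, ← Complex.exp_neg,
    ← Finset.sum_neg_distrib, Complex.exp_sum]
  congr 1
  rw [PN, ← Finset.prod_subtype_of_mem (fun p : ℕ => 1 - (p : ℂ) ^ (-s))
    (fun p hp => Nat.prime_of_mem_primeFactors hp)]
  apply Finset.prod_congr rfl
  intro p _
  rw [neg_neg, Complex.exp_log (one_sub_ne p.2.one_lt (by linarith))]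

end Pool.Agent.Hhelper85
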