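import Mathlib

/-!
# The order of the Riemann zeta function at `1`
-/

namespace Pool.Agent.Hhelper85

open Filter Topology

/-- `(s - 1) ζ(s)`, extended to `s = 1`. -/
noncomputable def zf : ℂ → ℂ := Function.update (fun s => (s - 1) * riemannZeta s) 1 1

lemma zf_analytic : AnalyticAt ℂ zf 1 := by
  apply Complex.analyticAt_of_differentiable_on_punctured_nhds_of_continuousAt
  · filter_upwards [self_mem_nhdsWithin] with s hs
    have hs' : s ≠ 1 := hs
    have h1 : DifferentiableAt ℂ (fun s => (s - 1) * riemannZeta s) s :=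
      (differentiableAt_id.sub_const 1).mul (differentiableAt_riemannZeta hs')
    refine h1.congr_of_eventuallyEq ?_
    filter_upwards [isOpen_ne.mem_nhds hs'] with t ht
    exact Function.update_of_ne ht _ _
  · rw [zf, continuousAt_update_same]
    exact riemannZeta_residue_one

lemma zeta_eventually : ∀ᶠ s in 𝓝[≠] (1 : ℂ), riemannZeta s = (s - 1) ^ (-1 : ℤ) • zf s := by
  filter_upwards [self_mem_nhdsWithin] with s hs
  have hs' : s ≠ 1 := hs
  rw [zf, Function.update_of_ne hs', smul_eq_mul, zpow_neg_one, ← mul_assoc,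
    inv_mul_cancel₀ (sub_ne_zero.2 hs'), one_mul]

lemma meromorphicAt_zeta (s : ℂ) : MeromorphicAt riemannZeta s := by
  by_cases hs : s = 1
  · subst hs
    have h0 : MeromorphicAt (fun s : ℂ => s - 1) 1 :=
      (analyticAt_id.sub analyticAt_const).meromorphicAt
    have h : MeromorphicAt (fun s : ℂ => (s - 1) ^ (-1 : ℤ) • zf s) 1 :=
      (h0.zpow (-1)).smul zf_analytic.meromorphicAt
    exact h.congr (zeta_eventually.mono fun s hs => hs.symm)
  · apply AnalyticAt.meromorphicAt
    apply DifferentiableOn.analyticAt (s := {z : ℂ | z ≠ 1})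
    · intro z hz
      exact (differentiableAt_riemannZeta hz).differentiableWithinAt
    · exact isOpen_ne.mem_nhds hs

lemma order_zeta : meromorphicOrderAt riemannZeta 1 = (-1 : ℤ) := by
  rw [meromorphicOrderAt_eq_int_iff (meromorphicAt_zeta 1)]
  refine ⟨zf, zf_analytic, ?_, zeta_eventually⟩
  rw [zf, Function.update_self]
  exact one_ne_zero

end Pool.Agent.Hhelper85
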