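import Mathlib
import Pool.Agent.Hhelper85.TateDefs
import Pool.Agent.Hhelper85.ZN
import Pool.Agent.Hhelper85.ZetaOrd

/-!
# The continuation of the Euler product of the universal curve over `ℤ[1/N]`
-/

set_option linter.unusedSectionVars false

namespace Pool.Agent.Hhelper85

open Pool.Agent.TateBSD Filter Topology

/-- The continuation of the Euler product. -/
noncomputable def Phi (N r : ℕ) (s : ℂ) : ℂ :=
  Complex.exp (HH (ZN N) r s) * ((riemannZeta (s - (r + 2)) * PN N (s - (r + 2))) ^ r)⁻¹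

lemma PN_differentiable {N : ℕ} : Differentiable ℂ (PN N) := by
  unfold PN
  apply Differentiable.fun_finsetProd
  intro p hp
  have hp0 : (p : ℂ) ≠ 0 := by
    exact_mod_cast (Nat.prime_of_mem_primeFactors hp).ne_zero
  apply Differentiable.const_sub
  intro s
  exact (differentiableAt_id.neg).const_cpow (Or.inl hp0)

lemma PN_one_ne {N : ℕ} : PN N 1 ≠ 0 := by
  unfold PN
  rw [Finset.prod_ne_zero_iff]
  intro p hp
  exact one_sub_ne (Nat.prime_of_mem_primeFactors hp).one_lt (by simp)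

section

variable {N : ℕ} (hN : N ≠ 0) (h6 : 6 ∣ N) (r : ℕ)
include hN h6

lemma unit6 : IsUnit (6 : ZN N) := by
  obtain ⟨m, rfl⟩ := h6
  have h1 : IsUnit (algebraMap ℤ (ZN (6 * m)) ((6 * m : ℕ) : ℤ)) :=
    IsLocalization.Away.algebraMap_isUnit _
  have h2 : algebraMap ℤ (ZN (6 * m)) ((6 * m : ℕ) : ℤ) = 6 * (m : ZN (6 * m)) := by
    push_cast
    simp
  rw [h2] at h1
  exact isUnit_of_mul_isUnit_left h1

lemma analyticAt_HH {s : ℂ} (hs : (r : ℝ) + 2 < s.re) : AnalyticAt ℂ (HH (ZN N) r) s := by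
  have h1 := differentiableOn_HH (unit6 hN h6) (d := 1)
    (fun σ hσ => summable_hN_ZN N hσ) r
  apply h1.analyticAt
  apply (isOpen_lt continuous_const Complex.continuous_re).mem_nhds
  show (1 : ℝ) + r + 1 < s.re
  linarith

lemma meromorphicAt_zetaN (s : ℂ) :
    MeromorphicAt (fun s : ℂ => riemannZeta (s - (r + 2)) * PN N (s - (r + 2))) s := by
  have hg : AnalyticAt ℂ (fun s : ℂ => s - ((r : ℂ) + 2)) s := analyticAt_id.sub analyticAt_const
  have h1 : MeromorphicAt (riemannZeta ∘ fun s : ℂ => s - ((r : ℂ) + 2)) s :=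
    (meromorphicAt_zeta _).comp_analyticAt hg
  have h2 : AnalyticAt ℂ (fun s : ℂ => PN N (s - (r + 2))) s :=
    (PN_differentiable.analyticAt _).comp hg
  exact h1.mul h2.meromorphicAt

lemma meromorphicAt_Phi {s : ℂ} (hs : (r : ℝ) + 2 < s.re) : MeromorphicAt (Phi N r) s := by
  have h1 := (analyticAt_HH hN h6 r hs).cexp.meromorphicAt
  have h2 := ((meromorphicAt_zetaN hN h6 r s).pow r).inv
  exact h1.mul h2

lemma order_Phi : meromorphicOrderAt (Phi N r) (r + 3) = r := by
  have hs : (r : ℝ) + 2 < ((r : ℂ) + 3).re := by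
    simp only [Complex.add_re, Complex.natCast_re, Complex.re_ofNat]
    linarith
  have h1 := (analyticAt_HH hN h6 r hs).cexp
  have h2 := meromorphicAt_zetaN hN h6 r ((r : ℂ) + 3)
  have hg : AnalyticAt ℂ (fun s : ℂ => s - ((r : ℂ) + 2)) ((r : ℂ) + 3) :=
    analyticAt_id.sub analyticAt_const
  have e1 : ((r : ℂ) + 3) - ((r : ℂ) + 2) = 1 := by ring
  have h3 : AnalyticAt ℂ (fun s : ℂ => PN N (s - (r + 2))) ((r : ℂ) + 3) :=
    (PN_differentiable.analyticAt _).comp hg
  have h4 : meromorphicOrderAt (fun s : ℂ => riemannZeta (s - (r + 2))) ((r : ℂ) + 3)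
      = (-1 : ℤ) := by
    have := meromorphicOrderAt_comp_sub_const_eq_meromorphicOrderAt (f := riemannZeta)
      (c := (r : ℂ) + 2) (x := (r : ℂ) + 3)
    rw [e1] at this
    rw [← order_zeta, ← this]
    rfl
  have h5 : meromorphicOrderAt (fun s : ℂ => riemannZeta (s - (r + 2)) * PN N (s - (r + 2)))
      ((r : ℂ) + 3) = (-1 : ℤ) := by
    have h6 := meromorphicOrderAt_mul_of_ne_zero (f := fun s : ℂ => riemannZeta (s - (r + 2))) h3
      (by rw [e1]; exact PN_one_ne)
    rw [← h4, ← h6]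
    congr 1
    ext s
    simp only [Pi.mul_apply]
    ring
  have h7 : meromorphicOrderAt (Phi N r) (r + 3)
      = meromorphicOrderAt (((fun s : ℂ => riemannZeta (s - (r + 2)) * PN N (s - (r + 2))) ^ r)⁻¹)
        ((r : ℂ) + 3) :=
    meromorphicOrderAt_mul_of_ne_zero h1 (Complex.exp_ne_zero _)
  rw [h7, meromorphicOrderAt_inv, meromorphicOrderAt_pow h2, h5]
  norm_cast
  simp

lemma hasProd_Phi {s : ℂ} (hs : (r : ℝ) + 7 / 2 < s.re) :
    HasProd (fun m : MaximalSpectrum (universal (Localization.Away (N : ℤ)) r).R =>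
      localFactor (universal (Localization.Away (N : ℤ)) r).curve m s) (Phi N r s) := by
  have h1 := hasProd_universal (R₀ := ZN N) (unit6 hN h6) (d := 1)
    (fun σ hσ => summable_hN_ZN N hσ) zero_le_one r (s := s) (by linarith)
  have h2 : 1 < (s - ((r : ℂ) + 2)).re := by
    simp only [Complex.sub_re, Complex.add_re, Complex.natCast_re, Complex.re_ofNat]
    linarith
  have h3 : Phi N r s = Complex.exp (HH (ZN N) r s - r * LZ (ZN N) (s - (r + 2 : ℕ))) := by
    rw [Complex.exp_sub, Complex.exp_nat_mul]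
    have e : ((r + 2 : ℕ) : ℂ) = (r : ℂ) + 2 := by push_cast; ring
    rw [e, exp_LZ_ZN hN h2, Phi, div_eq_mul_inv]
  rw [h3]
  exact h1

end

section

lemma curve_map (S : CurveRing) (K : Type) [Field K] [Algebra S.R K] :
    S.curve.map (algebraMap S.R K) = EC K 0 (algebraMap S.R K S.a) (algebraMap S.R K S.b) := by
  ext <;> simp [CurveRing.curve, EC]

end

theorem universal_ZN {N : ℕ} (hN : N ≠ 0) (h6 : 6 ∣ N) (r : ℕ) :
    RankGood (universal (ZN N) r) r := by
  have hdom : IsDomain (ZN N) :=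
    IsLocalization.isDomain_localization (powers_le_nonZeroDivisors_of_noZeroDivisors
      (by exact_mod_cast hN : (N : ℤ) ≠ 0))
  exact rankGood_universal (ZN N) (six_units (unit6 hN h6)).1.ne_zero
    (six_units (unit6 hN h6)).2.ne_zero r

end Pool.Agent.Hhelper85
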