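import Mathlib
import Pool.Agent.Hhelper85.BaseZeta
import Pool.Agent.Hhelper85.UCmain

/-!
# The universal curve over an arbitrary finitely generated base
-/

set_option linter.unusedSectionVars false

namespace Pool.Agent.Hhelper85

open Pool.Agent.TateBSD Filter Topology

section

variable {R₀ : Type} [CommRing R₀] [Algebra.FiniteType ℤ R₀] (h6 : IsUnit (6 : R₀)) {d : ℝ}
  (hd0 : 0 ≤ d)
  (hd : ∀ σ : ℝ, d < σ → Summable fun m : MaximalSpectrum R₀ => (qy m : ℝ) ^ (-σ)) (r : ℕ)
include h6 hd0 hd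

lemma hd' : ∀ σ : ℝ, d < σ → Summable fun x : Nat.Primes × ℕ => (hN R₀ x : ℝ) * pr σ x :=
  fun σ hσ => summable_hN (by linarith) (hd σ hσ)

lemma rel_factor {s : ℂ} (hs : d + r + 5 / 2 < s.re) {z : ℂ}
    (hz : HasProd (fun m : MaximalSpectrum R₀ => (1 - (qy m : ℂ) ^ (-(s - (r + 2))))⁻¹) z) :
    HasProd (fun m : MaximalSpectrum (universal R₀ r).R => localFactor (universal R₀ r).curve m s)
      (Complex.exp (HH R₀ r s) * (z ^ r)⁻¹) := by
  have h1 := hasProd_universal h6 (hd' h6 hd0 hd) hd0 r hs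
  have h2 : d < (s - ((r : ℂ) + 2)).re := by
    simp only [Complex.sub_re, Complex.add_re, Complex.natCast_re, Complex.re_ofNat]
    linarith
  have h3 := hasProd_LZ (R₀ := R₀) (s := s - (r + 2)) (by linarith) (hd _ h2)
  have h4 : z = Complex.exp (LZ R₀ (s - (r + 2))) := hz.unique h3
  have h5 : Complex.exp (HH R₀ r s) * (z ^ r)⁻¹
      = Complex.exp (HH R₀ r s - r * LZ R₀ (s - (r + 2 : ℕ))) := by
    rw [Complex.exp_sub, Complex.exp_nat_mul, h4, div_eq_mul_inv]
    push_cast
    rfl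
  rw [h5]
  exact h1

lemma rel_analytic {s : ℂ} (hs : d + r + 1 < s.re) : AnalyticAt ℂ (HH R₀ r) s := by
  have h1 := differentiableOn_HH h6 (d := d) (hd' h6 hd0 hd) r
  exact h1.analyticAt ((isOpen_lt continuous_const Complex.continuous_re).mem_nhds hs)

/-- The continuation obtained from a continuation of the zeta function of the base. -/
theorem rel_continuation {ε : ℝ} (hε1 : ε ≤ 1) {Z : ℂ → ℂ}
    (hZm : MeromorphicOn Z {s : ℂ | d - ε < s.re}) (hε : 0 < ε)
    (hZ : ∀ s : ℂ, d < s.re →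
      HasProd (fun m : MaximalSpectrum R₀ => (1 - (qy m : ℂ) ^ (-s))⁻¹) (Z s)) :
    ∃ Φ : ℂ → ℂ, MeromorphicOn Φ {s : ℂ | d + r + 2 - ε < s.re} ∧
      (∀ s : ℂ, d + r + 5 / 2 < s.re →
        HasProd (fun m : MaximalSpectrum (universal R₀ r).R =>
          localFactor (universal R₀ r).curve m s) (Φ s)) ∧
      meromorphicOrderAt Φ ((d : ℂ) + r + 2) = -(r * meromorphicOrderAt Z (d : ℂ)) := by
  have hZc : ∀ s : ℂ, d + r + 2 - ε < s.re →
      MeromorphicAt (fun s : ℂ => Z (s - ((r : ℂ) + 2))) s := by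
    intro s hs
    have hg : AnalyticAt ℂ (fun s : ℂ => s - ((r : ℂ) + 2)) s := analyticAt_id.sub analyticAt_const
    have h2 : d - ε < (s - ((r : ℂ) + 2)).re := by
      simp only [Complex.sub_re, Complex.add_re, Complex.natCast_re, Complex.re_ofNat]
      linarith
    have h3 : MeromorphicAt (Z ∘ fun s : ℂ => s - ((r : ℂ) + 2)) s :=
      MeromorphicAt.comp_analyticAt (hZm _ h2) hg
    exact h3
  refine ⟨fun s => Complex.exp (HH R₀ r s) * ((Z (s - (r + 2))) ^ r)⁻¹, ?_, ?_, ?_⟩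
  · intro s hs
    have hs' : d + r + 2 - ε < s.re := hs
    have h1 := (rel_analytic h6 hd0 hd r (s := s) (by linarith)).cexp.meromorphicAt
    exact h1.mul (((hZc s hs').pow r).inv)
  · intro s hs
    apply rel_factor h6 hd0 hd r hs
    apply hZ
    simp only [Complex.sub_re, Complex.add_re, Complex.natCast_re, Complex.re_ofNat]
    linarith
  · have hre : ((d : ℂ) + r + 2).re = d + r + 2 := by simp
    have h1 := (rel_analytic h6 hd0 hd r (s := (d : ℂ) + r + 2) (by rw [hre]; linarith)).cexp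
    have h2 := hZc ((d : ℂ) + r + 2) (by rw [hre]; linarith)
    have e1 : ((d : ℂ) + r + 2) - ((r : ℂ) + 2) = d := by ring
    have h4 : meromorphicOrderAt (fun s : ℂ => Z (s - (r + 2))) ((d : ℂ) + r + 2)
        = meromorphicOrderAt Z d := by
      have := meromorphicOrderAt_comp_sub_const_eq_meromorphicOrderAt (f := Z)
        (c := (r : ℂ) + 2) (x := (d : ℂ) + r + 2)
      rw [e1] at this
      rw [← this]
      rfl
    have h7 : meromorphicOrderAt (fun s => Complex.exp (HH R₀ r s) * ((Z (s - (r + 2))) ^ r)⁻¹)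
        ((d : ℂ) + r + 2)
        = meromorphicOrderAt (((fun s : ℂ => Z (s - (r + 2))) ^ r)⁻¹) ((d : ℂ) + r + 2) :=
      meromorphicOrderAt_mul_of_ne_zero h1 (Complex.exp_ne_zero _)
    rw [h7, meromorphicOrderAt_inv, meromorphicOrderAt_pow h2, h4]

end

end Pool.Agent.Hhelper85
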